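import Pool.Agent.GAV.Def
import Pool.Agent.ELT.Def

set_option autoImplicit false

/-! Auxiliary definitions for the proof (project GAV, blueprint in the team store file `GAV_PROOF.md`). -/

open MvPolynomial

namespace GAV

open LTD

variable {g N κ : ℕ} {k : IntermediateField ℚ ℂ}

/-- The complex linear form whose real part is the `j`-th coordinate with respect to the lattice basis. -/
noncomputable def th (A : AV g N κ k) (j : Fin (2 * g)) (z : Fin g → ℂ) : ℂ :=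
  (A.ω.repr z j : ℂ) - (A.ω.repr (Complex.I • z) j : ℂ) * Complex.I

/-- The values of two linear forms in the theta functions. -/
noncomputable def lf (A : AV g N κ k) (lam : Fin 2 → Fin (N + 1) → ℂ) (z : Fin g → ℂ) : Fin 2 → ℂ :=
  fun i => ∑ j, lam i j * A.θ z j

/-- The quotient of the two linear forms takes all values in the closed unit disc, on a bounded set where the
second form is not small. -/
def Cov (A : AV g N κ k) (lam : Fin 2 → Fin (N + 1) → ℂ) : Prop :=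
  ∃ C c : ℝ, 0 < c ∧ ∀ τ : ℂ, ‖τ‖ ≤ 1 → ∃ z : Fin g → ℂ, ‖z‖ ≤ C ∧
    lf A lam z 0 = τ * lf A lam z 1 ∧ c * ‖A.θ z‖ ≤ ‖lf A lam z 1‖

/-- The point `z` has projective coordinates which are integer polynomials in `u` of size at most `δ`. -/
def Rep {ι : Type} (A : AV g N κ k) (u : ι → ℂ) (δ : ℝ) (z : Fin g → ℂ) : Prop :=
  ∃ P : Fin (N + 1) → MvPolynomial ι ℤ, (∀ j, Sz (P j) δ) ∧
    Real.exp (-δ) ≤ ‖(fun j => ev u (P j) : Fin (N + 1) → ℂ)‖ ∧ ∃ c : ℂ, ∀ j, ev u (P j) = c * A.θ z j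

/-- `Q` are the values of the two linear forms at such projective coordinates. -/
def RepX {ι : Type} (A : AV g N κ k) (lam : Fin 2 → Fin (N + 1) → ℂ) (u : ι → ℂ) (δ : ℝ)
    (z : Fin g → ℂ) (Q : Fin 2 → MvPolynomial ι ℤ) : Prop :=
  (∀ i, Sz (Q i) δ) ∧ ∃ P : Fin (N + 1) → MvPolynomial ι ℤ, (∀ j, Sz (P j) δ) ∧
    Real.exp (-δ) ≤ ‖(fun j => ev u (P j) : Fin (N + 1) → ℂ)‖ ∧
    ∃ c : ℂ, (∀ j, ev u (P j) = c * A.θ z j) ∧ ∀ i, ev u (Q i) = c * lf A lam z i

/-- The normalised absolute value of the form `Pf` at the point `z`. -/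
noncomputable def Nf (A : AV g N κ k) (lam : Fin 2 → Fin (N + 1) → ℂ) (d D : ℕ)
    (p : (Fin d → Fin D) → ℤ) (z : Fin d → Fin g → ℂ) : ℝ :=
  ‖ELT.Pf d D (fun l => (p l : ℂ)) fun i => lf A lam (z i)‖ / ∏ i, ‖A.θ (z i)‖ ^ (D - 1)

/-- No small frequencies. -/
def NR (A : AV g N κ k) {d : ℕ} (x : Fin d → Fin g → ℂ) (H : ℕ) (η : ℝ) : Prop :=
  ∀ a : Fin d → Fin (2 * g) → ℤ, a ≠ 0 → (∀ i j, |a i j| ≤ (H : ℤ)) →
    η ≤ ‖∑ i, ∑ j, (a i j : ℂ) * th A j (x i)‖

/-- The transcendence degree of `F(R)` over `F`, for finite `R`. -/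
noncomputable def rk (F : IntermediateField ℚ ℂ) (R : Set ℂ) : ℕ :=
  Cardinal.toNat (Algebra.trdeg F (IntermediateField.adjoin F R))

/-- The inverse image in `ℂ^g` of the locus of the point `v` over `F`. -/
def AV.V (A : AV g N κ k) (F : IntermediateField ℚ ℂ) (v : Fin g → ℂ) : Set (Fin g → ℂ) :=
  {z | ∀ (f : MvPolynomial (Fin (N + 1)) F) (n : ℕ), f.IsHomogeneous n →
    aeval (A.θ v) f = 0 → aeval (A.θ z) f = 0}

/-- The point with integer coordinates `a` with respect to the basis `w`, translated by `r`. -/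
def pt {g D : ℕ} (r : Fin g → ℂ) (w : Fin D → ℂ) (a : Fin g → Fin D → ℤ) : Fin g → ℂ :=
  fun i => r i + ∑ j, ((a i j : ℤ) : ℂ) * w j

end GAV
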