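import Pool.Agent.GAV.Z3

set_option autoImplicit false

open LTD MvPolynomial

namespace GAV

/-! ## [GAV-Z4] the locus of a pair of independent points is the product (file Z4.lean)

`f = ∑_m coeff_m f · X^{m|σ} Y^{m|τ}`. Let `I` be the finite set of the exponents `α : σ →₀ ℕ` occurring, `h_α = X^α`, `G_α ∈ F[Y]` with `f = ∑_{α ∈ I} X^α G_α(Y)` (e.g. via `MvPolynomial.sumAlgEquiv`, or directly `G_α = ∑_{m ∈ supp, m|σ = α} coeff_m Y^{m|τ}`). The numbers `P^α`, `α ∈ I`, span a finite-dimensional `F`-space in `ℂ`, with a basis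
`b_j = P^{α_j}`, `j < n`, chosen among them (`exists_linearIndependent'` or `Submodule.exists_..`), `P^α = ∑_j c_{αj} b_j`, `c_{αj} ∈ F`. `0 = f(P, Q) = ∑_α P^α G_α(Q) = ∑_j b_j (∑_α c_{αj} G_α(Q))`. The numbers `b_j` are in `E`, `∑_α c_{αj} G_α(Q) ∈ F(Q)`, so by `lin_disj` (`S = range Q`) all are `0`: the polynomial
`∑_α c_{αj} G_α ∈ F[Y]` vanishes at `Q`, so at `q` (`hq`). Also `X^α - ∑_j c_{αj} X^{α_j} ∈ F[X]` vanishes at `P`, so at `p` (`hp`): `p^α = ∑_j c_{αj} p^{α_j}`. So `f(p, q) = ∑_α p^α G_α(q) = ∑_j p^{α_j} ∑_α c_{αj} G_α(q) = 0`. -/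

theorem Z4_expand (F : IntermediateField ℚ ℂ) {σ τ : Type} [Fintype σ] (P : σ → ℂ) (Q : τ → ℂ)
    (f : MvPolynomial (σ ⊕ τ) F) :
    aeval (Sum.elim P Q) f =
      ∑ α ∈ (sumAlgEquiv F σ τ f).support,
        aeval Q (coeff α (sumAlgEquiv F σ τ f)) * ∏ i, P i ^ α i := by
  have h1 : ∀ g : MvPolynomial σ (MvPolynomial τ F),
      ∑ α ∈ g.support, aeval Q (coeff α g) * ∏ i, P i ^ α i =
        eval₂ ((aeval Q : MvPolynomial τ F →ₐ[F] ℂ) : MvPolynomial τ F →+* ℂ) P g := by
    intro g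
    rw [eval₂_eq']
    rfl
  rw [h1]
  induction f using MvPolynomial.induction_on with
  | C a =>
    rw [sumAlgEquiv_C_inl, eval₂_C]
    simp
  | add x y hx hy => rw [map_add, map_add, eval₂_add, hx, hy]
  | mul_X x i hx =>
    rw [map_mul, map_mul, eval₂_mul, hx]
    congr 1
    rcases i with i | i
    · rw [sumAlgEquiv_X_inl, eval₂_X]
      simp
    · rw [sumAlgEquiv_X_inr, eval₂_C]
      simp

theorem Z4_mem (F : IntermediateField ℚ ℂ) {τ : Type} (Q : τ → ℂ) (R : MvPolynomial τ F) :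
    aeval Q R ∈ IntermediateField.adjoin F (Set.range Q) := by
  have h1 : aeval Q R ∈ Algebra.adjoin F (Set.range Q) := by
    rw [Algebra.adjoin_range_eq_range_aeval]
    exact ⟨R, rfl⟩
  exact IntermediateField.algebra_adjoin_le_adjoin F _ h1

theorem pl2 (F E : IntermediateField ℚ ℂ) (hF : Clo F) (hFE : F ≤ E) {σ τ : Type} [Fintype σ]
    [Fintype τ] (P : σ → ℂ) (Q : τ → ℂ) (hP : ∀ i, P i ∈ E)
    (h : rk F (Set.range Q) ≤ rk E (Set.range Q)) (f : MvPolynomial (σ ⊕ τ) F)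
    (hf : aeval (Sum.elim P Q) f = 0) (p : σ → ℂ) (q : τ → ℂ)
    (hp : ∀ h : MvPolynomial σ F, aeval P h = 0 → aeval p h = 0)
    (hq : ∀ h : MvPolynomial τ F, aeval Q h = 0 → aeval q h = 0) :
    aeval (Sum.elim p q) f = 0 := by
  classical
  set g := sumAlgEquiv F σ τ f with hg
  let I : Type := {α : σ →₀ ℕ // α ∈ g.support}
  let v : I → ℂ := fun α => ∏ i, P i ^ α.1 i
  obtain ⟨κ, a, ha, hspan, hli⟩ := exists_linearIndependent' F v
  have : Finite κ := Finite.of_injective a ha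
  obtain ⟨n, ⟨e⟩⟩ := Finite.exists_equiv_fin κ
  let b : Fin n → ℂ := fun j => v (a (e.symm j))
  have hbli : LinearIndependent F b := hli.comp e.symm e.symm.injective
  have hrange : Set.range b = Set.range (v ∘ a) := by
    have : b = (v ∘ a) ∘ e.symm := rfl
    rw [this, Set.range_comp, Set.range_eq_univ.2 e.symm.surjective, Set.image_univ]
  have hc : ∀ α : I, ∃ c : Fin n → F, ∑ j, c j • b j = v α := by
    intro α
    have h1 : v α ∈ Submodule.span F (Set.range b) := by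
      rw [hrange, hspan]
      exact Submodule.subset_span ⟨α, rfl⟩
    exact (Submodule.mem_span_range_iff_exists_fun F).1 h1
  choose c hc using hc
  let R : Fin n → MvPolynomial τ F := fun j => ∑ α : I, C (c α j) * coeff α.1 g
  have hR : ∀ (j : Fin n) (q' : τ → ℂ), aeval q' (R j) =
      ∑ α : I, ((c α j : F) : ℂ) * aeval q' (coeff α.1 g) := by
    intro j q'
    simp only [R, map_sum, map_mul, aeval_C]
    rfl
  have hex : ∀ (p' : σ → ℂ) (q' : τ → ℂ),
      (∀ α : I, ∏ i, p' i ^ α.1 i = ∑ j, ((c α j : F) : ℂ) * ∏ i, p' i ^ (a (e.symm j)).1 i) →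
      aeval (Sum.elim p' q') f = ∑ j, (∏ i, p' i ^ (a (e.symm j)).1 i) * aeval q' (R j) := by
    intro p' q' h1
    rw [Z4_expand, ← hg]
    have h2 : ∑ α ∈ g.support, aeval q' (coeff α g) * ∏ i, p' i ^ α i =
        ∑ α : I, aeval q' (coeff α.1 g) * ∏ i, p' i ^ α.1 i :=
      (Finset.sum_coe_sort g.support fun α => aeval q' (coeff α g) * ∏ i, p' i ^ α i).symm
    rw [h2]
    simp only [hR]
    calc ∑ α : I, aeval q' (coeff α.1 g) * ∏ i, p' i ^ α.1 i
        = ∑ α : I, ∑ j, (∏ i, p' i ^ (a (e.symm j)).1 i) *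
            (((c α j : F) : ℂ) * aeval q' (coeff α.1 g)) := by
          refine Finset.sum_congr rfl fun α _ => ?_
          rw [h1 α, Finset.mul_sum]
          exact Finset.sum_congr rfl fun j _ => by ring
      _ = _ := by
          rw [Finset.sum_comm]
          exact Finset.sum_congr rfl fun j _ => by rw [Finset.mul_sum]
  have hcP : ∀ α : I, ∏ i, P i ^ α.1 i =
      ∑ j, ((c α j : F) : ℂ) * ∏ i, P i ^ (a (e.symm j)).1 i := by
    intro α
    have h1 := (hc α).symm
    simpa [v, b, Algebra.smul_def] using h1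
  have hE : ∀ j, b j ∈ E := fun j => prod_mem fun i _ => pow_mem (hP i) _
  have hzero := lin_disj F E hF hFE (Set.range Q) (Set.finite_range Q) h n b
    (fun j => aeval Q (R j)) hE
    (fun j => isAlgebraic_algebraMap
      (⟨aeval Q (R j), Z4_mem F Q (R j)⟩ : IntermediateField.adjoin F (Set.range Q)))
    hbli (by
      have h1 := hex P Q hcP
      rw [hf] at h1
      exact h1.symm)
  have hq0 : ∀ j, aeval q (R j) = 0 := fun j => hq _ (hzero j)
  have hcp : ∀ α : I, ∏ i, p i ^ α.1 i =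
      ∑ j, ((c α j : F) : ℂ) * ∏ i, p i ^ (a (e.symm j)).1 i := by
    intro α
    have h2 : ∀ p' : σ → ℂ, aeval p' (monomial α.1 (1 : F) -
        ∑ j, monomial (a (e.symm j)).1 (c α j)) = ∏ i, p' i ^ α.1 i -
          ∑ j, ((c α j : F) : ℂ) * ∏ i, p' i ^ (a (e.symm j)).1 i := by
      intro p'
      rw [map_sub, map_sum, aeval_monomial, map_one, one_mul,
        Finsupp.prod_fintype _ _ (fun i => pow_zero _)]
      congr 1
      refine Finset.sum_congr rfl fun j _ => ?_
      rw [aeval_monomial, Finsupp.prod_fintype _ _ (fun i => pow_zero _)]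
      rfl
    have h3 := hp _ ((h2 P).trans (sub_eq_zero.2 (hcP α)))
    rw [h2 p] at h3
    exact sub_eq_zero.1 h3
  rw [hex p q hcp]
  exact Finset.sum_eq_zero fun j _ => by rw [hq0 j, mul_zero]

end GAV
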