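import Pool.Agent.GAV.Z0
import Pool.Agent.GAV.Z4
import Pool.Agent.GAV.Def2

set_option autoImplicit false

open LTD MvPolynomial

namespace GAV

variable {g N κ : ℕ} {k : IntermediateField ℚ ℂ}

/-! ## [GAV-Z5] three independent points: cones (file Z5.lean)

`rat_finite`: `Set.range` over a finite type. `cone`: `h = ∑_e h_e` homogeneous components (`MvPolynomial.sum_homogeneousComponent`), `P_j = θ_j(v)/θ_b(v) ∈ L = IntermediateField.adjoin F (A.rat v)`, `0 = h(sP) = ∑_e s^e h_e(P)` with `h_e(P) ∈ L`, and `s` is transcendental over `L`, so all `h_e(P) = 0`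
(`Polynomial` over `L` with these coefficients vanishes at `s`); `h_e(θ v) = θ_b(v)^e h_e(P) = 0`, so `h_e(θ z) = 0` by `z ∈ A.V F v`; sum up.
`pl3`: choose `b_i` with `θ_{b_i}(v_i) ≠ 0` and `s_0, s_1, s_2` algebraically independent over `F' = ` the algebraic closure of `F(⋃ rat(v_i))` (`fresh` for `F'`, `LTD.clo_adjoin` for a finite enumeration of the generators). `Q_i = s_i • θ(v_i)/θ_{b_i}(v_i)`. The set `range Q_i` contains `s_i`, and `F(range Q_i) = F(s_i, rat v_i)`.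
Ranks (`rk_add, rk_mono, rk_field`): `rk F (range Q_i) ≤ rk F (rat v_i) + 1` and `rk F (range Q_0 ∪ range Q_1 ∪ range Q_2) = rk F (⋃ rat v_i) + 3 ≥ ∑ (rk F (rat v_i) + 1)` (first the rats, then the `s_i` over `F'`, with `le_rk`). With `E₀` = algebraic closure of `F(Q_0)`, `E₁` = algebraic closure of `F(Q_0, Q_1)`:
`rk F (Q_0 ∪ Q_1 ∪ Q_2) = rk F Q_0 + rk E₀ Q_1 + rk E₁ Q_2`, each term at most `rk F (Q_i)` (`rk_field`), so all are equal: `rk F (Q_1) ≤ rk E₀ (Q_1)`, `rk F (Q_2) ≤ rk E₁ (Q_2)`.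
The polynomial `f` vanishes at `(Q_0, Q_1, Q_2)` by `hf` with the scalars `s_i/θ_{b_i}(v_i)`. Apply `pl2` to the pair `((Q_0, Q_1), Q_2)` (reassociate the variables: `Sum` types, `MvPolynomial.rename`), where the condition `hp` for the pair `(Q_0, Q_1)` and the point `(θ z_0, θ z_1)` is `pl2` again (with `E₀`), and the conditions for the single
points are `cone` (`s_i` is transcendental over `F(rat v_i)`). -/

theorem rat_finite (A : AV g N κ k) (z : Fin g → ℂ) : (A.rat z).Finite :=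
  Set.finite_range _

theorem Z5_hom {F : IntermediateField ℚ ℂ} (h : MvPolynomial (Fin (N + 1)) F) (e : ℕ)
    (hh : h.IsHomogeneous e) (s : ℂ) (x : Fin (N + 1) → ℂ) :
    aeval (fun j => s * x j) h = s ^ e * aeval x h := by
  rw [aeval_def, aeval_def, eval₂_eq', eval₂_eq', Finset.mul_sum]
  refine Finset.sum_congr rfl fun d hd => ?_
  have h1 : ∑ i, d i = e := by
    have h2 := hh (mem_support_iff.1 hd)
    rw [← h2, Finsupp.weight_apply, Finsupp.sum_fintype _ _ (fun i => by simp)]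
    simp
  simp only [mul_pow]
  rw [Finset.prod_mul_distrib, Finset.prod_pow_eq_pow_sum, h1]
  ring

theorem Z5_mem (F : IntermediateField ℚ ℂ) {τ : Type} (S : Set ℂ) (x : τ → ℂ)
    (hx : ∀ j, x j ∈ IntermediateField.adjoin F S) (R : MvPolynomial τ F) :
    aeval x R ∈ IntermediateField.adjoin F S := by
  have h1 : aeval x R ∈ Algebra.adjoin F (Set.range x) := by
    rw [Algebra.adjoin_range_eq_range_aeval]
    exact ⟨R, rfl⟩
  have h2 : Algebra.adjoin F (Set.range x) ≤ (IntermediateField.adjoin F S).toSubalgebra := by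
    rw [Algebra.adjoin_le_iff]
    rintro _ ⟨j, rfl⟩
    exact hx j
  exact h2 h1

theorem cone (A : AV g N κ k) (F : IntermediateField ℚ ℂ) (v : Fin g → ℂ) (b : Fin (N + 1))
    (hb : A.θ v b ≠ 0) (s : ℂ) (hs : ¬ IsAlgebraic (IntermediateField.adjoin F (A.rat v)) s)
    (z : Fin g → ℂ) (hz : z ∈ A.V F v) (h : MvPolynomial (Fin (N + 1)) F)
    (h0 : aeval (fun j => s * (A.θ v j / A.θ v b)) h = 0) : aeval (A.θ z) h = 0 := by
  set L := IntermediateField.adjoin F (A.rat v) with hL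
  set x : Fin (N + 1) → ℂ := fun j => A.θ v j / A.θ v b with hx
  have hxL : ∀ j, x j ∈ L := fun j => IntermediateField.subset_adjoin F _ ⟨(j, b), rfl⟩
  let m := h.totalDegree + 1
  have hsum : ∑ e ∈ Finset.range m, homogeneousComponent e h = h := sum_homogeneousComponent h
  let q : Polynomial L := ∑ e ∈ Finset.range m,
    Polynomial.monomial e (⟨aeval x (homogeneousComponent e h), Z5_mem F _ x hxL _⟩ : L)
  have hq : Polynomial.aeval s q = 0 := by
    have h1 : Polynomial.aeval s q = ∑ e ∈ Finset.range m,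
        s ^ e * aeval x (homogeneousComponent e h) := by
      simp only [q, map_sum, Polynomial.aeval_monomial]
      exact Finset.sum_congr rfl fun e _ => mul_comm _ _
    rw [h1, ← h0]
    conv_rhs => rw [← hsum, map_sum]
    exact Finset.sum_congr rfl fun e _ =>
      (Z5_hom _ e (homogeneousComponent_isHomogeneous e h) s x).symm
  have hq0 : q = 0 := by
    by_contra h1
    exact hs ⟨q, h1, hq⟩
  have hcoef : ∀ e ∈ Finset.range m, aeval x (homogeneousComponent e h) = 0 := by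
    intro e he
    have h1 : q.coeff e = ⟨aeval x (homogeneousComponent e h), Z5_mem F _ x hxL _⟩ := by
      simp only [q, Polynomial.finsetSum_coeff, Polynomial.coeff_monomial]
      rw [Finset.sum_eq_single_of_mem e he]
      · simp
      · intro e' _ hne
        rw [if_neg hne]
    rw [hq0, Polynomial.coeff_zero] at h1
    exact (congrArg Subtype.val h1).symm
  rw [← hsum, map_sum]
  refine Finset.sum_eq_zero fun e he => ?_
  refine hz _ e (homogeneousComponent_isHomogeneous e h) ?_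
  have h1 : A.θ v = fun j => A.θ v b * x j := by
    funext j
    simp only [hx]
    field_simp
  rw [h1, Z5_hom _ e (homogeneousComponent_isHomogeneous e h), hcoef e he, mul_zero]

theorem Z5_clo (F : IntermediateField ℚ ℂ) (t : ℕ) (ht : Algebra.trdeg ℚ F ≤ (t : Cardinal))
    (R : Set ℂ) (hR : R.Finite) : ∃ (F' : IntermediateField ℚ ℂ) (t' : ℕ), F ≤ F' ∧ Clo F' ∧
      Algebra.trdeg ℚ F' ≤ (t' : Cardinal) ∧
      ∀ z : ℂ, z ∈ F' ↔ IsAlgebraic (IntermediateField.adjoin F R) z := by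
  obtain ⟨n, u, -, hu⟩ := hR.fin_param
  obtain ⟨F', hle, hclo, htr, hmem⟩ := clo_adjoin F t n ht u
  rw [hu] at hmem
  exact ⟨F', t + n, hle, hclo, htr, hmem⟩

theorem Z5_alg_mono (F : IntermediateField ℚ ℂ) (R R' : Set ℂ)
    (h : IntermediateField.adjoin F R ≤ IntermediateField.adjoin F R') (z : ℂ)
    (hz : IsAlgebraic (IntermediateField.adjoin F R) z) :
    IsAlgebraic (IntermediateField.adjoin F R') z := by
  let _ : Algebra (IntermediateField.adjoin F R) (IntermediateField.adjoin F R') :=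
    (IntermediateField.inclusion h).toRingHom.toAlgebra
  have _ : IsScalarTower (IntermediateField.adjoin F R) (IntermediateField.adjoin F R') ℂ :=
    IsScalarTower.of_algebraMap_eq (fun _ => rfl)
  exact hz.tower_top _

theorem Z5_alg_mem (F : IntermediateField ℚ ℂ) (R : Set ℂ) (z : ℂ)
    (hz : z ∈ IntermediateField.adjoin F R) : IsAlgebraic (IntermediateField.adjoin F R) z :=
  isAlgebraic_algebraMap (⟨z, hz⟩ : IntermediateField.adjoin F R)

/-- the rank of the multiplied point -/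
theorem Z5_rk_le (A : AV g N κ k) (F : IntermediateField ℚ ℂ) (t : ℕ)
    (ht : Algebra.trdeg ℚ F ≤ (t : Cardinal)) (v : Fin g → ℂ) (b : Fin (N + 1)) (s : ℂ) :
    rk F (Set.range fun j => s * (A.θ v j / A.θ v b)) ≤ rk F (A.rat v) + 1 := by
  obtain ⟨F', t', hle, hclo, htr, hmem⟩ := Z5_clo F t ht (A.rat v) (rat_finite A v)
  have h1 := rk_add F F' hle (A.rat v) {s} (rat_finite A v) (Set.finite_singleton s) hmem
  have h2 : rk F' {s} ≤ 1 := by
    refine rk_le F' 1 (fun _ => s) {s} ?_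
    intro z hz
    refine Z5_alg_mem F' _ z (IntermediateField.subset_adjoin F' _ ?_)
    exact ⟨0, (Set.mem_singleton_iff.1 hz).symm⟩
  have h3 : rk F (Set.range fun j => s * (A.θ v j / A.θ v b)) ≤ rk F (A.rat v ∪ {s}) := by
    refine rk_mono F _ _ (Set.finite_range _) ((rat_finite A v).union (Set.finite_singleton s)) ?_
    rintro _ ⟨j, rfl⟩
    refine Z5_alg_mem F _ _ (mul_mem ?_ ?_)
    · exact IntermediateField.subset_adjoin F _ (Or.inr rfl)
    · exact IntermediateField.subset_adjoin F _ (Or.inl ⟨(j, b), rfl⟩)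
  omega

/-- the quotients and the scalar are in the field of the multiplied point -/
theorem Z5_sub (A : AV g N κ k) (F : IntermediateField ℚ ℂ) (v : Fin g → ℂ) (b : Fin (N + 1))
    (hb : A.θ v b ≠ 0) (s : ℂ) (hs : s ≠ 0) (S : Set ℂ)
    (hS : (Set.range fun j => s * (A.θ v j / A.θ v b)) ⊆ S) :
    (∀ z ∈ A.rat v, z ∈ IntermediateField.adjoin F S) ∧ s ∈ IntermediateField.adjoin F S := by
  have h1 : ∀ j, s * (A.θ v j / A.θ v b) ∈ IntermediateField.adjoin F S := fun j =>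
    IntermediateField.subset_adjoin F _ (hS ⟨j, rfl⟩)
  constructor
  · rintro _ ⟨⟨i, j⟩, rfl⟩
    have h2 : A.θ v i / A.θ v j = (s * (A.θ v i / A.θ v b)) / (s * (A.θ v j / A.θ v b)) := by
      by_cases hj : A.θ v j = 0
      · simp [hj]
      · field_simp
    show A.θ v i / A.θ v j ∈ _
    rw [h2]
    exact div_mem (h1 i) (h1 j)
  · have h2 := h1 b
    rwa [div_self hb, mul_one] at h2

theorem pl3 (A : AV g N κ k) (F : IntermediateField ℚ ℂ) (hF : Clo F) (t : ℕ)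
    (ht : Algebra.trdeg ℚ F ≤ (t : Cardinal)) (v₀ v₁ v₂ : Fin g → ℂ)
    (h : rk F (A.rat v₀) + rk F (A.rat v₁) + rk F (A.rat v₂) ≤
      rk F (A.rat v₀ ∪ A.rat v₁ ∪ A.rat v₂)) (z₀ z₁ z₂ : Fin g → ℂ)
    (h₀ : z₀ ∈ A.V F v₀) (h₁ : z₁ ∈ A.V F v₁) (h₂ : z₂ ∈ A.V F v₂)
    (f : MvPolynomial (Fin (N + 1) ⊕ (Fin (N + 1) ⊕ Fin (N + 1))) F)
    (hf : ∀ s₀ s₁ s₂ : ℂ, aeval (Sum.elim (s₀ • A.θ v₀) (Sum.elim (s₁ • A.θ v₁) (s₂ • A.θ v₂))) f = 0) :
    aeval (Sum.elim (A.θ z₀) (Sum.elim (A.θ z₁) (A.θ z₂))) f = 0 := by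
  obtain ⟨b₀, hb₀⟩ := Function.ne_iff.1 (A.ne v₀)
  obtain ⟨b₁, hb₁⟩ := Function.ne_iff.1 (A.ne v₁)
  obtain ⟨b₂, hb₂⟩ := Function.ne_iff.1 (A.ne v₂)
  simp only [Pi.zero_apply] at hb₀ hb₁ hb₂
  have hRf : (A.rat v₀ ∪ A.rat v₁ ∪ A.rat v₂).Finite :=
    ((rat_finite A v₀).union (rat_finite A v₁)).union (rat_finite A v₂)
  obtain ⟨F', t', hle', hclo', htr', hmem'⟩ := Z5_clo F t ht _ hRf
  obtain ⟨y, hy, -⟩ := fresh F' t' htr' ∅ Set.countable_empty 3
  have htrans : ∀ i, ¬ IsAlgebraic F' (y i) := fun i => hy.transcendental i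
  have hns : ∀ i, y i ≠ 0 := by
    intro i hi
    exact htrans i (hi ▸ isAlgebraic_zero)
  have hnalg : ∀ (i : Fin 3) (R : Set ℂ), R ⊆ A.rat v₀ ∪ A.rat v₁ ∪ A.rat v₂ →
      ¬ IsAlgebraic (IntermediateField.adjoin F R) (y i) := by
    intro i R hR hal
    have h1 := Z5_alg_mono F R _ (IntermediateField.adjoin.mono F R _ hR) _ hal
    rw [← hmem'] at h1
    exact htrans i (isAlgebraic_algebraMap (⟨y i, h1⟩ : F'))
  set Q₀ : Fin (N + 1) → ℂ := fun j => y 0 * (A.θ v₀ j / A.θ v₀ b₀) with hQ₀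
  set Q₁ : Fin (N + 1) → ℂ := fun j => y 1 * (A.θ v₁ j / A.θ v₁ b₁) with hQ₁
  set Q₂ : Fin (N + 1) → ℂ := fun j => y 2 * (A.θ v₂ j / A.θ v₂ b₂) with hQ₂
  have hr0 : rk F (Set.range Q₀) ≤ rk F (A.rat v₀) + 1 := Z5_rk_le A F t ht v₀ b₀ (y 0)
  have hr1 : rk F (Set.range Q₁) ≤ rk F (A.rat v₁) + 1 := Z5_rk_le A F t ht v₁ b₁ (y 1)
  have hr2 : rk F (Set.range Q₂) ≤ rk F (A.rat v₂) + 1 := Z5_rk_le A F t ht v₂ b₂ (y 2)
  have hSf : (Set.range Q₀ ∪ (Set.range Q₁ ∪ Set.range Q₂)).Finite :=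
    (Set.finite_range _).union ((Set.finite_range _).union (Set.finite_range _))
  -- the lower bound
  have hlow : rk F (A.rat v₀ ∪ A.rat v₁ ∪ A.rat v₂) + 3 ≤
      rk F (Set.range Q₀ ∪ (Set.range Q₁ ∪ Set.range Q₂)) := by
    have h1 := rk_add F F' hle' _ (Set.range y) hRf (Set.finite_range y) hmem'
    have h2 : 3 ≤ rk F' (Set.range y) := by
      refine le_rk F' 3 y _ (Set.finite_range y) hy ?_
      intro i
      exact Z5_alg_mem F' _ _ (IntermediateField.subset_adjoin F' _ ⟨i, rfl⟩)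
    have hs0 := Z5_sub A F v₀ b₀ hb₀ (y 0) (hns 0)
      (Set.range Q₀ ∪ (Set.range Q₁ ∪ Set.range Q₂)) Set.subset_union_left
    have hs1 := Z5_sub A F v₁ b₁ hb₁ (y 1) (hns 1)
      (Set.range Q₀ ∪ (Set.range Q₁ ∪ Set.range Q₂))
      (Set.subset_union_left.trans Set.subset_union_right)
    have hs2 := Z5_sub A F v₂ b₂ hb₂ (y 2) (hns 2)
      (Set.range Q₀ ∪ (Set.range Q₁ ∪ Set.range Q₂))
      (Set.subset_union_right.trans Set.subset_union_right)
    have h3 : rk F (A.rat v₀ ∪ A.rat v₁ ∪ A.rat v₂ ∪ Set.range y) ≤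
        rk F (Set.range Q₀ ∪ (Set.range Q₁ ∪ Set.range Q₂)) := by
      refine rk_mono F _ _ (hRf.union (Set.finite_range y)) hSf ?_
      rintro z (((hz | hz) | hz) | ⟨i, rfl⟩)
      · exact Z5_alg_mem F _ _ (hs0.1 z hz)
      · exact Z5_alg_mem F _ _ (hs1.1 z hz)
      · exact Z5_alg_mem F _ _ (hs2.1 z hz)
      · refine Z5_alg_mem F _ _ ?_
        fin_cases i
        · exact hs0.2
        · exact hs1.2
        · exact hs2.2
    omega
  obtain ⟨E₀, t₀, hle₀, hclo₀, htr₀, hmem₀⟩ := Z5_clo F t ht (Set.range Q₀) (Set.finite_range _)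
  obtain ⟨E₁, t₁, hle₁, hclo₁, htr₁, hmem₁⟩ :=
    Z5_clo E₀ t₀ htr₀ (Set.range Q₁) (Set.finite_range _)
  have ha0 := rk_add F E₀ hle₀ (Set.range Q₀) (Set.range Q₁ ∪ Set.range Q₂) (Set.finite_range _)
    ((Set.finite_range _).union (Set.finite_range _)) hmem₀
  have ha1 := rk_add E₀ E₁ hle₁ (Set.range Q₁) (Set.range Q₂) (Set.finite_range _)
    (Set.finite_range _) hmem₁
  have hf1 := rk_field F E₀ hle₀ (Set.range Q₁) (Set.finite_range _)
  have hf2 := rk_field F E₁ (hle₀.trans hle₁) (Set.range Q₂) (Set.finite_range _)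
  have hi1 : rk F (Set.range Q₁) ≤ rk E₀ (Set.range Q₁) := by omega
  have hi2 : rk F (Set.range Q₂) ≤ rk E₁ (Set.range Q₂) := by omega
  have hQE₀ : ∀ j, Q₀ j ∈ E₀ := fun j =>
    (hmem₀ _).2 (Z5_alg_mem F _ _ (IntermediateField.subset_adjoin F _ ⟨j, rfl⟩))
  have hQE₁ : ∀ j, Q₁ j ∈ E₁ := fun j =>
    (hmem₁ _).2 (Z5_alg_mem E₀ _ _ (IntermediateField.subset_adjoin E₀ _ ⟨j, rfl⟩))
  have hfQ : aeval (Sum.elim Q₀ (Sum.elim Q₁ Q₂)) f = 0 := by
    have h1 := hf (y 0 / A.θ v₀ b₀) (y 1 / A.θ v₁ b₁) (y 2 / A.θ v₂ b₂)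
    have e0 : (y 0 / A.θ v₀ b₀) • A.θ v₀ = Q₀ := by
      funext j
      simp only [Pi.smul_apply, smul_eq_mul, hQ₀]
      ring
    have e1 : (y 1 / A.θ v₁ b₁) • A.θ v₁ = Q₁ := by
      funext j
      simp only [Pi.smul_apply, smul_eq_mul, hQ₁]
      ring
    have e2 : (y 2 / A.θ v₂ b₂) • A.θ v₂ = Q₂ := by
      funext j
      simp only [Pi.smul_apply, smul_eq_mul, hQ₂]
      ring
    rwa [e0, e1, e2] at h1
  -- reassociate
  have hre : ∀ x₀ x₁ x₂ : Fin (N + 1) → ℂ,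
      aeval (Sum.elim (Sum.elim x₀ x₁) x₂)
        (rename (Equiv.sumAssoc (Fin (N + 1)) (Fin (N + 1)) (Fin (N + 1))).symm f) =
        aeval (Sum.elim x₀ (Sum.elim x₁ x₂)) f := by
    intro x₀ x₁ x₂
    rw [aeval_rename]
    congr 2
    funext i
    rcases i with i | i | i <;> rfl
  rw [← hre]
  refine pl2 F E₁ hF (hle₀.trans hle₁) (Sum.elim Q₀ Q₁) Q₂ ?_ hi2 _ (by rw [hre]; exact hfQ)
    _ _ ?_ ?_
  · rintro (i | i)
    · exact hle₁ (hQE₀ i)
    · exact hQE₁ i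
  · intro h' hh'
    refine pl2 F E₀ hF hle₀ Q₀ Q₁ hQE₀ hi1 h' hh' _ _ ?_ ?_
    · intro h'' hh''
      exact cone A F v₀ b₀ hb₀ (y 0)
        (hnalg 0 _ (Set.subset_union_left.trans Set.subset_union_left)) z₀ h₀ h'' hh''
    · intro h'' hh''
      exact cone A F v₁ b₁ hb₁ (y 1)
        (hnalg 1 _ (Set.subset_union_right.trans Set.subset_union_left)) z₁ h₁ h'' hh''
  · intro h' hh'
    exact cone A F v₂ b₂ hb₂ (y 2) (hnalg 2 _ Set.subset_union_right) z₂ h₂ h' hh'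

end GAV
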