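import Pool.Agent.GAV.G3
import Pool.Agent.GAV.Z5

set_option autoImplicit false

open LTD MvPolynomial

namespace GAV

variable {g N κ : ℕ} {k : IntermediateField ℚ ℂ}

/-! ## [GAV-Z6] sums of loci (file Z6.lean)

`mem_V_self`, `V_lat`: `theta_lat` and homogeneity (`MvPolynomial.IsHomogeneous.eval₂`/`aeval` at `c • p` is `c^n` times the value). `theta_law2`: from `A.law_eq`, `A.law_ne`, `law_smul`: choose `j` for the pair `(v₁, v₂)` (some component nonzero, so `law_j(θ v₁, θ v₂) = c θ(v₁ - v₂)`, `c ≠ 0`) and `i` for `(v₀, v₁ - v₂)`.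
`V_add`: let `h ∈ F[X]` be homogeneous of degree `n` with `h(θ(v₀ - (v₁ - v₂))) = 0`. For all `i, j` let `f_ij ∈ F[X, Y, Z]` be the polynomial `h(law_i(X, law_j(Y, Z)))` (the coefficients of the laws are in `k ≤ F`: map them by the inclusion; `MvPolynomial.aeval`/`bind₁`). At `(s₀θ(v₀), s₁θ(v₁), s₂θ(v₂))` its value is
`h(c' θ(v₀ - (v₁ - v₂))) = c'^n h(..) = 0` (`law_smul`, `A.law_eq`). By `pl3`: `f_ij(θ z₀, θ z₁, θ z₂) = 0` for all `i, j`, i.e. `h(law_i(θ z₀, law_j(θ z₁, θ z₂))) = 0`; for the `i, j` of `theta_law2` this is `c''^n h(θ(z₀ - (z₁ - z₂)))` with `c'' ≠ 0`. -/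

theorem mem_V_self (A : AV g N κ k) (F : IntermediateField ℚ ℂ) (v : Fin g → ℂ) : v ∈ A.V F v :=
  fun _ _ _ h => h

theorem aeval_smul_hom (K : IntermediateField ℚ ℂ) {σ : Type} (f : MvPolynomial σ K) (n : ℕ)
    (hf : f.IsHomogeneous n) (c : ℂ) (p : σ → ℂ) : aeval (c • p) f = c ^ n * aeval p f := by
  rw [aeval_def, aeval_def, eval₂_eq, eval₂_eq, Finset.mul_sum]
  refine Finset.sum_congr rfl fun m hm => ?_
  have hd : m.degree = n := by
    have h1 := hf (mem_support_iff.1 hm)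
    rw [← h1, Finsupp.degree_eq_weight_one]
    rfl
  have h2 : ∏ i ∈ m.support, (c • p) i ^ m i = c ^ n * ∏ i ∈ m.support, p i ^ m i := by
    rw [← hd, Finsupp.degree_apply, ← Finset.prod_pow_eq_pow_sum, ← Finset.prod_mul_distrib]
    exact Finset.prod_congr rfl fun i _ => by rw [Pi.smul_apply, smul_eq_mul, mul_pow]
  rw [h2]
  ring

theorem V_lat (A : AV g N κ k) (F : IntermediateField ℚ ℂ) (v z l : Fin g → ℂ) (hl : l ∈ A.Λ)
    (hz : z ∈ A.V F v) : z + l ∈ A.V F v := by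
  intro f n hf h0
  obtain ⟨c, _, hc⟩ := theta_lat A l hl z
  rw [hc, aeval_smul_hom F f n hf, hz f n hf h0, mul_zero]

theorem theta_law2 (A : AV g N κ k) (v₀ v₁ v₂ : Fin g → ℂ) : ∃ i j, ∃ c : ℂ, c ≠ 0 ∧ ∀ l,
    aeval (Sum.elim (A.θ v₀) (fun l' => aeval (Sum.elim (A.θ v₁) (A.θ v₂)) (A.law j l')))
      (A.law i l) = c * A.θ (v₀ - (v₁ - v₂)) l := by
  obtain ⟨j, l1, h1⟩ := A.law_ne v₁ v₂
  obtain ⟨c1, e1⟩ := A.law_eq j v₁ v₂
  have hc1 : c1 ≠ 0 := by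
    rintro rfl
    exact h1 (by rw [e1, zero_mul])
  obtain ⟨i, l2, h2⟩ := A.law_ne v₀ (v₁ - v₂)
  obtain ⟨c2, e2⟩ := A.law_eq i v₀ (v₁ - v₂)
  have hc2 : c2 ≠ 0 := by
    rintro rfl
    exact h2 (by rw [e2, zero_mul])
  refine ⟨i, j, c1 ^ κ * c2, mul_ne_zero (pow_ne_zero _ hc1) hc2, fun l => ?_⟩
  have e3 : (fun l' => aeval (Sum.elim (A.θ v₁) (A.θ v₂)) (A.law j l')) = c1 • A.θ (v₁ - v₂) := by
    funext l'
    rw [e1]
    rfl
  have e4 := law_smul A 1 c1 (A.θ v₀) (A.θ (v₁ - v₂)) i l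
  rw [one_smul, one_pow, one_mul] at e4
  rw [e3, e4, e2]
  ring

/-- the composed law `law_i (X, law_j (Y, Z))` -/
noncomputable def z6comp (A : AV g N κ k) (F : IntermediateField ℚ ℂ) (hk : k ≤ F) (i j : Fin A.n)
    (l : Fin (N + 1)) : MvPolynomial (Fin (N + 1) ⊕ (Fin (N + 1) ⊕ Fin (N + 1))) F :=
  bind₁ (Sum.elim (fun l' => X (Sum.inl l')) (fun l' => rename Sum.inr
    (map (IntermediateField.inclusion hk).toRingHom (A.law j l'))))
    (map (IntermediateField.inclusion hk).toRingHom (A.law i l))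

theorem z6_map (F : IntermediateField ℚ ℂ) (hk : k ≤ F) {σ : Type} (p : σ → ℂ) (f : MvPolynomial σ k) :
    aeval p (map (IntermediateField.inclusion hk).toRingHom f) = aeval p f := by
  rw [aeval_def, aeval_def, eval₂_map]
  rfl

theorem z6comp_aeval (A : AV g N κ k) (F : IntermediateField ℚ ℂ) (hk : k ≤ F) (i j : Fin A.n)
    (l : Fin (N + 1)) (a b c : Fin (N + 1) → ℂ) :
    aeval (Sum.elim a (Sum.elim b c)) (z6comp A F hk i j l) =
      aeval (Sum.elim a (fun l' => aeval (Sum.elim b c) (A.law j l'))) (A.law i l) := by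
  rw [z6comp, aeval_bind₁, z6_map]
  have e : (fun i => aeval (R := F) (Sum.elim a (Sum.elim b c)) (Sum.elim (fun l' => X (Sum.inl l'))
      (fun l' => rename Sum.inr (map (IntermediateField.inclusion hk).toRingHom (A.law j l'))) i)) =
      Sum.elim a (fun l' => aeval (Sum.elim b c) (A.law j l')) := by
    funext x
    rcases x with x | x
    · simp
    · simp only [Sum.elim_inr]
      rw [aeval_rename, Sum.elim_comp_inr, z6_map]
  rw [e]

theorem V_add (A : AV g N κ k) (F : IntermediateField ℚ ℂ) (hk : k ≤ F) (hF : Clo F) (t : ℕ)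
    (ht : Algebra.trdeg ℚ F ≤ (t : Cardinal)) (v₀ v₁ v₂ : Fin g → ℂ)
    (h : rk F (A.rat v₀) + rk F (A.rat v₁) + rk F (A.rat v₂) ≤
      rk F (A.rat v₀ ∪ A.rat v₁ ∪ A.rat v₂)) (z₀ z₁ z₂ : Fin g → ℂ)
    (h₀ : z₀ ∈ A.V F v₀) (h₁ : z₁ ∈ A.V F v₁) (h₂ : z₂ ∈ A.V F v₂) :
    z₀ - (z₁ - z₂) ∈ A.V F (v₀ - (v₁ - v₂)) := by
  intro f n hf h0
  obtain ⟨i, j, c, hc, e⟩ := theta_law2 A z₀ z₁ z₂
  have key := pl3 A F hF t ht v₀ v₁ v₂ h z₀ z₁ z₂ h₀ h₁ h₂ (bind₁ (z6comp A F hk i j) f) (by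
    intro s₀ s₁ s₂
    obtain ⟨c1, e1⟩ := A.law_eq j v₁ v₂
    obtain ⟨c2, e2⟩ := A.law_eq i v₀ (v₁ - v₂)
    have e3 : (fun l' => aeval (Sum.elim (s₁ • A.θ v₁) (s₂ • A.θ v₂)) (A.law j l')) =
        (s₁ ^ κ * s₂ ^ κ * c1) • A.θ (v₁ - v₂) := by
      funext l'
      rw [law_smul, e1, Pi.smul_apply, smul_eq_mul]
      ring
    have e4 : (fun l => aeval (Sum.elim (s₀ • A.θ v₀) (Sum.elim (s₁ • A.θ v₁) (s₂ • A.θ v₂)))
        (z6comp A F hk i j l)) = (s₀ ^ κ * (s₁ ^ κ * s₂ ^ κ * c1) ^ κ * c2) • A.θ (v₀ - (v₁ - v₂)) := by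
      funext l
      rw [z6comp_aeval, e3, law_smul, e2, Pi.smul_apply, smul_eq_mul]
      ring
    rw [aeval_bind₁, e4, aeval_smul_hom F f n hf, h0, mul_zero])
  rw [aeval_bind₁] at key
  have e5 : (fun l => aeval (Sum.elim (A.θ z₀) (Sum.elim (A.θ z₁) (A.θ z₂))) (z6comp A F hk i j l)) =
      c • A.θ (z₀ - (z₁ - z₂)) := by
    funext l
    rw [z6comp_aeval, e, Pi.smul_apply, smul_eq_mul]
  rw [e5, aeval_smul_hom F f n hf] at key
  exact (mul_eq_zero.1 key).resolve_left (pow_ne_zero _ hc)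

end GAV
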