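import Pool.Agent.GAV.Def2

set_option autoImplicit false

open MvPolynomial LTD

namespace GAV

variable {g N κ : ℕ} {k : IntermediateField ℚ ℂ}

/-! ## [GAV-G1] the lattice and the linear forms `th` (file G1.lean)

`theta_lat`: the set of `l` with the property (for all `z`) contains `0` and the `ω j` (`A.quasi`, `exp ≠ 0`), is closed under addition, and under negation (apply the property of `l` at `z - l`): `AddSubgroup.closure_induction`.
`coord_le`: `z ↦ A.ω.repr z j` is an `ℝ`-linear map on a finite-dimensional space, so continuous and bounded (`LinearMap.toContinuousLinearMap`, `ContinuousLinearMap.le_opNorm`), finitely many `j`.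
`reduce`: `l = ∑ ⌊A.ω.repr z j⌋ • A.ω j` (integer combination, in the closure), `z - l = ∑ fract(..) • ω j`, norm `≤ ∑ ‖ω j‖` (`A.ω.sum_repr`). `mem_of_repr_int`: `z = ∑ repr_j • ω j` with integer coordinates.
`th`: `repr` is `ℝ`-linear; `th (c z) = c th z` for real `c` and for `c = I` (`I • I • z = -z`), so for all `c = a + b I`. `th_re` clear (real part). `th_add`. `th_norm`: `coord_le` twice (`‖I • z‖ = ‖z‖`).
`th_lower`: let `v = ∑_j a_j th_j`, a `ℂ`-linear form; `v(ω_j)` has real part `a_j` (`repr (ω_j)` is the unit vector), and `v(ω_j) = ∑_l (ω_j)_l v(e_l)`. Choose `j` with `a_j ≠ 0`: `1 ≤ |a_j| ≤ ∑_l ‖(ω_j)_l‖ ‖v(e_l)‖ ≤ W g max_l ‖v(e_l)‖`, with `W ≥ 1` a bound for all `‖(ω_j)_l‖`; so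
some `l` has `‖v(e_l)‖ ≥ 1/(W g)` (`g ≥ 1` because there is an index `j`). -/

theorem theta_lat (A : AV g N κ k) (l : Fin g → ℂ) (hl : l ∈ A.Λ) (z : Fin g → ℂ) :
    ∃ c : ℂ, c ≠ 0 ∧ A.θ (z + l) = c • A.θ z := by
  unfold AV.Λ at hl
  induction hl using AddSubgroup.closure_induction generalizing z with
  | mem x hx =>
    obtain ⟨j, rfl⟩ := hx
    obtain ⟨a, b, h⟩ := A.quasi j
    exact ⟨_, Complex.exp_ne_zero _, h z⟩
  | zero => exact ⟨1, one_ne_zero, by rw [add_zero, one_smul]⟩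
  | add x y _ _ hx hy =>
    obtain ⟨c, hc, h1⟩ := hx z
    obtain ⟨c', hc', h2⟩ := hy (z + x)
    refine ⟨c' * c, mul_ne_zero hc' hc, ?_⟩
    rw [← add_assoc, h2, h1, smul_smul]
  | neg x _ hx =>
    obtain ⟨c, hc, h1⟩ := hx (z + -x)
    refine ⟨c⁻¹, inv_ne_zero hc, ?_⟩
    rw [neg_add_cancel_right] at h1
    rw [h1, smul_smul, inv_mul_cancel₀ hc, one_smul]

theorem coord_le (A : AV g N κ k) : ∃ C : ℝ, 1 ≤ C ∧ ∀ z j, |A.ω.repr z j| ≤ C * ‖z‖ := by
  set L : Fin (2 * g) → (Fin g → ℂ) →L[ℝ] ℝ := fun j => (A.ω.coord j).toContinuousLinearMap with hL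
  have h0 : ∀ j, ‖L j‖ ≤ ∑ i, ‖L i‖ := fun j =>
    Finset.single_le_sum (fun i _ => norm_nonneg (L i)) (Finset.mem_univ j)
  refine ⟨1 + ∑ i, ‖L i‖, by
    have : 0 ≤ ∑ i, ‖L i‖ := Finset.sum_nonneg fun i _ => norm_nonneg _
    linarith, ?_⟩
  intro z j
  have h1 : |A.ω.repr z j| = ‖L j z‖ := by
    rw [Real.norm_eq_abs]
    rfl
  rw [h1]
  refine ((L j).le_opNorm z).trans ?_
  apply mul_le_mul_of_nonneg_right _ (norm_nonneg z)
  linarith [h0 j]

theorem reduce (A : AV g N κ k) : ∃ C : ℝ, 1 ≤ C ∧ ∀ z : Fin g → ℂ, ∃ l ∈ A.Λ, ‖z - l‖ ≤ C := by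
  refine ⟨1 + ∑ j, ‖A.ω j‖, by
    have : 0 ≤ ∑ j, ‖A.ω j‖ := Finset.sum_nonneg fun i _ => norm_nonneg _
    linarith, ?_⟩
  intro z
  refine ⟨∑ j, (⌊A.ω.repr z j⌋) • A.ω j, ?_, ?_⟩
  · apply AddSubgroup.sum_mem
    intro j _
    apply AddSubgroup.zsmul_mem
    exact AddSubgroup.subset_closure ⟨j, rfl⟩
  · have h1 : z - ∑ j, (⌊A.ω.repr z j⌋) • A.ω j = ∑ j, (Int.fract (A.ω.repr z j)) • A.ω j := by
      conv_lhs => rw [← A.ω.sum_repr z]
      rw [← Finset.sum_sub_distrib]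
      apply Finset.sum_congr rfl
      intro j _
      rw [A.ω.sum_repr z, ← Int.self_sub_floor, sub_smul, ← Int.cast_smul_eq_zsmul ℝ]
    rw [h1]
    refine (norm_sum_le _ _).trans ?_
    have h2 : ∀ j ∈ Finset.univ, ‖(Int.fract (A.ω.repr z j)) • A.ω j‖ ≤ ‖A.ω j‖ := by
      intro j _
      rw [norm_smul, Real.norm_eq_abs, abs_of_nonneg (Int.fract_nonneg _)]
      exact mul_le_of_le_one_left (norm_nonneg _) (Int.fract_lt_one _).le
    refine (Finset.sum_le_sum h2).trans ?_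
    linarith

theorem mem_of_repr_int (A : AV g N κ k) (z : Fin g → ℂ) (m : Fin (2 * g) → ℤ)
    (h : ∀ j, A.ω.repr z j = m j) : z ∈ A.Λ := by
  have h1 : z = ∑ j, m j • A.ω j := by
    conv_lhs => rw [← A.ω.sum_repr z]
    apply Finset.sum_congr rfl
    intro j _
    rw [h j, Int.cast_smul_eq_zsmul]
  rw [h1]
  apply AddSubgroup.sum_mem
  intro j _
  apply AddSubgroup.zsmul_mem
  exact AddSubgroup.subset_closure ⟨j, rfl⟩

theorem th_re (A : AV g N κ k) (j : Fin (2 * g)) (z : Fin g → ℂ) :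
    (th A j z).re = A.ω.repr z j := by
  unfold th
  simp

theorem th_add (A : AV g N κ k) (j : Fin (2 * g)) (z w : Fin g → ℂ) :
    th A j (z + w) = th A j z + th A j w := by
  unfold th
  rw [smul_add, map_add, map_add]
  simp only [Finsupp.add_apply]
  push_cast
  ring

theorem th_smul (A : AV g N κ k) (j : Fin (2 * g)) (c : ℂ) (z : Fin g → ℂ) :
    th A j (c • z) = c * th A j z := by
  have h1 : c • z = c.re • z + c.im • (Complex.I • z) := by
    funext i
    simp only [Pi.smul_apply, Pi.add_apply, smul_eq_mul, Complex.real_smul]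
    conv_lhs => rw [← Complex.re_add_im c]
    ring
  have h2 : Complex.I • (c • z) = c.re • (Complex.I • z) - c.im • z := by
    funext i
    simp only [Pi.smul_apply, Pi.sub_apply, smul_eq_mul, Complex.real_smul]
    conv_lhs => rw [← Complex.re_add_im c]
    have hI := Complex.I_mul_I
    linear_combination (c.im : ℂ) * z i * hI
  have e1 : A.ω.repr (c • z) j = c.re * A.ω.repr z j + c.im * A.ω.repr (Complex.I • z) j := by
    rw [h1]
    generalize Complex.I • z = w
    rw [map_add, map_smul, map_smul]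
    simp only [Finsupp.add_apply, Finsupp.smul_apply, smul_eq_mul]
  have e2 : A.ω.repr (Complex.I • (c • z)) j =
      c.re * A.ω.repr (Complex.I • z) j - c.im * A.ω.repr z j := by
    rw [h2]
    generalize Complex.I • z = w
    rw [map_sub, map_smul, map_smul]
    simp only [Finsupp.sub_apply, Finsupp.smul_apply, smul_eq_mul]
  unfold th
  rw [e1, e2]
  push_cast
  conv_rhs => rw [← Complex.re_add_im c]
  have hI := Complex.I_mul_I
  linear_combination (c.im : ℂ) * (A.ω.repr (Complex.I • z) j : ℂ) * hI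

theorem th_norm (A : AV g N κ k) : ∃ C : ℝ, 1 ≤ C ∧ ∀ j z, ‖th A j z‖ ≤ C * ‖z‖ := by
  obtain ⟨C, hC, h⟩ := coord_le A
  refine ⟨2 * C, by linarith, ?_⟩
  intro j z
  unfold th
  refine (norm_sub_le _ _).trans ?_
  rw [norm_mul, Complex.norm_I, mul_one, Complex.norm_real, Complex.norm_real, Real.norm_eq_abs,
    Real.norm_eq_abs]
  have h1 := h z j
  have h2 := h (Complex.I • z) j
  rw [norm_smul, Complex.norm_I, one_mul] at h2
  linarith

theorem th_lower (A : AV g N κ k) : ∃ c : ℝ, 0 < c ∧ ∀ a : Fin (2 * g) → ℤ, a ≠ 0 →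
    ∃ l : Fin g, c ≤ ‖∑ j, (a j : ℂ) * th A j (Pi.single l 1)‖ := by
  set W : ℝ := 1 + ∑ i, ∑ l, ‖A.ω i l‖ with hW
  have hW0 : 0 ≤ ∑ i, ∑ l, ‖A.ω i l‖ :=
    Finset.sum_nonneg fun i _ => Finset.sum_nonneg fun l _ => norm_nonneg _
  have hWpos : 0 < W := by rw [hW]; linarith
  refine ⟨1 / W, by positivity, ?_⟩
  intro a ha
  by_contra hcon
  push Not at hcon
  obtain ⟨i, hi⟩ : ∃ i, a i ≠ 0 := by
    by_contra h
    push Not at h
    exact ha (funext h)
  set v : (Fin g → ℂ) → ℂ := fun z => ∑ j, (a j : ℂ) * th A j z with hv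
  have hvadd : ∀ z w, v (z + w) = v z + v w := by
    intro z w
    simp only [hv]
    rw [← Finset.sum_add_distrib]
    apply Finset.sum_congr rfl
    intro j _
    rw [th_add]
    ring
  have hvsmul : ∀ (c : ℂ) z, v (c • z) = c * v z := by
    intro c z
    simp only [hv]
    rw [Finset.mul_sum]
    apply Finset.sum_congr rfl
    intro j _
    rw [th_smul]
    ring
  set vL : (Fin g → ℂ) →ₗ[ℂ] ℂ :=
    { toFun := v, map_add' := hvadd, map_smul' := fun c z => hvsmul c z } with hvL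
  have h1 : v (A.ω i) = ∑ l, A.ω i l * v (Pi.single l 1) := by
    have h2 := LinearMap.pi_apply_eq_sum_univ vL (A.ω i)
    have h3 : ∀ l : Fin g, (fun j => if l = j then (1 : ℂ) else 0) = Pi.single l 1 := by
      intro l
      funext j
      by_cases hlj : l = j
      · subst hlj
        simp
      · rw [if_neg hlj, Pi.single_eq_of_ne (Ne.symm hlj)]
    simp only [h3, smul_eq_mul] at h2
    exact h2
  have h2 : (v (A.ω i)).re = a i := by
    simp only [hv]
    rw [Complex.re_sum]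
    have h3 : ∀ j ∈ Finset.univ, ((a j : ℂ) * th A j (A.ω i)).re = (a j : ℝ) * (if j = i then 1 else 0) := by
      intro j _
      have h4 : ((a j : ℤ) : ℂ) = (((a j : ℤ) : ℝ) : ℂ) := by push_cast; rfl
      rw [h4, Complex.re_ofReal_mul, th_re, A.ω.repr_self, Finsupp.single_apply]
      by_cases hij : j = i
      · rw [if_pos hij, if_pos hij.symm]
      · rw [if_neg hij, if_neg (Ne.symm hij)]
    rw [Finset.sum_congr rfl h3]
    simp
  have h3 : ‖v (A.ω i)‖ < 1 := by
    rw [h1]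
    refine lt_of_le_of_lt (norm_sum_le _ _) ?_
    have h4 : ∀ l ∈ Finset.univ, ‖A.ω i l * v (Pi.single l 1)‖ ≤ ‖A.ω i l‖ * (1 / W) := by
      intro l _
      rw [norm_mul]
      exact mul_le_mul_of_nonneg_left (hcon l).le (norm_nonneg _)
    refine lt_of_le_of_lt (Finset.sum_le_sum h4) ?_
    rw [← Finset.sum_mul, mul_one_div, div_lt_one hWpos]
    have h5 : ∑ l, ‖A.ω i l‖ ≤ ∑ i, ∑ l, ‖A.ω i l‖ :=
      Finset.single_le_sum (f := fun i => ∑ l, ‖A.ω i l‖)
        (fun i _ => Finset.sum_nonneg fun l _ => norm_nonneg _) (Finset.mem_univ i)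
    rw [hW]
    linarith
  have h4 : (1 : ℝ) ≤ |(a i : ℝ)| := by
    have h5 : 1 ≤ |a i| := Int.one_le_abs hi
    exact_mod_cast h5
  have h5 : |(a i : ℝ)| ≤ ‖v (A.ω i)‖ := by
    rw [← h2]
    exact Complex.abs_re_le_norm _
  linarith

end GAV
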