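import Pool.Agent.GAV.G1

set_option autoImplicit false

open MvPolynomial LTD

namespace GAV

variable {g N κ : ℕ} {k : IntermediateField ℚ ℂ}

/-! ## [GAV-G2] growth of the theta functions (file G2.lean)

Let `h(z) = log ‖θ z‖` (`θ z ≠ 0`). `A.quasi` gives `C₁` with `|h(z + ω_j) - h(z)| ≤ C₁ (1 + ‖z‖)` (`‖exp w‖ = exp(re w)`), and the same for `- ω_j` (with a larger constant). Every `z` is `z₀ + ∑ n_j ω_j`, `n_j = ⌊repr z j⌋`, `z₀` in the bounded set `{∑ s_j ω_j, 0 ≤ s_j ≤ 1}`.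
By induction on the number of steps: `|h(w + n • ω_j) - h(w)| ≤ |n| C₁ (1 + ‖w‖ + |n| W)`, `W` a bound of the `‖ω_j‖` (`n ∈ ℤ`); then over the `2g` indices one after the other (for a finite set of indices): `|h(z₀ + ∑ n_j ω_j) - h(z₀)| ≤ C₂ (1 + max|n_j|)²`. `|n_j| ≤ 1 + C ‖z‖` (`coord_le`). On the bounded set
(closed ball, compact) `h` is bounded (`θ` is continuous and nowhere `0`: `IsCompact.exists_isMinOn` for `‖θ‖`). -/

/-- the logarithm of the norm -/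
noncomputable def g2_h (A : AV g N κ k) (z : Fin g → ℂ) : ℝ := Real.log ‖A.θ z‖

theorem g2_step (A : AV g N κ k) (j : Fin (2 * g)) : ∃ C : ℝ, 0 ≤ C ∧ ∀ z : Fin g → ℂ,
    |g2_h A (z + A.ω j) - g2_h A z| ≤ C * (1 + ‖z‖) := by
  obtain ⟨a, b, h⟩ := A.quasi j
  refine ⟨(∑ i, ‖a i‖) + ‖b‖, by positivity, fun z => ?_⟩
  have h1 : g2_h A (z + A.ω j) = (∑ i, a i * z i + b).re + g2_h A z := by
    unfold g2_h
    rw [h z, norm_smul, Complex.norm_exp, Real.log_mul (Real.exp_pos _).ne'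
      (norm_ne_zero_iff.mpr (A.ne z)), Real.log_exp]
  rw [h1, add_sub_cancel_right]
  have h2 : |(∑ i, a i * z i + b).re| ≤ ‖∑ i, a i * z i + b‖ := Complex.abs_re_le_norm _
  have h3 : ‖∑ i, a i * z i‖ ≤ (∑ i, ‖a i‖) * ‖z‖ := by
    rw [Finset.sum_mul]
    refine (norm_sum_le _ _).trans (Finset.sum_le_sum fun i _ => ?_)
    rw [norm_mul]
    exact mul_le_mul_of_nonneg_left (norm_le_pi_norm z i) (norm_nonneg _)
  have h4 := norm_add_le (∑ i, a i * z i) b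
  have h5 : 0 ≤ ∑ i, ‖a i‖ := by positivity
  have h6 : 0 ≤ ‖b‖ * ‖z‖ := by positivity
  nlinarith [h2, h3, h4, h5, h6]

theorem g2_steps (A : AV g N κ k) : ∃ C W : ℝ, 0 ≤ C ∧ 0 ≤ W ∧ (∀ j, ‖A.ω j‖ ≤ W) ∧
    ∀ (z : Fin g → ℂ) (j : Fin (2 * g)), |g2_h A (z + A.ω j) - g2_h A z| ≤ C * (1 + ‖z‖) ∧
      |g2_h A (z - A.ω j) - g2_h A z| ≤ C * (1 + ‖z‖) := by
  choose C hC0 hC using g2_step A
  have hS : ∀ j, C j ≤ ∑ j, C j := fun j =>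
    Finset.single_le_sum (f := C) (fun i _ => hC0 i) (Finset.mem_univ j)
  have hS0 : 0 ≤ ∑ j, C j := Finset.sum_nonneg fun j _ => hC0 j
  have hW : ∀ j, ‖A.ω j‖ ≤ ∑ j, ‖A.ω j‖ := fun j =>
    Finset.single_le_sum (f := fun j => ‖A.ω j‖) (fun i _ => norm_nonneg _) (Finset.mem_univ j)
  have hW0 : 0 ≤ ∑ j, ‖A.ω j‖ := Finset.sum_nonneg fun j _ => norm_nonneg _
  refine ⟨(∑ j, C j) * (1 + ∑ j, ‖A.ω j‖), ∑ j, ‖A.ω j‖, by positivity, hW0, hW,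
    fun z j => ⟨?_, ?_⟩⟩
  · have h1 := hC j z
    have h2 : C j * (1 + ‖z‖) ≤ (∑ j, C j) * (1 + ‖z‖) :=
      mul_le_mul_of_nonneg_right (hS j) (by positivity)
    have h3 : (∑ j, C j) * (1 + ‖z‖) ≤ (∑ j, C j) * (1 + ∑ j, ‖A.ω j‖) * (1 + ‖z‖) := by
      refine mul_le_mul_of_nonneg_right ?_ (by positivity)
      exact le_mul_of_one_le_right hS0 (by linarith)
    linarith
  · have h1 := hC j (z - A.ω j)
    rw [sub_add_cancel, abs_sub_comm] at h1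
    have h2 : ‖z - A.ω j‖ ≤ ‖z‖ + ∑ j, ‖A.ω j‖ :=
      (norm_sub_le _ _).trans (add_le_add_right (hW j) _)
    have h3 : C j * (1 + ‖z - A.ω j‖) ≤ (∑ j, C j) * (1 + (‖z‖ + ∑ j, ‖A.ω j‖)) :=
      mul_le_mul (hS j) (by linarith) (by positivity) hS0
    have h4 : 1 + (‖z‖ + ∑ j, ‖A.ω j‖) ≤ (1 + ∑ j, ‖A.ω j‖) * (1 + ‖z‖) := by
      have : 0 ≤ (∑ j, ‖A.ω j‖) * ‖z‖ := by positivity
      nlinarith
    have h5 : (∑ j, C j) * (1 + (‖z‖ + ∑ j, ‖A.ω j‖)) ≤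
        (∑ j, C j) * ((1 + ∑ j, ‖A.ω j‖) * (1 + ‖z‖)) := mul_le_mul_of_nonneg_left h4 hS0
    rw [← mul_assoc] at h5
    linarith

theorem g2_abs_floor (x : ℝ) : |x| ≤ ((⌊x⌋.natAbs : ℕ) : ℝ) + 1 ∧
    ((⌊x⌋.natAbs : ℕ) : ℝ) ≤ |x| + 1 := by
  have h1 := Int.floor_le x
  have h2 := (Int.lt_floor_add_one x).le
  have h3 : ((⌊x⌋.natAbs : ℕ) : ℝ) = |(⌊x⌋ : ℝ)| := by
    rw [Nat.cast_natAbs, Int.cast_abs]
  rw [h3]
  constructor
  · rw [abs_le]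
    rcases abs_cases (⌊x⌋ : ℝ) with ⟨h4, h5⟩ | ⟨h4, h5⟩ <;> rw [h4] <;> constructor <;> linarith
  · rw [abs_le]
    rcases abs_cases x with ⟨h4, h5⟩ | ⟨h4, h5⟩ <;> rw [h4] <;> constructor <;> linarith

theorem g2_norm_le (A : AV g N κ k) {W : ℝ} (hW : ∀ j, ‖A.ω j‖ ≤ W) (hW0 : 0 ≤ W)
    (z : Fin g → ℂ) : ‖z‖ ≤ W * ((∑ j, (⌊A.ω.repr z j⌋.natAbs : ℝ)) + 2 * g) := by
  have h1 : z = ∑ j, A.ω.repr z j • A.ω j := (A.ω.sum_repr z).symm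
  have h2 : ‖z‖ ≤ ∑ j, |A.ω.repr z j| * W := by
    conv_lhs => rw [h1]
    refine (norm_sum_le _ _).trans (Finset.sum_le_sum fun j _ => ?_)
    rw [norm_smul, Real.norm_eq_abs]
    exact mul_le_mul_of_nonneg_left (hW j) (abs_nonneg _)
  have h3 : ∑ j, |A.ω.repr z j| ≤ (∑ j, (⌊A.ω.repr z j⌋.natAbs : ℝ)) + 2 * g := by
    calc ∑ j, |A.ω.repr z j| ≤ ∑ j, ((⌊A.ω.repr z j⌋.natAbs : ℝ) + 1) :=
          Finset.sum_le_sum fun j _ => (g2_abs_floor _).1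
      _ = (∑ j, (⌊A.ω.repr z j⌋.natAbs : ℝ)) + 2 * g := by
          rw [Finset.sum_add_distrib, Finset.sum_const, Finset.card_univ, Fintype.card_fin]
          simp
  rw [← Finset.sum_mul, mul_comm] at h2
  exact h2.trans (mul_le_mul_of_nonneg_left h3 hW0)

/-- one step towards the fundamental domain -/
theorem g2_down (A : AV g N κ k) (M : ℕ) (z : Fin g → ℂ)
    (h : ∑ j, ⌊A.ω.repr z j⌋.natAbs = M + 1) : ∃ j : Fin (2 * g),
    (∑ i, ⌊A.ω.repr (z - A.ω j) i⌋.natAbs = M) ∨ (∑ i, ⌊A.ω.repr (z + A.ω j) i⌋.natAbs = M) := by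
  classical
  obtain ⟨j, -, hj⟩ := Finset.exists_ne_zero_of_sum_ne_zero
    (show ∑ j, ⌊A.ω.repr z j⌋.natAbs ≠ 0 by rw [h]; exact Nat.succ_ne_zero M)
  refine ⟨j, ?_⟩
  have hsum : ∀ w : Fin g → ℂ, (∀ i, i ≠ j → ⌊A.ω.repr w i⌋ = ⌊A.ω.repr z i⌋) →
      ⌊A.ω.repr w j⌋.natAbs + 1 = ⌊A.ω.repr z j⌋.natAbs →
      ∑ i, ⌊A.ω.repr w i⌋.natAbs = M := by
    intro w h1 h2
    rw [← Finset.add_sum_erase Finset.univ _ (Finset.mem_univ j)] at h ⊢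
    have h3 : ∑ i ∈ Finset.univ.erase j, ⌊A.ω.repr w i⌋.natAbs =
        ∑ i ∈ Finset.univ.erase j, ⌊A.ω.repr z i⌋.natAbs := by
      refine Finset.sum_congr rfl fun i hi => ?_
      rw [h1 i (Finset.ne_of_mem_erase hi)]
    rw [h3]
    omega
  have hself : A.ω.repr (A.ω j) j = 1 := by
    rw [A.ω.repr_self, Finsupp.single_eq_same]
  have hoth : ∀ i, i ≠ j → A.ω.repr (A.ω j) i = 0 := by
    intro i hi
    rw [A.ω.repr_self, Finsupp.single_eq_of_ne hi]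
  rcases lt_trichotomy ⌊A.ω.repr z j⌋ 0 with h0 | h0 | h0
  · right
    refine hsum _ ?_ ?_
    · intro i hi
      rw [map_add, Finsupp.add_apply, hoth i hi, add_zero]
    · rw [map_add, Finsupp.add_apply, hself, Int.floor_add_one]
      omega
  · rw [h0] at hj
    exact absurd rfl hj
  · left
    refine hsum _ ?_ ?_
    · intro i hi
      rw [map_sub, Finsupp.sub_apply, hoth i hi, sub_zero]
    · rw [map_sub, Finsupp.sub_apply, hself, Int.floor_sub_one]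
      omega

theorem growth (A : AV g N κ k) : ∃ C : ℝ, 1 ≤ C ∧ ∀ z : Fin g → ℂ,
    Real.exp (-(C * (1 + ‖z‖) ^ 2)) ≤ ‖A.θ z‖ ∧ ‖A.θ z‖ ≤ Real.exp (C * (1 + ‖z‖) ^ 2) := by
  obtain ⟨C₁, W, hC₁, hW0, hW, hst⟩ := g2_steps A
  have hcont : Continuous (g2_h A) :=
    (A.diff.continuous.norm).log fun z => norm_ne_zero_iff.mpr (A.ne z)
  obtain ⟨B, hB⟩ := (isCompact_closedBall (0 : Fin g → ℂ) (W * (2 * g))).exists_bound_of_continuousOn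
    hcont.continuousOn
  have hB0 : 0 ≤ |B| := abs_nonneg B
  set C₂ : ℝ := C₁ * ((1 + W) * (1 + 2 * g)) with hC₂
  have hC₂0 : 0 ≤ C₂ := by positivity
  have key : ∀ (M : ℕ) (z : Fin g → ℂ), ∑ j, ⌊A.ω.repr z j⌋.natAbs = M →
      |g2_h A z| ≤ |B| + C₂ * (1 + (M : ℝ)) ^ 2 := by
    intro M
    induction M with
    | zero =>
      intro z hz
      have h1 := g2_norm_le A hW hW0 z
      have h2 : (∑ j, (⌊A.ω.repr z j⌋.natAbs : ℝ)) = 0 := by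
        rw [← Nat.cast_sum, hz, Nat.cast_zero]
      rw [h2, zero_add] at h1
      have h3 := hB z (by rw [Metric.mem_closedBall, dist_zero_right]; exact h1)
      rw [Real.norm_eq_abs] at h3
      have h4 := le_abs_self B
      have h5 : 0 ≤ C₂ * (1 + ((0 : ℕ) : ℝ)) ^ 2 := by positivity
      linarith
    | succ M ih =>
      intro z hz
      obtain ⟨j, hj⟩ := g2_down A M z hz
      have h1 := g2_norm_le A hW hW0 z
      have h2 : (∑ j, (⌊A.ω.repr z j⌋.natAbs : ℝ)) = (M : ℝ) + 1 := by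
        rw [← Nat.cast_sum, hz, Nat.cast_succ]
      rw [h2] at h1
      have h3 : C₁ * (1 + ‖z‖) ≤ C₂ * (1 + ((M : ℝ) + 1)) := by
        rw [hC₂, mul_assoc]
        refine mul_le_mul_of_nonneg_left ?_ hC₁
        have h4 : (0 : ℝ) ≤ M := Nat.cast_nonneg M
        have h5 : (0 : ℝ) ≤ g := Nat.cast_nonneg g
        have h6 : (M : ℝ) + 1 + 2 * g ≤ (1 + 2 * g) * (1 + ((M : ℝ) + 1)) := by
          nlinarith [mul_nonneg h5 h4]
        have h7 : (1 : ℝ) ≤ (1 + 2 * g) * (1 + ((M : ℝ) + 1)) := by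
          nlinarith [mul_nonneg h5 h4]
        calc 1 + ‖z‖ ≤ (1 + 2 * g) * (1 + ((M : ℝ) + 1)) +
              W * ((1 + 2 * g) * (1 + ((M : ℝ) + 1))) :=
              add_le_add h7 (h1.trans (mul_le_mul_of_nonneg_left h6 hW0))
          _ = (1 + W) * (1 + 2 * g) * (1 + ((M : ℝ) + 1)) := by ring
      have h8 : ∀ w, |g2_h A w - g2_h A z| ≤ C₁ * (1 + ‖z‖) →
          ∑ i, ⌊A.ω.repr w i⌋.natAbs = M → |g2_h A z| ≤ |B| + C₂ * (1 + ((M + 1 : ℕ) : ℝ)) ^ 2 := by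
        intro w hw1 hw2
        have h9 := ih w hw2
        have h10 : |g2_h A z| ≤ |g2_h A w| + |g2_h A w - g2_h A z| := by
          have := abs_sub_abs_le_abs_sub (g2_h A z) (g2_h A w)
          rw [abs_sub_comm (g2_h A z)] at this
          linarith
        have h11 : C₂ * (1 + (M : ℝ)) ^ 2 + C₂ * (1 + ((M : ℝ) + 1)) ≤
            C₂ * (1 + ((M + 1 : ℕ) : ℝ)) ^ 2 := by
          rw [← mul_add]
          refine mul_le_mul_of_nonneg_left ?_ hC₂0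
          push_cast
          have h4 : (0 : ℝ) ≤ M := Nat.cast_nonneg M
          nlinarith
        linarith
      rcases hj with hj | hj
      · exact h8 _ (hst z j).2 hj
      · exact h8 _ (hst z j).1 hj
  obtain ⟨C₃, hC₃, hco⟩ := coord_le A
  set Q : ℝ := 1 + 2 * g * (C₃ + 1) with hQ
  have hQ0 : 0 ≤ Q := by positivity
  have hmain : ∀ z : Fin g → ℂ, |g2_h A z| ≤ (|B| + C₂ * Q ^ 2 + 1) * (1 + ‖z‖) ^ 2 := by
    intro z
    have h1 := key _ z rfl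
    have hz0 : 0 ≤ ‖z‖ := norm_nonneg z
    have h2 : ((∑ j, ⌊A.ω.repr z j⌋.natAbs : ℕ) : ℝ) ≤ 2 * g * (C₃ * ‖z‖ + 1) := by
      rw [Nat.cast_sum]
      calc ∑ j, (⌊A.ω.repr z j⌋.natAbs : ℝ) ≤ ∑ _j : Fin (2 * g), (C₃ * ‖z‖ + 1) := by
            refine Finset.sum_le_sum fun j _ => ?_
            have h3 := (g2_abs_floor (A.ω.repr z j)).2
            have h4 := hco z j
            linarith
        _ = 2 * g * (C₃ * ‖z‖ + 1) := by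
            rw [Finset.sum_const, Finset.card_univ, Fintype.card_fin, nsmul_eq_mul]
            push_cast
            ring
    have h5 : (1 : ℝ) + ((∑ j, ⌊A.ω.repr z j⌋.natAbs : ℕ) : ℝ) ≤ Q * (1 + ‖z‖) := by
      have h6 : (0 : ℝ) ≤ g := Nat.cast_nonneg g
      have h7 : 0 ≤ (g : ℝ) * ‖z‖ := by positivity
      have h8 : 0 ≤ (g : ℝ) * C₃ := by positivity
      rw [hQ]
      nlinarith
    have h9 : (1 + ((∑ j, ⌊A.ω.repr z j⌋.natAbs : ℕ) : ℝ)) ^ 2 ≤ (Q * (1 + ‖z‖)) ^ 2 :=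
      pow_le_pow_left₀ (by positivity) h5 2
    have h10 : (1 : ℝ) ≤ (1 + ‖z‖) ^ 2 := by nlinarith
    have h11 : |B| ≤ |B| * (1 + ‖z‖) ^ 2 := le_mul_of_one_le_right hB0 h10
    have h12 : C₂ * (1 + ((∑ j, ⌊A.ω.repr z j⌋.natAbs : ℕ) : ℝ)) ^ 2 ≤
        C₂ * (Q * (1 + ‖z‖)) ^ 2 := mul_le_mul_of_nonneg_left h9 hC₂0
    calc |g2_h A z| ≤ |B| + C₂ * (1 + ((∑ j, ⌊A.ω.repr z j⌋.natAbs : ℕ) : ℝ)) ^ 2 := h1
      _ ≤ |B| * (1 + ‖z‖) ^ 2 + C₂ * (Q * (1 + ‖z‖)) ^ 2 + (1 + ‖z‖) ^ 2 := by linarith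
      _ = (|B| + C₂ * Q ^ 2 + 1) * (1 + ‖z‖) ^ 2 := by ring
  refine ⟨|B| + C₂ * Q ^ 2 + 1, by linarith [mul_nonneg hC₂0 (sq_nonneg Q)], fun z => ?_⟩
  have h1 := abs_le.1 (hmain z)
  have h2 : ‖A.θ z‖ = Real.exp (g2_h A z) := by
    unfold g2_h
    rw [Real.exp_log (norm_pos_iff.mpr (A.ne z))]
  rw [h2]
  exact ⟨Real.exp_le_exp.mpr h1.1, Real.exp_le_exp.mpr h1.2⟩

end GAV
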