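import Pool.Agent.GAV.Z5

set_option autoImplicit false

open LTD MvPolynomial

namespace GAV

variable {g N κ : ℕ} {k : IntermediateField ℚ ℂ}

theorem z8_lat (A : AV g N κ k) : (A.Λ : Set (Fin g → ℂ)).Countable := by
  refine (Set.countable_range (fun m : Fin (2 * g) → ℤ => ∑ j, m j • A.ω j)).mono ?_
  intro l hl
  have hl' : l ∈ AddSubgroup.closure (Set.range A.ω) := hl
  clear hl
  induction hl' using AddSubgroup.closure_induction with
  | mem x hx =>
    obtain ⟨j, rfl⟩ := hx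
    refine ⟨Pi.single j 1, ?_⟩
    simp only
    rw [Finset.sum_eq_single j]
    · simp
    · intro b _ hb
      simp [Pi.single_eq_of_ne hb]
    · simp
  | zero => exact ⟨0, by simp⟩
  | add x y _ _ hx hy =>
    obtain ⟨a, ha⟩ := hx
    obtain ⟨b, hb⟩ := hy
    refine ⟨a + b, ?_⟩
    rw [← ha, ← hb]
    simp only [Pi.add_apply, add_smul, Finset.sum_add_distrib]
  | neg x _ hx =>
    obtain ⟨a, ha⟩ := hx
    refine ⟨-a, ?_⟩
    rw [← ha]
    simp only [Pi.neg_apply, neg_smul, Finset.sum_neg_distrib]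

theorem z8_smul (K : IntermediateField ℚ ℂ) {σ : Type} (f : MvPolynomial σ K) (n : ℕ)
    (hf : f.IsHomogeneous n) (c : ℂ) (p : σ → ℂ) : aeval (c • p) f = c ^ n * aeval p f := by
  rw [aeval_def, aeval_def, eval₂_eq, eval₂_eq, Finset.mul_sum]
  refine Finset.sum_congr rfl fun m hm => ?_
  have hd : m.degree = n := by
    have := hf (mem_support_iff.mp hm)
    rw [Finsupp.degree_eq_weight_one]
    exact this
  have : ∏ i ∈ m.support, (c • p) i ^ m i = c ^ n * ∏ i ∈ m.support, p i ^ m i := by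
    simp only [Pi.smul_apply, smul_eq_mul, mul_pow]
    rw [Finset.prod_mul_distrib, Finset.prod_pow_eq_pow_sum]
    congr 2
  rw [this]
  ring

theorem not_torsion (A : AV g N κ k) (F : IntermediateField ℚ ℂ) (hk : k ≤ F) (hF : Clo F)
    (t : ℕ) (ht : Algebra.trdeg ℚ F ≤ (t : Cardinal)) (v : Fin g → ℂ)
    (hv : 1 ≤ rk F (A.rat v)) : ¬ ∀ z ∈ A.V F v, ∃ n : ℕ, 0 < n ∧ n • (z - v) ∈ A.Λ := by
  classical
  intro htor
  -- the locus is countable
  have hVc : (A.V F v).Countable := by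
    have h1 : (Set.univ ×ˢ (A.Λ : Set (Fin g → ℂ)) : Set (ℕ × (Fin g → ℂ))).Countable :=
      Set.countable_univ.prod (z8_lat A)
    refine (h1.image (fun p : ℕ × (Fin g → ℂ) => v + (p.1 : ℂ)⁻¹ • p.2)).mono ?_
    intro z hz
    obtain ⟨n, hn, hl⟩ := htor z hz
    refine ⟨(n, n • (z - v)), ⟨Set.mem_univ _, hl⟩, ?_⟩
    have hn' : (n : ℂ) ≠ 0 := by exact_mod_cast hn.ne'
    funext i
    have e : (n • (z - v)) i = (n : ℂ) * (z i - v i) := by
      rw [Pi.smul_apply, Pi.sub_apply, nsmul_eq_mul]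
    change v i + (n : ℂ)⁻¹ * (n • (z - v)) i = z i
    rw [e, inv_mul_cancel_left₀ hn']
    ring
  have hfin := rat_finite A v
  have hns : ¬ A.rat v ⊆ F := by
    intro hs
    have := (rk_zero F hF (A.rat v) hfin).mpr hs
    omega
  obtain ⟨b, hb⟩ : ∃ b, A.θ v b ≠ 0 := by
    by_contra hcon
    push Not at hcon
    exact A.ne v (funext hcon)
  obtain ⟨a, ha⟩ : ∃ a, A.θ v a / A.θ v b ∉ F := by
    by_contra hcon
    push Not at hcon
    apply hns
    rintro _ ⟨p, rfl⟩
    have := F.div_mem (hcon p.1) (hcon p.2)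
    rwa [div_div_div_cancel_right₀ hb] at this
  let Z : Set ℂ := (fun z => A.θ z a / A.θ z b) '' A.V F v
  have hZ : Z.Countable := hVc.image _
  have hc : IsAlgebraic (IntermediateField.adjoin F (A.rat v)) (A.θ v a / A.θ v b) := by
    have hm : A.θ v a / A.θ v b ∈ IntermediateField.adjoin F (A.rat v) :=
      IntermediateField.subset_adjoin F _ ⟨(a, b), rfl⟩
    exact isAlgebraic_algebraMap (⟨_, hm⟩ : IntermediateField.adjoin F (A.rat v))
  obtain ⟨n, y, -, hy0, hyi, -, hyalg⟩ := basis_through F hF (A.rat v) hfin _ hc ha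
  obtain ⟨y', hy'i, hy'Z⟩ := fresh F t ht Z hZ (n + 1)
  obtain ⟨Ω, hFΩ, -, -, hΩ⟩ := clo_adjoin F t (n + 1) ht y
  obtain ⟨σ, hσF, hσy⟩ := emb F (n + 1) y y' hyi hy'i Ω hΩ
  have hmem : ∀ z ∈ A.rat v, z ∈ Ω := by
    intro z hz
    rw [hΩ]
    apply hyalg
    exact isAlgebraic_algebraMap (⟨z, IntermediateField.subset_adjoin F _ hz⟩ :
      IntermediateField.adjoin F (A.rat v))
  let Pt : Fin (N + 1) → Ω := fun j => ⟨A.θ v j / A.θ v b, hmem _ ⟨(j, b), rfl⟩⟩
  let i : F →+* Ω := (IntermediateField.inclusion hFΩ).toRingHom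
  have hi : ∀ x : F, ((i x : Ω) : ℂ) = x := fun x => rfl
  let P : Fin (N + 1) → ℂ := fun j => A.θ v j / A.θ v b
  let P' : Fin (N + 1) → ℂ := fun j => σ (Pt j)
  have hPθ : P = (A.θ v b)⁻¹ • A.θ v := by
    funext j
    simp [P, div_eq_inv_mul]
  have spec : ∀ f : MvPolynomial (Fin (N + 1)) F, aeval P f = 0 → aeval P' f = 0 := by
    intro f hf
    have h1 : ((eval₂ i Pt f : Ω) : ℂ) = aeval P f := by
      have := eval₂_comp_left (algebraMap Ω ℂ) i Pt f
      rw [aeval_def]
      exact this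
    have h2 : eval₂ i Pt f = 0 := by
      apply Subtype.ext
      rw [h1, hf]
      rfl
    have h3 := eval₂_comp_left σ i Pt f
    rw [h2, map_zero] at h3
    have h4 : σ.comp i = algebraMap F ℂ := by
      ext x
      exact hσF (i x) x.2
    rw [h4] at h3
    rw [aeval_def]
    exact h3.symm
  have hPb : P b = 1 := div_self hb
  have hP'b : P' b = 1 := by
    have : Pt b = 1 := Subtype.ext hPb
    simp [P', this]
  have hP'a : P' a = y' 0 := hσy 0 (Pt a) hy0.symm
  have hP0 : P ≠ 0 := fun h => by simp [h] at hPb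
  have hP'0 : P' ≠ 0 := fun h => by simp [h] at hP'b
  obtain ⟨z', c', hz'⟩ := (A.image P' hP'0).mp (by
    intro f hf
    have h1 : aeval P f = 0 := (A.image P hP0).mpr ⟨v, _, hPθ⟩ f hf
    have h2 : ∀ p : Fin (N + 1) → ℂ,
        aeval p (map (IntermediateField.inclusion hk).toRingHom f) = aeval p f := by
      intro p
      rw [aeval_def, aeval_def, eval₂_map]
      rfl
    have h3 := spec (map (IntermediateField.inclusion hk).toRingHom f) (by rw [h2]; exact h1)
    rwa [h2] at h3)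
  have hc' : c' ≠ 0 := by
    rintro rfl
    exact hP'0 (by rw [hz', zero_smul])
  have hz'V : z' ∈ A.V F v := by
    intro f m hf h0
    have h1 : aeval P f = 0 := by
      rw [hPθ, z8_smul F f m hf, h0, mul_zero]
    have h2 := spec f h1
    rw [hz', z8_smul F f m hf] at h2
    exact (mul_eq_zero.mp h2).resolve_left (pow_ne_zero _ hc')
  apply hy'Z 0
  refine ⟨z', hz'V, ?_⟩
  have e1 : P' a = c' * A.θ z' a := by rw [hz']; rfl
  have e2 : P' b = c' * A.θ z' b := by rw [hz']; rfl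
  have e3 : A.θ z' b ≠ 0 := by
    intro h
    rw [e2, h, mul_zero] at hP'b
    exact zero_ne_one hP'b
  have : A.θ z' a / A.θ z' b = P' a / P' b := by
    rw [e1, e2, mul_div_mul_left _ _ hc']
  simp only
  rw [this, hP'a, hP'b, div_one]

end GAV
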