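import Pool.Agent.GAV.Def2
import Pool.Agent.LTD.CloR

set_option autoImplicit false

open LTD

namespace GAV

/-! ## [GAV-Z2] extension of specialisations (file Z2.lean) -/

theorem z2_ext {K Ω M : Type*} [Field K] [Field Ω] [Field M] [Algebra K Ω] [Algebra.IsAlgebraic K Ω]
    [IsAlgClosed M] (f : K →+* M) : ∃ σ : Ω →+* M, ∀ x : K, σ (algebraMap K Ω x) = f x := by
  let _ : Algebra K M := f.toAlgebra
  refine ⟨(IsAlgClosed.lift : Ω →ₐ[K] M).toRingHom, fun x => ?_⟩
  exact (IsAlgClosed.lift : Ω →ₐ[K] M).commutes x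

theorem emb (F : IntermediateField ℚ ℂ) (n : ℕ) (y y' : Fin n → ℂ) (hy : AlgebraicIndependent F y)
    (hy' : AlgebraicIndependent F y') (Ω : IntermediateField ℚ ℂ)
    (hΩ : ∀ z : ℂ, z ∈ Ω ↔ IsAlgebraic (IntermediateField.adjoin F (Set.range y)) z) :
    ∃ σ : Ω →+* ℂ, (∀ z : Ω, (z : ℂ) ∈ F → σ z = z) ∧ ∀ (i : Fin n) (z : Ω), (z : ℂ) = y i →
      σ z = y' i := by
  classical
  set L := IntermediateField.adjoin F (Set.range y) with hL
  have hLΩ : ∀ x : L, (x : ℂ) ∈ Ω := fun x =>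
    (hΩ x).2 (isAlgebraic_algebraMap (R := L) (A := ℂ) x)
  let ι : L →+* Ω := RingHom.codRestrict (algebraMap L ℂ) Ω.toSubfield hLΩ
  let _ : Algebra L Ω := ι.toAlgebra
  have hι : ∀ x : L, ((algebraMap L Ω x : Ω) : ℂ) = x := fun x => rfl
  have _ : IsScalarTower L Ω ℂ := IsScalarTower.of_algebraMap_eq (fun _ => rfl)
  have _ : Algebra.IsAlgebraic L Ω := by
    constructor
    intro z
    have h1 : IsAlgebraic L ((z : Ω) : ℂ) := (hΩ z).1 z.2
    exact (isAlgebraic_algebraMap_iff (algebraMap Ω ℂ).injective).1 h1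
  let e : L ≃ₐ[F] FractionRing (MvPolynomial (Fin n) F) := hy.aevalEquivField.symm
  let e' : FractionRing (MvPolynomial (Fin n) F) ≃ₐ[F] IntermediateField.adjoin F (Set.range y') :=
    hy'.aevalEquivField
  let f : L →+* ℂ := ((algebraMap (IntermediateField.adjoin F (Set.range y')) ℂ).comp
    (e'.toAlgHom.toRingHom)).comp (e.toAlgHom.toRingHom)
  obtain ⟨σ, hσ⟩ := z2_ext (K := L) (Ω := Ω) (M := ℂ) f
  refine ⟨σ, fun z hz => ?_, fun i z hz => ?_⟩
  · have h1 : z = algebraMap L Ω (algebraMap F L ⟨z, hz⟩) := Subtype.ext rfl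
    have h2 : f (algebraMap F L ⟨z, hz⟩) = (z : ℂ) := by
      have h3 : e (algebraMap F L ⟨z, hz⟩) = algebraMap F _ ⟨z, hz⟩ := e.commutes _
      have h4 : e' (algebraMap F _ ⟨z, hz⟩) = algebraMap F _ ⟨z, hz⟩ := e'.commutes _
      change ((e' (e (algebraMap F L ⟨z, hz⟩)) : IntermediateField.adjoin F (Set.range y')) : ℂ) = z
      rw [h3, h4]
      rfl
    rw [h1, hσ, h2]
    rfl
  · have hyi : y i ∈ L := IntermediateField.subset_adjoin F _ ⟨i, rfl⟩
    have h1 : z = algebraMap L Ω ⟨y i, hyi⟩ := Subtype.ext hz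
    have h2 : f ⟨y i, hyi⟩ = y' i := by
      have h3 : e ⟨y i, hyi⟩ = algebraMap (MvPolynomial (Fin n) F) _ (MvPolynomial.X i) := by
        change hy.aevalEquivField.symm _ = _
        rw [AlgEquiv.symm_apply_eq]
        apply Subtype.ext
        rw [hy.aevalEquivField_algebraMap_apply_coe]
        simp
      change ((e' (e ⟨y i, hyi⟩) : IntermediateField.adjoin F (Set.range y')) : ℂ) = y' i
      rw [h3]
      change ((hy'.aevalEquivField _ : IntermediateField.adjoin F (Set.range y')) : ℂ) = y' i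
      rw [hy'.aevalEquivField_algebraMap_apply_coe]
      simp
    rw [h1, hσ, h2]

end GAV
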