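import Pool.Agent.GAV.Z1b
import Pool.Agent.GAV.Z2

set_option autoImplicit false

open LTD

namespace GAV

/-! ## [GAV-Z3] independent fields over an algebraically closed field are linearly disjoint (file Z3.lean)

`basis_through`: `δ = rk F S ≥ 1` (since `c` is algebraic over `F(S)` and not in `F = ` its algebraic closure: `rk_zero`/`le_rk`). The family `(c)` is algebraically independent over `F` (`c` is transcendental over `F` by `Clo F`), contained in the field `Ω₀` = algebraic closure of `F(S)`; extend it to a transcendence basis of `Ω₀` over `F` (Mathlib: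
`exists_isTranscendenceBasis_superset` or similar); its cardinality is `δ` (`rk_basis`: `S` has a basis of cardinality `δ`, also a transcendence basis of `Ω₀`; all transcendence bases have the same cardinality); number it so that `c` is the first. Alternatively: exchange lemma (`c` is algebraic over `F(y)`, `y` from `rk_basis`, choose a minimal
initial segment `y_0..y_i` over which `c` is algebraic; then `y_i` is algebraic over `F(y_0..y_{i-1}, c)`), then `indep_of_rk`.
`lin_disj`: induction on `n`, for fixed `F, E, S`. Suppose some `c_i ≠ 0`; dividing by it assume `c_i = 1` (the quotients are still algebraic over `F(S)`). CLAIM: every `c_j ∈ F`; then `∑ c_j b_j = 0` is a linear relation over `F`, so all `c_j = 0`: contradiction. Proof of the claim: suppose `c_{j₀} ∉ F`. Let `y` from `basis_through` with `y 0 = c_{j₀}`;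
`y` is independent over `E`: `S` is algebraic over `F(y)`, so over `E(y)`, so `rk E (range y) ≥ rk E S ≥ rk F S = δ` (`rk_mono`), `indep_of_rk`. `y' = y` except `y' 0 = y 0 + 1`: also independent over `E` (`y` is algebraic over `E(y')`, `rk_mono`, `indep_of_rk`). `Ω` = algebraic closure of `E(y)` (`clo_adjoin`-like, the membership is what is needed:
e.g. `(algebraicClosure L ℂ).restrictScalars ℚ`), `σ` from `emb`. `b_j ∈ E`: `σ b_j = b_j`. `𝓛` = algebraic closure of `F(y)` = algebraic closure of `F(S)`, contained in `Ω`, `σ(𝓛) ⊆ 𝓛` (`σ z` is a root of the image polynomial, whose coefficients are in the algebraic closure of `F(y') ⊆ 𝓛`). Apply `σ` to `∑ b_j c_j = 0` and subtract: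
`∑_{j ≠ i} b_j (σ c_j - c_j) = 0` (`σ 1 = 1`), with coefficients algebraic over `F(S)`; by the induction hypothesis (`n - 1` terms, `Fin.succAbove`) all `σ c_j = c_j`, but `σ c_{j₀} = c_{j₀} + 1`. -/

/-- the algebraic closure of `F(S)` in `ℂ` -/
noncomputable def z3_acl (F : IntermediateField ℚ ℂ) (S : Set ℂ) : IntermediateField ℚ ℂ :=
  (algebraicClosure (IntermediateField.adjoin F S) ℂ).restrictScalars ℚ

theorem z3_mem (F : IntermediateField ℚ ℂ) (S : Set ℂ) (z : ℂ) :
    z ∈ z3_acl F S ↔ IsAlgebraic (IntermediateField.adjoin F S) z :=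
  mem_algebraicClosure_iff

theorem z3_clo (F : IntermediateField ℚ ℂ) (S : Set ℂ) : Clo (z3_acl F S) := by
  intro z hz
  rw [z3_mem]
  have h6 : IsAlgebraic (algebraicClosure (IntermediateField.adjoin F S) ℂ) z := hz
  exact h6.restrictScalars (IntermediateField.adjoin F S)

theorem z3_base (F : IntermediateField ℚ ℂ) (S : Set ℂ) : F ≤ z3_acl F S := by
  intro z hz
  rw [z3_mem]
  exact isAlgebraic_algebraMap (algebraMap F (IntermediateField.adjoin F S) ⟨z, hz⟩)

theorem z3_sub (F : IntermediateField ℚ ℂ) (S : Set ℂ) {z : ℂ} (hz : z ∈ S) : z ∈ z3_acl F S := by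
  rw [z3_mem]
  exact isAlgebraic_algebraMap
    (⟨z, IntermediateField.subset_adjoin F S hz⟩ : IntermediateField.adjoin F S)

theorem z3_min (F : IntermediateField ℚ ℂ) (S : Set ℂ) (Ω : IntermediateField ℚ ℂ) (hΩ : Clo Ω)
    (hF : F ≤ Ω) (hS : ∀ z ∈ S, z ∈ Ω) : z3_acl F S ≤ Ω := by
  intro z hz
  rw [z3_mem] at hz
  have h1 : IntermediateField.adjoin F S ≤ IntermediateField.extendScalars hF := by
    rw [IntermediateField.adjoin_le_iff]
    exact hS
  apply hΩ
  let f : IntermediateField.adjoin F S →+* Ω := (IntermediateField.inclusion h1).toRingHom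
  let _ : Algebra (IntermediateField.adjoin F S) Ω := f.toAlgebra
  have _ : IsScalarTower (IntermediateField.adjoin F S) Ω ℂ :=
    IsScalarTower.of_algebraMap_eq (fun _ => rfl)
  exact IsAlgebraic.extendScalars (R := IntermediateField.adjoin F S)
    (algebraMap (IntermediateField.adjoin F S) Ω).injective hz

theorem z3_mono (F E : IntermediateField ℚ ℂ) (hFE : F ≤ E) (S T : Set ℂ)
    (hS : ∀ z ∈ S, z ∈ z3_acl E T) : z3_acl F S ≤ z3_acl E T :=
  z3_min F S _ (z3_clo E T) (hFE.trans (z3_base E T)) hS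

theorem basis_through (F : IntermediateField ℚ ℂ) (hF : Clo F) (S : Set ℂ) (hS : S.Finite) (c : ℂ)
    (hc : IsAlgebraic (IntermediateField.adjoin F S) c) (hc' : c ∉ F) :
    ∃ (n : ℕ) (y : Fin (n + 1) → ℂ), n + 1 = rk F S ∧ y 0 = c ∧ AlgebraicIndependent F y ∧
      (∀ i, IsAlgebraic (IntermediateField.adjoin F S) (y i)) ∧
      ∀ z : ℂ, IsAlgebraic (IntermediateField.adjoin F S) z →
        IsAlgebraic (IntermediateField.adjoin F (Set.range y)) z := by
  have hcS : c ∈ z3_acl F S := (z3_mem F S c).2 hc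
  -- the algebraic closure of `F(c)`
  set E := z3_acl F {c} with hE
  have hFE : F ≤ E := z3_base F {c}
  have h1 : rk F ({c} ∪ S) = rk F {c} + rk E S :=
    rk_add F E hFE {c} S (Set.finite_singleton c) hS (z3_mem F {c})
  have h2 : rk F {c} = 1 := by
    have h3 : rk F {c} ≤ 1 := by
      refine rk_le F 1 (fun _ => c) {c} ?_
      intro z hz
      rw [Set.mem_singleton_iff] at hz
      subst hz
      rw [← z3_mem]
      exact z3_sub F _ ⟨0, rfl⟩
    have h4 : rk F {c} ≠ 0 := by
      intro h5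
      rw [rk_zero F hF {c} (Set.finite_singleton c)] at h5
      exact hc' (h5 rfl)
    omega
  have h3 : rk F ({c} ∪ S) ≤ rk F S := by
    refine rk_mono F _ S ((Set.finite_singleton c).union hS) hS ?_
    intro z hz
    rcases hz with hz | hz
    · rw [Set.mem_singleton_iff] at hz
      subst hz
      exact hc
    · rw [← z3_mem]
      exact z3_sub F S hz
  obtain ⟨y', a1, a2, a3⟩ := rk_basis E S hS
  let y : Fin (rk E S + 1) → ℂ := Fin.cons c y'
  have hy0 : y 0 = c := rfl
  have hyS : ∀ i : Fin (rk E S), y i.succ = y' i := fun i => rfl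
  have hy1 : ∀ i, y i ∈ z3_acl F S := by
    intro i
    refine Fin.cases ?_ (fun j => ?_) i
    · exact hcS
    · exact z3_sub F S (a1 j)
  -- everything in `S` is algebraic over `F(y)`
  have hEy : E ≤ z3_acl F (Set.range y) := by
    apply z3_mono F F le_rfl
    intro z hz
    rw [Set.mem_singleton_iff] at hz
    subst hz
    exact z3_sub F _ ⟨0, rfl⟩
  have hSy : ∀ z ∈ S, z ∈ z3_acl F (Set.range y) := by
    intro z hz
    have h4 : z ∈ z3_acl E (Set.range y') := (z3_mem _ _ _).2 (a3 z hz)
    refine z3_min E (Set.range y') _ (z3_clo F _) hEy ?_ h4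
    rintro _ ⟨i, rfl⟩
    exact z3_sub F _ ⟨i.succ, rfl⟩
  have h5 : rk F S ≤ rk F (Set.range y) :=
    rk_mono F S (Set.range y) hS (Set.finite_range y) fun z hz => (z3_mem _ _ _).1 (hSy z hz)
  have h6 : rk F (Set.range y) ≤ rk E S + 1 := by
    refine rk_le F _ y _ ?_
    rintro _ ⟨i, rfl⟩
    rw [← z3_mem]
    exact z3_sub F _ ⟨i, rfl⟩
  have h7 : rk F S ≤ rk F ({c} ∪ S) := by
    refine rk_mono F S _ hS ((Set.finite_singleton c).union hS) ?_
    intro z hz
    rw [← z3_mem]
    exact z3_sub F _ (Or.inr hz)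
  refine ⟨rk E S, y, by omega, hy0, ?_, ?_, ?_⟩
  · exact indep_of_rk F _ y (by omega)
  · exact fun i => (z3_mem _ _ _).1 (hy1 i)
  · intro z hz
    rw [← z3_mem] at hz ⊢
    exact z3_mono F F le_rfl S (Set.range y) hSy hz

/-- An embedding which fixes `F` and maps `y` into the algebraically closed field `M` maps
everything algebraic over `F(y)` into `M`. -/
theorem z3_map (F : IntermediateField ℚ ℂ) {n : ℕ} (y : Fin n → ℂ) (Ω M : IntermediateField ℚ ℂ)
    (hΩ : Clo Ω) (hM : Clo M) (hFM : F ≤ M) (hFΩ : F ≤ Ω) (σ : Ω →+* ℂ)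
    (hσ : ∀ z : Ω, (z : ℂ) ∈ F → σ z = z) (hy : ∀ (i : Fin n) (z : Ω), (z : ℂ) = y i → σ z ∈ M)
    (hyΩ : ∀ i, y i ∈ Ω) (z : Ω) (hz : (z : ℂ) ∈ z3_acl F (Set.range y)) : σ z ∈ M := by
  let K : Subfield ℂ := ((M.toSubfield).comap σ).map (algebraMap Ω ℂ)
  have hK : ∀ w : ℂ, w ∈ K ↔ ∃ h : w ∈ Ω, σ ⟨w, h⟩ ∈ M := by
    intro w
    constructor
    · rintro ⟨v, hv, rfl⟩
      exact ⟨v.2, hv⟩
    · rintro ⟨h, h'⟩
      exact ⟨⟨w, h⟩, h', rfl⟩
  let K' : IntermediateField ℚ ℂ := K.toIntermediateField (fun x => by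
    rw [eq_ratCast]
    exact SubfieldClass.ratCast_mem K x)
  have hK' : ∀ w : ℂ, w ∈ K' ↔ ∃ h : w ∈ Ω, σ ⟨w, h⟩ ∈ M := hK
  let τ : K' →+* M := {
    toFun := fun w => ⟨σ ⟨w, ((hK' w).1 w.2).choose⟩, ((hK' w).1 w.2).choose_spec⟩
    map_one' := Subtype.ext (map_one σ)
    map_zero' := Subtype.ext (map_zero σ)
    map_mul' := fun a b => Subtype.ext (map_mul σ ⟨a, ((hK' a).1 a.2).choose⟩
      ⟨b, ((hK' b).1 b.2).choose⟩)
    map_add' := fun a b => Subtype.ext (map_add σ ⟨a, ((hK' a).1 a.2).choose⟩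
      ⟨b, ((hK' b).1 b.2).choose⟩) }
  have hclo : Clo K' := by
    intro w hw
    -- `w` is in `Ω`
    have hle : K' ≤ Ω := fun v hv => ((hK' v).1 hv).choose
    have hwΩ : w ∈ Ω := by
      apply hΩ
      let _ : Algebra K' Ω := (IntermediateField.inclusion hle).toRingHom.toAlgebra
      have _ : IsScalarTower K' Ω ℂ := IsScalarTower.of_algebraMap_eq (fun _ => rfl)
      exact IsAlgebraic.extendScalars (R := K') (algebraMap K' Ω).injective hw
    rw [hK']
    refine ⟨hwΩ, ?_⟩
    apply hM
    obtain ⟨p, hp0, hp⟩ := hw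
    refine ⟨p.map τ, ?_, ?_⟩
    · rwa [Ne, Polynomial.map_eq_zero]
    · let ι : K' →+* Ω := (IntermediateField.inclusion hle).toRingHom
      have e1 : Polynomial.eval₂ ι (⟨w, hwΩ⟩ : Ω) p = 0 := by
        apply Subtype.ext
        have e2 := Polynomial.hom_eval₂ p ι (algebraMap Ω ℂ) (⟨w, hwΩ⟩ : Ω)
        change (algebraMap Ω ℂ) (Polynomial.eval₂ ι (⟨w, hwΩ⟩ : Ω) p) = 0
        rw [e2]
        rw [Polynomial.aeval_def] at hp
        exact hp
      have e3 := Polynomial.hom_eval₂ p ι σ (⟨w, hwΩ⟩ : Ω)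
      rw [e1, map_zero] at e3
      rw [Polynomial.aeval_def, Polynomial.eval₂_map]
      exact e3.symm
  have h1 : z3_acl F (Set.range y) ≤ K' := by
    apply z3_min F _ K' hclo
    · intro w hw
      rw [hK']
      refine ⟨hFΩ hw, ?_⟩
      rw [hσ ⟨w, hFΩ hw⟩ hw]
      exact hFM hw
    · rintro _ ⟨i, rfl⟩
      rw [hK']
      exact ⟨hyΩ i, hy i ⟨y i, hyΩ i⟩ rfl⟩
  obtain ⟨_, h3⟩ := (hK' z).1 (h1 hz)
  exact h3

theorem lin_disj (F E : IntermediateField ℚ ℂ) (hF : Clo F) (hFE : F ≤ E) (S : Set ℂ)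
    (hS : S.Finite) (h : rk F S ≤ rk E S) (n : ℕ) (b c : Fin n → ℂ) (hb : ∀ i, b i ∈ E)
    (hc : ∀ i, IsAlgebraic (IntermediateField.adjoin F S) (c i)) (hli : LinearIndependent F b)
    (h0 : ∑ i, b i * c i = 0) : ∀ i, c i = 0 := by
  induction n with
  | zero => exact fun i => i.elim0
  | succ n ih =>
    by_contra hcon
    push Not at hcon
    obtain ⟨i, hi⟩ := hcon
    set M := z3_acl F S with hM
    have hcM : ∀ j, c j ∈ M := fun j => (z3_mem F S _).2 (hc j)
    -- normalise
    let c' : Fin (n + 1) → ℂ := fun j => c j / c i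
    have hc'M : ∀ j, c' j ∈ M := fun j => div_mem (hcM j) (hcM i)
    have hc'i : c' i = 1 := div_self hi
    have h0' : ∑ j, b j * c' j = 0 := by
      have e1 : ∑ j, b j * c' j = (∑ j, b j * c j) / c i := by
        rw [Finset.sum_div]
        exact Finset.sum_congr rfl fun j _ => by simp only [c']; ring
      rw [e1, h0, zero_div]
    -- the claim
    have claim : ∀ j, c' j ∈ F := by
      by_contra hcl
      push Not at hcl
      obtain ⟨j₀, hj₀⟩ := hcl
      obtain ⟨m, y, hm, hy0, hyi, hyM, hyS⟩ :=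
        basis_through F hF S hS (c' j₀) ((z3_mem _ _ _).1 (hc'M j₀)) hj₀
      have hFS : z3_acl F S ≤ z3_acl F (Set.range y) := fun z hz =>
        (z3_mem _ _ _).2 (hyS z ((z3_mem _ _ _).1 hz))
      have hFS' : z3_acl F (Set.range y) ≤ z3_acl F S := by
        apply z3_mono F F le_rfl
        rintro _ ⟨k, rfl⟩
        exact (z3_mem _ _ _).2 (hyM k)
      have hFE' : z3_acl F (Set.range y) ≤ z3_acl E (Set.range y) :=
        z3_mono F E hFE _ _ fun z hz => z3_sub E _ hz
      have hrk : m + 1 ≤ rk E (Set.range y) := by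
        refine hm.le.trans (h.trans ?_)
        refine rk_mono E S (Set.range y) hS (Set.finite_range y) ?_
        intro z hz
        exact (z3_mem _ _ _).1 (hFE' (hFS (z3_sub F S hz)))
      have hyE : AlgebraicIndependent E y := indep_of_rk E _ y hrk
      let y' : Fin (m + 1) → ℂ := Function.update y 0 (y 0 + 1)
      have hy'0 : y' 0 = y 0 + 1 := Function.update_self _ _ _
      have hy'k : ∀ k, k ≠ 0 → y' k = y k := fun k hk => Function.update_of_ne hk _ _
      have hyy' : ∀ k, y k ∈ z3_acl E (Set.range y') := by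
        intro k
        by_cases hk : k = 0
        · subst hk
          have h2 : y' 0 ∈ z3_acl E (Set.range y') := z3_sub E _ ⟨0, rfl⟩
          have h3 : y 0 = y' 0 - 1 := by rw [hy'0]; ring
          rw [h3]
          exact sub_mem h2 (one_mem _)
        · rw [← hy'k k hk]
          exact z3_sub E _ ⟨k, rfl⟩
      have hrk' : m + 1 ≤ rk E (Set.range y') := by
        refine hrk.trans ?_
        refine rk_mono E _ _ (Set.finite_range y) (Set.finite_range y') ?_
        rintro _ ⟨k, rfl⟩
        exact (z3_mem _ _ _).1 (hyy' k)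
      have hy'E : AlgebraicIndependent E y' := indep_of_rk E _ y' hrk'
      set Ω := z3_acl E (Set.range y) with hΩ
      obtain ⟨σ, hσ1, hσ2⟩ := emb E (m + 1) y y' hyE hy'E Ω (z3_mem E (Set.range y))
      have hMΩ : M ≤ Ω := hFS.trans hFE'
      have hσM : ∀ z : Ω, (z : ℂ) ∈ M → σ z ∈ M := by
        intro z hz
        refine z3_map F y Ω M (z3_clo _ _) (z3_clo _ _) (z3_base _ _)
          (hFE.trans (z3_base _ _)) σ ?_ ?_ ?_ z (hFS hz)
        · intro w hw
          exact hσ1 w (hFE hw)
        · intro k w hw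
          rw [hσ2 k w hw]
          have h4 : y k ∈ M := hFS' (z3_sub F _ ⟨k, rfl⟩)
          by_cases hk : k = 0
          · subst hk
            rw [hy'0]
            exact add_mem h4 (one_mem _)
          · rw [hy'k k hk]
            exact h4
        · intro k
          exact z3_sub E _ ⟨k, rfl⟩
      -- apply `σ`
      let cΩ : Fin (n + 1) → Ω := fun j => ⟨c' j, hMΩ (hc'M j)⟩
      have hbΩ : ∀ j, b j ∈ Ω := fun j => z3_base E _ (hb j)
      let bΩ : Fin (n + 1) → Ω := fun j => ⟨b j, hbΩ j⟩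
      have h5 : ∑ j, bΩ j * cΩ j = 0 := by
        apply Subtype.ext
        have h6 : ((∑ j, bΩ j * cΩ j : Ω) : ℂ) = ∑ j, b j * c' j := by
          rw [IntermediateField.coe_sum]
          rfl
        rw [h6, h0']
        rfl
      have h6 : ∑ j, b j * σ (cΩ j) = 0 := by
        have h7 := congrArg σ h5
        rw [map_sum, map_zero] at h7
        rw [← h7]
        refine Finset.sum_congr rfl fun j _ => ?_
        rw [map_mul, hσ1 (bΩ j) (hb j)]
      have h7 : ∑ j, b j * (σ (cΩ j) - c' j) = 0 := by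
        have e1 : ∑ j, b j * (σ (cΩ j) - c' j) = ∑ j, b j * σ (cΩ j) - ∑ j, b j * c' j := by
          rw [← Finset.sum_sub_distrib]
          exact Finset.sum_congr rfl fun j _ => by ring
        rw [e1, h6, h0', sub_zero]
      have hσi : σ (cΩ i) = c' i := by
        have e1 : cΩ i = 1 := Subtype.ext hc'i
        rw [e1, map_one, hc'i]
      rw [Fin.sum_univ_succAbove _ i, hσi, sub_self, mul_zero, zero_add] at h7
      have h8 := ih (fun j => b (i.succAbove j)) (fun j => σ (cΩ (i.succAbove j)) -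
        c' (i.succAbove j)) (fun j => hb _) (fun j => (z3_mem _ _ _).1
          (sub_mem (hσM _ (hc'M _)) (hc'M _)))
        (hli.comp _ (Fin.succAbove_right_injective)) h7
      have h9 : σ (cΩ j₀) = c' j₀ := by
        by_cases hj : j₀ = i
        · rw [hj, hσi]
        · obtain ⟨j, rfl⟩ := Fin.exists_succAbove_eq hj
          exact sub_eq_zero.1 (h8 j)
      have h10 : σ (cΩ j₀) = c' j₀ + 1 := by
        rw [hσ2 0 (cΩ j₀) hy0.symm, hy'0, hy0]
      rw [h9] at h10
      exact one_ne_zero (left_eq_add.1 h10)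
    -- linear independence
    rw [Fintype.linearIndependent_iff] at hli
    have h2 := hli (fun j => ⟨c' j, claim j⟩) (by
      rw [← h0']
      refine Finset.sum_congr rfl fun j _ => ?_
      change c' j * b j = b j * c' j
      ring) i
    have h3 : c' i = 0 := congrArg Subtype.val h2
    rw [hc'i] at h3
    exact one_ne_zero h3

end GAV
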