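import Pool.Agent.GAV.Z5

set_option autoImplicit false

open LTD MvPolynomial

namespace GAV

variable {g N κ : ℕ} {k : IntermediateField ℚ ℂ}

/-! ## [GAV-Z9] generic points have rank `g` (file Z9.lean)

Choose `b` with `θ_b(v) ≠ 0`; near `v` let `f_a(z) = θ_a(z)/θ_b(z)`. The derivative of `(f_a)_a` at `v` is injective on `ℂ^g`: if it kills `u` then `(Dθ u)_a θ_b = θ_a (Dθ u)_b` for all `a`, `Dθ(v) u = c θ(v)`, so `u = 0` by `A.imm`. So the `N + 1` linear forms `Df_a(v)` have no common zero, they span the dual of `ℂ^g`, and one can choose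
`a : Fin g → Fin (N+1)` such that the `Df_{a_i}(v)` are linearly independent (as in the proof of `ELT.box_coset`: `exists_linearIndependent'` for the family in the dual, dimension `g`). `G(z) = (f_{a_i}(z))_i : ℂ^g → ℂ^g` is analytic near `v` (quotient of `ContDiff`/differentiable functions, strict derivative: `ContDiffAt.hasStrictFDerivAt`)
with invertible derivative, so `G` maps neighbourhoods of `v` to neighbourhoods of `G v` (`HasStrictFDerivAt.map_nhds_eq_of_surj` / `map_nhds_eq_of_equiv`). CLAIM: `G v` is algebraically independent over `F`; then `le_rk` (`f_{a_i}(v) ∈ A.rat v`). Suppose `P ∈ F[Y_1..Y_g]`, `P ≠ 0`, `P(G v) = 0`. With `n = P.totalDegree` let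
`h = ∑_{m ∈ supp P} coeff_m ∏_i X_{a_i}^{m_i} · X_b^{n - |m|}`, homogeneous of degree `n`; `h(θ z) = θ_b(z)^n P(G z)` if `θ_b(z) ≠ 0`. So `h(θ v) = 0`, by the hypothesis `h(θ z) = 0` for all `z`, so `P(G z) = 0` for `z` near `v`, so `P` vanishes on a neighbourhood of `G v`, which contains a product of discs (infinite sets): `P = 0`
(`MvPolynomial.funext_set` or `MvPolynomial.funext` after a translation; map `P` to `ℂ[Y]`, injective). -/

/-- the derivative of a polynomial in the functions `G i` -/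
theorem z9_fderiv {n : ℕ} {F : IntermediateField ℚ ℂ} {G : (Fin g → ℂ) → Fin n → ℂ} {v : Fin g → ℂ}
    {L : Fin n → (Fin g → ℂ) →L[ℂ] ℂ} (hG : ∀ i, HasFDerivAt (fun z => G z i) (L i) v)
    (P : MvPolynomial (Fin n) F) :
    HasFDerivAt (fun z => aeval (G z) P) (∑ i, (aeval (G v) (pderiv i P) : ℂ) • L i) v := by
  classical
  induction P using MvPolynomial.induction_on with
  | C c =>
    have h1 : (fun z : Fin g → ℂ => aeval (G z) (C c : MvPolynomial (Fin n) F)) = fun _ => algebraMap F ℂ c := by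
      funext z
      rw [aeval_C]
    have h2 : (∑ i, (aeval (G v) (pderiv i (C c : MvPolynomial (Fin n) F)) : ℂ) • L i) = 0 := by
      refine Finset.sum_eq_zero fun i _ => ?_
      rw [pderiv_C, map_zero]
      exact zero_smul ℂ (L i)
    rw [h1, h2]
    exact hasFDerivAt_const _ _
  | add p q hp hq =>
    have h1 : (fun z : Fin g → ℂ => aeval (G z) (p + q)) = fun z => aeval (G z) p + aeval (G z) q := by
      funext z
      rw [map_add]
    have h2 : (∑ i, (aeval (G v) (pderiv i (p + q)) : ℂ) • L i) =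
        (∑ i, (aeval (G v) (pderiv i p) : ℂ) • L i) + ∑ i, (aeval (G v) (pderiv i q) : ℂ) • L i := by
      rw [← Finset.sum_add_distrib]
      refine Finset.sum_congr rfl fun i _ => ?_
      rw [map_add, map_add]
      exact add_smul _ _ (L i)
    rw [h1, h2]
    exact hp.add hq
  | mul_X p j hp =>
    have h1 : (fun z : Fin g → ℂ => aeval (G z) (p * X j)) = fun z => aeval (G z) p * G z j := by
      funext z
      rw [map_mul, aeval_X]
    have h2 : (∑ i, (aeval (G v) (pderiv i (p * X j)) : ℂ) • L i) =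
        (aeval (G v) p : ℂ) • L j + (G v j) • ∑ i, (aeval (G v) (pderiv i p) : ℂ) • L i := by
      have h3 : ∀ i, (aeval (G v) (pderiv i (p * X j)) : ℂ) • L i =
          (if i = j then (aeval (G v) p : ℂ) • L j else 0) + (G v j) • ((aeval (G v) (pderiv i p) : ℂ) • L i) := by
        intro i
        by_cases hij : i = j
        · subst hij
          rw [if_pos rfl, pderiv_mul, pderiv_X_self, mul_one, map_add, map_mul, aeval_X, mul_comm, add_comm]
          exact (add_smul _ _ (L i)).trans (congrArg _ (mul_smul _ _ (L i)))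
        · rw [if_neg hij, pderiv_mul, pderiv_X_of_ne (fun h => hij h.symm), mul_zero, add_zero, map_mul, aeval_X,
            zero_add, mul_comm, mul_smul]
      rw [Finset.sum_congr rfl fun i _ => h3 i, Finset.sum_add_distrib, Finset.sum_ite_eq' Finset.univ j,
        if_pos (Finset.mem_univ j), Finset.smul_sum]
    rw [h1, h2]
    exact hp.mul (hG j)

/-- homogenisation: an algebraic relation between quotients of coordinates at `v` holds everywhere -/
theorem z9_hom {n : ℕ} (A : AV g N κ k) (F : IntermediateField ℚ ℂ) (v : Fin g → ℂ) (h : ∀ z, z ∈ A.V F v)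
    (b : Fin (N + 1)) (hb : A.θ v b ≠ 0) (a : Fin n → Fin (N + 1)) (d : ℕ) (P : MvPolynomial (Fin n) F)
    (hP : ∀ m ∈ P.support, ∑ i, m i ≤ d) (h0 : aeval (fun i => A.θ v (a i) / A.θ v b) P = 0)
    (z : Fin g → ℂ) (hz : A.θ z b ≠ 0) : aeval (fun i => A.θ z (a i) / A.θ z b) P = 0 := by
  classical
  obtain ⟨H, hH⟩ : ∃ H : MvPolynomial (Fin (N + 1)) F, H = ∑ m ∈ P.support,
      C (coeff m P) * ((∏ i, X (a i) ^ (m i)) * X b ^ (d - ∑ i, m i)) := ⟨_, rfl⟩
  have hhom : H.IsHomogeneous d := by
    rw [hH]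
    refine IsHomogeneous.sum _ _ _ fun m hm => ?_
    have h1 : (∏ i, (X (a i) : MvPolynomial (Fin (N + 1)) F) ^ (m i)).IsHomogeneous (∑ i, m i) :=
      IsHomogeneous.prod _ _ _ fun i _ => isHomogeneous_X_pow (a i) (m i)
    have h2 := (isHomogeneous_C (Fin (N + 1)) (coeff m P)).mul (h1.mul (isHomogeneous_X_pow b (d - ∑ i, m i)))
    have h3 : 0 + (∑ i, m i + (d - ∑ i, m i)) = d := by
      have := hP m hm
      omega
    rwa [h3] at h2
  have key : ∀ z : Fin g → ℂ, A.θ z b ≠ 0 →
      aeval (A.θ z) H = (A.θ z b) ^ d * aeval (fun i => A.θ z (a i) / A.θ z b) P := by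
    intro z hz
    rw [hH, map_sum, aeval_def (fun i => A.θ z (a i) / A.θ z b), eval₂_eq', Finset.mul_sum]
    refine Finset.sum_congr rfl fun m hm => ?_
    have h3 := hP m hm
    rw [map_mul, map_mul, map_pow, aeval_C, aeval_X, map_prod]
    have h4 : ∏ i, aeval (A.θ z) ((X (a i) : MvPolynomial (Fin (N + 1)) F) ^ (m i)) = ∏ i, A.θ z (a i) ^ (m i) :=
      Finset.prod_congr rfl fun i _ => by rw [map_pow, aeval_X]
    have h5 : ∏ i, (A.θ z (a i) / A.θ z b) ^ (m i) = (∏ i, A.θ z (a i) ^ (m i)) / A.θ z b ^ (∑ i, m i) := by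
      rw [← Finset.prod_pow_eq_pow_sum, ← Finset.prod_div_distrib]
      exact Finset.prod_congr rfl fun i _ => div_pow _ _ _
    have h6 : A.θ z b ^ d = A.θ z b ^ (∑ i, m i) * A.θ z b ^ (d - ∑ i, m i) := by
      rw [← pow_add]
      congr 1
      omega
    rw [h4, h5, h6]
    have h7 : A.θ z b ^ (∑ i, m i) ≠ 0 := pow_ne_zero _ hz
    field_simp
  have h1 : aeval (A.θ v) H = 0 := by rw [key v hb, h0, mul_zero]
  have h2 := h z H d hhom h1
  rw [key z hz] at h2
  exact (mul_eq_zero.1 h2).resolve_left (pow_ne_zero _ hz)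

/-- a polynomial all of whose derivatives vanish is constant -/
theorem z9_const {n : ℕ} {F : IntermediateField ℚ ℂ} (P : MvPolynomial (Fin n) F)
    (h : ∀ i, pderiv i P = 0) : P = C (coeff 0 P) := by
  classical
  ext m
  rw [coeff_C]
  split_ifs with h0
  · rw [h0]
  · obtain ⟨i, hi⟩ : ∃ i, m i ≠ 0 := by
      by_contra hcon
      push Not at hcon
      exact h0 (Finsupp.ext fun i => (hcon i).symm)
    have h1 := coeff_pderiv (i := i) P (m - Finsupp.single i 1)
    rw [h i, coeff_zero] at h1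
    have h2 : m - Finsupp.single i 1 + Finsupp.single i 1 = m := by
      refine tsub_add_cancel_of_le ?_
      rw [Finsupp.single_le_iff]
      omega
    rw [h2] at h1
    rcases mul_eq_zero.1 h1.symm with h3 | h3
    · rw [h3]
    · exfalso
      have h4 : (((m - Finsupp.single i 1 : Fin n →₀ ℕ) i + 1 : ℕ) : F) = 0 := by
        push_cast
        exact_mod_cast h3
      rw [Nat.cast_eq_zero] at h4
      omega

theorem z9_ind {n : ℕ} (A : AV g N κ k) (F : IntermediateField ℚ ℂ) (v : Fin g → ℂ) (h : ∀ z, z ∈ A.V F v)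
    (b : Fin (N + 1)) (hb : A.θ v b ≠ 0) (a : Fin n → Fin (N + 1)) (L : Fin n → (Fin g → ℂ) →L[ℂ] ℂ)
    (hL : ∀ i, HasFDerivAt (fun z => A.θ z (a i) / A.θ z b) (L i) v) (hli : LinearIndependent ℂ L) :
    ∀ (d : ℕ) (P : MvPolynomial (Fin n) F), (∀ m ∈ P.support, ∑ i, m i ≤ d) →
      aeval (fun i => A.θ v (a i) / A.θ v b) P = 0 → P = 0 := by
  classical
  have hcont : ∀ᶠ z in nhds v, A.θ z b ≠ 0 := by
    have h1 : Continuous fun z => A.θ z b := (continuous_apply b).comp A.diff.continuous
    exact h1.continuousAt.eventually_ne hb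
  intro d
  induction d with
  | zero =>
    intro P hP h0
    have h1 : P = C (coeff 0 P) := by
      ext m
      rw [coeff_C]
      split_ifs with hm
      · rw [hm]
      · by_contra hc
        have h2 := hP m (mem_support_iff.2 fun h => hc (congrArg _ h))
        refine hm (Finsupp.ext fun i => ?_)
        have h3 : m i ≤ ∑ i, m i := Finset.single_le_sum (fun _ _ => Nat.zero_le _) (Finset.mem_univ i)
        rw [Finsupp.zero_apply]
        omega
    rw [h1, aeval_C] at h0
    have h2 : coeff 0 P = 0 := (map_eq_zero (algebraMap F ℂ)).1 h0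
    rw [h1, h2, C_0]
  | succ d ih =>
    intro P hP h0
    have hz := z9_hom A F v h b hb a (d + 1) P hP h0
    have h1 := z9_fderiv (G := fun z i => A.θ z (a i) / A.θ z b) hL P
    have h2 : HasFDerivAt (fun z => aeval (fun i => A.θ z (a i) / A.θ z b) P) (0 : (Fin g → ℂ) →L[ℂ] ℂ) v := by
      refine (hasFDerivAt_const (0 : ℂ) v).congr_of_eventuallyEq ?_
      filter_upwards [hcont] with z hz'
      exact hz z hz'
    have h3 := h1.unique h2
    have h4 := Fintype.linearIndependent_iff.1 hli _ h3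
    have h5 : ∀ i, pderiv i P = 0 := by
      intro i
      refine ih _ ?_ (h4 i)
      intro m hm
      rw [mem_support_iff, coeff_pderiv] at hm
      have h6 := hP (m + Finsupp.single i 1) (mem_support_iff.2 (left_ne_zero_of_mul hm))
      have h7 : ∑ l, (m + Finsupp.single i 1 : Fin n →₀ ℕ) l = ∑ l, m l + 1 := by
        simp only [Finsupp.add_apply, Finset.sum_add_distrib, Finsupp.single_apply, Finset.sum_ite_eq,
          Finset.mem_univ, if_true]
      rw [h7] at h6
      omega
    have h6 := z9_const P h5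
    rw [h6, aeval_C] at h0
    have h2 : coeff 0 P = 0 := (map_eq_zero (algebraMap F ℂ)).1 h0
    rw [h6, h2, C_0]

/-- independent differentials of quotients of coordinates -/
theorem z9_li (A : AV g N κ k) (v : Fin g → ℂ) (b : Fin (N + 1)) (hb : A.θ v b ≠ 0) :
    ∃ (a : Fin g → Fin (N + 1)) (L : Fin g → (Fin g → ℂ) →L[ℂ] ℂ),
      (∀ i, HasFDerivAt (fun z => A.θ z (a i) / A.θ z b) (L i) v) ∧ LinearIndependent ℂ L := by
  classical
  have hθ : HasFDerivAt A.θ (fderiv ℂ A.θ v) v := (A.diff v).hasFDerivAt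
  have hθi : ∀ j, HasFDerivAt (fun z => A.θ z j) ((ContinuousLinearMap.proj j).comp (fderiv ℂ A.θ v)) v :=
    fun j => (hasFDerivAt_pi'.1 hθ) j
  obtain ⟨D, hD⟩ : ∃ D : Fin (N + 1) → (Fin g → ℂ) →L[ℂ] ℂ,
      ∀ j, HasFDerivAt (fun z => A.θ z j / A.θ z b) (D j) v := by
    refine ⟨fun j => fderiv ℂ (fun z => A.θ z j / A.θ z b) v, fun j => ?_⟩
    have hj : DifferentiableAt ℂ (fun z => A.θ z j) v := (hθi j).differentiableAt
    have hi : DifferentiableAt ℂ (fun z => A.θ z b) v := (hθi b).differentiableAt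
    have h2 : DifferentiableAt ℂ (fun z => (A.θ z b)⁻¹) v := by
      have h3 := DifferentiableAt.inv (h := fun z => A.θ z b) hi hb
      exact h3
    have h4 := hj.mul h2
    have h1 : DifferentiableAt ℂ (fun z => A.θ z j / A.θ z b) v := by
      have h5 : (fun z => A.θ z j / A.θ z b) = (fun z => A.θ z j) * fun z => (A.θ z b)⁻¹ := by
        funext z
        exact div_eq_mul_inv _ _
      rw [h5]
      exact h4
    exact h1.hasFDerivAt
  -- the derivative of the quotients
  have hker : ∀ u : Fin g → ℂ, (∀ j, D j u = 0) → u = 0 := by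
    intro u hu
    refine A.imm v u ((fderiv ℂ A.θ v u b) / A.θ v b) ?_
    funext j
    have h1 : (fun z => A.θ z j) =ᶠ[nhds v] fun z => A.θ z j / A.θ z b * A.θ z b := by
      have hcont : ∀ᶠ z in nhds v, A.θ z b ≠ 0 :=
        ((continuous_apply b).comp A.diff.continuous).continuousAt.eventually_ne hb
      filter_upwards [hcont] with z hz
      exact (div_mul_cancel₀ _ hz).symm
    have h2 := ((hD j).mul (hθi b)).congr_of_eventuallyEq h1
    have h3 := (hθi j).unique h2
    have h4 := congrArg (fun l : (Fin g → ℂ) →L[ℂ] ℂ => l u) h3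
    have h5 : fderiv ℂ A.θ v u j = A.θ v j / A.θ v b * fderiv ℂ A.θ v u b + A.θ v b * D j u := h4
    rw [h5, hu j, mul_zero, add_zero]
    show _ = fderiv ℂ A.θ v u b / A.θ v b * A.θ v j
    ring
  obtain ⟨ι, a, ha, hsp, hli⟩ := exists_linearIndependent' ℂ D
  have : Finite ι := Finite.of_injective a ha
  have : Fintype ι := Fintype.ofFinite ι
  have hcard : g ≤ Fintype.card ι := by
    by_contra hcon
    push Not at hcon
    -- the common kernel of the `D (a i)` is not zero
    have h1 : ∃ u : Fin g → ℂ, u ≠ 0 ∧ ∀ i, D (a i) u = 0 := by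
      have h2 : ¬ Function.Injective (LinearMap.pi fun i : ι => (D (a i) : (Fin g → ℂ) →ₗ[ℂ] ℂ)) := by
        intro hinj
        have h3 := LinearMap.finrank_le_finrank_of_injective hinj
        rw [Module.finrank_fin_fun, Module.finrank_fintype_fun_eq_card] at h3
        omega
      rw [← LinearMap.ker_eq_bot, Submodule.eq_bot_iff] at h2
      push Not at h2
      obtain ⟨u, hu1, hu2⟩ := h2
      refine ⟨u, hu2, fun i => ?_⟩
      exact congrFun (LinearMap.mem_ker.1 hu1) i
    obtain ⟨u, hu, hu2⟩ := h1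
    refine hu (hker u fun j => ?_)
    have h2 : D j ∈ Submodule.span ℂ (Set.range (D ∘ a)) := by
      rw [hsp]
      exact Submodule.subset_span ⟨j, rfl⟩
    refine Submodule.span_induction (p := fun l _ => l u = 0) ?_ ?_ ?_ ?_ h2
    · rintro _ ⟨i, rfl⟩
      exact hu2 i
    · rfl
    · intro x y _ _ hx hy
      rw [_root_.add_apply, hx, hy, add_zero]
    · intro c x _ hx
      rw [_root_.smul_apply, hx, smul_zero]
  obtain ⟨f⟩ : Nonempty (Fin g ↪ ι) := by
    refine Function.Embedding.nonempty_of_card_le ?_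
    rw [Fintype.card_fin]
    exact hcard
  refine ⟨fun i => a (f i), fun i => D (a (f i)), fun i => hD _, ?_⟩
  exact hli.comp f f.injective

theorem generic_rk (A : AV g N κ k) (F : IntermediateField ℚ ℂ) (v : Fin g → ℂ)
    (h : ∀ z, z ∈ A.V F v) : g ≤ rk F (A.rat v) := by
  obtain ⟨b, hb⟩ : ∃ b, A.θ v b ≠ 0 := by
    by_contra hcon
    push Not at hcon
    exact A.ne v (funext hcon)
  obtain ⟨a, L, hL, hli⟩ := z9_li A v b hb
  refine le_rk F g (fun i => A.θ v (a i) / A.θ v b) (A.rat v) (rat_finite A v) ?_ ?_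
  · rw [algebraicIndependent_iff]
    intro P hP
    refine z9_ind A F v h b hb a L hL hli (P.support.sup fun m => ∑ i, m i) P (fun m hm => ?_) hP
    exact Finset.le_sup (f := fun m : Fin g →₀ ℕ => ∑ i, m i) hm
  · intro i
    refine isAlgebraic_algebraMap (⟨A.θ v (a i) / A.θ v b, ?_⟩ : IntermediateField.adjoin F (A.rat v))
    exact IntermediateField.subset_adjoin F _ ⟨(a i, b), rfl⟩

end GAV
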