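import Pool.Agent.GAV.Def2
import Pool.Agent.LTD.CloR

set_option autoImplicit false

open LTD

namespace GAV

/-! ## [GAV-Z0] transcendental numbers outside a given field (file Z0.lean)

`clo_countable`: a field `F` of finite transcendence degree over `ℚ` is countable: a finite transcendence basis `y` of `F/ℚ`, `ℚ(y)` is countable, `F` is algebraic over it (Mathlib: `Algebra.IsAlgebraic.cardinalMk_le_max`-like lemmas, `Cardinal.mk_le_aleph0_iff`, or the lemmas of `Mathlib/FieldTheory/Cardinality`,
`Mathlib/RingTheory/AlgebraicIndependent/RankAndCardinality.lean`, `IsAlgClosed/Classification.lean`).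
`fresh`: by induction on `n`: given independent `y_0..y_{n-1}` over `F`, `F' = algebraic closure of F(y)` (`LTD.clo_adjoin`, trdeg `≤ t + n`) is countable, `ℂ` is not (`not_countable`, `Complex` has cardinality continuum), take `y_n ∉ F' ∪ Z`; `LTD.algInd_snoc` (`LTD/CloR.lean`). -/

theorem clo_countable (F : IntermediateField ℚ ℂ) (t : ℕ) (hF : Algebra.trdeg ℚ F ≤ (t : Cardinal)) :
    (F : Set ℂ).Countable := by
  obtain ⟨ι, x, hx⟩ := exists_isTranscendenceBasis' ℚ F
  have hι : Cardinal.mk ι ≤ Cardinal.aleph0 := by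
    rw [hx.cardinalMk_eq_trdeg]
    exact hF.trans (Cardinal.natCast_le_aleph0)
  have halg : Algebra.IsAlgebraic (Algebra.adjoin ℚ (Set.range x)) F := hx.isAlgebraic
  have h1 : Cardinal.mk F ≤ max (Cardinal.mk (Algebra.adjoin ℚ (Set.range x))) Cardinal.aleph0 :=
    Algebra.IsAlgebraic.cardinalMk_le_max _ _
  have h2 : Cardinal.mk (Algebra.adjoin ℚ (Set.range x)) ≤ Cardinal.aleph0 := by
    rw [← Cardinal.mk_congr hx.1.aevalEquiv.toEquiv]
    refine MvPolynomial.cardinalMk_le_max.trans ?_
    refine max_le (max_le ?_ hι) le_rfl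
    exact Cardinal.mk_le_aleph0
  have h3 : Cardinal.mk F ≤ Cardinal.aleph0 := h1.trans (max_le h2 le_rfl)
  exact Cardinal.le_aleph0_iff_set_countable.1 h3

theorem fresh (F : IntermediateField ℚ ℂ) (t : ℕ) (hF : Algebra.trdeg ℚ F ≤ (t : Cardinal))
    (Z : Set ℂ) (hZ : Z.Countable) (n : ℕ) :
    ∃ y : Fin n → ℂ, AlgebraicIndependent F y ∧ ∀ i, y i ∉ Z := by
  induction n with
  | zero =>
    refine ⟨Fin.elim0, ?_, fun i => i.elim0⟩
    exact (algebraicIndependent_empty_type_iff).2 (algebraMap F ℂ).injective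
  | succ n ih =>
    obtain ⟨y, hy, hyZ⟩ := ih
    obtain ⟨F', -, -, htr, hmem⟩ := clo_adjoin F t n hF y
    have h1 := clo_countable F' (t + n) htr
    obtain ⟨z, hz⟩ : ∃ z : ℂ, z ∉ (F' : Set ℂ) ∪ Z := by
      by_contra hcon
      push Not at hcon
      have h2 : (Set.univ : Set ℂ) = (F' : Set ℂ) ∪ Z := by
        ext w
        simp only [Set.mem_univ, true_iff]
        exact hcon w
      have h3 : (Set.univ : Set ℂ).Countable := by
        rw [h2]
        exact h1.union hZ
      exact not_countable_complex h3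
    rw [Set.mem_union, not_or] at hz
    refine ⟨Fin.snoc (α := fun _ => ℂ) y z, ?_, ?_⟩
    · have h4 : (fun i : Fin n => (Fin.snoc (α := fun _ => ℂ) y z : Fin (n + 1) → ℂ) i.castSucc) = y := by
        funext i
        rw [Fin.snoc_castSucc]
      refine algInd_snoc F n _ ?_ ?_
      · rw [h4]
        exact hy
      · rw [h4, Fin.snoc_last]
        intro h5
        exact hz.1 ((hmem z).2 h5)
    · intro i
      refine Fin.lastCases ?_ (fun j => ?_) i
      · rw [Fin.snoc_last]
        exact hz.2
      · rw [Fin.snoc_castSucc]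
        exact hyZ j

end GAV
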