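import Pool.Agent.GAV.Z1

set_option autoImplicit false

open LTD

namespace GAV

/-! ## [GAV-Z1b] the rank function `rk`, monotonicity and additivity (file Z1b.lean)

From `Z1.lean` (`rk_basis, rk_le, le_rk`). `rk_mono`: basis `y` of `R`; every `y_i` is algebraic over `F(S)`; `le_rk`. `rk_field`: basis `y` of `S` over `F`; `S` is algebraic over `F(y)`, so over `E(y)` (the adjoined field is larger: a polynomial over the smaller field is one over the larger); `rk_le`.
`rk_add`: `y` a basis of `R` over `F`, `x` a basis of `S` over `E`. `Fin.append y x` (or `Sum.elim`) is algebraically independent over `F` (Mathlib: `AlgebraicIndependent.sumElim_of_tower`, as in `ELT/F7.lean`, or `sumElim_iff`) and `R ∪ S` is algebraic over `F(y, x)`: `R` over `F(y)`; all elements of `E` are algebraic over `F(R)`,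
so over `F(y)`; `S` is algebraic over `E(x)`, so over `F(y,x)` (transitivity: `E(x)` is algebraic over `F(y, x)`). Then `rk_le` and `le_rk`. `indep_of_rk`: the matroid argument: `y` contains a transcendence basis of `E(range y)` of cardinality `rk E (range y) ≥ n = |Fin n|`, so this basis is all of `y`
(`rk_basis` gives `y' : Fin (rk ..) → ℂ` independent with values in `range y`; an injective choice `Fin (rk) → Fin n` of indices is bijective, so `y` is a reindexing of `y'`; `AlgebraicIndependent.comp`). -/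

theorem z1b_up (F : IntermediateField ℚ ℂ) (L : IntermediateField F ℂ)
    (M : IntermediateField ℚ ℂ) (h : ∀ z ∈ L, z ∈ M) (z : ℂ) (hz : IsAlgebraic L z) :
    IsAlgebraic M z := by
  let f : L →+* M :=
    { toFun := fun x => ⟨x.1, h x.1 x.2⟩
      map_one' := rfl
      map_mul' := fun _ _ => rfl
      map_zero' := rfl
      map_add' := fun _ _ => rfl }
  let _ : Algebra L M := f.toAlgebra
  have _ : IsScalarTower L M ℂ := IsScalarTower.of_algebraMap_eq (fun _ => rfl)
  exact IsAlgebraic.extendScalars (R := L) f.injective hz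

theorem z1b_clo (F : IntermediateField ℚ ℂ) (T : Set ℂ) :
    ∃ M : IntermediateField ℚ ℂ, F ≤ M ∧ Clo M ∧
      ∀ z : ℂ, z ∈ M ↔ IsAlgebraic (IntermediateField.adjoin F T) z := by
  set L := IntermediateField.adjoin F T with hL
  let E : IntermediateField L ℂ := algebraicClosure L ℂ
  let F' : IntermediateField ℚ ℂ := E.restrictScalars ℚ
  have hmem : ∀ z : ℂ, z ∈ F' ↔ IsAlgebraic L z := fun z => mem_algebraicClosure_iff
  refine ⟨F', ?_, ?_, hmem⟩
  · intro z hz
    rw [hmem]
    exact isAlgebraic_algebraMap (algebraMap F L ⟨z, hz⟩)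
  · intro z hz
    rw [hmem]
    have h6 : IsAlgebraic E z := hz
    exact h6.restrictScalars L

theorem z1b_adj (F M : IntermediateField ℚ ℂ) (hle : F ≤ M) (R : Set ℂ) (hR : ∀ z ∈ R, z ∈ M) :
    ∀ z ∈ IntermediateField.adjoin F R, z ∈ M := by
  have h1 : IntermediateField.adjoin F R ≤ IntermediateField.extendScalars hle := by
    rw [IntermediateField.adjoin_le_iff]
    intro z hz
    exact hR z hz
  intro z hz
  exact h1 hz

theorem z1b_self (F : IntermediateField ℚ ℂ) (R : Set ℂ) (z : ℂ) (hz : z ∈ R) :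
    IsAlgebraic (IntermediateField.adjoin F R) z :=
  isAlgebraic_algebraMap (R := IntermediateField.adjoin F R)
    (⟨z, IntermediateField.subset_adjoin F _ hz⟩)

theorem rk_mono (F : IntermediateField ℚ ℂ) (R S : Set ℂ) (hR : R.Finite) (hS : S.Finite)
    (h : ∀ z ∈ R, IsAlgebraic (IntermediateField.adjoin F S) z) : rk F R ≤ rk F S := by
  obtain ⟨y, hyR, hy, -⟩ := rk_basis F R hR
  exact le_rk F _ y S hS hy fun i => h _ (hyR i)

theorem rk_field (F E : IntermediateField ℚ ℂ) (hFE : F ≤ E) (S : Set ℂ) (hS : S.Finite) :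
    rk E S ≤ rk F S := by
  obtain ⟨y, -, -, hy⟩ := rk_basis F S hS
  obtain ⟨M, hEM, -, hmem⟩ := z1b_clo E (Set.range y)
  refine rk_le E _ y S fun z hz => ?_
  have h1 : ∀ w ∈ IntermediateField.adjoin F (Set.range y), w ∈ IntermediateField.adjoin E (Set.range y) := by
    have h2 : IntermediateField.adjoin F (Set.range y) ≤
        IntermediateField.extendScalars (show F ≤ (IntermediateField.adjoin E
          (Set.range y)).restrictScalars ℚ from fun w hw =>
          (IntermediateField.adjoin E (Set.range y)).algebraMap_mem ⟨w, hFE hw⟩) := by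
      rw [IntermediateField.adjoin_le_iff]
      intro w hw
      exact IntermediateField.subset_adjoin E _ hw
    intro w hw
    exact h2 hw
  have h3 := z1b_up F _ ((IntermediateField.adjoin E (Set.range y)).restrictScalars ℚ) h1 z
    (hy z hz)
  exact h3

theorem rk_add (F E : IntermediateField ℚ ℂ) (hFE : F ≤ E) (R S : Set ℂ) (hR : R.Finite)
    (hS : S.Finite) (hE : ∀ z : ℂ, z ∈ E ↔ IsAlgebraic (IntermediateField.adjoin F R) z) :
    rk F (R ∪ S) = rk F R + rk E S := by
  obtain ⟨y, hyR, hy, hya⟩ := rk_basis F R hR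
  obtain ⟨x, hxS, hx, hxa⟩ := rk_basis E S hS
  have hsum : AlgebraicIndependent F (Sum.elim x y) := by
    let _ : Algebra F E := (IntermediateField.inclusion hFE).toRingHom.toAlgebra
    have _ : IsScalarTower F E ℂ := IsScalarTower.of_algebraMap_eq (fun _ => rfl)
    refine AlgebraicIndependent.sumElim_of_tower (S := E) hy ?_ hx
    rintro _ ⟨i, rfl⟩
    exact ⟨⟨_, (hE _).2 (z1b_self F R _ (hyR i))⟩, rfl⟩
  let e : Fin (rk E S + rk F R) ≃ Fin (rk E S) ⊕ Fin (rk F R) := finSumFinEquiv.symm
  let u : Fin (rk E S + rk F R) → ℂ := fun i => Sum.elim x y (e i)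
  have hu : AlgebraicIndependent F u := hsum.comp e e.injective
  have huR : Set.range u = Set.range (Sum.elim x y) := by
    have := e.surjective.range_comp (Sum.elim x y)
    exact this
  have hux : ∀ i, x i ∈ Set.range u := fun i => by rw [huR]; exact ⟨Sum.inl i, rfl⟩
  have huy : ∀ i, y i ∈ Set.range u := fun i => by rw [huR]; exact ⟨Sum.inr i, rfl⟩
  have h1 := le_rk F _ u (R ∪ S) (hR.union hS) hu (by
    intro i
    apply z1b_self
    have : ∀ j, Sum.elim x y j ∈ R ∪ S := by
      rintro (j | j)
      · exact Or.inr (hxS j)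
      · exact Or.inl (hyR j)
    exact this (e i))
  obtain ⟨M, hFM, hclo, hmem⟩ := z1b_clo F (Set.range u)
  have huM : ∀ z ∈ Set.range u, z ∈ M := fun z hz => (hmem z).2 (z1b_self F _ z hz)
  have hyM : ∀ z ∈ IntermediateField.adjoin F (Set.range y), z ∈ M := by
    apply z1b_adj F M hFM
    rintro _ ⟨i, rfl⟩
    exact huM _ (huy i)
  have hRM : ∀ z ∈ R, z ∈ M := fun z hz => hclo z (z1b_up F _ M hyM z (hya z hz))
  have hEM : E ≤ M := fun z hz => hclo z (z1b_up F _ M (z1b_adj F M hFM R hRM) z ((hE z).1 hz))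
  have hxM : ∀ z ∈ IntermediateField.adjoin E (Set.range x), z ∈ M := by
    apply z1b_adj E M hEM
    rintro _ ⟨i, rfl⟩
    exact huM _ (hux i)
  have hSM : ∀ z ∈ S, z ∈ M := fun z hz => hclo z (z1b_up E _ M hxM z (hxa z hz))
  have h2 := rk_le F _ u (R ∪ S) (by
    rintro z (hz | hz)
    · exact (hmem z).1 (hRM z hz)
    · exact (hmem z).1 (hSM z hz))
  omega

theorem indep_of_rk (E : IntermediateField ℚ ℂ) (n : ℕ) (y : Fin n → ℂ)
    (h : n ≤ rk E (Set.range y)) : AlgebraicIndependent E y := by
  set L := IntermediateField.adjoin E (Set.range y) with hL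
  let y' : Fin n → L := fun i => ⟨y i, IntermediateField.subset_adjoin E _ ⟨i, rfl⟩⟩
  have hpre : (Subtype.val ⁻¹' (Set.range y) : Set L) = Set.range y' := by
    ext z
    constructor
    · rintro ⟨i, hi⟩
      exact ⟨i, Subtype.ext hi⟩
    · rintro ⟨i, rfl⟩
      exact ⟨i, rfl⟩
  have h1 : Algebra.IsAlgebraic (Algebra.adjoin E (Set.range y')) L := by
    have h2 := z1_halg E (Set.range y)
    rw [hpre] at h2
    exact h2
  have h3 : Cardinal.mk (Fin n) ≤ Algebra.trdeg E L := by
    rw [Cardinal.mk_fin, ← Cardinal.cast_toNat_of_lt_aleph0 (z1_fin E _ (Set.finite_range y))]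
    exact_mod_cast h
  have h4 := Algebra.IsAlgebraic.isTranscendenceBasis_of_le_trdeg_of_finite E y' h3
  exact h4.1.map' (f := L.val) Subtype.val_injective

end GAV
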