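import Pool.Agent.GAV.G1
import Pool.Agent.ELT.K4

set_option autoImplicit false

open LTD

namespace GAV

variable {g N κ : ℕ} {k : IntermediateField ℚ ℂ}

/-! ## [GAV-K6] density of the points `w x` modulo the lattice (file K6.lean)

`kro`: PORT of `ELT/K5.lean` (`ELT.kro`). `ELT.kronecker` with `n = d * (2g)` (`finProdFinEquiv`), `ξ_(i,j) = th A j (x i)`, `α_(i,j) = A.ω.repr (z i) j`: some `w`, `‖w‖ ≤ 16 H^{2gd}/η`, with `(ξ_(i,j) w).re = repr_j(w • x_i)` (`th_smul`, `th_re`) within `ε` of `α_(i,j) + m_(i,j)`, `m` integers. So with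
`l_i = ∑_j m_(i,j) • ω_j ∈ A.Λ`: `w • x_i - z_i - l_i = ∑_j (error) • ω_j`, norm `≤ ε ∑‖ω_j‖`. The hypothesis on small frequencies is `NR` (reindex the sum; `a ≠ 0`).
`theta_lip`: `θ` is differentiable, so Lipschitz on `closedBall 0 (C+1)` (bounded derivative on a compact convex set: `fderiv` is continuous, `ContDiff`; `Convex.norm_image_sub_le_of_norm_fderiv_le`), and `‖θ‖ ≥ c > 0` there; combine to the relative form. -/

theorem kro (A : AV g N κ k) : ∃ C : ℝ, 1 ≤ C ∧ ∀ (d : ℕ) (x : Fin d → Fin g → ℂ) (H : ℕ)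
    (ε η : ℝ), 0 < ε → 2 * g * d / ε ^ 2 ≤ H → 1 ≤ H → 0 < η → NR A x H η →
    ∀ z : Fin d → Fin g → ℂ, ∃ w : ℂ, ‖w‖ ≤ 16 * (H : ℝ) ^ (2 * g * d) / η ∧
      ∀ i, ∃ l ∈ A.Λ, ‖w • x i - z i - l‖ ≤ C * ε := by
  have hS : 0 ≤ ∑ j, ‖A.ω j‖ := Finset.sum_nonneg fun j _ => norm_nonneg _
  refine ⟨1 + ∑ j, ‖A.ω j‖, by linarith, ?_⟩
  intro d x H ε η hε hH hH1 hη hNR z
  let e : Fin d × Fin (2 * g) ≃ Fin (d * (2 * g)) := finProdFinEquiv
  have hk := ELT.kronecker (d * (2 * g)) (fun j => th A (e.symm j).2 (x (e.symm j).1)) H ε η hε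
    (by push_cast; rw [mul_comm (d : ℝ) (2 * g)]; exact hH) hH1 hη ?_
    (fun j => A.ω.repr (z (e.symm j).1) (e.symm j).2)
  · obtain ⟨w, hw, hm⟩ := hk
    refine ⟨w, by rw [mul_comm (2 * g) d]; exact hw, ?_⟩
    intro i
    have hm' : ∀ j, ∃ m : ℤ, |(th A j (x i) * w).re - A.ω.repr (z i) j - m| ≤ ε := by
      intro j
      obtain ⟨m, h⟩ := hm (e (i, j))
      simp only [Equiv.symm_apply_apply] at h
      exact ⟨m, h⟩
    choose m hm2 using hm'
    refine ⟨∑ j, m j • A.ω j, ?_, ?_⟩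
    · exact AddSubgroup.sum_mem _ fun j _ =>
        AddSubgroup.zsmul_mem _ (AddSubgroup.subset_closure (Set.mem_range_self j)) _
    · have h1 : w • x i - z i - ∑ j, m j • A.ω j =
          ∑ j, ((th A j (x i) * w).re - A.ω.repr (z i) j - m j) • A.ω j := by
        have h2 : ∀ j, (th A j (x i) * w).re = A.ω.repr (w • x i) j := by
          intro j
          rw [mul_comm, ← th_smul, th_re]
        simp only [h2, sub_smul, Finset.sum_sub_distrib, A.ω.sum_repr]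
        congr 1
        refine Finset.sum_congr rfl fun j _ => ?_
        exact (Int.cast_smul_eq_zsmul ℝ _ _).symm
      rw [h1]
      refine (norm_sum_le _ _).trans ?_
      calc ∑ j, ‖((th A j (x i) * w).re - A.ω.repr (z i) j - m j) • A.ω j‖
          ≤ ∑ j, ε * ‖A.ω j‖ := by
            refine Finset.sum_le_sum fun j _ => ?_
            rw [norm_smul, Real.norm_eq_abs]
            exact mul_le_mul_of_nonneg_right (hm2 j) (norm_nonneg _)
        _ = ε * ∑ j, ‖A.ω j‖ := by rw [Finset.mul_sum]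
        _ ≤ (1 + ∑ j, ‖A.ω j‖) * ε := by nlinarith
  · intro k hk0 hkH
    have h1 := hNR (fun i c => k (e (i, c))) (by
      intro h
      apply hk0
      funext j
      have := congrFun (congrFun h (e.symm j).1) (e.symm j).2
      simpa using this) (fun i c => hkH _)
    refine h1.trans (le_of_eq ?_)
    congr 1
    rw [← e.sum_comp, Fintype.sum_prod_type]
    refine Finset.sum_congr rfl fun i _ => ?_
    refine Finset.sum_congr rfl fun j _ => ?_
    simp only [Equiv.symm_apply_apply]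

/-- `θ` is Lipschitz on a bounded set (Schwarz lemma along complex lines). -/
theorem k6_lip (A : AV g N κ k) (B : ℝ) : ∃ C : ℝ, 0 ≤ C ∧ ∀ z w : Fin g → ℂ, ‖z‖ ≤ B →
    ‖w - z‖ ≤ 1 → ‖A.θ w - A.θ z‖ ≤ C * ‖w - z‖ := by
  have hc : Continuous A.θ := A.diff.continuous
  obtain ⟨M, hM⟩ := (isCompact_closedBall (0 : Fin g → ℂ) (B + 2)).exists_bound_of_continuousOn
    hc.continuousOn
  refine ⟨|M|, abs_nonneg _, fun z w hz hw => ?_⟩
  by_cases hzw : w - z = 0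
  · rw [sub_eq_zero.1 hzw, sub_self, norm_zero, sub_self, norm_zero, mul_zero]
  have hr : 0 < ‖w - z‖ := norm_pos_iff.2 hzw
  obtain ⟨v, hv⟩ : ∃ v : Fin g → ℂ, v = (((‖w - z‖⁻¹ : ℝ)) : ℂ) • (w - z) := ⟨_, rfl⟩
  have hvn : ‖v‖ = 1 := by
    rw [hv, norm_smul, Complex.norm_real, norm_inv, norm_norm, inv_mul_cancel₀ hr.ne']
  have hw' : w = z + ((‖w - z‖ : ℝ) : ℂ) • v := by
    rw [hv, smul_smul, ← Complex.ofReal_mul, mul_inv_cancel₀ hr.ne', Complex.ofReal_one, one_smul,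
      add_sub_cancel]
  have hd : Differentiable ℂ fun s : ℂ => A.θ (z + s • v) :=
    A.diff.comp ((differentiable_const z).add (differentiable_id.smul_const v))
  have hmaps : Set.MapsTo (fun s : ℂ => A.θ (z + s • v)) (Metric.ball 0 2)
      (Metric.closedBall (A.θ (z + (0 : ℂ) • v)) (2 * |M|)) := by
    intro s hs
    rw [mem_ball_zero_iff] at hs
    rw [mem_closedBall_iff_norm]
    have h1 : ‖A.θ (z + s • v)‖ ≤ M := hM _ (by
      rw [mem_closedBall_zero_iff]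
      calc ‖z + s • v‖ ≤ ‖z‖ + ‖s • v‖ := norm_add_le _ _
        _ ≤ B + 2 := by
          rw [norm_smul, hvn, mul_one]
          linarith)
    have h2 : ‖A.θ (z + (0 : ℂ) • v)‖ ≤ M := hM _ (by
      rw [mem_closedBall_zero_iff, zero_smul, add_zero]
      linarith)
    calc ‖A.θ (z + s • v) - A.θ (z + (0 : ℂ) • v)‖ ≤
          ‖A.θ (z + s • v)‖ + ‖A.θ (z + (0 : ℂ) • v)‖ := norm_sub_le _ _
      _ ≤ 2 * |M| := by
        have := le_abs_self M
        linarith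
  have h3 := Complex.dist_le_div_mul_dist_of_mapsTo_ball (z := ((‖w - z‖ : ℝ) : ℂ))
    hd.differentiableOn hmaps (by
      rw [mem_ball_zero_iff, Complex.norm_real, norm_norm]
      linarith)
  rw [dist_zero_right, Complex.norm_real, norm_norm, zero_smul, add_zero, ← hw', dist_eq_norm] at h3
  refine h3.trans (le_of_eq ?_)
  ring

theorem theta_lip (A : AV g N κ k) (B : ℝ) : ∃ C : ℝ, 1 ≤ C ∧ ∀ z w : Fin g → ℂ, ‖z‖ ≤ B →
    ‖w - z‖ ≤ 1 → ‖A.θ w - A.θ z‖ ≤ C * ‖w - z‖ * ‖A.θ z‖ := by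
  obtain ⟨C, hC, hlip⟩ := k6_lip A B
  have hc : Continuous A.θ := A.diff.continuous
  by_cases hB : B < 0
  · refine ⟨1, le_rfl, fun z w hz _ => ?_⟩
    exact absurd (norm_nonneg z) (not_le.2 (hz.trans_lt hB))
  rw [not_lt] at hB
  obtain ⟨z0, _, hmin⟩ := (isCompact_closedBall (0 : Fin g → ℂ) B).exists_isMinOn
    ⟨0, by rw [mem_closedBall_zero_iff, norm_zero]; exact hB⟩ hc.norm.continuousOn
  have hc0 : 0 < ‖A.θ z0‖ := norm_pos_iff.2 (A.ne z0)
  refine ⟨max 1 (C / ‖A.θ z0‖), le_max_left _ _, fun z w hz hw => ?_⟩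
  have h1 : ‖A.θ z0‖ ≤ ‖A.θ z‖ := hmin (by
    show z ∈ Metric.closedBall (0 : Fin g → ℂ) B
    rw [mem_closedBall_zero_iff]
    exact hz)
  calc ‖A.θ w - A.θ z‖ ≤ C * ‖w - z‖ := hlip z w hz hw
    _ = C / ‖A.θ z0‖ * ‖w - z‖ * ‖A.θ z0‖ := by field_simp
    _ ≤ max 1 (C / ‖A.θ z0‖) * ‖w - z‖ * ‖A.θ z‖ := by
      apply mul_le_mul _ h1 hc0.le
      · exact mul_nonneg (le_trans zero_le_one (le_max_left _ _)) (norm_nonneg _)
      · exact mul_le_mul_of_nonneg_right (le_max_right _ _) (norm_nonneg _)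

end GAV
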