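import Pool.Agent.ELT.K8

set_option autoImplicit false

open ELT

namespace GAV

/-! ## [GAV-K7] the maximum of the form on the polydisc (file K7.lean)

`Pf_large1`: PORT of `ELT/K7.lean` (`ELT.Pf_large`): averages over roots of unity; there `q_i = (ζ, 1)`; here the conclusion keeps this form: `τ_i` with `‖τ_i‖ = 1`.
`Pf_disc`: Bernstein-Walsh. `D ≥ 1`. Let `q` with all `‖q_i‖ ≤ 1`, i.e. `‖q_i0‖, ‖q_i1‖ ≤ 1`. Induction on the number of indices `i` with `‖q_i0‖ > ‖q_i1‖` (or on a finset `J` of indices: claim for all `q` with `‖q_i0‖ ≤ ‖q_i1‖` off `J`). If there is none: if some `q_i1 = 0` then `q_i = 0` and `Pf` is `0` for `D ≥ 2`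
(for `D = 1` the form is the constant `p_0`, which is `≤ M` by `hM 0`); otherwise `q_i = q_i1 (τ_i, 1)`, `‖τ_i‖ ≤ 1`, `Pf_smul`, `‖q_i1‖ ≤ 1`. If `i ∈ J`, `‖q_i1‖ ≤ ‖q_i0‖ ≤ 1`, `q_i0 ≠ 0`: `q_i = q_i0 (1, s)`, `‖s‖ ≤ 1`; the function `h(s) = Pf(.., (1, s), ..)` (a polynomial in `s`, the other `q_j` fixed) is bounded on the circle
`‖s‖ = 1` by `M` (there `‖1‖ ≤ ‖s‖`: induction hypothesis for `J \ {i}`), so by the maximum principle (`Complex.norm_le_of_forall_mem_frontier_norm_le` on `ball 0 1`) also for `‖s‖ ≤ 1`; `Pf(q) = q_i0^{D-1} h(s)`.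
`max_disc`: the compact polydisc; `p ≠ 0`; `M ≥ 1` by `Pf_large1`. -/

theorem k7_geo (D : ℕ) (x : ℂ) (hx : x ^ D = 1) (h1 : x ≠ 1) :
    ∑ s : Fin D, x ^ (s : ℕ) = 0 := by
  rw [Fin.sum_univ_eq_sum_range (fun s => x ^ s) D]
  have h2 := geom_sum_mul x D
  rw [hx, sub_self] at h2
  rcases mul_eq_zero.1 h2 with h | h
  · exact h
  · exact absurd (sub_eq_zero.1 h) h1

theorem Pf_large1 (d D : ℕ) (hD : 1 ≤ D) (p : (Fin d → Fin D) → ℤ) (hp : p ≠ 0) :
    ∃ τ : Fin d → ℂ, (∀ i, ‖τ i‖ = 1) ∧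
      1 ≤ ‖Pf d D (fun l => (p l : ℂ)) (fun i => ![τ i, 1])‖ := by
  classical
  obtain ⟨l0, hl0⟩ : ∃ l, p l ≠ 0 := by
    by_contra h
    push Not at h
    exact hp (funext h)
  have hD0 : D ≠ 0 := by omega
  set ζ : ℂ := Complex.exp (2 * Real.pi * Complex.I / D) with hζ
  have hprim : IsPrimitiveRoot ζ D := Complex.isPrimitiveRoot_exp D hD0
  have hζ0 : ζ ≠ 0 := Complex.exp_ne_zero _
  have hζn : ‖ζ‖ = 1 := hprim.norm'_eq_one hD0
  let q : (Fin d → Fin D) → Fin d → Fin 2 → ℂ := fun s i => ![ζ ^ (s i : ℕ), 1]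
  have hPf : ∀ s, Pf d D (fun l => (p l : ℂ)) (q s) =
      ∑ l : Fin d → Fin D, (p l : ℂ) * ∏ i, ζ ^ ((s i : ℕ) * (l i : ℕ)) := by
    intro s
    unfold Pf
    refine Finset.sum_congr rfl fun l _ => ?_
    congr 1
    refine Finset.prod_congr rfl fun i _ => ?_
    simp [q, pow_mul]
  have hsum : ∑ s : Fin d → Fin D, Pf d D (fun l => (p l : ℂ)) (q s) *
      ∏ i, (ζ⁻¹) ^ ((s i : ℕ) * (l0 i : ℕ)) = (D : ℂ) ^ d * (p l0 : ℂ) := by
    calc ∑ s : Fin d → Fin D, Pf d D (fun l => (p l : ℂ)) (q s) *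
          ∏ i, (ζ⁻¹) ^ ((s i : ℕ) * (l0 i : ℕ)) =
        ∑ s : Fin d → Fin D, ∑ l : Fin d → Fin D, (p l : ℂ) *
          ∏ i, (ζ ^ (l i : ℕ) * (ζ⁻¹) ^ (l0 i : ℕ)) ^ (s i : ℕ) := by
          refine Finset.sum_congr rfl fun s _ => ?_
          rw [hPf, Finset.sum_mul]
          refine Finset.sum_congr rfl fun l _ => ?_
          rw [mul_assoc, ← Finset.prod_mul_distrib]
          congr 1
          refine Finset.prod_congr rfl fun i _ => ?_
          rw [mul_pow, ← pow_mul, ← pow_mul, mul_comm (s i : ℕ), mul_comm (s i : ℕ)]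
      _ = ∑ l : Fin d → Fin D, (p l : ℂ) * ∑ s : Fin d → Fin D,
          ∏ i, (ζ ^ (l i : ℕ) * (ζ⁻¹) ^ (l0 i : ℕ)) ^ (s i : ℕ) := by
          rw [Finset.sum_comm]
          refine Finset.sum_congr rfl fun l _ => ?_
          rw [Finset.mul_sum]
      _ = ∑ l : Fin d → Fin D, (p l : ℂ) * ∏ i, ∑ s : Fin D,
          (ζ ^ (l i : ℕ) * (ζ⁻¹) ^ (l0 i : ℕ)) ^ (s : ℕ) := by
          refine Finset.sum_congr rfl fun l _ => ?_
          congr 1
          rw [Finset.prod_univ_sum, Fintype.piFinset_univ]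
      _ = (D : ℂ) ^ d * (p l0 : ℂ) := by
          rw [Finset.sum_eq_single l0]
          · have h1 : ∀ i, ∑ s : Fin D, (ζ ^ (l0 i : ℕ) * (ζ⁻¹) ^ (l0 i : ℕ)) ^ (s : ℕ) =
                (D : ℂ) := by
              intro i
              have h2 : ζ ^ (l0 i : ℕ) * (ζ⁻¹) ^ (l0 i : ℕ) = 1 := by
                rw [← mul_pow, mul_inv_cancel₀ hζ0, one_pow]
              rw [h2]
              simp
            simp only [h1]
            rw [Finset.prod_const, Finset.card_univ, Fintype.card_fin]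
            ring
          · intro l _ hl
            obtain ⟨i, hi⟩ : ∃ i, l i ≠ l0 i := by
              by_contra h
              push Not at h
              exact hl (funext h)
            rw [Finset.prod_eq_zero (Finset.mem_univ i), mul_zero]
            refine k7_geo D _ ?_ ?_
            · rw [mul_pow, ← pow_mul, ← pow_mul, mul_comm (l i : ℕ), mul_comm (l0 i : ℕ), pow_mul,
                pow_mul, inv_pow, hprim.pow_eq_one]
              simp
            · intro h
              apply hi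
              have h3 : ζ ^ (l i : ℕ) = ζ ^ (l0 i : ℕ) := by
                rw [inv_pow, mul_inv_eq_one₀ (pow_ne_zero _ hζ0)] at h
                exact h
              exact Fin.ext (hprim.pow_inj (l i).2 (l0 i).2 h3)
          · intro h
            exact absurd (Finset.mem_univ _) h
  by_contra hcon
  push Not at hcon
  have hlt : ∀ s, ‖Pf d D (fun l => (p l : ℂ)) (q s)‖ < 1 := fun s =>
    hcon (fun i => ζ ^ (s i : ℕ)) fun i => by rw [norm_pow, hζn, one_pow]
  have : Nonempty (Fin d → Fin D) := ⟨l0⟩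
  have h1 : ‖∑ s : Fin d → Fin D, Pf d D (fun l => (p l : ℂ)) (q s) *
      ∏ i, (ζ⁻¹) ^ ((s i : ℕ) * (l0 i : ℕ))‖ < (D : ℝ) ^ d := by
    calc _ ≤ ∑ s : Fin d → Fin D, ‖Pf d D (fun l => (p l : ℂ)) (q s) *
          ∏ i, (ζ⁻¹) ^ ((s i : ℕ) * (l0 i : ℕ))‖ := norm_sum_le _ _
      _ = ∑ s : Fin d → Fin D, ‖Pf d D (fun l => (p l : ℂ)) (q s)‖ := by
          refine Finset.sum_congr rfl fun s _ => ?_
          rw [norm_mul, norm_prod]
          have h2 : ∀ i, ‖(ζ⁻¹) ^ ((s i : ℕ) * (l0 i : ℕ))‖ = 1 := by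
            intro i
            rw [norm_pow, norm_inv, hζn, inv_one, one_pow]
          rw [Finset.prod_congr rfl fun i _ => h2 i, Finset.prod_const_one, mul_one]
      _ < ∑ s : Fin d → Fin D, (1 : ℝ) :=
          Finset.sum_lt_sum_of_nonempty Finset.univ_nonempty fun s _ => hlt s
      _ = (D : ℝ) ^ d := by
          rw [Finset.sum_const, Finset.card_univ, Fintype.card_fun, Fintype.card_fin,
            Fintype.card_fin, nsmul_eq_mul, mul_one]
          push_cast
          rfl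
  rw [hsum, norm_mul, norm_pow, Complex.norm_natCast] at h1
  have h2 : (1 : ℝ) ≤ ‖(p l0 : ℂ)‖ := by
    rw [Complex.norm_intCast]
    have : 1 ≤ |p l0| := Int.one_le_abs hl0
    exact_mod_cast this
  have h3 : (0 : ℝ) < (D : ℝ) ^ d := by
    have : (0 : ℝ) < D := by exact_mod_cast hD
    positivity
  nlinarith


theorem k7_base (d D : ℕ) (p : (Fin d → Fin D) → ℂ) (M : ℝ)
    (hM : ∀ τ : Fin d → ℂ, (∀ i, ‖τ i‖ ≤ 1) → ‖Pf d D p (fun i => ![τ i, 1])‖ ≤ M)
    (q : Fin d → Fin 2 → ℂ) (hq : ∀ i, ‖q i‖ ≤ 1) (hq' : ∀ i, ‖q i 0‖ ≤ ‖q i 1‖) :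
    ‖Pf d D p q‖ ≤ M := by
  classical
  obtain ⟨τ, hτ⟩ : ∃ τ : Fin d → ℂ, τ = fun i => if q i 1 = 0 then 0 else q i 0 / q i 1 := ⟨_, rfl⟩
  have hτ1 : ∀ i, ‖τ i‖ ≤ 1 := by
    intro i
    rw [hτ]
    simp only
    split_ifs with h
    · simp
    · rw [norm_div]
      exact div_le_one_of_le₀ (hq' i) (norm_nonneg _)
  have e : q = fun i k => q i 1 * (fun i => (![τ i, 1] : Fin 2 → ℂ)) i k := by
    funext i k
    fin_cases k
    · simp only [hτ, Fin.zero_eta, Matrix.cons_val_zero]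
      split_ifs with h
      · have := hq' i
        rw [h, norm_zero] at this
        rw [norm_le_zero_iff.1 this, mul_zero]
      · rw [mul_div_cancel₀ _ h]
    · simp
  have h1 := Pf_smul d D p (fun i => q i 1) (fun i => (![τ i, 1] : Fin 2 → ℂ))
  rw [← e] at h1
  rw [h1, norm_mul, norm_pow, norm_prod]
  have h2 : (∏ i, ‖q i 1‖) ^ (D - 1) ≤ 1 := by
    apply pow_le_one₀ (Finset.prod_nonneg fun i _ => norm_nonneg _)
    exact Finset.prod_le_one (fun i _ => norm_nonneg _)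
      fun i _ => (norm_le_pi_norm (q i) 1).trans (hq i)
  calc (∏ i, ‖q i 1‖) ^ (D - 1) * ‖Pf d D p (fun i => ![τ i, 1])‖
      ≤ 1 * ‖Pf d D p (fun i => ![τ i, 1])‖ := mul_le_mul_of_nonneg_right h2 (norm_nonneg _)
    _ ≤ M := by rw [one_mul]; exact hM τ hτ1

theorem k7_diff (d D : ℕ) (p : (Fin d → Fin D) → ℂ) (q : Fin d → Fin 2 → ℂ) (i : Fin d) :
    Differentiable ℂ fun s : ℂ => Pf d D p (Function.update q i ![1, s]) := by
  classical
  unfold Pf
  refine Differentiable.fun_sum fun l _ => ?_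
  refine Differentiable.const_mul ?_ _
  refine Differentiable.fun_finsetProd fun j _ => ?_
  by_cases hj : j = i
  · subst hj
    simp only [Function.update_self, Matrix.cons_val_zero, Matrix.cons_val_one]
    exact ((differentiable_const _).pow _).mul (differentiable_id.pow _)
  · simp only [Function.update_of_ne hj]
    exact differentiable_const _

theorem k7_step (d D : ℕ) (p : (Fin d → Fin D) → ℂ) (M : ℝ)
    (hM : ∀ τ : Fin d → ℂ, (∀ i, ‖τ i‖ ≤ 1) → ‖Pf d D p (fun i => ![τ i, 1])‖ ≤ M)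
    (J : Finset (Fin d)) : ∀ (q : Fin d → Fin 2 → ℂ), (∀ i, ‖q i‖ ≤ 1) →
      (∀ i, i ∉ J → ‖q i 0‖ ≤ ‖q i 1‖) → ‖Pf d D p q‖ ≤ M := by
  classical
  induction J using Finset.induction_on with
  | empty =>
    intro q hq hq'
    exact k7_base d D p M hM q hq fun i => hq' i (Finset.notMem_empty i)
  | insert i J hi ih =>
    intro q hq hq'
    by_cases hc : ‖q i 0‖ ≤ ‖q i 1‖
    · refine ih q hq fun j hj => ?_
      by_cases hji : j = i
      · rw [hji]; exact hc
      · exact hq' j fun h => (Finset.mem_insert.1 h).elim hji hj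
    · rw [not_le] at hc
      have h0 : q i 0 ≠ 0 := by
        intro h
        rw [h, norm_zero] at hc
        exact absurd hc (not_lt.2 (norm_nonneg _))
      obtain ⟨s, hs⟩ : ∃ s, s = q i 1 / q i 0 := ⟨_, rfl⟩
      have hs1 : ‖s‖ ≤ 1 := by
        rw [hs, norm_div]
        exact div_le_one_of_le₀ hc.le (norm_nonneg _)
      have hcirc : ∀ z ∈ frontier (Metric.ball (0:ℂ) 1),
          ‖Pf d D p (Function.update q i ![1, z])‖ ≤ M := by
        intro z hz
        rw [frontier_ball (0:ℂ) one_ne_zero, mem_sphere_zero_iff_norm] at hz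
        refine ih _ (fun j => ?_) fun j hj => ?_
        · by_cases hji : j = i
          · subst hji
            rw [Function.update_self]
            refine (pi_norm_le_iff_of_nonneg zero_le_one).2 fun k => ?_
            fin_cases k
            · simp
            · simp [hz]
          · rw [Function.update_of_ne hji]
            exact hq j
        · by_cases hji : j = i
          · subst hji
            rw [Function.update_self]
            simp [hz]
          · rw [Function.update_of_ne hji]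
            exact hq' j fun h => (Finset.mem_insert.1 h).elim hji hj
      have h1 : ‖Pf d D p (Function.update q i ![1, s])‖ ≤ M := by
        refine Complex.norm_le_of_forall_mem_frontier_norm_le Metric.isBounded_ball
          (k7_diff d D p q i).diffContOnCl hcirc ?_
        rw [closure_ball (0:ℂ) one_ne_zero, mem_closedBall_zero_iff]
        exact hs1
      have e : q = fun j k => Function.update (fun _ => (1:ℂ)) i (q i 0) j *
          Function.update q i ![1, s] j k := by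
        funext j k
        by_cases hji : j = i
        · subst hji
          rw [Function.update_self, Function.update_self]
          fin_cases k
          · simp
          · have h5 : q j 1 = q j 0 * s := by rw [hs, mul_div_cancel₀ _ h0]
            simpa using h5
        · rw [Function.update_of_ne hji, Function.update_of_ne hji, one_mul]
      have h2 := Pf_smul d D p (Function.update (fun _ => (1:ℂ)) i (q i 0))
        (Function.update q i ![1, s])
      rw [← e] at h2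
      have h3 : ∏ j, Function.update (fun _ => (1:ℂ)) i (q i 0) j = q i 0 := by
        rw [Finset.prod_update_of_mem (Finset.mem_univ i)]
        simp
      rw [h2, h3, norm_mul, norm_pow]
      have h4 : ‖q i 0‖ ^ (D - 1) ≤ 1 :=
        pow_le_one₀ (norm_nonneg _) ((norm_le_pi_norm (q i) 0).trans (hq i))
      calc ‖q i 0‖ ^ (D - 1) * ‖Pf d D p (Function.update q i ![1, s])‖
          ≤ 1 * ‖Pf d D p (Function.update q i ![1, s])‖ :=
            mul_le_mul_of_nonneg_right h4 (norm_nonneg _)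
        _ ≤ M := by rw [one_mul]; exact h1

theorem Pf_disc (d D : ℕ) (hD : 1 ≤ D) (p : (Fin d → Fin D) → ℂ) (M : ℝ)
    (hM : ∀ τ : Fin d → ℂ, (∀ i, ‖τ i‖ ≤ 1) → ‖Pf d D p (fun i => ![τ i, 1])‖ ≤ M)
    (q : Fin d → Fin 2 → ℂ) (hq : ∀ i, ‖q i‖ ≤ 1) : ‖Pf d D p q‖ ≤ M :=
  k7_step d D p M hM Finset.univ q hq fun i hi => absurd (Finset.mem_univ i) hi

theorem max_disc (d D : ℕ) (hD : 1 ≤ D) (p : (Fin d → Fin D) → ℤ) (hp : p ≠ 0) :
    ∃ (τ : Fin d → ℂ), (∀ i, ‖τ i‖ ≤ 1) ∧
      1 ≤ ‖Pf d D (fun l => (p l : ℂ)) (fun i => ![τ i, 1])‖ ∧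
      ∀ q : Fin d → Fin 2 → ℂ, (∀ i, ‖q i‖ ≤ 1) → ‖Pf d D (fun l => (p l : ℂ)) q‖ ≤
        ‖Pf d D (fun l => (p l : ℂ)) (fun i => ![τ i, 1])‖ := by
  obtain ⟨τ1, hτ1, h1⟩ := Pf_large1 d D hD p hp
  have hK : IsCompact (Set.univ.pi fun _ : Fin d => Metric.closedBall (0 : ℂ) 1) :=
    isCompact_univ_pi fun _ => isCompact_closedBall 0 1
  have hmem : ∀ τ : Fin d → ℂ, τ ∈ (Set.univ.pi fun _ : Fin d => Metric.closedBall (0 : ℂ) 1) ↔
      ∀ i, ‖τ i‖ ≤ 1 := by
    intro τ
    simp [Set.mem_pi]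
  have hcont : Continuous fun τ : Fin d → ℂ =>
      ‖Pf d D (fun l => (p l : ℂ)) (fun i => ![τ i, 1])‖ := by
    unfold Pf
    simp only [Matrix.cons_val_zero, Matrix.cons_val_one]
    fun_prop
  obtain ⟨τ, hτ, hmax⟩ := hK.exists_isMaxOn ⟨τ1, (hmem τ1).2 fun i => (hτ1 i).le⟩
    hcont.continuousOn
  have hmax' : ∀ τ' : Fin d → ℂ, (∀ i, ‖τ' i‖ ≤ 1) →
      ‖Pf d D (fun l => (p l : ℂ)) (fun i => ![τ' i, 1])‖ ≤
      ‖Pf d D (fun l => (p l : ℂ)) (fun i => ![τ i, 1])‖ := fun τ' h => hmax ((hmem τ').2 h)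
  exact ⟨τ, (hmem τ).1 hτ, h1.trans (hmax' τ1 fun i => (hτ1 i).le),
    Pf_disc d D hD _ _ hmax'⟩

end GAV
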