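import Pool.Agent.GAV.P1
import Pool.Agent.GAV.K6
import Pool.Agent.GAV.K7

set_option autoImplicit false

open LTD

namespace GAV

variable {g N κ : ℕ} {k : IntermediateField ℚ ℂ}

/-! ## [GAV-K9] the lower bound (file K9.lean)

Follows `ELT/K9.lean` (`ELT.low`). Let `B, c` from `Cov`, `C_l` (`lf_le`), `C_t` (`theta_lip` for `B`), `C_k` (`kro`). `p ≠ 0`: `τ*` from `max_disc`, `M = ‖Pf(τ*, 1)‖ ≥ 1`, `q*_i = ![τ*_i, 1]`. For every `i` choose (`Cov`) `z*_i`, `‖z*_i‖ ≤ B`, `lf(z*_i) 0 = τ*_i lf(z*_i) 1`, `s_i = lf(z*_i) 1`, `‖s_i‖ ≥ c ‖θ(z*_i)‖ > 0`: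
`lf(z*_i) = s_i q*_i`. `ε = c'/D` with `c'` so small that `C_k ε ≤ 1` and `C_l C_t C_k ε / c ≤ 1/(8 e^d D)`; `H = C₁ D²` with `C₁ ≥ 2gd/c'²`. `kro`: `w`, `l_i`, `z_i = w • x_i - l_i`, `‖z_i - z*_i‖ ≤ C_k ε`. `q_i = lf(z_i)/s_i`: `‖q_i - q*_i‖ ≤ ‖lf(z_i) - lf(z*_i)‖/‖s_i‖ ≤ C_l C_t C_k ε ‖θ(z*_i)‖/(c‖θ(z*_i)‖)`
(`lf` is linear in `θ`: `‖lf z - lf z'‖ ≤ C_l ‖θ z - θ z'‖`, prove as `lf_le`). `ELT.Pf_near` (`hM` from `max_disc`): `‖Pf(q)‖ ≥ M/2 ≥ 1/2`. `lf(z_i) = s_i q_i`, so `‖Pf(lf z)‖ = ∏‖s_i‖^{D-1}‖Pf q‖ ≥ ½ ∏ (c ‖θ(z*_i)‖)^{D-1}`, `‖θ(z_i)‖ ≤ (1 + C_t C_k ε) ‖θ(z*_i)‖ ≤ (1 + C_t) ‖θ(z*_i)‖`;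
`Nf(z) ≥ ½ (c/(1+C_t))^{d(D-1)} ≥ e^{-C₃ D}`. `Nf_lat`: `Nf(w x) = Nf(z)`. -/

theorem k9_lf (A : AV g N κ k) (lam : Fin 2 → Fin (N + 1) → ℂ) : ∃ C : ℝ, 1 ≤ C ∧
    ∀ z w, ‖lf A lam z - lf A lam w‖ ≤ C * ‖A.θ z - A.θ w‖ := by
  have hS : 0 ≤ ∑ i, ∑ j, ‖lam i j‖ :=
    Finset.sum_nonneg fun i _ => Finset.sum_nonneg fun j _ => norm_nonneg _
  refine ⟨1 + ∑ i, ∑ j, ‖lam i j‖, by linarith, fun z w => ?_⟩
  refine (pi_norm_le_iff_of_nonneg (by positivity)).2 fun i => ?_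
  have e : (lf A lam z - lf A lam w) i = ∑ j, lam i j * (A.θ z - A.θ w) j := by
    simp only [lf, Pi.sub_apply, mul_sub, Finset.sum_sub_distrib]
  rw [e]
  refine (norm_sum_le _ _).trans ?_
  calc ∑ j, ‖lam i j * (A.θ z - A.θ w) j‖ ≤ ∑ j, ‖lam i j‖ * ‖A.θ z - A.θ w‖ := by
        refine Finset.sum_le_sum fun j _ => ?_
        rw [norm_mul]
        exact mul_le_mul_of_nonneg_left (norm_le_pi_norm _ j) (norm_nonneg _)
    _ = (∑ j, ‖lam i j‖) * ‖A.θ z - A.θ w‖ := by rw [Finset.sum_mul]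
    _ ≤ _ := by
        apply mul_le_mul_of_nonneg_right _ (norm_nonneg _)
        have h := Finset.single_le_sum (f := fun i => ∑ j, ‖lam i j‖)
          (fun i _ => Finset.sum_nonneg fun j _ => norm_nonneg _) (Finset.mem_univ i)
        have h' : ∑ j, ‖lam i j‖ ≤ ∑ i, ∑ j, ‖lam i j‖ := h
        linarith

theorem k9_prod (d D : ℕ) (f : Fin d → ℝ) (F : ℝ) (h0 : ∀ i, 0 ≤ f i) (hf : ∀ i, f i ≤ F)
    (hF : 0 < F) : ∏ i, f i ^ (D - 1) ≤ Real.exp (d * |Real.log F| * D) := by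
  have h1 : ∀ i, f i ^ (D - 1) ≤ Real.exp (|Real.log F| * D) := by
    intro i
    calc f i ^ (D - 1) ≤ F ^ (D - 1) := pow_le_pow_left₀ (h0 i) (hf i) _
      _ ≤ Real.exp (|Real.log F|) ^ (D - 1) := by
        apply pow_le_pow_left₀ hF.le
        calc F = Real.exp (Real.log F) := (Real.exp_log hF).symm
          _ ≤ Real.exp (|Real.log F|) := Real.exp_le_exp.2 (le_abs_self _)
      _ = Real.exp ((D - 1 : ℕ) * |Real.log F|) := by rw [← Real.exp_nat_mul]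
      _ ≤ Real.exp (|Real.log F| * D) := by
        apply Real.exp_le_exp.2
        rw [mul_comm]
        apply mul_le_mul_of_nonneg_left _ (abs_nonneg _)
        exact_mod_cast Nat.sub_le D 1
  calc ∏ i, f i ^ (D - 1) ≤ ∏ _i : Fin d, Real.exp (|Real.log F| * D) :=
        Finset.prod_le_prod (fun i _ => pow_nonneg (h0 i) _) fun i _ => h1 i
    _ = Real.exp (d * |Real.log F| * D) := by
        rw [Finset.prod_const, Finset.card_univ, Fintype.card_fin, ← Real.exp_nat_mul, mul_assoc]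

theorem low (A : AV g N κ k) (lam : Fin 2 → Fin (N + 1) → ℂ) (hlam : Cov A lam) (d : ℕ) :
    ∃ (C₁ C₂ : ℕ) (C₃ : ℝ), 1 ≤ C₁ ∧ 0 ≤ C₃ ∧ ∀ D : ℕ, 1 ≤ D →
    ∀ p : (Fin d → Fin D) → ℤ, p ≠ 0 → ∀ (x : Fin d → Fin g → ℂ) (η : ℝ), 0 < η →
      NR A x (C₁ * D ^ 2) η → ∃ w : ℂ, ‖w‖ ≤ C₂ * (D : ℝ) ^ (4 * g * d) / η ∧
        Real.exp (-(C₃ * D)) ≤ Nf A lam d D p fun i => w • x i := by
  obtain ⟨B, c, hc, hcov⟩ := hlam
  obtain ⟨Cl, hCl, hlf⟩ := k9_lf A lam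
  obtain ⟨Ct, hCt, hth⟩ := theta_lip A B
  obtain ⟨Ck, hCk, hkro⟩ := kro A
  have hCl0 : 0 < Cl := by linarith
  have hCt0 : 0 < Ct := by linarith
  have hCk0 : 0 < Ck := by linarith
  obtain ⟨E, hE⟩ : ∃ E : ℝ, E = Real.exp d := ⟨_, rfl⟩
  have hE1 : 1 ≤ E := by rw [hE]; exact Real.one_le_exp (Nat.cast_nonneg d)
  have hE0 : 0 < E := by linarith
  obtain ⟨K, hK⟩ : ∃ K : ℝ, K = Ck * (1 + Cl * Ct / c) := ⟨_, rfl⟩
  have hR0 : 0 < Cl * Ct / c := by positivity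
  have hK1 : Ck ≤ K := by rw [hK]; nlinarith
  have hK2 : Cl * Ct * Ck / c ≤ K := by
    have e : Cl * Ct * Ck / c = Ck * (Cl * Ct / c) := by ring
    rw [hK, e]
    apply mul_le_mul_of_nonneg_left _ hCk0.le
    linarith
  have hK0 : 0 < K := by linarith
  obtain ⟨C₁, hC₁⟩ : ∃ C₁ : ℕ, C₁ = ⌈128 * g * d * E ^ 2 * K ^ 2 + 1⌉₊ := ⟨_, rfl⟩
  have hC₁r : 128 * g * d * E ^ 2 * K ^ 2 + 1 ≤ (C₁ : ℝ) := by rw [hC₁]; exact Nat.le_ceil _
  have hC₁1 : 1 ≤ C₁ := by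
    have h1 : (1 : ℝ) ≤ C₁ := by
      have : 0 ≤ 128 * g * d * E ^ 2 * K ^ 2 := by positivity
      linarith
    exact_mod_cast h1
  obtain ⟨F, hF⟩ : ∃ F : ℝ, F = (1 + Ct) / c := ⟨_, rfl⟩
  have hF0 : 0 < F := by rw [hF]; positivity
  refine ⟨C₁, 16 * C₁ ^ (2 * g * d), 1 + d * |Real.log F|, hC₁1, by positivity,
    fun D hD p hp x η hη hNR => ?_⟩
  have hDR : (1 : ℝ) ≤ D := by exact_mod_cast hD
  have hD0 : (0 : ℝ) < D := by linarith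
  obtain ⟨τ, hτ, hM1, hM⟩ := max_disc d D hD p hp
  obtain ⟨q₀, hq₀⟩ : ∃ q₀ : Fin d → Fin 2 → ℂ, q₀ = fun i => ![τ i, 1] := ⟨_, rfl⟩
  rw [← hq₀] at hM1 hM
  have hq₀n : ∀ i, ‖q₀ i‖ ≤ 1 := by
    intro i
    rw [hq₀]
    refine (pi_norm_le_iff_of_nonneg zero_le_one).2 fun j => ?_
    fin_cases j
    · simpa using hτ i
    · simp
  choose z hzB hz0 hz1 using fun i => hcov (τ i) (hτ i)
  have hθ : ∀ i, 0 < ‖A.θ (z i)‖ := fun i => norm_pos_iff.2 (A.ne _)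
  have hs : ∀ i, 0 < ‖lf A lam (z i) 1‖ := fun i => (mul_pos hc (hθ i)).trans_le (hz1 i)
  have hs0 : ∀ i, lf A lam (z i) 1 ≠ 0 := fun i => norm_pos_iff.1 (hs i)
  obtain ⟨ε, hε⟩ : ∃ ε : ℝ, ε = 1 / (8 * E * D * K) := ⟨_, rfl⟩
  have hε0 : 0 < ε := by rw [hε]; positivity
  have hKε : K * ε = 1 / (8 * E * D) := by rw [hε]; field_simp
  have h8 : 1 / (8 * E * D) ≤ 1 := by
    rw [div_le_one (by positivity)]
    have : 1 ≤ E * D := one_le_mul_of_one_le_of_one_le hE1 hDR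
    nlinarith
  have hH : 2 * g * d / ε ^ 2 ≤ ((C₁ * D ^ 2 : ℕ) : ℝ) := by
    have e1 : 2 * g * d / ε ^ 2 = (128 * g * d * E ^ 2 * K ^ 2) * (D : ℝ) ^ 2 := by
      rw [hε]; field_simp; ring
    rw [e1]
    push_cast
    have : 128 * g * d * E ^ 2 * K ^ 2 ≤ (C₁ : ℝ) := by linarith
    gcongr
  have hH1 : 1 ≤ C₁ * D ^ 2 := Nat.one_le_iff_ne_zero.2 (by positivity)
  obtain ⟨w, hw, hl⟩ := hkro d x (C₁ * D ^ 2) ε η hε0 hH hH1 hη hNR z
  refine ⟨w, ?_, ?_⟩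
  · refine hw.trans (le_of_eq ?_)
    push_cast
    rw [mul_pow, ← pow_mul, show 2 * (2 * g * d) = 4 * g * d by ring]
    ring
  · choose l hlL hln using hl
    obtain ⟨y, hy⟩ : ∃ y : Fin d → Fin g → ℂ, y = fun i => w • x i - l i := ⟨_, rfl⟩
    have hyz : ∀ i, ‖y i - z i‖ ≤ Ck * ε := by
      intro i
      rw [hy]
      have e : w • x i - l i - z i = w • x i - z i - l i := by abel
      simp only
      rw [e]
      exact hln i
    have hCkε : Ck * ε ≤ 1 := by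
      calc Ck * ε ≤ K * ε := mul_le_mul_of_nonneg_right hK1 hε0.le
        _ ≤ 1 := by rw [hKε]; exact h8
    have hyt : ∀ i, ‖A.θ (y i) - A.θ (z i)‖ ≤ Ct * (Ck * ε) * ‖A.θ (z i)‖ := by
      intro i
      refine (hth (z i) (y i) (hzB i) ((hyz i).trans hCkε)).trans ?_
      have := hyz i
      gcongr
    obtain ⟨q, hq⟩ : ∃ q : Fin d → Fin 2 → ℂ, q = fun i j => (lf A lam (z i) 1)⁻¹ *
      lf A lam (y i) j := ⟨_, rfl⟩
    have hqn : ∀ i, ‖q i - q₀ i‖ ≤ 1 / (8 * Real.exp d * D) := by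
      intro i
      have e : q i - q₀ i = (lf A lam (z i) 1)⁻¹ • (lf A lam (y i) - lf A lam (z i)) := by
        funext j
        simp only [hq, hq₀, Pi.sub_apply, Pi.smul_apply, smul_eq_mul, mul_sub]
        congr 1
        fin_cases j
        · have h5 : τ i = (lf A lam (z i) 1)⁻¹ * lf A lam (z i) 0 := by
            rw [hz0 i, mul_comm (τ i), inv_mul_cancel_left₀ (hs0 i)]
          simpa using h5
        · have h5 : (1 : ℂ) = (lf A lam (z i) 1)⁻¹ * lf A lam (z i) 1 := by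
            rw [inv_mul_cancel₀ (hs0 i)]
          simpa using h5
      rw [e, norm_smul, norm_inv]
      calc ‖lf A lam (z i) 1‖⁻¹ * ‖lf A lam (y i) - lf A lam (z i)‖
          ≤ ‖lf A lam (z i) 1‖⁻¹ * (Cl * (Ct * (Ck * ε) * ‖A.θ (z i)‖)) := by
            apply mul_le_mul_of_nonneg_left _ (inv_nonneg.2 (norm_nonneg _))
            refine (hlf _ _).trans ?_
            exact mul_le_mul_of_nonneg_left (hyt i) hCl0.le
        _ ≤ ‖lf A lam (z i) 1‖⁻¹ * (Cl * (Ct * (Ck * ε) * (‖lf A lam (z i) 1‖ / c))) := by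
            have h6 : ‖A.θ (z i)‖ ≤ ‖lf A lam (z i) 1‖ / c := by
              rw [le_div_iff₀ hc, mul_comm]
              exact hz1 i
            have h7 : 0 ≤ ‖lf A lam (z i) 1‖⁻¹ := inv_nonneg.2 (norm_nonneg _)
            gcongr
        _ = Cl * Ct * Ck / c * ε := by
            have := (hs i).ne'
            field_simp
        _ ≤ K * ε := mul_le_mul_of_nonneg_right hK2 hε0.le
        _ = 1 / (8 * Real.exp d * D) := by rw [hKε, hE]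
    have h1 := ELT.Pf_near d D hD (fun l => (p l : ℂ)) ‖ELT.Pf d D (fun l => (p l : ℂ)) q₀‖
      (by linarith) hM q₀ q hq₀n rfl hqn
    have h2 := Pf_eq_Nf A lam d D p y (fun i => (lf A lam (z i) 1)⁻¹) q
      (fun i j => by rw [hq])
    have h3 : ∏ i, (‖(lf A lam (z i) 1)⁻¹‖ * ‖A.θ (y i)‖) ^ (D - 1) ≤
        Real.exp (d * |Real.log F| * D) := by
      refine k9_prod d D _ F (fun i => mul_nonneg (norm_nonneg _) (norm_nonneg _)) (fun i => ?_) hF0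
      have h4 : ‖A.θ (y i)‖ ≤ (1 + Ct) * ‖A.θ (z i)‖ := by
        have h5 : ‖A.θ (y i)‖ ≤ ‖A.θ (y i) - A.θ (z i)‖ + ‖A.θ (z i)‖ := by
          simpa using norm_add_le (A.θ (y i) - A.θ (z i)) (A.θ (z i))
        have h6 : Ct * (Ck * ε) * ‖A.θ (z i)‖ ≤ Ct * 1 * ‖A.θ (z i)‖ := by
          gcongr
        have h7 := hyt i
        nlinarith
      rw [norm_inv, hF, inv_mul_le_iff₀ (hs i)]
      calc ‖A.θ (y i)‖ ≤ (1 + Ct) * ‖A.θ (z i)‖ := h4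
        _ = (1 + Ct) / c * (c * ‖A.θ (z i)‖) := by field_simp
        _ ≤ (1 + Ct) / c * ‖lf A lam (z i) 1‖ :=
          mul_le_mul_of_nonneg_left (hz1 i) (by positivity)
        _ = ‖lf A lam (z i) 1‖ * ((1 + Ct) / c) := mul_comm _ _
    have h6 : 1 / 2 ≤ Nf A lam d D p y * Real.exp (d * |Real.log F| * D) := by
      calc (1 : ℝ) / 2 ≤ ‖ELT.Pf d D (fun l => (p l : ℂ)) q₀‖ / 2 := by linarith
        _ ≤ ‖ELT.Pf d D (fun l => (p l : ℂ)) q‖ := h1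
        _ = _ := h2
        _ ≤ _ := mul_le_mul_of_nonneg_left h3 (Nf_nonneg A lam d D p _)
    have h7 : Nf A lam d D p (fun i => w • x i) = Nf A lam d D p y := by
      rw [← Nf_lat A lam d D p y l hlL]
      congr 1
      funext i
      rw [hy]
      simp
    rw [h7]
    have h8' : Real.exp (-(D : ℝ)) ≤ 1 / 2 := by
      have h9 : Real.exp (-(D : ℝ)) ≤ Real.exp (-1) := Real.exp_le_exp.2 (by linarith)
      have h10 : Real.exp (-1) ≤ 1 / 2 := by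
        rw [Real.exp_neg, one_div]
        apply inv_anti₀ (by norm_num)
        have := Real.add_one_le_exp (1 : ℝ)
        linarith
      exact h9.trans h10
    have h9 : Real.exp (-((1 + d * |Real.log F|) * D)) * Real.exp (d * |Real.log F| * D) =
        Real.exp (-(D : ℝ)) := by
      rw [← Real.exp_add]
      congr 1
      ring
    have h10 : Real.exp (-((1 + d * |Real.log F|) * D)) * Real.exp (d * |Real.log F| * D) ≤
        Nf A lam d D p y * Real.exp (d * |Real.log F| * D) := by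
      rw [h9]
      exact h8'.trans h6
    exact le_of_mul_le_mul_right h10 (Real.exp_pos _)

end GAV
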