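import Pool.Agent.GAV.G1
import Pool.Agent.ELT.N1

set_option autoImplicit false

open LTD Module

namespace GAV

variable {g N κ : ℕ} {k : IntermediateField ℚ ℂ}

/-! ## [GAV-N2] choice of the points `x_i` (file N2.lean)

Follows `ELT/N2.lean`. `c_θ` from `th_lower`. `c₁` from `ELT.liou` for `x`: the numbers `∑ e_k x_k`, `e ∈ [0,B)^{nX}`, are pairwise at distance `≥ c₁/B^{finrank} ≥ c₁/B^{2nX}` (`B ≥ 1`; if `B = 0` the hypothesis `(2H+1)^{2gd} < B^{nX}` fails, unless `nX = 0`, and then `1 ≤ (2H+1)^{..} < B^0 = 1` fails too). `c = c₁ c_θ/3`, `η = c/B^{2nX}`.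
Induction on `i ≤ d`: choose `e_0, .., e_{i-1}` with `NR` for them (`(2H+1)^{2g i} ≤ (2H+1)^{2gd} < B^{nX}`). For `e_i ∈ ([0,B)^g)^{nX}`: for every `a : Fin (i+1) → Fin (2g) → ℤ`, `|a| ≤ H`, with `a_i ≠ 0`, the form `v_a = ∑_j a_ij th_j` is `ℂ`-linear, `‖v_a(e_l)‖ ≥ c_θ` for some `l` (`th_lower`, `th_add`, `th_smul`).
Fix the coordinates `≠ l` of `e_i` (at most `B^{nX(g-1)}` choices): the condition `‖s_a + v_a(x_i)‖ < η` confines `∑_k e_{ikl} x_k` to a disc of radius `η/c_θ = c₁/(3B^{2nX})`, which contains at most one candidate. So at most `B^{nX(g-1)}` of the `B^{nX g}` candidates are bad for `a`, and there are at most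
`(2H+1)^{2g(i+1)} < B^{nX}` such `a`: some candidate is good for all `a`. For `a_i = 0` use the induction hypothesis. If `g = 0` there is no `a ≠ 0`, nothing to prove. -/

theorem n2_fib (nX g B : ℕ) (l : Fin g) (S : Finset (Fin nX → Fin g → Fin B))
    (h : ∀ f ∈ S, ∀ f' ∈ S, (∀ x l', l' ≠ l → f x l' = f' x l') → f = f') :
    S.card ≤ B ^ ((g - 1) * nX) := by
  classical
  have h1 : S.card ≤
      (Finset.univ : Finset (Fin nX → {l' : Fin g // l' ≠ l} → Fin B)).card := by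
    refine Finset.card_le_card_of_injOn (fun f x l' => f x l'.1)
      (fun _ _ => Finset.mem_coe.2 (Finset.mem_univ _)) ?_
    intro f hf f' hf' hff
    refine h f hf f' hf' fun x l' hl' => ?_
    exact congrFun (congrFun hff x) ⟨l', hl'⟩
  have h2 : Fintype.card {l' : Fin g // l' ≠ l} = g - 1 := by
    rw [Fintype.card_subtype, Finset.filter_ne', Finset.card_erase_of_mem (Finset.mem_univ l),
      Finset.card_univ, Fintype.card_fin]
  rw [Finset.card_univ, Fintype.card_fun, Fintype.card_fun, Fintype.card_fin, Fintype.card_fin,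
    h2, ← pow_mul] at h1
  exact h1

theorem n2_lin (A : AV g N κ k) (a : Fin (2 * g) → ℤ) (z w : Fin g → ℂ) :
    ∑ j, (a j : ℂ) * th A j (z + w) =
      ∑ j, (a j : ℂ) * th A j z + ∑ j, (a j : ℂ) * th A j w := by
  rw [← Finset.sum_add_distrib]
  refine Finset.sum_congr rfl fun j _ => ?_
  rw [th_add]
  ring

theorem n2_lin' (A : AV g N κ k) (a : Fin (2 * g) → ℤ) (c : ℂ) (z : Fin g → ℂ) :
    ∑ j, (a j : ℂ) * th A j (c • z) = c * ∑ j, (a j : ℂ) * th A j z := by
  rw [Finset.mul_sum]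
  refine Finset.sum_congr rfl fun j _ => ?_
  rw [th_smul]
  ring

theorem n2_step (A : AV g N κ k) (nX H B i : ℕ) (X : Fin nX → ℂ) (c₁ cθ η : ℝ) (hB : 1 ≤ B)
    (hc₁ : 0 < c₁)
    (hθ : ∀ a : Fin (2 * g) → ℤ, a ≠ 0 →
      ∃ l : Fin g, cθ ≤ ‖∑ j, (a j : ℂ) * th A j (Pi.single l 1)‖)
    (hX : ∀ l : Fin nX → ℤ, l ≠ 0 → (∀ x, |l x| ≤ (B : ℤ)) → c₁ ≤ ‖∑ x, (l x : ℂ) * X x‖)
    (hη : 2 * η < cθ * c₁) (hc : (2 * H + 1) ^ (2 * g * (i + 1)) < B ^ nX)
    (z : Fin i → Fin g → ℂ) (hz : NR A z H η) :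
    ∃ f : Fin nX → Fin g → Fin B,
      NR A (Fin.cons (fun l => ∑ x, ((f x l : ℕ) : ℂ) * X x) z : Fin (i + 1) → Fin g → ℂ)
        H η := by
  classical
  by_contra hcon
  push Not at hcon
  have h1 : ∀ f : Fin nX → Fin g → Fin B, ∃ a : Fin (i + 1) → Fin (2 * g) → ℤ, a ≠ 0 ∧
      (∀ j x, |a j x| ≤ (H : ℤ)) ∧
      ‖(∑ j, (a 0 j : ℂ) * th A j (fun l => ∑ x, ((f x l : ℕ) : ℂ) * X x)) +
        ∑ i' : Fin i, ∑ j, (a i'.succ j : ℂ) * th A j (z i')‖ < η := by
    intro f
    have h2 := hcon f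
    unfold NR at h2
    push Not at h2
    obtain ⟨a, ha, hb, hc⟩ := h2
    refine ⟨a, ha, hb, ?_⟩
    rw [Fin.sum_univ_succ] at hc
    simpa only [Fin.cons_zero, Fin.cons_succ] using hc
  choose G g0 g1 g2 using h1
  have h3 : ∀ f, G f 0 ≠ 0 := by
    intro f h5
    have h7 := hz (fun j x => G f j.succ x) (by
      intro h8
      apply g0 f
      funext j
      refine Fin.cases ?_ (fun j => ?_) j
      · exact h5
      · exact congrFun h8 j) (fun j x => g1 f j.succ x)
    have h8 := g2 f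
    rw [h5] at h8
    simp only [Pi.zero_apply, Int.cast_zero, zero_mul, Finset.sum_const_zero, zero_add] at h8
    exact absurd h8 (not_lt.2 h7)
  rcases Nat.eq_zero_or_pos g with hg0 | hgpos
  · subst hg0
    exact h3 (fun _ l => l.elim0) (funext fun l => l.elim0)
  -- the fibres
  have h4 : ∀ a : Fin (i + 1) → Fin (2 * g) → ℤ,
      ((Finset.univ : Finset (Fin nX → Fin g → Fin B)).filter fun f => G f = a).card ≤
        B ^ ((g - 1) * nX) := by
    intro a
    by_cases ha : a 0 = 0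
    · have h5 : ((Finset.univ : Finset (Fin nX → Fin g → Fin B)).filter fun f => G f = a) =
          ∅ := by
        rw [Finset.filter_eq_empty_iff]
        intro f _ hf
        apply h3 f
        rw [hf, ha]
      rw [h5, Finset.card_empty]
      exact Nat.zero_le _
    · obtain ⟨l, hl⟩ := hθ (a 0) ha
      refine n2_fib nX g B l _ ?_
      intro f hf f' hf' hff
      rw [Finset.mem_filter] at hf hf'
      by_contra hne
      have e1 := g2 f
      have e2 := g2 f'
      rw [hf.2] at e1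
      rw [hf'.2] at e2
      have e3 := hX (fun x => ((f x l : ℕ) : ℤ) - ((f' x l : ℕ) : ℤ)) (by
        intro h5
        apply hne
        funext x l'
        by_cases hl' : l' = l
        · subst hl'
          have h6 : ((f x l' : ℕ) : ℤ) - ((f' x l' : ℕ) : ℤ) = 0 := congrFun h5 x
          exact Fin.ext (by omega)
        · exact hff x l' hl') (by
        intro x
        have h5 := (f x l).isLt
        have h6 := (f' x l).isLt
        show |((f x l : ℕ) : ℤ) - ((f' x l : ℕ) : ℤ)| ≤ (B : ℤ)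
        rw [abs_le]
        omega)
      set δ : ℂ := ∑ x, (((((f x l : ℕ) : ℤ) - ((f' x l : ℕ) : ℤ) : ℤ)) : ℂ) * X x with hδ
      have e4 : (fun l' => ∑ x, ((f x l' : ℕ) : ℂ) * X x : Fin g → ℂ) =
          (fun l' => ∑ x, ((f' x l' : ℕ) : ℂ) * X x : Fin g → ℂ) +
            δ • (Pi.single l 1 : Fin g → ℂ) := by
        funext l'
        rw [Pi.add_apply, Pi.smul_apply, smul_eq_mul]
        by_cases hl' : l' = l
        · subst hl'
          rw [Pi.single_eq_same, mul_one, hδ, ← Finset.sum_add_distrib]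
          refine Finset.sum_congr rfl fun x _ => ?_
          push_cast
          ring
        · rw [Pi.single_eq_of_ne hl', mul_zero, add_zero]
          refine Finset.sum_congr rfl fun x _ => ?_
          rw [hff x l' hl']
      rw [e4, n2_lin, n2_lin'] at e1
      have e5 : ‖δ * ∑ j, (a 0 j : ℂ) * th A j (Pi.single l 1)‖ < 2 * η := by
        have e6 : δ * ∑ j, (a 0 j : ℂ) * th A j (Pi.single l 1) =
            (∑ j, (a 0 j : ℂ) * th A j (fun l => ∑ x, ((f' x l : ℕ) : ℂ) * X x) +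
              δ * (∑ j, (a 0 j : ℂ) * th A j (Pi.single l 1)) +
              ∑ i' : Fin i, ∑ j, (a i'.succ j : ℂ) * th A j (z i')) -
            (∑ j, (a 0 j : ℂ) * th A j (fun l => ∑ x, ((f' x l : ℕ) : ℂ) * X x) +
              ∑ i' : Fin i, ∑ j, (a i'.succ j : ℂ) * th A j (z i')) := by ring
        rw [e6]
        refine (norm_sub_le _ _).trans_lt ?_
        linarith
      rw [norm_mul] at e5
      have e6 := mul_le_mul hl e3 hc₁.le (norm_nonneg _)
      linarith
  have h5 : (Finset.univ : Finset (Fin nX → Fin g → Fin B)).card ≤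
      B ^ ((g - 1) * nX) * (Fintype.piFinset fun _ : Fin (i + 1) => Fintype.piFinset
        fun _ : Fin (2 * g) => Finset.Icc (-(H : ℤ)) H).card := by
    refine Finset.card_le_mul_card_image_of_maps_to (f := G) ?_ _ (fun a _ => h4 a)
    intro f _
    exact Fintype.mem_piFinset.2 fun j => Fintype.mem_piFinset.2 fun x =>
      Finset.mem_Icc.2 (abs_le.1 (g1 f j x))
  rw [Finset.card_univ, Fintype.card_fun, Fintype.card_fun, Fintype.card_fin, Fintype.card_fin,
    Fintype.card_fin, Fintype.card_piFinset, Finset.prod_const, Fintype.card_piFinset,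
    Finset.prod_const, Int.card_Icc, Finset.card_univ, Finset.card_univ, Fintype.card_fin,
    Fintype.card_fin, ← pow_mul, ← pow_mul] at h5
  have h6 : ((H : ℤ) + 1 - -(H : ℤ)).toNat = 2 * H + 1 := by omega
  rw [h6] at h5
  have h7 : B ^ (g * nX) = B ^ ((g - 1) * nX) * B ^ nX := by
    rw [← pow_add]
    congr 1
    obtain ⟨g', rfl⟩ : ∃ g', g = g' + 1 := ⟨g - 1, by omega⟩
    rw [Nat.add_sub_cancel]
    ring
  rw [h7] at h5
  have h8 : 0 < B ^ ((g - 1) * nX) := Nat.pow_pos (by omega)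
  exact absurd (Nat.le_of_mul_le_mul_left h5 h8) (not_le.2 hc)

theorem nr_exist (A : AV g N κ k) (d nX : ℕ) (K : IntermediateField ℚ ℂ)
    [FiniteDimensional ℚ K] (x : Fin nX → K) (hx : LinearIndependent ℚ x)
    (hK : finrank ℚ K ≤ 2 * nX) :
    ∃ c : ℝ, 0 < c ∧ ∀ H B : ℕ, (2 * H + 1) ^ (2 * g * d) < B ^ nX →
      ∃ e : Fin d → Fin nX → Fin g → ℕ, (∀ i x l, e i x l < B) ∧
        NR A (fun i l => ∑ j, (e i j l : ℂ) * ((x j : K) : ℂ)) H (c / (B : ℝ) ^ (2 * nX)) := by
  obtain ⟨cθ, hcθ, hθ⟩ := th_lower A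
  obtain ⟨c₁, hc₁, hl⟩ := ELT.liou K nX x hx
  refine ⟨c₁ * cθ / 3, by positivity, fun H B hHB => ?_⟩
  have hB : 1 ≤ B := by
    by_contra h
    have h1 : B = 0 := by omega
    rcases Nat.eq_zero_or_pos nX with h2 | h2
    · rw [h2, pow_zero] at hHB
      have h3 : 1 ≤ (2 * H + 1) ^ (2 * g * d) := Nat.one_le_pow _ _ (by omega)
      omega
    · rw [h1, zero_pow (by omega)] at hHB
      omega
  have hBr : (1 : ℝ) ≤ B := by exact_mod_cast hB
  set η := c₁ * cθ / 3 / (B : ℝ) ^ (2 * nX) with hη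
  have hη1 : 2 * η < cθ * (c₁ / (B : ℝ) ^ (finrank ℚ K)) := by
    have h1 : (B : ℝ) ^ (finrank ℚ K) ≤ (B : ℝ) ^ (2 * nX) := pow_le_pow_right₀ hBr hK
    have h2 : c₁ / (B : ℝ) ^ (2 * nX) ≤ c₁ / (B : ℝ) ^ (finrank ℚ K) :=
      div_le_div_of_nonneg_left hc₁.le (by positivity) h1
    have h3 : 0 < c₁ / (B : ℝ) ^ (2 * nX) := by positivity
    have h4 : 2 * η = 2 / 3 * (cθ * (c₁ / (B : ℝ) ^ (2 * nX))) := by
      rw [hη]
      ring
    have h5 : cθ * (c₁ / (B : ℝ) ^ (2 * nX)) ≤ cθ * (c₁ / (B : ℝ) ^ (finrank ℚ K)) :=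
      mul_le_mul_of_nonneg_left h2 hcθ.le
    have h6 : 0 < cθ * (c₁ / (B : ℝ) ^ (2 * nX)) := mul_pos hcθ h3
    linarith
  have main : ∀ i : ℕ, i ≤ d → ∃ e : Fin i → Fin nX → Fin g → ℕ, (∀ i x l, e i x l < B) ∧
      NR A (fun i l => ∑ j, (e i j l : ℂ) * ((x j : K) : ℂ)) H η := by
    intro i
    induction i with
    | zero =>
      intro _
      refine ⟨fun j => Fin.elim0 j, fun j => Fin.elim0 j, ?_⟩
      intro a ha
      exact absurd (funext fun j => Fin.elim0 j) ha
    | succ i ih =>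
      intro hi
      obtain ⟨e, he, hz⟩ := ih (by omega)
      have hc : (2 * H + 1) ^ (2 * g * (i + 1)) < B ^ nX :=
        (Nat.pow_le_pow_right (by omega) (Nat.mul_le_mul_left _ hi)).trans_lt hHB
      obtain ⟨f, hf⟩ := n2_step A nX H B i (fun j => ((x j : K) : ℂ))
        (c₁ / (B : ℝ) ^ (finrank ℚ K)) cθ η hB (by positivity) hθ
        (fun l hl0 hl1 => hl B hB l hl0 hl1) hη1 hc _ hz
      refine ⟨Fin.cons (fun j l => (f j l : ℕ)) e, ?_, ?_⟩
      · intro j j' l
        refine Fin.cases ?_ (fun j => ?_) j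
        · rw [Fin.cons_zero]
          exact (f j' l).isLt
        · rw [Fin.cons_succ]
          exact he j j' l
      · have h1 : (fun (i' : Fin (i + 1)) (l : Fin g) => ∑ j,
            (((Fin.cons (fun j l => (f j l : ℕ)) e :
              Fin (i + 1) → Fin nX → Fin g → ℕ) i' j l : ℕ) : ℂ) * ((x j : K) : ℂ)) =
            (Fin.cons (fun l => ∑ j, ((f j l : ℕ) : ℂ) * ((x j : K) : ℂ))
              (fun i l => ∑ j, (e i j l : ℂ) * ((x j : K) : ℂ)) :
                Fin (i + 1) → Fin g → ℂ) := by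
          funext i'
          refine Fin.cases ?_ (fun i' => ?_) i'
          · rw [Fin.cons_zero, Fin.cons_zero]
          · rw [Fin.cons_succ, Fin.cons_succ]
        rw [h1]
        exact hf
  exact main d le_rfl

end GAV
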