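import Pool.Agent.GAV.S3
import Pool.Agent.GAV.K9
import Pool.Agent.ELT.S2

set_option autoImplicit false

open LTD MvPolynomial

namespace GAV

variable {g N κ : ℕ} {k : IntermediateField ℚ ℂ}

/-! ## [GAV-S4] the transcendence argument without numerics (file S4.lean)

PORT of `ELT/S4.lean` (`ELT.core`): `ELT.st1` is used directly, `st_disc` and `phi_nf` are those of `GAV/S3.lean`, `low` that of `GAV/K9.lean` (lower bound `e^{-C₃ D}` in place of `c`, `4 g d` in place of `4 d`). -/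

theorem core (A : AV g N κ k) (lam : Fin 2 → Fin (N + 1) → ℂ) (hlam : Cov A lam) (d : ℕ) :
    ∃ (Cs : ℝ) (C₁ C₂ : ℕ) (C₃ : ℝ), 1 ≤ Cs ∧ 1 ≤ C₁ ∧ 0 ≤ C₃ ∧
    ∀ {ι : Type} (D m S S' H : ℕ) (δ M v U E X Y σ η ρ₁ ρ₂ G₁ G₂ : ℝ) (x : Fin d → Fin g → ℂ)
      (y : Fin m → ℂ) (u u' : ι → ℂ) (Q : (Fin m → ℕ) → Fin d → Fin 2 → MvPolynomial ι ℤ),
    1 ≤ D → S ≤ S' → 1 ≤ X → (∀ i, ‖x i‖ ≤ X) → 1 ≤ Y → (∀ j, ‖y j‖ ≤ Y) → 1 ≤ U →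
    (∀ i, ‖u i‖ ≤ U) → (∀ i, ‖u' i‖ ≤ U) → 0 ≤ E → (∀ i, ‖u' i - u i‖ ≤ E) → 0 ≤ δ →
    0 < σ → σ ≤ 1 →
    (∀ l : Fin m → ℤ, l ≠ 0 → (∀ j, |l j| ≤ (S' : ℤ)) → σ ≤ ‖∑ j, (l j : ℂ) * y j‖) →
    (∀ μ : Fin m → ℕ, (∀ j, μ j < S') → ∀ i,
      RepX A lam u δ ((∑ j, ((μ j : ℕ) : ℂ) * y j) • x i) (Q μ i)) →
    Gap u' M v → 0 < η → NR A x (C₁ * D ^ 2) η → 1 ≤ ρ₁ → m * Y * S' ≤ ρ₁ → ρ₁ ≤ ρ₂ →
    C₂ * (D : ℝ) ^ (4 * g * d) / η ≤ ρ₂ →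
    G₁ = Cs * d * D * (1 + 13 * X * ρ₁) ^ 3 → G₂ = Cs * d * D * (1 + 13 * X * ρ₂) ^ 3 →
    d * D * δ ≤ M → (D : ℝ) ^ d * H * Real.exp (d * D * δ) ≤ Real.exp M →
    2 * (S : ℝ) ^ m * Real.log (4 * (D : ℝ) ^ d * H *
        Real.exp (d * D * (δ * (1 + Real.log U))) / Real.exp (-v) + 2) <
      (D : ℝ) ^ d * Real.log (H + 1) →
    Real.exp G₁ * (2 * (S : ℝ) ^ m * (Real.exp (M * (2 + Real.log U)) * E *
      Real.exp (d * D * δ) * Real.exp G₁) * (26 * ρ₁ / σ) ^ (S ^ m) +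
      ((6 : ℝ)⁻¹) ^ (S ^ m) * ((D : ℝ) ^ d * H * Real.exp G₁)) *
      Real.exp (d * D * (δ * (1 + Real.log U))) + Real.exp (M * (2 + Real.log U)) * E <
      Real.exp (-v) →
    Real.exp G₂ * (2 * (S' : ℝ) ^ m * (Real.exp (M * (2 + Real.log U)) * E *
      Real.exp (d * D * δ) * Real.exp G₂) * (26 * ρ₂ / σ) ^ (S' ^ m) +
      ((6 : ℝ)⁻¹) ^ (S' ^ m) * ((D : ℝ) ^ d * H * Real.exp G₂)) < Real.exp (-(C₃ * D)) →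
    False := by
  obtain ⟨Cs, hCs, hdisc⟩ := st_disc A lam
  obtain ⟨C₁, C₂, C₃, hC₁, hC₃, hlow⟩ := low A lam hlam d
  refine ⟨Cs, C₁, C₂, C₃, hCs, hC₁, hC₃, ?_⟩
  intro ι D m S S' H δ M v U E X Y σ η ρ₁ ρ₂ G₁ G₂ x y u u' Q hD hSS hX hx hY hy hU hu hu' hE hE'
    hδ hσ hσ1 hs hQ hGap hη hNR hρ₁ hρ₁' hρ₁₂ hρ₂ hG₁ hG₂ hdeg hlen hDir hn2 hn3
  have hlt : ∀ μ : Fin m → ℕ, (∀ j, μ j < S) → ∀ j, μ j < S' := fun μ h j =>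
    lt_of_lt_of_le (h j) hSS
  obtain ⟨p, hp0, hp, h0⟩ := ELT.st1 d D m S H δ M v U u' Q hU hu' hGap hδ
    (fun μ hμ i => (hQ μ (hlt μ hμ) i).1) hdeg hlen hDir
  have hY0 : 0 ≤ Y := by linarith
  have hSS' : (S : ℝ) ≤ (S' : ℝ) := by exact_mod_cast hSS
  have hm0 : (0 : ℝ) ≤ m * Y := mul_nonneg (Nat.cast_nonneg _) hY0
  have hSz : ∀ μ : Fin m → ℕ, (∀ j, μ j < S') →
      Sz (ELT.Pf d D (fun l => MvPolynomial.C (p l)) (Q μ)) M := fun μ hμ =>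
    ELT.phi_sz d D p H δ M (Q μ) hδ (Nat.cast_nonneg _) (fun i => (hQ μ hμ i).1) hp hdeg hlen
  have h1 := hdisc d D m S H δ M U E X Y σ ρ₁ G₁ x y u u' Q p hD hX hx hY hy hU hu hu' hE hE' hδ
    hρ₁ ((mul_le_mul_of_nonneg_left hSS' hm0).trans hρ₁') hσ hσ1
    (fun l hl hl' => hs l hl fun j => (hl' j).trans (by exact_mod_cast hSS))
    (fun μ hμ i => hQ μ (hlt μ hμ) i) hdeg hlen hp h0 hG₁
  have h2 : ∀ μ : Fin m → ℕ, (∀ j, μ j < S') →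
      ev u' (ELT.Pf d D (fun l => MvPolynomial.C (p l)) (Q μ)) = 0 := by
    intro μ hμ
    rcases hGap _ (hSz μ hμ) with h | h
    · exact h
    · exfalso
      have h3 := h1 (∑ j, ((μ j : ℕ) : ℂ) * y j) ((ELT.S3_norm y Y hy μ hμ).trans hρ₁')
      have h4 := (phi_nf A lam u d D p δ U (fun i => (∑ j, ((μ j : ℕ) : ℂ) * y j) • x i) (Q μ) hδ
        hU hu (hQ μ hμ)).2
      have h5 := ELT.ev_close u u' U E M hU hE hu hu' hE' _ (hSz μ hμ)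
      have h6 := norm_le_insert' (ev u' (ELT.Pf d D (fun l => MvPolynomial.C (p l)) (Q μ)))
        (ev u (ELT.Pf d D (fun l => MvPolynomial.C (p l)) (Q μ)))
      have h7 := mul_le_mul_of_nonneg_right h3
        (Real.exp_pos (d * D * (δ * (1 + Real.log U)))).le
      linarith
  have h8 := hdisc d D m S' H δ M U E X Y σ ρ₂ G₂ x y u u' Q p hD hX hx hY hy hU hu hu' hE hE' hδ
    (hρ₁.trans hρ₁₂) (hρ₁'.trans hρ₁₂) hσ hσ1 hs hQ hdeg hlen hp h2 hG₂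
  obtain ⟨w, hw, hw'⟩ := hlow D hD p hp0 x η hη hNR
  exact absurd (hw'.trans (h8 w (hw.trans hρ₂))) (not_le.2 hn3)

end GAV
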