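import Mathlib

set_option autoImplicit false

namespace GAV

/-! ## [GAV-NU1] choice of `D, S, S'` (file NU1.lean)

PORT of `ELT/NU1.lean` (`ELT.nu_a`, the case `g = 1`, `q = 5`). `D = ⌈T^{2/d}⌉`, `S = ⌈(14T)^{1/m}⌉`, `S' = ⌈D^{1/(2q)}⌉`, `m = 82 q g d`. `(D^{1/(2q)})^m = D^{41gd}`, `S'^{2q} ≤ 2^{2q} D`; `S ≤ S'`: `(14T)^{1/m} ≤ D^{1/(2q)}` because `14 T ≤ T^{82} ≤ (D^d)^{41} ≤ D^{41gd}` (`T ≥ 2`, `g ≥ 1`). -/

theorem nu1_root (A : ℝ) (hA : 1 ≤ A) (k : ℕ) (hk : 1 ≤ k) :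
    1 ≤ A ^ (1 / (k : ℝ)) ∧ (A ^ (1 / (k : ℝ))) ^ k = A := by
  have hk' : (k : ℝ) ≠ 0 := by
    have : k ≠ 0 := by omega
    exact_mod_cast this
  constructor
  · exact Real.one_le_rpow hA (by positivity)
  · rw [← Real.rpow_natCast, ← Real.rpow_mul (by linarith), one_div, inv_mul_cancel₀ hk',
      Real.rpow_one]

theorem nu1_ceil (x : ℝ) (hx : 1 ≤ x) :
    1 ≤ ⌈x⌉₊ ∧ x ≤ (⌈x⌉₊ : ℝ) ∧ (⌈x⌉₊ : ℝ) ≤ 2 * x := by
  refine ⟨?_, Nat.le_ceil x, ?_⟩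
  · exact Nat.one_le_ceil_iff.mpr (by linarith)
  · have := Nat.ceil_lt_add_one (show (0 : ℝ) ≤ x by linarith)
    linarith

theorem nu_a (g q d m : ℕ) (hg : 1 ≤ g) (hq : 2 ≤ q) (hd : 1 ≤ d) (hm : m = 82 * q * g * d)
    (Γ : ℝ) (hΓ : 16 * Γ ≤ d) (N T : ℝ)
    (hN : 2 ≤ N) (hNT : N ≤ T) (hT : T ≤ N ^ Γ) : ∃ D S S' : ℕ, 1 ≤ D ∧ 1 ≤ S ∧ 1 ≤ S' ∧ S ≤ S' ∧
      T ^ 2 ≤ (D : ℝ) ^ d ∧ (D : ℝ) ^ d ≤ 2 ^ d * T ^ 2 ∧ (D : ℝ) ^ 8 ≤ 2 ^ 8 * N ∧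
      14 * T ≤ (S : ℝ) ^ m ∧ (S : ℝ) ^ m ≤ 2 ^ m * (14 * T) ∧
      (D : ℝ) ^ (41 * g * d) ≤ (S' : ℝ) ^ m ∧ (S' : ℝ) ^ m ≤ 2 ^ m * (D : ℝ) ^ (41 * g * d) ∧
      (S' : ℝ) ^ (2 * q) ≤ 2 ^ (2 * q) * D := by
  have hT2 : 2 ≤ T := le_trans hN hNT
  have hT0 : 0 < T := by linarith
  have hd' : (0 : ℝ) < d := by
    have : 0 < d := by omega
    exact_mod_cast this
  have hgd : 1 ≤ g * d := Nat.one_le_iff_ne_zero.2 (Nat.mul_ne_zero (by omega) (by omega))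
  have hm' : m = (2 * q) * (41 * g * d) := by rw [hm]; ring
  have hm1 : 1 ≤ m := by
    rw [hm']
    refine Nat.one_le_iff_ne_zero.2 (Nat.mul_ne_zero (by omega) ?_)
    rw [mul_assoc]
    exact Nat.mul_ne_zero (by omega) (by omega)
  -- D
  have hA : (1 : ℝ) ≤ T ^ 2 := by nlinarith
  obtain ⟨hx1, hxd⟩ := nu1_root (T ^ 2) hA d hd
  set x : ℝ := (T ^ 2) ^ (1 / (d : ℝ)) with hx
  obtain ⟨hD1, hxD, hD2⟩ := nu1_ceil x hx1
  set D : ℕ := ⌈x⌉₊ with hD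
  have hDr : (1 : ℝ) ≤ D := by exact_mod_cast hD1
  -- x^8 ≤ N
  have hx8 : x ^ 8 ≤ N := by
    have e1 : x ^ 8 = T ^ (16 / (d : ℝ)) := by
      rw [hx, ← Real.rpow_natCast, ← Real.rpow_mul (by positivity), ← Real.rpow_natCast,
        ← Real.rpow_mul hT0.le]
      congr 1
      push_cast
      field_simp
      norm_num
    rw [e1]
    calc T ^ (16 / (d : ℝ)) ≤ (N ^ Γ) ^ (16 / (d : ℝ)) :=
          Real.rpow_le_rpow hT0.le hT (by positivity)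
      _ = N ^ (Γ * (16 / (d : ℝ))) := by rw [← Real.rpow_mul (by linarith)]
      _ ≤ N ^ (1 : ℝ) := by
          apply Real.rpow_le_rpow_of_exponent_le (by linarith)
          rw [← mul_div_assoc, div_le_one hd']
          linarith
      _ = N := Real.rpow_one N
  -- S
  have hB : (1 : ℝ) ≤ 14 * T := by linarith
  obtain ⟨hy1, hym⟩ := nu1_root (14 * T) hB m hm1
  set y : ℝ := (14 * T) ^ (1 / (m : ℝ)) with hy
  obtain ⟨hS1, hyS, hS2⟩ := nu1_ceil y hy1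
  set S : ℕ := ⌈y⌉₊ with hS
  -- S'
  obtain ⟨hz1, hz10⟩ := nu1_root (D : ℝ) hDr (2 * q) (by omega)
  set z : ℝ := (D : ℝ) ^ (1 / ((2 * q : ℕ) : ℝ)) with hz
  obtain ⟨hS'1, hzS, hS'2⟩ := nu1_ceil z hz1
  set S' : ℕ := ⌈z⌉₊ with hS'
  have hTD : T ^ 2 ≤ (D : ℝ) ^ d := by
    rw [← hxd]
    exact pow_le_pow_left₀ (by linarith) hxD d
  have hyz : y ≤ z := by
    have h0y : 0 ≤ y := by linarith
    have h0z : 0 ≤ z := by linarith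
    have h1 : y ^ m ≤ z ^ m := by
      rw [hym]
      have e2 : z ^ m = (D : ℝ) ^ (41 * g * d) := by
        rw [hm', pow_mul, hz10]
      rw [e2]
      have h2 : (T ^ 2) ^ 41 ≤ ((D : ℝ) ^ d) ^ 41 := pow_le_pow_left₀ (by positivity) hTD 41
      have h3 : ((D : ℝ) ^ d) ^ 41 ≤ (D : ℝ) ^ (41 * g * d) := by
        rw [← pow_mul]
        refine pow_le_pow_right₀ hDr ?_
        have e3 : 41 * g * d = d * 41 * g := by ring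
        rw [e3]
        exact Nat.le_mul_of_pos_right _ (by omega)
      have h4 : 14 * T ≤ (T ^ 2) ^ 41 := by
        have h5 : (2 : ℝ) ^ 81 ≤ T ^ 81 := pow_le_pow_left₀ (by norm_num) hT2 81
        have h6 : (14 : ℝ) ≤ T ^ 81 := le_trans (by norm_num) h5
        calc 14 * T ≤ T ^ 81 * T := by
              exact mul_le_mul_of_nonneg_right h6 hT0.le
          _ = (T ^ 2) ^ 41 := by ring
      linarith
    exact (pow_le_pow_iff_left₀ h0y h0z (by omega)).mp h1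
  refine ⟨D, S, S', hD1, hS1, hS'1, Nat.ceil_le_ceil hyz, hTD, ?_, ?_, ?_, ?_, ?_, ?_, ?_⟩
  · calc (D : ℝ) ^ d ≤ (2 * x) ^ d := pow_le_pow_left₀ (by positivity) hD2 d
      _ = 2 ^ d * T ^ 2 := by rw [mul_pow, hxd]
  · calc (D : ℝ) ^ 8 ≤ (2 * x) ^ 8 := pow_le_pow_left₀ (by positivity) hD2 8
      _ = 2 ^ 8 * x ^ 8 := by rw [mul_pow]
      _ ≤ 2 ^ 8 * N := mul_le_mul_of_nonneg_left hx8 (by positivity)
  · calc 14 * T = y ^ m := hym.symm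
      _ ≤ (S : ℝ) ^ m := pow_le_pow_left₀ (by linarith) hyS m
  · calc (S : ℝ) ^ m ≤ (2 * y) ^ m := pow_le_pow_left₀ (by positivity) hS2 m
      _ = 2 ^ m * (14 * T) := by rw [mul_pow, hym]
  · have h10 : (D : ℝ) ≤ (S' : ℝ) ^ (2 * q) := by
      calc (D : ℝ) = z ^ (2 * q) := hz10.symm
        _ ≤ (S' : ℝ) ^ (2 * q) := pow_le_pow_left₀ (by linarith) hzS (2 * q)
    calc (D : ℝ) ^ (41 * g * d) ≤ ((S' : ℝ) ^ (2 * q)) ^ (41 * g * d) :=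
          pow_le_pow_left₀ (by positivity) h10 _
      _ = (S' : ℝ) ^ m := by
          rw [← pow_mul, hm']
  · calc (S' : ℝ) ^ m ≤ (2 * z) ^ m := pow_le_pow_left₀ (by positivity) hS'2 m
      _ = 2 ^ m * (D : ℝ) ^ (41 * g * d) := by
          have e4 : z ^ m = (D : ℝ) ^ (41 * g * d) := by rw [hm', pow_mul, hz10]
          rw [mul_pow, e4]
  · calc (S' : ℝ) ^ (2 * q) ≤ (2 * z) ^ (2 * q) := pow_le_pow_left₀ (by positivity) hS'2 (2 * q)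
      _ = 2 ^ (2 * q) * D := by rw [mul_pow, hz10]

end GAV
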