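import Mathlib

set_option autoImplicit false

namespace GAV

/-! ## [GAV-NU2] choice of `B` (file NU2.lean)

PORT of `ELT/NU2.lean` (`ELT.nu_b`, the case `g = 1`, `q = 5`). `h = 2 C₁ D² + 2 ≤ 4 C₁ D²`, `B = ⌈h^{2gd/nX}⌉ ≤ 2 h^{2gd/nX}`. `B^{nX} ≥ h^{2gd} > (2 C₁ D² + 1)^{2gd}`; `B^{2nX} ≤ 4^{nX} h^{4gd} ≤ 4^{nX} (4C₁)^{4gd} D^{8gd}`; `B^{2q} ≤ 2^{2q} h^{4gdq/nX} ≤ 2^{2q} h^{1/2}` (`8gdq ≤ 41qgd ≤ nX`, `h ≥ 1`),
`h^{1/2} ≤ 2 C₁ D`. `K = max(4^{nX}(4C₁)^{4gd}, 2^{2q+1} C₁)`. -/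

theorem nu2_root (A : ℝ) (hA : 1 ≤ A) (k : ℕ) (hk : 1 ≤ k) :
    1 ≤ A ^ (1 / (k : ℝ)) ∧ (A ^ (1 / (k : ℝ))) ^ k = A := by
  have hk' : (k : ℝ) ≠ 0 := by
    have : k ≠ 0 := by omega
    exact_mod_cast this
  constructor
  · exact Real.one_le_rpow hA (by positivity)
  · rw [← Real.rpow_natCast, ← Real.rpow_mul (by linarith), one_div, inv_mul_cancel₀ hk',
      Real.rpow_one]

theorem nu2_ceil (x : ℝ) (hx : 1 ≤ x) :
    1 ≤ ⌈x⌉₊ ∧ x ≤ (⌈x⌉₊ : ℝ) ∧ (⌈x⌉₊ : ℝ) ≤ 2 * x := by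
  refine ⟨?_, Nat.le_ceil x, ?_⟩
  · exact Nat.one_le_ceil_iff.mpr (by linarith)
  · have := Nat.ceil_lt_add_one (show (0 : ℝ) ≤ x by linarith)
    linarith

theorem nu_b (g q d nX C₁ : ℕ) (hg : 1 ≤ g) (hq : 2 ≤ q) (hd : 1 ≤ d)
    (hnX : 41 * q * g * d ≤ nX) (hC₁ : 1 ≤ C₁) :
    ∃ K : ℝ, 1 ≤ K ∧ ∀ D : ℕ, 1 ≤ D → ∃ B : ℕ, 1 ≤ B ∧
      (2 * (C₁ * D ^ 2) + 1) ^ (2 * g * d) < B ^ nX ∧
      (B : ℝ) ^ (2 * nX) ≤ K * (D : ℝ) ^ (8 * g * d) ∧ (B : ℝ) ^ (2 * q) ≤ K * D := by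
  have hC : (1 : ℝ) ≤ C₁ := by exact_mod_cast hC₁
  have hgd : 1 ≤ g * d := Nat.one_le_iff_ne_zero.2 (by positivity)
  have hqgd : 1 ≤ q * (g * d) := Nat.one_le_iff_ne_zero.2 (by positivity)
  have hnX' : 41 * (q * (g * d)) ≤ nX := by
    calc 41 * (q * (g * d)) = 41 * q * g * d := by ring
      _ ≤ nX := hnX
  refine ⟨max (4 ^ nX * (4 * (C₁ : ℝ)) ^ (4 * (g * d))) (2 ^ (2 * q + 1) * C₁), ?_, ?_⟩
  · apply le_max_of_le_right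
    have : (1 : ℝ) ≤ 2 ^ (2 * q + 1) := one_le_pow₀ (by norm_num)
    nlinarith
  intro D hD
  have hDr : (1 : ℝ) ≤ D := by exact_mod_cast hD
  have hnX1 : 1 ≤ nX := by omega
  set h : ℝ := 2 * ((C₁ : ℝ) * (D : ℝ) ^ 2) + 2 with hh
  have hD2 : (1 : ℝ) ≤ (D : ℝ) ^ 2 := one_le_pow₀ hDr
  have hCD : (1 : ℝ) ≤ (C₁ : ℝ) * (D : ℝ) ^ 2 := one_le_mul_of_one_le_of_one_le hC hD2
  have hh1 : 1 ≤ h := by rw [hh]; linarith
  have hh4 : h ≤ 4 * C₁ * (D : ℝ) ^ 2 := by rw [hh]; linarith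
  obtain ⟨hy1, hym⟩ := nu2_root (h ^ (2 * (g * d))) (one_le_pow₀ hh1) nX hnX1
  set y : ℝ := (h ^ (2 * (g * d))) ^ (1 / (nX : ℝ)) with hy
  obtain ⟨hB1, hyB, hB2⟩ := nu2_ceil y hy1
  set B : ℕ := ⌈y⌉₊ with hB
  have h0y : 0 ≤ y := by linarith
  have e1 : 2 * g * d = 2 * (g * d) := by ring
  have e2 : 8 * g * d = 8 * (g * d) := by ring
  rw [e1, e2]
  refine ⟨B, hB1, ?_, ?_, ?_⟩
  · have h1 : h ^ (2 * (g * d)) ≤ (B : ℝ) ^ nX := by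
      rw [← hym]
      exact pow_le_pow_left₀ h0y hyB nX
    have h2 : (2 * (C₁ * D ^ 2) + 2) ^ (2 * (g * d)) ≤ B ^ nX := by
      have : (((2 * (C₁ * D ^ 2) + 2) ^ (2 * (g * d)) : ℕ) : ℝ) ≤ ((B ^ nX : ℕ) : ℝ) := by
        push_cast
        rw [hh] at h1
        exact h1
      exact_mod_cast this
    refine lt_of_lt_of_le ?_ h2
    exact Nat.pow_lt_pow_left (by omega) (by omega)
  · calc (B : ℝ) ^ (2 * nX) ≤ (2 * y) ^ (2 * nX) := pow_le_pow_left₀ (by positivity) hB2 _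
      _ = 4 ^ nX * (y ^ nX) ^ 2 := by
          rw [mul_pow, pow_mul, ← pow_mul y, mul_comm nX 2]
          norm_num
      _ = 4 ^ nX * h ^ (4 * (g * d)) := by
          rw [hym, ← pow_mul]
          congr 2
          ring
      _ ≤ 4 ^ nX * (4 * C₁ * (D : ℝ) ^ 2) ^ (4 * (g * d)) := by
          apply mul_le_mul_of_nonneg_left _ (by positivity)
          exact pow_le_pow_left₀ (by linarith) hh4 _
      _ = (4 ^ nX * (4 * (C₁ : ℝ)) ^ (4 * (g * d))) * (D : ℝ) ^ (8 * (g * d)) := by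
          rw [mul_pow (4 * (C₁ : ℝ)), ← pow_mul, mul_assoc]
          congr 3
          ring
      _ ≤ _ := mul_le_mul_of_nonneg_right (le_max_left _ _) (by positivity)
  · have hy100 : y ^ (20 * q) ≤ h := by
      have h1 : (y ^ (20 * q)) ^ nX ≤ h ^ nX := by
        calc (y ^ (20 * q)) ^ nX = (y ^ nX) ^ (20 * q) := by rw [← pow_mul, ← pow_mul, mul_comm]
          _ = h ^ (2 * (g * d) * (20 * q)) := by rw [hym, ← pow_mul]
          _ ≤ h ^ nX := pow_le_pow_right₀ hh1 (by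
              calc 2 * (g * d) * (20 * q) = 40 * (q * (g * d)) := by ring
                _ ≤ nX := by omega)
      exact (pow_le_pow_iff_left₀ (by positivity) (by linarith) (by omega)).mp h1
    have hy50 : y ^ (10 * q) ≤ 2 * C₁ * D := by
      have h2 : (y ^ (10 * q)) ^ 2 ≤ (2 * C₁ * (D : ℝ)) ^ 2 := by
        calc (y ^ (10 * q)) ^ 2 = y ^ (20 * q) := by rw [← pow_mul]; congr 1; ring
          _ ≤ h := hy100
          _ ≤ 4 * C₁ * (D : ℝ) ^ 2 := hh4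
          _ ≤ (2 * C₁ * (D : ℝ)) ^ 2 := by
              have : 4 * (C₁ : ℝ) * (D : ℝ) ^ 2 ≤ 4 * (C₁ : ℝ) * (C₁ : ℝ) * (D : ℝ) ^ 2 := by
                apply mul_le_mul_of_nonneg_right _ (by positivity)
                nlinarith
              calc 4 * (C₁ : ℝ) * (D : ℝ) ^ 2 ≤ 4 * (C₁ : ℝ) * (C₁ : ℝ) * (D : ℝ) ^ 2 := this
                _ = (2 * C₁ * (D : ℝ)) ^ 2 := by ring
      exact (pow_le_pow_iff_left₀ (by positivity) (by positivity) (by norm_num)).mp h2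
    have hy10 : y ^ (2 * q) ≤ y ^ (10 * q) := pow_le_pow_right₀ hy1 (by omega)
    calc (B : ℝ) ^ (2 * q) ≤ (2 * y) ^ (2 * q) := pow_le_pow_left₀ (by positivity) hB2 _
      _ = 2 ^ (2 * q) * y ^ (2 * q) := by rw [mul_pow]
      _ ≤ 2 ^ (2 * q) * (2 * C₁ * D) := by
          apply mul_le_mul_of_nonneg_left _ (by positivity)
          linarith
      _ = (2 ^ (2 * q + 1) * C₁) * D := by
          rw [pow_succ]
          ring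
      _ ≤ _ := mul_le_mul_of_nonneg_right (le_max_right _ _) (by positivity)

end GAV
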