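import Mathlib

set_option autoImplicit false

namespace GAV

/-! ## [GAV-NU3] the small quantities (file NU3.lean)

PORT of `ELT/NU3.lean` (`ELT.nu_c`, the case `q = 5`). From `S'^{2q} ≤ 2^{2q} D`, `B^{2q} ≤ K D`: `(B S')^{2q} ≤ 2^{2q} K D²`, so `(B S')^q ≤ 2^q √K D ≤ 2^q K D`, `(B S' + 1)^q ≤ 2^q (B S')^q ≤ 4^q K D`. So `d D (CR (BS'+1)^q) (1+lU) ≤ K₁ D²`.
`(B S')³ ≤ (B S')^{2q} ≤ 2^{2q} K D²` (`q ≥ 2`, `B S' ≥ 1`), so `Cs d D (1 + 13 (KX B)(m Y S'))³ ≤ K₂ D (B S')³ ≤ K₃ D³`. Finally `K D³ ≤ N/16` for `N ≥ N₀(K)`: `(K D³)^8 = K^8 (D^8)^3 ≤ K^8 2^{24} N³ ≤ (N/16)^8`. -/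

theorem nu3_fin (Q N : ℝ) (hQ : 0 ≤ Q) (hN : 2 ^ 56 * Q ^ 8 + 1 ≤ N) (D : ℝ) (hD : 1 ≤ D)
    (h8 : D ^ 8 ≤ 2 ^ 8 * N) : Q * D ^ 3 ≤ N / 16 := by
  have hQ8 : 0 ≤ Q ^ 8 := by positivity
  have hN0 : 0 ≤ 2 ^ 56 * Q ^ 8 := by positivity
  have hN1 : 1 ≤ N := by linarith
  have h1 : (Q * D ^ 3) ^ 8 ≤ (N / 16) ^ 8 := by
    have h3 : 2 ^ 56 * Q ^ 8 ≤ N ^ 5 := by
      have h4 : N ≤ N ^ 5 := by
        have : N * 1 ≤ N * N ^ 4 := mul_le_mul_of_nonneg_left (one_le_pow₀ hN1) (by linarith)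
        calc N = N * 1 := (mul_one N).symm
          _ ≤ N * N ^ 4 := this
          _ = N ^ 5 := by ring
      linarith
    have h5 : (D ^ 8) ^ 3 ≤ (2 ^ 8 * N) ^ 3 := pow_le_pow_left₀ (by positivity) h8 3
    calc (Q * D ^ 3) ^ 8 = Q ^ 8 * (D ^ 8) ^ 3 := by ring
      _ ≤ Q ^ 8 * (2 ^ 8 * N) ^ 3 := mul_le_mul_of_nonneg_left h5 hQ8
      _ = (2 ^ 56 * Q ^ 8) * N ^ 3 / 2 ^ 32 := by ring
      _ ≤ N ^ 5 * N ^ 3 / 2 ^ 32 := by
          apply div_le_div_of_nonneg_right _ (by positivity)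
          exact mul_le_mul_of_nonneg_right h3 (by positivity)
      _ = (N / 16) ^ 8 := by ring
  exact (pow_le_pow_iff_left₀ (by positivity) (by positivity) (by norm_num)).mp h1

theorem nu_c (q d m : ℕ) (hq : 2 ≤ q) (K CR KX Y Cs lU : ℝ) (hK : 1 ≤ K) (hCR : 1 ≤ CR)
    (hKX : 1 ≤ KX) (hY : 1 ≤ Y) (hCs : 1 ≤ Cs) (hlU : 0 ≤ lU) :
    ∃ N₀ : ℝ, ∀ N : ℝ, N₀ ≤ N → ∀ D S' B : ℕ, 1 ≤ D → 1 ≤ S' → 1 ≤ B →
      (D : ℝ) ^ 8 ≤ 2 ^ 8 * N → (S' : ℝ) ^ (2 * q) ≤ 2 ^ (2 * q) * D →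
      (B : ℝ) ^ (2 * q) ≤ K * D →
      (d : ℝ) * D * ((CR * (((B * S' : ℕ) : ℝ) + 1) ^ q) * (1 + lU)) ≤ N / 16 ∧
      (d : ℝ) * D * (CR * (((B * S' : ℕ) : ℝ) + 1) ^ q) ≤ N / 16 ∧
      Cs * d * D * (1 + 13 * (KX * B) * (m * Y * S')) ^ 3 ≤ N / 16 := by
  set c : ℝ := 1 + 13 * KX * m * Y with hc
  have hc0 : 0 ≤ c := by rw [hc]; positivity
  set Q : ℝ := d * CR * 4 ^ q * K * (1 + lU) + Cs * d * c ^ 3 * 2 ^ (2 * q) * K with hQ
  have hQa : 0 ≤ d * CR * 4 ^ q * K * (1 + lU) := by positivity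
  have hQb : 0 ≤ Cs * d * c ^ 3 * 2 ^ (2 * q) * K := by positivity
  have hQ0 : 0 ≤ Q := by rw [hQ]; linarith
  refine ⟨2 ^ 56 * Q ^ 8 + 1, ?_⟩
  intro N hN D S' B hD hS' hB h8 hS10 hB10
  have hDr : (1 : ℝ) ≤ D := by exact_mod_cast hD
  have hSr : (1 : ℝ) ≤ S' := by exact_mod_cast hS'
  have hBr : (1 : ℝ) ≤ B := by exact_mod_cast hB
  have hfin := nu3_fin Q N hQ0 hN D hDr h8
  push_cast
  set X : ℝ := (B : ℝ) * (S' : ℝ) with hX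
  have hX1 : 1 ≤ X := one_le_mul_of_one_le_of_one_le hBr hSr
  have hX0 : 0 ≤ X := by linarith
  have hX2q : X ^ (2 * q) ≤ 2 ^ (2 * q) * K * (D : ℝ) ^ 2 := by
    calc X ^ (2 * q) = (B : ℝ) ^ (2 * q) * (S' : ℝ) ^ (2 * q) := by rw [hX, mul_pow]
      _ ≤ (K * D) * (2 ^ (2 * q) * D) := mul_le_mul hB10 hS10 (by positivity) (by positivity)
      _ = 2 ^ (2 * q) * K * (D : ℝ) ^ 2 := by ring
  have hXq : X ^ q ≤ 2 ^ q * K * D := by
    have h1 : (X ^ q) ^ 2 ≤ (2 ^ q * K * D) ^ 2 := by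
      calc (X ^ q) ^ 2 = X ^ (2 * q) := by rw [← pow_mul, mul_comm q 2]
        _ ≤ 2 ^ (2 * q) * K * (D : ℝ) ^ 2 := hX2q
        _ = 2 ^ (2 * q) * (K * 1) * (D : ℝ) ^ 2 := by ring
        _ ≤ 2 ^ (2 * q) * (K * K) * (D : ℝ) ^ 2 := by
            apply mul_le_mul_of_nonneg_right _ (by positivity)
            apply mul_le_mul_of_nonneg_left _ (by positivity)
            exact mul_le_mul_of_nonneg_left hK (by linarith)
        _ = (2 ^ q * K * D) ^ 2 := by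
            rw [mul_comm 2 q, pow_mul]
            ring
    exact (pow_le_pow_iff_left₀ (by positivity) (by positivity) (by norm_num)).mp h1
  have hX1q : (X + 1) ^ q ≤ 4 ^ q * K * D := by
    calc (X + 1) ^ q ≤ (2 * X) ^ q := pow_le_pow_left₀ (by linarith) (by linarith) q
      _ = 2 ^ q * X ^ q := mul_pow _ _ _
      _ ≤ 2 ^ q * (2 ^ q * K * D) := mul_le_mul_of_nonneg_left hXq (by positivity)
      _ = 4 ^ q * K * D := by
          rw [show (4 : ℝ) = 2 * 2 by norm_num, mul_pow]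
          ring
  have hD23 : (D : ℝ) ^ 2 ≤ (D : ℝ) ^ 3 := pow_le_pow_right₀ hDr (by norm_num)
  have hone : (d : ℝ) * D * ((CR * (X + 1) ^ q) * (1 + lU)) ≤ N / 16 := by
    calc (d : ℝ) * D * ((CR * (X + 1) ^ q) * (1 + lU))
        ≤ (d : ℝ) * D * ((CR * (4 ^ q * K * D)) * (1 + lU)) := by
          apply mul_le_mul_of_nonneg_left _ (by positivity)
          apply mul_le_mul_of_nonneg_right _ (by linarith)
          exact mul_le_mul_of_nonneg_left hX1q (by linarith)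
      _ = (d * CR * 4 ^ q * K * (1 + lU)) * (D : ℝ) ^ 2 := by ring
      _ ≤ Q * (D : ℝ) ^ 3 := by
          apply mul_le_mul _ hD23 (by positivity) hQ0
          rw [hQ]; linarith
      _ ≤ N / 16 := hfin
  refine ⟨hone, ?_, ?_⟩
  · refine le_trans ?_ hone
    apply mul_le_mul_of_nonneg_left _ (by positivity)
    have h0 : 0 ≤ CR * (X + 1) ^ q := by positivity
    exact le_mul_of_one_le_right h0 (by linarith)
  · have h1 : 1 + 13 * (KX * B) * (m * Y * S') ≤ c * X := by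
      have : c * X = X + 13 * (KX * B) * (m * Y * S') := by rw [hc, hX]; ring
      rw [this]; linarith
    have h2 : 0 ≤ 1 + 13 * (KX * B) * (m * Y * S') := by positivity
    have h3 : (1 + 13 * (KX * B) * (m * Y * S')) ^ 3 ≤ c ^ 3 * (2 ^ (2 * q) * K * (D : ℝ) ^ 2) := by
      calc (1 + 13 * (KX * B) * (m * Y * S')) ^ 3 ≤ (c * X) ^ 3 := pow_le_pow_left₀ h2 h1 3
        _ = c ^ 3 * X ^ 3 := by ring
        _ ≤ c ^ 3 * (2 ^ (2 * q) * K * (D : ℝ) ^ 2) := by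
            apply mul_le_mul_of_nonneg_left _ (by positivity)
            exact le_trans (pow_le_pow_right₀ hX1 (by omega)) hX2q
    calc Cs * d * D * (1 + 13 * (KX * B) * (m * Y * S')) ^ 3
        ≤ Cs * d * D * (c ^ 3 * (2 ^ (2 * q) * K * (D : ℝ) ^ 2)) :=
          mul_le_mul_of_nonneg_left h3 (by positivity)
      _ = (Cs * d * c ^ 3 * 2 ^ (2 * q) * K) * (D : ℝ) ^ 3 := by ring
      _ ≤ Q * (D : ℝ) ^ 3 := by
          apply mul_le_mul_of_nonneg_right _ (by positivity)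
          rw [hQ]; linarith
      _ ≤ N / 16 := hfin

end GAV
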