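import Pool.Agent.ELT.NU6

set_option autoImplicit false

namespace GAV

/-! ## [GAV-NU6] the numerical inequality of step 2 (file NU6.lean)

From `ELT.nu_e` (the case `g = 1`): `N₀` also `≥ 1`; for `T ≥ N ≥ 1`, `g ≥ 1`: `T^{90} ≤ T^{90g}`, so `exp(-T^{90g}) ≤ exp(-T^{90})`, and the left side is monotone in this number (all other factors are `≥ 0`). -/

theorem nu_e (g : ℕ) (hg : 1 ≤ g) (lU K : ℝ) (hlU : 0 ≤ lU) (hK : 1 ≤ K) :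
    ∃ N₀ : ℝ, ∀ N : ℝ, N₀ ≤ N → ∀ T : ℝ, N ≤ T →
    ∀ (M : ℕ) (G a b R P : ℝ), 14 * T ≤ M → (M : ℝ) ≤ K * T → 0 ≤ G → G ≤ N → a ≤ N → b ≤ N →
      0 ≤ R → R ≤ Real.exp N → 0 ≤ P → P ≤ Real.exp (2 * N) →
      Real.exp G * (2 * (M : ℝ) * (Real.exp (N * (2 + lU)) * Real.exp (-T ^ (90 * g)) *
        Real.exp a * Real.exp G) * R ^ M + ((6 : ℝ)⁻¹) ^ M * (P * Real.exp G)) * Real.exp b +
        Real.exp (N * (2 + lU)) * Real.exp (-T ^ (90 * g)) < Real.exp (-T) := by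
  obtain ⟨N₀, h0⟩ := ELT.nu_e lU K hlU hK
  refine ⟨max N₀ 1, ?_⟩
  intro N hN T hNT M G a b R P hM1 hM2 hG0 hGN haN hbN hR0 hRN hP0 hPN
  have hN1 : 1 ≤ N := (le_max_right _ _).trans hN
  have hT1 : 1 ≤ T := hN1.trans hNT
  have h1 := h0 N ((le_max_left _ _).trans hN) T hNT M G a b R P hM1 hM2 hG0 hGN haN hbN hR0 hRN
    hP0 hPN
  have h2 : T ^ 90 ≤ T ^ (90 * g) := pow_le_pow_right₀ hT1 (by omega)
  have h3 : Real.exp (-T ^ (90 * g)) ≤ Real.exp (-T ^ 90) := Real.exp_le_exp.mpr (by linarith)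
  refine lt_of_le_of_lt ?_ h1
  gcongr

end GAV
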