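import Mathlib

set_option autoImplicit false

namespace GAV

/-! ## [GAV-NU7] the numerical inequality of the last step (file NU7.lean)

PORT of `ELT/NU7.lean` (`ELT.nu_f`, the case `g = 1`; there the conclusion is `< c`, but its lemmas `nu7_first`, `nu7_second` give `≤ e^{-N}` for each of the two terms). `D^{41gd} = (D^d)^{41g} ≤ (K T²)^{41g} = K^{41g} T^{82g}`, `M ≤ K^{41g+1} T^{82g}`, `G ≤ K D^{40gd} ≤ K^{40g+1} T^{80g}`. First term: exponent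
`≤ 2G + log(2M) + N(2+lU) - T^{90g} + a + M N ≤ -T^{90g} + K'' T^{82g+1}` (`T ≥ 1`, `N ≤ T`), tends to `-∞` faster than `-N`. Second term: `6^{-M} ≤ e^{-M}`, `M ≥ D^{41gd} ≥ D^{40gd} D^d ≥ D^{40gd} T²` (`41gd ≥ 40gd + d`, `D ≥ 1`): exponent
`≤ 2K D^{40gd} + 2N - D^{40gd} T² ≤ -(T² - 2K) + 2T ≤ -2N`-like. So both terms are `≤ e^{-N}` for large `N`. Finally `D ≤ 2 N^{1/8}`, so `C₃ D + 1 ≤ N` for large `N` and `2 e^{-N} < e^{-C₃ D}`. -/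

theorem nu7_first (g : ℕ) (hg : 1 ≤ g) (lU A K2 N T M G a R : ℝ) (m : ℕ) (hm : (m : ℝ) = M)
    (hlU : 0 ≤ lU) (hA : 1 ≤ A) (hK2 : K2 = 5 * A + 3 + lU) (hN0 : 0 ≤ N) (hT1 : 1 ≤ T)
    (hNT : N ≤ T) (hT2 : K2 + 1 ≤ T) (hM : M ≤ A * T ^ (82 * g)) (hM0 : 0 ≤ M)
    (hG : G ≤ A * T ^ (82 * g)) (ha : a ≤ N) (hR0 : 0 ≤ R) (hR : R ≤ Real.exp N) :
    Real.exp G * (2 * M * (Real.exp (N * (2 + lU)) * Real.exp (-T ^ (90 * g)) * Real.exp a *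
        Real.exp G) * R ^ m) ≤ Real.exp (-N) := by
  have i1 : 2 * M ≤ Real.exp (2 * M) := by
    have := Real.add_one_le_exp (2 * M)
    linarith
  have i2 : R ^ m ≤ Real.exp (N * M) := by
    calc R ^ m ≤ (Real.exp N) ^ m := pow_le_pow_left₀ hR0 hR m
      _ = Real.exp (N * M) := by rw [← Real.exp_nat_mul, hm, mul_comm]
  have hT0 : (0 : ℝ) ≤ T := by linarith
  have hS : (0 : ℝ) ≤ T ^ (82 * g + 1) := by positivity
  have p82 : T ^ (82 * g) ≤ T ^ (82 * g + 1) := pow_le_pow_right₀ hT1 (by omega)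
  have p1 : T ≤ T ^ (82 * g + 1) := le_self_pow₀ hT1 (by omega)
  have hA0 : (0 : ℝ) ≤ A := by linarith
  have q1 : N * M ≤ A * T ^ (82 * g + 1) := by
    calc N * M ≤ T * (A * T ^ (82 * g)) := mul_le_mul hNT hM hM0 hT0
      _ = A * T ^ (82 * g + 1) := by ring
  have q2 : N * (2 + lU) ≤ (2 + lU) * T ^ (82 * g + 1) := by
    calc N * (2 + lU) ≤ T ^ (82 * g + 1) * (2 + lU) := by
          apply mul_le_mul_of_nonneg_right (hNT.trans p1) (by linarith)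
      _ = (2 + lU) * T ^ (82 * g + 1) := by ring
  have q3 : G ≤ A * T ^ (82 * g + 1) := hG.trans (mul_le_mul_of_nonneg_left p82 hA0)
  have q4 : M ≤ A * T ^ (82 * g + 1) := hM.trans (mul_le_mul_of_nonneg_left p82 hA0)
  have q5 : (K2 + 1) * T ^ (82 * g + 1) ≤ T ^ (90 * g) := by
    calc (K2 + 1) * T ^ (82 * g + 1) ≤ T * T ^ (82 * g + 1) :=
          mul_le_mul_of_nonneg_right hT2 hS
      _ = T ^ (82 * g + 2) := by ring
      _ ≤ T ^ (90 * g) := pow_le_pow_right₀ hT1 (by omega)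
  have key : G + (2 * M + (N * (2 + lU) + -T ^ (90 * g) + a + G) + N * M) ≤ -N := by
    have e : (K2 + 1) * T ^ (82 * g + 1) = 2 * (A * T ^ (82 * g + 1)) +
        2 * (A * T ^ (82 * g + 1)) + A * T ^ (82 * g + 1) +
        (2 + lU) * T ^ (82 * g + 1) + T ^ (82 * g + 1) + T ^ (82 * g + 1) := by
      rw [hK2]; ring
    linarith
  calc Real.exp G * (2 * M * (Real.exp (N * (2 + lU)) * Real.exp (-T ^ (90 * g)) * Real.exp a *
        Real.exp G) * R ^ m)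
      ≤ Real.exp G * (Real.exp (2 * M) * (Real.exp (N * (2 + lU)) * Real.exp (-T ^ (90 * g)) *
        Real.exp a * Real.exp G) * Real.exp (N * M)) := by
        gcongr
    _ = Real.exp (G + (2 * M + (N * (2 + lU) + -T ^ (90 * g) + a + G) + N * M)) := by
        simp only [Real.exp_add]
    _ ≤ Real.exp (-N) := Real.exp_le_exp.2 key

theorem nu7_second (g : ℕ) (hg : 1 ≤ g) (K N T G P X : ℝ) (m : ℕ) (hK : 1 ≤ K) (hN0 : 0 ≤ N)
    (hT : 3 + 2 * K ≤ T) (hNT : N ≤ T) (hX1 : 1 ≤ X) (hTX : T ^ 2 ≤ X)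
    (hXM : X ^ (41 * g) ≤ m) (hG : G ≤ K * X ^ (40 * g)) (hP0 : 0 ≤ P)
    (hP : P ≤ Real.exp (2 * N)) :
    Real.exp G * (((6 : ℝ)⁻¹) ^ m * (P * Real.exp G)) ≤ Real.exp (-N) := by
  have i1 : ((6 : ℝ)⁻¹) ^ m ≤ Real.exp (-(m : ℝ)) := by
    have h6 : (6 : ℝ)⁻¹ ≤ Real.exp (-1) := by
      rw [Real.exp_neg]
      apply inv_anti₀ (Real.exp_pos 1)
      have := Real.exp_one_lt_d9
      linarith
    calc ((6 : ℝ)⁻¹) ^ m ≤ (Real.exp (-1)) ^ m := pow_le_pow_left₀ (by norm_num) h6 m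
      _ = Real.exp (-(m : ℝ)) := by rw [← Real.exp_nat_mul]; congr 1; ring
  have hX40 : 1 ≤ X ^ (40 * g) := one_le_pow₀ hX1
  have h2 : X ^ (40 * g) * T ^ 2 ≤ m := by
    calc X ^ (40 * g) * T ^ 2 ≤ X ^ (40 * g) * X := by gcongr
      _ = X ^ (40 * g + 1) := by ring
      _ ≤ X ^ (41 * g) := pow_le_pow_right₀ hX1 (by omega)
      _ ≤ m := hXM
  have h3 : (3 + 2 * K) * T ≤ T ^ 2 := by
    rw [pow_two]
    exact mul_le_mul_of_nonneg_right hT (by linarith)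
  have h4 : 0 ≤ T ^ 2 - 2 * K := by nlinarith
  have h5 : T ^ 2 - 2 * K ≤ X ^ (40 * g) * (T ^ 2 - 2 * K) := by
    nlinarith
  have key : G + (-(m : ℝ) + (2 * N + G)) ≤ -N := by
    nlinarith
  calc Real.exp G * (((6 : ℝ)⁻¹) ^ m * (P * Real.exp G))
      ≤ Real.exp G * (Real.exp (-(m : ℝ)) * (Real.exp (2 * N) * Real.exp G)) := by
        gcongr
    _ = Real.exp (G + (-(m : ℝ) + (2 * N + G))) := by
        simp only [Real.exp_add]
    _ ≤ Real.exp (-N) := Real.exp_le_exp.2 key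

theorem nu7_last (C₃ N D : ℝ) (hC₃ : 0 ≤ C₃) (hD0 : 0 ≤ D) (hN : 65536 * C₃ ^ 8 + 2 ≤ N)
    (hD : D ^ 8 ≤ 2 ^ 8 * N) : C₃ * D + 1 ≤ N := by
  by_contra hcon
  push Not at hcon
  have hC8 : 0 ≤ C₃ ^ 8 := by positivity
  have hN2 : 2 ≤ N := by linarith
  have h1 : N / 2 < C₃ * D := by linarith
  have h2 : (N / 2) ^ 8 ≤ (C₃ * D) ^ 8 := pow_le_pow_left₀ (by linarith) h1.le 8
  have h3 : (C₃ * D) ^ 8 ≤ C₃ ^ 8 * (2 ^ 8 * N) := by
    rw [mul_pow]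
    exact mul_le_mul_of_nonneg_left hD hC8
  have h4 : N ^ 7 * N ≤ (65536 * C₃ ^ 8) * N := by
    calc N ^ 7 * N = (N / 2) ^ 8 * 256 := by ring
      _ ≤ (C₃ ^ 8 * (2 ^ 8 * N)) * 256 := by linarith
      _ = (65536 * C₃ ^ 8) * N := by ring
  have h5 : N ^ 7 ≤ 65536 * C₃ ^ 8 := le_of_mul_le_mul_right h4 (by linarith)
  have h6 : N ≤ N ^ 7 := le_self_pow₀ (by linarith) (by norm_num)
  linarith

theorem nu_f (g d : ℕ) (hg : 1 ≤ g) (lU K C₃ : ℝ) (hlU : 0 ≤ lU) (hK : 1 ≤ K) (hC₃ : 0 ≤ C₃) :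
    ∃ N₀ : ℝ, ∀ N : ℝ, N₀ ≤ N → ∀ T : ℝ, N ≤ T → ∀ (D M : ℕ) (G a R P : ℝ), 1 ≤ D →
      (D : ℝ) ^ 8 ≤ 2 ^ 8 * N →
      T ^ 2 ≤ (D : ℝ) ^ d → (D : ℝ) ^ d ≤ K * T ^ 2 → (D : ℝ) ^ (41 * g * d) ≤ M →
      (M : ℝ) ≤ K * (D : ℝ) ^ (41 * g * d) → 0 ≤ G → G ≤ K * (D : ℝ) ^ (40 * g * d) → a ≤ N →
      0 ≤ R → R ≤ Real.exp N → 0 ≤ P → P ≤ Real.exp (2 * N) →
      Real.exp G * (2 * (M : ℝ) * (Real.exp (N * (2 + lU)) * Real.exp (-T ^ (90 * g)) *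
        Real.exp a * Real.exp G) * R ^ M + ((6 : ℝ)⁻¹) ^ M * (P * Real.exp G)) <
        Real.exp (-(C₃ * D)) := by
  set A : ℝ := K ^ (41 * g + 1) with hA
  set K2 : ℝ := 5 * A + 3 + lU with hK2
  have hK0 : (0 : ℝ) ≤ K := by linarith
  have hA1 : 1 ≤ A := one_le_pow₀ hK
  refine ⟨max (3 + 2 * K) (max (K2 + 1) (65536 * C₃ ^ 8 + 2)),
    fun N hN T hT D M G a R P hD hD8 h1 h2 h3 h4 hG0 hG ha hR0 hR hP0 hP => ?_⟩
  have hN1 : 3 + 2 * K ≤ N := (le_max_left _ _).trans hN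
  have hN2 : K2 + 1 ≤ N := ((le_max_left _ _).trans (le_max_right _ _)).trans hN
  have hN3 : 65536 * C₃ ^ 8 + 2 ≤ N := ((le_max_right _ _).trans (le_max_right _ _)).trans hN
  have hN0 : 0 ≤ N := by linarith
  have hT1 : 1 ≤ T := by linarith
  have hlast := nu7_last C₃ N D hC₃ (Nat.cast_nonneg D) hN3 hD8
  have e41 : (D : ℝ) ^ (41 * g * d) = ((D : ℝ) ^ d) ^ (41 * g) := by
    rw [mul_comm (41 * g) d, pow_mul]
  have e40 : (D : ℝ) ^ (40 * g * d) = ((D : ℝ) ^ d) ^ (40 * g) := by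
    rw [mul_comm (40 * g) d, pow_mul]
  rw [e41] at h3 h4
  rw [e40] at hG
  have hX1 : 1 ≤ (D : ℝ) ^ d := one_le_pow₀ (by exact_mod_cast hD)
  generalize (D : ℝ) ^ d = X at *
  have hX0 : 0 ≤ X := by linarith
  have hX41 : X ^ (41 * g) ≤ K ^ (41 * g) * T ^ (82 * g) := by
    calc X ^ (41 * g) ≤ (K * T ^ 2) ^ (41 * g) := pow_le_pow_left₀ hX0 h2 _
      _ = K ^ (41 * g) * T ^ (82 * g) := by
          rw [mul_pow, ← pow_mul]
          congr 2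
          ring
  have hM : (M : ℝ) ≤ A * T ^ (82 * g) := by
    calc (M : ℝ) ≤ K * X ^ (41 * g) := h4
      _ ≤ K * (K ^ (41 * g) * T ^ (82 * g)) := mul_le_mul_of_nonneg_left hX41 hK0
      _ = A * T ^ (82 * g) := by rw [hA]; ring
  have hG' : G ≤ A * T ^ (82 * g) := by
    calc G ≤ K * X ^ (40 * g) := hG
      _ ≤ K * X ^ (41 * g) :=
          mul_le_mul_of_nonneg_left (pow_le_pow_right₀ hX1 (by omega)) hK0
      _ ≤ K * (K ^ (41 * g) * T ^ (82 * g)) := mul_le_mul_of_nonneg_left hX41 hK0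
      _ = A * T ^ (82 * g) := by rw [hA]; ring
  have hAA := nu7_first g hg lU A K2 N T M G a R M rfl hlU hA1 hK2 hN0 hT1 hT (by linarith) hM
    (Nat.cast_nonneg M) hG' ha hR0 hR
  have hB := nu7_second g hg K N T G P X M hK hN0 (by linarith) hT hX1 h1 h3 hG hP0 hP
  have hfin : 2 * Real.exp (-N) < Real.exp (-(C₃ * D)) := by
    have h5 : (2 : ℝ) < Real.exp 1 := by
      have := Real.exp_one_gt_d9
      linarith
    calc 2 * Real.exp (-N) < Real.exp 1 * Real.exp (-N) :=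
          mul_lt_mul_of_pos_right h5 (Real.exp_pos _)
      _ = Real.exp (1 + -N) := (Real.exp_add _ _).symm
      _ ≤ Real.exp (-(C₃ * D)) := Real.exp_le_exp.2 (by linarith)
  rw [mul_add]
  linarith

end GAV
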