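import Mathlib

set_option autoImplicit false

namespace GAV

/-! ## [GAV-R3] multiples by doubling and adding (file R3.lean)

PORT of `ELT/W8.lean` (`ELT.mulk`: the case `A = 4`, `q = 5`). First one point `b`: for `n ≤ S`: `R (C'(S+1)^q) (n • b)`: binary expansion, `n = 2 n' + e`: `R (2Aδ + C) (2n' • b)` from `R δ (n' • b)`, then adding `b` or `0`: `R (A(2Aδ + C) + A C₁ + C) (n • b)`: `δ ↦ 2A²δ + C''` and `2A² ≤ 2^q`, so by strong induction on `n`
`δ_n ≤ C₃ (n+1)^q - C₄` with suitable constants (as in W8). Then add the points `ν_k • b_k` one after the other (induction on a finite set): the constants depend on the number of points. -/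

private theorem r3_mul1 {E : Type} [AddCommMonoid E] (R : ℝ → E → Prop) (A C C₁ : ℝ) (q : ℕ)
    (hA : 1 ≤ A) (hq : 2 * A ^ 2 ≤ 2 ^ q) (hC : 1 ≤ C) (hC₁ : 1 ≤ C₁)
    (hmono : ∀ δ δ' z, R δ z → δ ≤ δ' → R δ' z)
    (hadd : ∀ δ δ' z v, 0 ≤ δ → 0 ≤ δ' → R δ z → R δ' v → R (A * δ + A * δ' + C) (z + v))
    (z : E) (hz : R C₁ z) : ∀ n : ℕ, 1 ≤ n →
      R ((2 * C + 2 * C₁) * (n : ℝ) ^ q - (2 * C + C₁)) (n • z) := by
  intro n
  induction n using Nat.strong_induction_on with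
  | _ n ih =>
    intro hn
    have hAA : A ≤ A ^ 2 := by nlinarith
    rcases Nat.even_or_odd' n with ⟨k, hk | hk⟩
    · have hk1 : 1 ≤ k := by omega
      have h1 := ih k (by omega) hk1
      have hkr : (1 : ℝ) ≤ (k : ℝ) := by exact_mod_cast hk1
      have hkq : (1 : ℝ) ≤ (k : ℝ) ^ q := one_le_pow₀ hkr
      have h0 : 0 ≤ (2 * C + 2 * C₁) * (k : ℝ) ^ q - (2 * C + C₁) := by nlinarith
      have h2 := hadd _ _ _ _ h0 h0 h1 h1
      have e : n • z = k • z + k • z := by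
        rw [hk, two_mul, add_nsmul]
      rw [e]
      refine hmono _ _ _ h2 ?_
      have e2 : ((n : ℕ) : ℝ) ^ q = 2 ^ q * (k : ℝ) ^ q := by
        rw [hk]
        push_cast
        rw [mul_pow]
      rw [e2]
      have e3 : 2 * A * (k : ℝ) ^ q ≤ 2 ^ q * (k : ℝ) ^ q := by
        refine mul_le_mul_of_nonneg_right ?_ (by linarith)
        linarith
      have e4 : (2 * C + 2 * C₁) * (2 * A * (k : ℝ) ^ q) ≤
          (2 * C + 2 * C₁) * (2 ^ q * (k : ℝ) ^ q) :=
        mul_le_mul_of_nonneg_left e3 (by linarith)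
      have e5 : 0 ≤ (A - 1) * (2 * C + C₁) := mul_nonneg (by linarith) (by linarith)
      nlinarith
    · rcases Nat.eq_zero_or_pos k with rfl | hk1
      · have hn1 : n = 1 := by omega
        subst hn1
        rw [one_nsmul]
        refine hmono _ _ _ hz ?_
        rw [Nat.cast_one, one_pow]
        linarith
      · have h1 := ih k (by omega) hk1
        have hkr : (1 : ℝ) ≤ (k : ℝ) := by exact_mod_cast hk1
        have hkq : (1 : ℝ) ≤ (k : ℝ) ^ q := one_le_pow₀ hkr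
        have h0 : 0 ≤ (2 * C + 2 * C₁) * (k : ℝ) ^ q - (2 * C + C₁) := by nlinarith
        have h2 := hadd _ _ _ _ h0 h0 h1 h1
        have h00 : 0 ≤ A * ((2 * C + 2 * C₁) * (k : ℝ) ^ q - (2 * C + C₁)) :=
          mul_nonneg (by linarith) h0
        have h3 := hadd _ _ _ _ (by linarith) (by linarith) h2 hz
        have e : n • z = (k • z + k • z) + z := by
          rw [hk, add_nsmul, two_mul, add_nsmul, one_nsmul]
        rw [e]
        refine hmono _ _ _ h3 ?_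
        have e2 : 2 ^ q * (k : ℝ) ^ q ≤ ((n : ℕ) : ℝ) ^ q := by
          rw [← mul_pow, hk]
          push_cast
          gcongr
          linarith
        have e3 : 2 * A ^ 2 * (k : ℝ) ^ q ≤ ((n : ℕ) : ℝ) ^ q :=
          (mul_le_mul_of_nonneg_right hq (by linarith)).trans e2
        have e4 : (2 * C + 2 * C₁) * (2 * A ^ 2 * (k : ℝ) ^ q) ≤
            (2 * C + 2 * C₁) * ((n : ℕ) : ℝ) ^ q :=
          mul_le_mul_of_nonneg_left e3 (by linarith)
        have e5 : 0 ≤ (A ^ 2 - A) * (2 * C + C₁) := mul_nonneg (by linarith) (by linarith)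
        have e6 : 0 ≤ (A - 1) * C := mul_nonneg (by linarith) (by linarith)
        have e7 : 0 ≤ (A ^ 2 - 1) * (2 * C + C₁) := mul_nonneg (by linarith) (by linarith)
        nlinarith

theorem mulk {κ' E : Type} [Fintype κ'] [AddCommMonoid E] (R : ℝ → E → Prop) (A C C₁ : ℝ) (q : ℕ)
    (hA : 1 ≤ A) (hq : 2 * A ^ 2 ≤ 2 ^ q) (hC : 1 ≤ C) (hC₁ : 1 ≤ C₁)
    (hmono : ∀ δ δ' z, R δ z → δ ≤ δ' → R δ' z)
    (hadd : ∀ δ δ' z v, 0 ≤ δ → 0 ≤ δ' → R δ z → R δ' v → R (A * δ + A * δ' + C) (z + v))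
    (h0 : R C₁ 0) (b : κ' → E) (hb : ∀ k, R C₁ (b k)) :
    ∃ C' : ℝ, 1 ≤ C' ∧ ∀ (S : ℕ) (ν : κ' → ℕ), (∀ k, ν k ≤ S) →
      R (C' * ((S : ℝ) + 1) ^ q) (∑ k, ν k • b k) := by
  classical
  have h2 : ∀ (z : E), R C₁ z → ∀ n : ℕ, R ((2 * C + 2 * C₁) * ((n : ℝ) + 1) ^ q) (n • z) := by
    intro z hz n
    rcases Nat.eq_zero_or_pos n with rfl | hn
    · rw [zero_nsmul]
      refine hmono _ _ _ h0 ?_
      rw [Nat.cast_zero, zero_add, one_pow]
      linarith
    · refine hmono _ _ _ (r3_mul1 R A C C₁ q hA hq hC hC₁ hmono hadd z hz n hn) ?_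
      have h3 : (n : ℝ) ^ q ≤ ((n : ℝ) + 1) ^ q := by
        have : (0 : ℝ) ≤ n := Nat.cast_nonneg n
        gcongr
        linarith
      nlinarith
  have h3 : ∀ s : Finset κ', ∃ K : ℝ, 1 ≤ K ∧ ∀ (S : ℕ) (ν : κ' → ℕ), (∀ k, ν k ≤ S) →
      R (K * ((S : ℝ) + 1) ^ q) (∑ k ∈ s, ν k • b k) := by
    intro s
    induction s using Finset.induction_on with
    | empty =>
      refine ⟨C₁, hC₁, fun S ν _ => ?_⟩
      rw [Finset.sum_empty]
      refine hmono _ _ _ h0 ?_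
      have : (1 : ℝ) ≤ ((S : ℝ) + 1) ^ q := one_le_pow₀ (by linarith [Nat.cast_nonneg (α := ℝ) S])
      nlinarith
    | insert a s ha ih =>
      obtain ⟨K, hK, ihK⟩ := ih
      have hAK : 1 ≤ A * K := by nlinarith
      have hA2 : 0 ≤ A * (2 * C + 2 * C₁) := mul_nonneg (by linarith) (by linarith)
      refine ⟨A * (2 * C + 2 * C₁) + A * K + C, by linarith, fun S ν hν => ?_⟩
      rw [Finset.sum_insert ha]
      have hS : (0 : ℝ) ≤ S := Nat.cast_nonneg S
      have e1 := h2 (b a) (hb a) (ν a)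
      have hle : ((ν a : ℕ) : ℝ) ≤ S := by exact_mod_cast hν a
      have hp : (1 : ℝ) ≤ ((S : ℝ) + 1) ^ q := one_le_pow₀ (by linarith)
      have e1' : R ((2 * C + 2 * C₁) * ((S : ℝ) + 1) ^ q) (ν a • b a) := by
        refine hmono _ _ _ e1 ?_
        have : (0 : ℝ) ≤ 2 * C + 2 * C₁ := by linarith
        gcongr
      have e2 := hadd _ _ _ _ (mul_nonneg (by linarith) (by linarith))
        (mul_nonneg (by linarith) (by linarith)) e1' (ihK S ν hν)
      refine hmono _ _ _ e2 ?_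
      nlinarith
  obtain ⟨K, hK, h4⟩ := h3 Finset.univ
  exact ⟨K, hK, h4⟩

end GAV
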