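import Pool.Agent.GAV.R2
import Pool.Agent.GAV.R3

set_option autoImplicit false

open MvPolynomial LTD

namespace GAV

variable {g N κ : ℕ} {k : IntermediateField ℚ ℂ}

/-! ## [GAV-R4] representation of all multiples (file R4.lean)

`rat_vec`: choose `b` with `θ_b(z) ≠ 0`, `p_j = θ_j(z)/θ_b(z) ∈ F`, `p = c θ(z)`, `c = 1/θ_b(z)`, and `‖p‖ ≥ 1` since `p_b = 1`.
`rep_final`: `ι = Cf A ⊕ (Fin 2 × Fin (N+1)) ⊕ ((Unit ⊕ κ') × Fin (N+1))` (or `Option κ'`), `u` = the coefficients `cval A` (in `k ≤ F`), the `lam i j`, and the coordinates of the vectors of `rat_vec` for the points `0` (`A.zero`: the quotients `θ_a(0)/θ_b(0)` are in `k`) and `b k`. So `Rep A u 1 (b k)` and `Rep A u 1 0` by the variables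
(degree `1`, length `1`, norm `≥ 1`). `rep_add`, `mulk` with `A = (κ+1)²`, `q = 4κ+2`: `2(κ+1)^4 ≤ 2^{4κ+2}` since `κ+1 ≤ 2^κ`. Then `Q_i = ∑_j X(lam i j) P_j`: size `≤ δ + 1 + (N+1)` (length `≤ (N+1)e^δ`); value `∑_j lam i j c θ_j = c lf_i`. All sizes: replace `δ` by `δ + N + 2 ≤ (C' + N + 2)(S+1)^q`. -/

theorem rat_vec (A : AV g N κ k) (F : IntermediateField ℚ ℂ) (z : Fin g → ℂ) (h : A.rat z ⊆ F) :
    ∃ (p : Fin (N + 1) → ℂ) (c : ℂ), c ≠ 0 ∧ (∀ j, p j ∈ F) ∧ 1 ≤ ‖p‖ ∧ ∀ j, p j = c * A.θ z j := by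
  obtain ⟨b, hb⟩ : ∃ b, A.θ z b ≠ 0 := by
    by_contra hcon
    push Not at hcon
    exact A.ne z (funext hcon)
  refine ⟨fun j => A.θ z j / A.θ z b, (A.θ z b)⁻¹, inv_ne_zero hb, fun j => ?_, ?_, fun j => ?_⟩
  · exact h ⟨(j, b), rfl⟩
  · have h1 := norm_le_pi_norm (fun j => A.θ z j / A.θ z b) b
    rw [div_self hb, norm_one] at h1
    exact h1
  · show A.θ z j / A.θ z b = _
    rw [div_eq_mul_inv, mul_comm]

private theorem r4_sum {ι : Type} {N : ℕ} (l : Fin (N + 1) → ι)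
    (P : Fin (N + 1) → MvPolynomial ι ℤ) (δ : ℝ) (hP : ∀ j, Sz (P j) δ) :
    Sz (∑ j, X (l j) * P j) (δ + N + 1) := by
  have hNr : (0 : ℝ) ≤ N := Nat.cast_nonneg N
  constructor
  · have h1 : ∀ j, (X (l j) * P j).totalDegree ≤ ⌊δ⌋₊ + 1 := by
      intro j
      refine (totalDegree_mul _ _).trans ?_
      rw [totalDegree_X]
      have := Nat.le_floor (hP j).1
      omega
    have h2 : (∑ j, X (l j) * P j).totalDegree ≤ ⌊δ⌋₊ + 1 :=
      totalDegree_finsetSum_le fun j _ => h1 j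
    have h3 : 0 ≤ δ := le_trans (Nat.cast_nonneg _) (hP 0).1
    have h4 := Nat.floor_le h3
    have h5 : ((∑ j, X (l j) * P j).totalDegree : ℝ) ≤ (⌊δ⌋₊ : ℝ) + 1 := by exact_mod_cast h2
    linarith
  · have h1 : ∀ j, len (X (l j) * P j) ≤ Real.exp δ := by
      intro j
      refine (len_mul _ _).trans ?_
      rw [len_X, one_mul]
      exact (hP j).2
    refine (len_sum _ _).trans ?_
    refine (Finset.sum_le_sum fun j _ => h1 j).trans ?_
    rw [Finset.sum_const, Finset.card_univ, Fintype.card_fin, nsmul_eq_mul]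
    have h2 : ((N + 1 : ℕ) : ℝ) ≤ Real.exp ((N : ℝ) + 1) := by
      have := Real.add_one_le_exp ((N : ℝ) + 1)
      push_cast
      linarith
    have e : δ + N + 1 = (N + 1) + δ := by ring
    rw [e, Real.exp_add]
    exact mul_le_mul_of_nonneg_right h2 (Real.exp_pos _).le

private theorem r4_pow (κ : ℕ) : 2 * (((κ : ℝ) + 1) ^ 2) ^ 2 ≤ 2 ^ (4 * κ + 2) := by
  have h1 : (κ : ℝ) + 1 ≤ 2 ^ κ := by
    have : κ + 1 ≤ 2 ^ κ := Nat.lt_two_pow_self
    exact_mod_cast this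
  have h2 : ((κ : ℝ) + 1) ^ 4 ≤ (2 ^ κ) ^ 4 := pow_le_pow_left₀ (by positivity) h1 4
  have h3 : (0 : ℝ) ≤ (2 ^ κ) ^ 4 := by positivity
  calc 2 * (((κ : ℝ) + 1) ^ 2) ^ 2 = 2 * ((κ : ℝ) + 1) ^ 4 := by ring
    _ ≤ 4 * (2 ^ κ) ^ 4 := by linarith
    _ = 2 ^ (4 * κ + 2) := by rw [pow_add, mul_comm 4 κ, pow_mul]; norm_num; ring

theorem rep_final (A : AV g N κ k) (F : IntermediateField ℚ ℂ) (hk : k ≤ F)
    (lam : Fin 2 → Fin (N + 1) → ℂ) (hlam : ∀ i j, lam i j ∈ F) (κ' : Type) [Fintype κ']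
    (b : κ' → Fin g → ℂ) (hb : ∀ x, A.rat (b x) ⊆ F) :
    ∃ (ι : Type) (_ : Fintype ι) (u : ι → ℂ) (C : ℝ), (∀ i, u i ∈ F) ∧ 1 ≤ C ∧
      ∀ (S : ℕ) (ν : κ' → ℕ), (∀ x, ν x ≤ S) → ∃ Q : Fin 2 → MvPolynomial ι ℤ,
        RepX A lam u (C * ((S : ℝ) + 1) ^ (4 * κ + 2)) (∑ x, ν x • b x) Q := by
  classical
  have h0F : A.rat 0 ⊆ F := by
    obtain ⟨c, hc, hk0⟩ := A.zero
    rintro _ ⟨⟨i, j⟩, rfl⟩
    have h1 : A.θ 0 i / A.θ 0 j = (c * A.θ 0 i) / (c * A.θ 0 j) := by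
      rw [mul_div_mul_left _ _ hc]
    show A.θ 0 i / A.θ 0 j ∈ F
    rw [h1]
    exact hk (div_mem (hk0 i) (hk0 j))
  have hbF : ∀ x : Option κ', A.rat (x.elim 0 b) ⊆ F := by
    intro x
    cases x with
    | none => exact h0F
    | some x => exact hb x
  choose p c hc hpF hpn hpc using fun x : Option κ' => rat_vec A F (x.elim 0 b) (hbF x)
  let ι : Type := Cf A ⊕ (Fin 2 × Fin (N + 1)) ⊕ (Option κ' × Fin (N + 1))
  let u : ι → ℂ := Sum.elim (cval A) (Sum.elim (fun x => lam x.1 x.2) (fun x => p x.1 x.2))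
  have hevX : ∀ i : ι, ev u (X i) = u i := by
    intro i
    unfold ev
    simp
  have hSzX : ∀ i : ι, Sz (X i : MvPolynomial ι ℤ) 1 := by
    intro i
    refine ⟨?_, ?_⟩
    · rw [totalDegree_X]; norm_num
    · rw [len_X]
      have := Real.add_one_le_exp (1 : ℝ)
      linarith
  have hrep : ∀ x : Option κ', Rep A u 1 (x.elim 0 b) := by
    intro x
    refine ⟨fun j => X (Sum.inr (Sum.inr (x, j))), fun j => hSzX _, ?_, c x, fun j => ?_⟩
    · have e : (fun j => ev u (X (Sum.inr (Sum.inr (x, j)))) : Fin (N + 1) → ℂ) = p x := by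
        funext j
        rw [hevX]
        rfl
      rw [e]
      refine le_trans ?_ (hpn x)
      exact Real.exp_le_one_iff.2 (by norm_num)
    · rw [hevX]
      exact hpc x j
  obtain ⟨C, hC1, hadd⟩ := rep_add A (Sum.inl : Cf A → ι) u (fun x => rfl) 1 zero_le_one (hrep none)
  have hA1 : (1 : ℝ) ≤ ((κ : ℝ) + 1) ^ 2 := by
    have : (0 : ℝ) ≤ κ := Nat.cast_nonneg κ
    nlinarith
  obtain ⟨C', hC'1, hmul⟩ := mulk (fun δ z => Rep A u δ z) (((κ : ℝ) + 1) ^ 2) C 1 (4 * κ + 2) hA1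
    (r4_pow κ) hC1 le_rfl (fun δ δ' z h hδ => rep_mono A u h hδ)
    (fun δ δ' z v h h' r r' => hadd δ δ' z v h h' r r') (hrep none) b (fun x => hrep (some x))
  refine ⟨ι, inferInstance, u, C' + N + 2, ?_, ?_, ?_⟩
  · rintro (x | x | x)
    · exact hk (Subtype.property (coeff (Finsupp.equivFunOnFinite.symm fun l =>
        ((x.2.2 l : ℕ) : ℕ)) (A.law x.1 x.2.1) : k))
    · exact hlam x.1 x.2
    · exact hpF x.1 x.2
  · have : (0 : ℝ) ≤ N := Nat.cast_nonneg N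
    linarith
  · intro S ν hν
    obtain ⟨P, hP, hn, cc, hcc⟩ := hmul S ν hν
    have hN0 : (0 : ℝ) ≤ N := Nat.cast_nonneg N
    have hS1 : (1 : ℝ) ≤ ((S : ℝ) + 1) ^ (4 * κ + 2) :=
      one_le_pow₀ (by have : (0 : ℝ) ≤ S := Nat.cast_nonneg S; linarith)
    have hle : C' * ((S : ℝ) + 1) ^ (4 * κ + 2) + N + 1 ≤
        (C' + N + 2) * ((S : ℝ) + 1) ^ (4 * κ + 2) := by nlinarith
    have hle' : C' * ((S : ℝ) + 1) ^ (4 * κ + 2) ≤
        (C' + N + 2) * ((S : ℝ) + 1) ^ (4 * κ + 2) := by linarith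
    refine ⟨fun i => ∑ j, X (Sum.inr (Sum.inl (i, j))) * P j, ?_, P, ?_, ?_, cc, hcc, ?_⟩
    · intro i
      exact ELT.sz_mono (r4_sum (fun j => Sum.inr (Sum.inl (i, j))) P _ hP) hle
    · intro j
      exact ELT.sz_mono (hP j) hle'
    · exact (Real.exp_le_exp.2 (neg_le_neg hle')).trans hn
    · intro i
      rw [map_sum]
      unfold lf
      rw [Finset.mul_sum]
      refine Finset.sum_congr rfl fun j _ => ?_
      rw [map_mul, hevX, hcc j]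
      show lam i j * (cc * A.θ _ j) = _
      ring

end GAV
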