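import Mathlib

set_option autoImplicit false

open Module

namespace GAV

/-! ## [GAV-F2a] linear algebra for the passage to subspaces of `K^g` (file F2a.lean)

PORT of `ELT/F2a.lean` (`ELT.span_codim`, the case `g = 1`). `W` an additive subgroup of `Fin g → K`, `V` its `ℚ`-span. `D = finrank K`, `r = gD - finrank V`; suppose `D/(2gm') > r`, so `D ≥ 2gm'(r+1)`. Take `y : Fin m' → K` independent (`m' ≤ D`). `X` = kernel of `x ↦ (x y_j e_l mod V)_{j,l}`,
`K → (Fin m' × Fin g → (Fin g → K) ⧸ V)`, whose target has dimension `m' g r ≤ D/2`, so `2 dim X ≥ D`. `x` = a basis of `X`. Every element of the span of `W` has a positive multiple in `W`; take a common `n ≥ 1` for all `Pi.single l (x_i y_j)` and replace `x_i` by `n x_i`. Contradiction to `h`. -/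

private theorem f2a_mult (E : Type) [AddCommGroup E] [Module ℚ E] (W : AddSubgroup E) (v : E)
    (hv : v ∈ Submodule.span ℚ (W : Set E)) : ∃ n : ℕ, 0 < n ∧ n • v ∈ W := by
  induction hv using Submodule.span_induction with
  | mem x hx => exact ⟨1, one_pos, by rw [one_smul]; exact hx⟩
  | zero => exact ⟨1, one_pos, by rw [smul_zero]; exact W.zero_mem⟩
  | add x y _ _ hx hy =>
    obtain ⟨n, hn, hnx⟩ := hx
    obtain ⟨m, hm, hmy⟩ := hy
    refine ⟨n * m, Nat.mul_pos hn hm, ?_⟩
    rw [smul_add]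
    refine W.add_mem ?_ ?_
    · rw [mul_comm, mul_smul]
      exact W.nsmul_mem hnx m
    · rw [mul_smul]
      exact W.nsmul_mem hmy n
  | smul q x _ hx =>
    obtain ⟨n, hn, hnx⟩ := hx
    refine ⟨q.den * n, Nat.mul_pos q.den_pos hn, ?_⟩
    have h1 : (q.den * n) • (q • x) = q.num • (n • x) := by
      rw [← Nat.cast_smul_eq_nsmul ℚ, ← Int.cast_smul_eq_zsmul ℚ, ← Nat.cast_smul_eq_nsmul ℚ,
        smul_smul, smul_smul]
      congr 1
      push_cast
      have h2 : (q.den : ℚ) * q = q.num := by rw [mul_comm]; exact Rat.mul_den_eq_num q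
      linear_combination (n : ℚ) * h2
    rw [h1]
    exact W.zsmul_mem hnx q.num

theorem span_codim (g : ℕ) (K : Type) [Field K] [Algebra ℚ K] [FiniteDimensional ℚ K]
    (W : AddSubgroup (Fin g → K)) (m' : ℕ) (hm : 1 ≤ m') (hg : 0 < g)
    (h : ∀ (nX : ℕ) (x : Fin nX → K) (y : Fin m' → K), LinearIndependent ℚ x →
      LinearIndependent ℚ y → finrank ℚ K ≤ 2 * nX →
        ∃ (i : Fin nX) (j : Fin m') (l : Fin g), Pi.single l (x i * y j) ∉ W) :
    finrank ℚ (Submodule.span ℚ (W : Set (Fin g → K))) + finrank ℚ K / (2 * g * m') ≤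
      g * finrank ℚ K := by
  by_contra hcon
  push Not at hcon
  have hgD : finrank ℚ (Fin g → K) = g * finrank ℚ K := by
    rw [Module.finrank_pi_fintype, Finset.sum_const, Finset.card_univ, Fintype.card_fin,
      smul_eq_mul]
  set D := finrank ℚ K with hD
  set V := Submodule.span ℚ (W : Set (Fin g → K)) with hV
  have hVD : finrank ℚ V ≤ g * D := by
    rw [← hgD]
    exact Submodule.finrank_le V
  obtain ⟨r, hr⟩ : ∃ r, r = g * D - finrank ℚ V := ⟨_, rfl⟩
  have hr1 : r + 1 ≤ D / (2 * g * m') := by omega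
  have hbig : 2 * g * m' * (r + 1) ≤ D :=
    (Nat.mul_le_mul_left (2 * g * m') hr1).trans (Nat.mul_div_le D (2 * g * m'))
  have hbig' : 2 * (m' * g * r) + 2 * (g * m') ≤ D := by
    have h1 : 2 * g * m' * (r + 1) = 2 * (m' * g * r) + 2 * (g * m') := by ring
    rwa [h1] at hbig
  have hmD : m' ≤ D := by
    have h1 : m' ≤ g * m' := Nat.le_mul_of_pos_left m' hg
    omega
  -- the family `y`
  let y : Fin m' → K := fun j => finBasis ℚ K (Fin.castLE hmD j)
  have hy : LinearIndependent ℚ y :=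
    (finBasis ℚ K).linearIndependent.comp _ (Fin.castLE_injective hmD)
  -- the subspace `X`
  let φ : K →ₗ[ℚ] (Fin m' × Fin g → (Fin g → K) ⧸ V) :=
    LinearMap.pi fun p => V.mkQ ∘ₗ (LinearMap.single ℚ (fun _ : Fin g => K) p.2) ∘ₗ
      LinearMap.mulRight ℚ (y p.1)
  have hrange : finrank ℚ (LinearMap.range φ) ≤ m' * g * r := by
    refine (Submodule.finrank_le _).trans ?_
    rw [Module.finrank_pi_fintype, Finset.sum_const, Finset.card_univ, Fintype.card_prod,
      Fintype.card_fin, Fintype.card_fin, smul_eq_mul]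
    have h1 := Submodule.finrank_quotient_add_finrank V
    rw [hgD] at h1
    have h2 : finrank ℚ ((Fin g → K) ⧸ V) = r := by omega
    rw [h2]
  have hrn := LinearMap.finrank_range_add_finrank_ker φ
  have hker : D ≤ 2 * finrank ℚ (LinearMap.ker φ) := by omega
  let x : Fin (finrank ℚ (LinearMap.ker φ)) → K := fun k =>
    (LinearMap.ker φ).subtype (finBasis ℚ (LinearMap.ker φ) k)
  have hx : LinearIndependent ℚ x :=
    (finBasis ℚ (LinearMap.ker φ)).linearIndependent.map' _ (Submodule.ker_subtype _)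
  have hxy : ∀ k j l, (Pi.single l (x k * y j) : Fin g → K) ∈ V := by
    intro k j l
    have h1 : φ (x k) = 0 := (finBasis ℚ (LinearMap.ker φ) k).2
    have h2 := congrFun h1 (j, l)
    have h3 : V.mkQ (Pi.single l (x k * y j) : Fin g → K) = 0 := h2
    rwa [Submodule.mkQ_apply, Submodule.Quotient.mk_eq_zero] at h3
  choose n hn0 hn using fun k j l => f2a_mult (Fin g → K) W _ (hxy k j l)
  let N : ℕ := ∏ k, ∏ j, ∏ l, n k j l
  have hN : 0 < N := Finset.prod_pos fun k _ => Finset.prod_pos fun j _ =>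
    Finset.prod_pos fun l _ => hn0 k j l
  have hdvd : ∀ k j l, n k j l ∣ N := fun k j l =>
    (Finset.dvd_prod_of_mem (fun l => n k j l) (Finset.mem_univ l)).trans
      ((Finset.dvd_prod_of_mem (fun j => ∏ l, n k j l) (Finset.mem_univ j)).trans
        (Finset.dvd_prod_of_mem (fun k => ∏ j, ∏ l, n k j l) (Finset.mem_univ k)))
  have hNW : ∀ k j l, N • (Pi.single l (x k * y j) : Fin g → K) ∈ W := by
    intro k j l
    obtain ⟨c, hc⟩ := hdvd k j l
    rw [hc, mul_comm, mul_smul]
    exact W.nsmul_mem (hn k j l) c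
  have : CharZero K := algebraRat.charZero K
  have hNK : (N : K) ≠ 0 := Nat.cast_ne_zero.2 hN.ne'
  have hx' : LinearIndependent ℚ (fun k => (N : K) * x k) := by
    have h1 : LinearMap.ker (LinearMap.mulLeft ℚ (N : K)) = ⊥ := by
      rw [LinearMap.ker_eq_bot]
      intro a b hab
      exact mul_left_cancel₀ hNK hab
    exact hx.map' _ h1
  obtain ⟨k, j, l, hkj⟩ := h _ _ y hx' hy hker
  apply hkj
  have h1 : (Pi.single l ((N : K) * x k * y j) : Fin g → K) = N • Pi.single l (x k * y j) := by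
    rw [← Pi.single_smul, nsmul_eq_mul, mul_assoc]
  rw [h1]
  exact hNW k j l

end GAV
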