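import Pool.Agent.GAV.G3
import Pool.Agent.GAV.S5
import Pool.Agent.GAV.F2a
import Pool.Agent.ELT.F3
import Pool.Agent.LTD.NFf

set_option autoImplicit false

open LTD Module MvPolynomial

namespace GAV

variable {g N κ : ℕ} {k : IntermediateField ℚ ℂ}

/-! ## [GAV-F2] points rational over `F` (file F2.lean)

`rat_sub`: choose `b, b'` with `θ_b(z) ≠ 0`, `θ_b'(w) ≠ 0`; `p = θ(z)/θ_b(z)`, `q = θ(w)/θ_b'(w)` have coordinates in `F`; some law `i` is nonzero at `(θ z, θ w)` (`A.law_ne`), so at `(p, q)` (`law_smul`); its values `aeval (Sum.elim p q) (A.law i j)` are in `F` (coefficients in `k ≤ F`) and equal to `c θ(z - w)_j` with `c ≠ 0` (`A.law_eq`); quotients.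
`rat_zero`: `A.zero`. `av_sub`: `W = {ξ : Fin g → K | A.rat (fun i => ξ i) ⊆ F}` is an additive subgroup (`rat_zero`, `rat_sub`), `V` = its `ℚ`-span, `span_codim` with `m'` from `av_ltd`, `m = 2 g m'`.
`av_count`: as `ELT.ell_count` (`ELT/F4.lean`): if `a₀` is in the set then for every `a` in it `pt r w a - pt r w a₀ = ∑ (a - a₀)_{ij} w_j e_i` is in `W` (`rat_sub`), so `a - a₀`, seen in `ℚ^{gD}`, is in the inverse image of `V` under the isomorphism `ℚ^{gD} ≅ K^g` given by the basis `w` (dimension `≤ gD - D/m`; `D = finrank ℚ K`);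
`ELT.box_coset` for `Fin (g*D)` (reindex by `finProdFinEquiv`; `Set.ncard` is invariant under the bijection). -/

theorem rat_zero (A : AV g N κ k) (F : IntermediateField ℚ ℂ) (hk : k ≤ F) : A.rat 0 ⊆ F := by
  obtain ⟨c, hc, h⟩ := A.zero
  rintro _ ⟨p, rfl⟩
  show A.θ 0 p.1 / A.θ 0 p.2 ∈ F
  rw [← mul_div_mul_left _ _ hc]
  exact div_mem (hk (h _)) (hk (h _))

theorem f2_aeval {σ : Type} (k F : IntermediateField ℚ ℂ) (hk : k ≤ F) (x : σ → ℂ)
    (hx : ∀ s, x s ∈ F) (f : MvPolynomial σ k) : aeval x f ∈ F := by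
  induction f using MvPolynomial.induction_on with
  | C a =>
    rw [aeval_C]
    exact hk a.2
  | add p q hp hq =>
    rw [map_add]
    exact add_mem hp hq
  | mul_X p n hp =>
    rw [map_mul, aeval_X]
    exact mul_mem hp (hx n)

theorem rat_sub (A : AV g N κ k) (F : IntermediateField ℚ ℂ) (hk : k ≤ F) {z w : Fin g → ℂ}
    (hz : A.rat z ⊆ F) (hw : A.rat w ⊆ F) : A.rat (z - w) ⊆ F := by
  obtain ⟨b, hb⟩ : ∃ b, A.θ z b ≠ 0 := by
    by_contra h
    push Not at h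
    exact A.ne z (funext h)
  obtain ⟨b', hb'⟩ : ∃ b, A.θ w b ≠ 0 := by
    by_contra h
    push Not at h
    exact A.ne w (funext h)
  obtain ⟨i, j, hij⟩ := A.law_ne z w
  obtain ⟨c, hc⟩ := A.law_eq i z w
  have hc0 : c ≠ 0 := by
    rintro rfl
    apply hij
    rw [hc j, zero_mul]
  have hmem : ∀ j, aeval (Sum.elim ((A.θ z b)⁻¹ • A.θ z) ((A.θ w b')⁻¹ • A.θ w)) (A.law i j) ∈ F := by
    intro j
    apply f2_aeval k F hk
    rintro (s | s)
    · show (A.θ z b)⁻¹ * A.θ z s ∈ F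
      have h := hz ⟨(s, b), rfl⟩
      rw [mul_comm, ← div_eq_mul_inv]
      exact h
    · show (A.θ w b')⁻¹ * A.θ w s ∈ F
      have h := hw ⟨(s, b'), rfl⟩
      rw [mul_comm, ← div_eq_mul_inv]
      exact h
  rintro _ ⟨p, rfl⟩
  show A.θ (z - w) p.1 / A.θ (z - w) p.2 ∈ F
  have h3 : ((A.θ z b)⁻¹ ^ κ * (A.θ w b')⁻¹ ^ κ * c) ≠ 0 :=
    mul_ne_zero (mul_ne_zero (pow_ne_zero _ (inv_ne_zero hb)) (pow_ne_zero _ (inv_ne_zero hb'))) hc0
  rw [← mul_div_mul_left _ _ h3]
  have h4 : ∀ j, ((A.θ z b)⁻¹ ^ κ * (A.θ w b')⁻¹ ^ κ * c) * A.θ (z - w) j =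
      aeval (Sum.elim ((A.θ z b)⁻¹ • A.θ z) ((A.θ w b')⁻¹ • A.θ w)) (A.law i j) := by
    intro j
    rw [law_smul, hc j]
    ring
  rw [h4, h4]
  exact div_mem (hmem _) (hmem _)

theorem av_sub (g κ t : ℕ) (hg : 0 < g) : ∃ m : ℕ, 1 ≤ m ∧ ∀ (N : ℕ) (k F : IntermediateField ℚ ℂ),
    k ≤ F → Algebra.trdeg ℚ F ≤ (t : Cardinal) → Clo F → ∀ A : AV g N κ k,
      ∀ (K : IntermediateField ℚ ℂ) [FiniteDimensional ℚ K], ∃ V : Submodule ℚ (Fin g → K),
        (∀ ξ : Fin g → K, A.rat (fun i => ((ξ i : K) : ℂ)) ⊆ F → ξ ∈ V) ∧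
        finrank ℚ V + finrank ℚ K / m ≤ g * finrank ℚ K := by
  obtain ⟨m', hm', h⟩ := av_ltd g κ t hg
  refine ⟨2 * g * m', Nat.mul_pos (by omega) (by omega), fun N k F hk hF hclo A K _ => ?_⟩
  have hneg : ∀ z : Fin g → ℂ, A.rat z ⊆ F → A.rat (0 - z) ⊆ F := fun z hz =>
    rat_sub A F hk (rat_zero A F hk) hz
  let W : AddSubgroup (Fin g → K) :=
    { carrier := {ξ : Fin g → K | A.rat (fun i => ((ξ i : K) : ℂ)) ⊆ F}
      zero_mem' := by
        have h0 : (fun i => (((0 : Fin g → K) i : K) : ℂ)) = 0 := rfl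
        show A.rat (fun i => (((0 : Fin g → K) i : K) : ℂ)) ⊆ F
        rw [h0]
        exact rat_zero A F hk
      add_mem' := by
        intro a b ha hb
        show A.rat (fun i => (((a + b) i : K) : ℂ)) ⊆ F
        have h0 : (fun i => (((a + b) i : K) : ℂ)) =
            (fun i => ((a i : K) : ℂ)) - (0 - (fun i => ((b i : K) : ℂ))) := by
          funext i
          show ((a i + b i : K) : ℂ) = (a i : ℂ) - (0 - (b i : ℂ))
          push_cast
          ring
        rw [h0]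
        exact rat_sub A F hk ha (hneg _ hb)
      neg_mem' := by
        intro a ha
        show A.rat (fun i => (((-a) i : K) : ℂ)) ⊆ F
        have h0 : (fun i => (((-a) i : K) : ℂ)) = 0 - (fun i => ((a i : K) : ℂ)) := by
          funext i
          show ((-a i : K) : ℂ) = 0 - (a i : ℂ)
          push_cast
          ring
        rw [h0]
        exact hneg _ ha }
  refine ⟨Submodule.span ℚ (W : Set (Fin g → K)), fun ξ hξ => Submodule.subset_span hξ, ?_⟩
  refine span_codim g K W m' hm' hg fun nX x y hx hy hk' => ?_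
  obtain ⟨i, j, l, hijl⟩ := h N k F hk hF hclo A K nX x y hx hy hk'
  refine ⟨i, j, l, fun hc => hijl ?_⟩
  have h0 : (fun s => (((Pi.single l (x i * y j) : Fin g → K) s : K) : ℂ)) =
      Pi.single l (((x i : K) : ℂ) * ((y j : K) : ℂ)) := by
    funext s
    by_cases hs : s = l
    · subst hs
      rw [Pi.single_eq_same, Pi.single_eq_same]
      push_cast
      rfl
    · rw [Pi.single_eq_of_ne hs, Pi.single_eq_of_ne hs]
      rfl
  rw [← h0]
  exact hc

/-- the coordinates of a vector of `K^g` with respect to the basis `w` -/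
noncomputable def f2_equiv (g D : ℕ) (K : IntermediateField ℚ ℂ) (w : Basis (Fin D) ℚ K) :
    (Fin g → K) ≃ₗ[ℚ] (Fin (g * D) → ℚ) :=
  (LinearEquiv.piCongrRight fun _ => w.equivFun) ≪≫ₗ
    (LinearEquiv.curry ℚ ℚ (Fin g) (Fin D)).symm ≪≫ₗ
      LinearEquiv.funCongrLeft ℚ ℚ finProdFinEquiv.symm

theorem f2_equiv_symm (g D : ℕ) (K : IntermediateField ℚ ℂ) (w : Basis (Fin D) ℚ K)
    (a : Fin g → Fin D → ℚ) (i : Fin g) :
    (f2_equiv g D K w).symm (fun s => a (finProdFinEquiv.symm s).1 (finProdFinEquiv.symm s).2) i =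
      w.equivFun.symm (a i) := by
  have h : f2_equiv g D K w (fun i => w.equivFun.symm (a i)) =
      fun s => a (finProdFinEquiv.symm s).1 (finProdFinEquiv.symm s).2 := by
    funext s
    show w.equivFun (w.equivFun.symm (a (finProdFinEquiv.symm s).1)) (finProdFinEquiv.symm s).2 = _
    rw [LinearEquiv.apply_symm_apply]
  rw [← h, LinearEquiv.symm_apply_apply]

theorem av_count (g κ t : ℕ) (hg : 0 < g) : ∃ m : ℕ, 1 ≤ m ∧
    ∀ (N : ℕ) (k F : IntermediateField ℚ ℂ),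
    k ≤ F → Algebra.trdeg ℚ F ≤ (t : Cardinal) → Clo F → ∀ (A : AV g N κ k) (r : Fin g → ℂ)
      (K : IntermediateField ℚ ℂ) (D : ℕ) (w : Basis (Fin D) ℚ K) (H : ℕ),
        Set.ncard {a : Fin g → Fin D → ℤ | (∀ i j, |a i j| ≤ (H : ℤ)) ∧
          A.rat (pt r (fun j => ((w j : K) : ℂ)) a) ⊆ F} ≤ (2 * H + 1) ^ (g * D - D / m) := by
  obtain ⟨m, hm, h⟩ := av_sub g κ t hg
  refine ⟨m, hm, fun N k F hk hF hclo A r K D w H => ?_⟩
  have : FiniteDimensional ℚ K := Module.Finite.of_basis w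
  obtain ⟨V, hV, hVd⟩ := h N k F hk hF hclo A K
  have hD : finrank ℚ K = D := by
    rw [finrank_eq_card_basis w, Fintype.card_fin]
  by_cases hne : ∃ a₀ : Fin g → Fin D → ℤ, A.rat (pt r (fun j => ((w j : K) : ℂ)) a₀) ⊆ F
  · obtain ⟨a₀, ha₀⟩ := hne
    set Φ := f2_equiv g D K w with hΦ
    set V' : Submodule ℚ (Fin (g * D) → ℚ) := V.comap (Φ.symm : (Fin (g * D) → ℚ) →ₗ[ℚ] (Fin g → K))
      with hV'
    have hfin : finrank ℚ V' = finrank ℚ V := by
      have h1 : V' = V.map (Φ : (Fin g → K) →ₗ[ℚ] (Fin (g * D) → ℚ)) := by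
        rw [hV']
        exact (Submodule.map_equiv_eq_comap_symm Φ V).symm
      rw [h1]
      exact LinearEquiv.finrank_map_eq Φ V
    let U : (Fin g → Fin D → ℤ) → (Fin (g * D) → ℤ) :=
      fun a s => a (finProdFinEquiv.symm s).1 (finProdFinEquiv.symm s).2
    have hU : Function.Injective U := by
      intro a b hab
      funext i j
      have h2 := congrFun hab (finProdFinEquiv (i, j))
      simpa only [U, Equiv.symm_apply_apply] using h2
    have hle := ELT.box_coset (g * D) H V' (U a₀)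
    rw [hfin] at hle
    have hexp : finrank ℚ V ≤ g * D - D / m := by
      rw [hD] at hVd
      omega
    have hfinite : ({a : Fin (g * D) → ℤ | (∀ j, |a j| ≤ (H : ℤ)) ∧
        (fun j => (((a j - U a₀ j : ℤ)) : ℚ)) ∈ V'}).Finite := by
      refine Set.Finite.subset (s := {a : Fin (g * D) → ℤ | ∀ j, |a j| ≤ (H : ℤ)}) ?_
        fun a ha => ha.1
      exact (LTD.NFf_box (g * D) H).1
    refine le_trans (Set.ncard_le_ncard_of_injOn U ?_ hU.injOn hfinite)
      (le_trans hle (Nat.pow_le_pow_right (by omega) hexp))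
    rintro a ⟨h3, h4⟩
    refine ⟨fun j => h3 _ _, ?_⟩
    show Φ.symm (fun j => (((U a j - U a₀ j : ℤ)) : ℚ)) ∈ V
    apply hV
    have h5 : (fun i => ((Φ.symm (fun j => (((U a j - U a₀ j : ℤ)) : ℚ)) i : K) : ℂ)) =
        pt r (fun j => ((w j : K) : ℂ)) a - pt r (fun j => ((w j : K) : ℂ)) a₀ := by
      funext i
      have h6 := f2_equiv_symm g D K w (fun i j => ((a i j - a₀ i j : ℤ) : ℚ)) i
      show ((Φ.symm (fun s => ((a (finProdFinEquiv.symm s).1 (finProdFinEquiv.symm s).2 -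
        a₀ (finProdFinEquiv.symm s).1 (finProdFinEquiv.symm s).2 : ℤ) : ℚ)) i : K) : ℂ) =
          (r i + ∑ j, ((a i j : ℤ) : ℂ) * ((w j : K) : ℂ)) -
            (r i + ∑ j, ((a₀ i j : ℤ) : ℂ) * ((w j : K) : ℂ))
      rw [hΦ, h6, Basis.equivFun_symm_apply]
      have h7 : ((∑ j, (((a i j - a₀ i j : ℤ) : ℚ)) • w j : K) : ℂ) =
          ∑ j, (((a i j : ℤ) : ℂ) - ((a₀ i j : ℤ) : ℂ)) * (w j : ℂ) := by
        push_cast
        refine Finset.sum_congr rfl fun j _ => ?_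
        rw [Rat.smul_def]
        push_cast
        rfl
      rw [h7]
      simp only [sub_mul, Finset.sum_sub_distrib]
      ring
    rw [h5]
    exact rat_sub A F hk h4 ha₀
  · have h0 : {a : Fin g → Fin D → ℤ | (∀ i j, |a i j| ≤ (H : ℤ)) ∧
        A.rat (pt r (fun j => ((w j : K) : ℂ)) a) ⊆ F} = ∅ := by
      refine Set.eq_empty_of_forall_notMem fun a ha => hne ⟨a, ha.2⟩
    rw [h0, Set.ncard_empty]
    exact Nat.zero_le _

end GAV
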