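import Mathlib

set_option autoImplicit false

/-! Abelian varieties over a field `k ⊆ ℂ`, given by a projective embedding and their uniformisation by
theta functions. -/

open MvPolynomial

namespace GAV

/-- An abelian variety of dimension `g` over `k ⊆ ℂ`, embedded in the projective space of dimension `N`,
with its uniformisation: the complex torus `ℂ^g / Λ`, `Λ` the lattice with `ℤ`-basis `ω`, and theta functions
`θ_0, …, θ_N` (entire, without common zero, quasi-periodic) which embed it; the image is the set of complex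
points of a projective variety over `k`, the origin is rational over `k`, and the subtraction of the group is
a morphism over `k`: it is given by finitely many vectors of bihomogeneous polynomials over `k` of bidegree
`(κ, κ)`, at least one of which does not vanish at a given pair of points. -/
structure AV (g N κ : ℕ) (k : IntermediateField ℚ ℂ) where
  /-- the lattice -/
  ω : Module.Basis (Fin (2 * g)) ℝ (Fin g → ℂ)
  /-- the theta functions -/
  θ : (Fin g → ℂ) → Fin (N + 1) → ℂ
  diff : Differentiable ℂ θ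
  ne : ∀ z, θ z ≠ 0
  quasi : ∀ j, ∃ (a : Fin g → ℂ) (b : ℂ), ∀ z,
    θ (z + ω j) = Complex.exp (∑ i, a i * z i + b) • θ z
  inj : ∀ (z w : Fin g → ℂ) (c : ℂ), θ z = c • θ w → z - w ∈ AddSubgroup.closure (Set.range ω)
  imm : ∀ (z v : Fin g → ℂ) (c : ℂ), fderiv ℂ θ z v = c • θ z → v = 0
  /-- the equations of the projective variety -/
  eqs : Set (MvPolynomial (Fin (N + 1)) k)
  eqs_hom : ∀ f ∈ eqs, ∃ n, f.IsHomogeneous n
  image : ∀ p : Fin (N + 1) → ℂ, p ≠ 0 →
    ((∀ f ∈ eqs, aeval p f = 0) ↔ ∃ (z : Fin g → ℂ) (c : ℂ), p = c • θ z)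
  zero : ∃ c : ℂ, c ≠ 0 ∧ ∀ j, c * θ 0 j ∈ k
  /-- the number of subtraction laws -/
  n : ℕ
  /-- the subtraction laws -/
  law : Fin n → Fin (N + 1) → MvPolynomial (Fin (N + 1) ⊕ Fin (N + 1)) k
  law_hom : ∀ i j, ∀ m ∈ (law i j).support,
    ∑ l, m (Sum.inl l) = κ ∧ ∑ l, m (Sum.inr l) = κ
  law_eq : ∀ i z w, ∃ c : ℂ, ∀ j, aeval (Sum.elim (θ z) (θ w)) (law i j) = c * θ (z - w) j
  law_ne : ∀ z w, ∃ i j, aeval (Sum.elim (θ z) (θ w)) (law i j) ≠ 0

variable {g N κ : ℕ} {k : IntermediateField ℚ ℂ}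

/-- The lattice `Λ`. -/
def AV.Λ (A : AV g N κ k) : AddSubgroup (Fin g → ℂ) := AddSubgroup.closure (Set.range A.ω)

/-- `A` is simple: a Zariski closed subgroup of `A(ℂ)`, that is a subgroup `H ⊇ Λ` of `ℂ^g` which is the inverse
image of the zero set of homogeneous polynomials, is everything or consists of torsion points. -/
def AV.Simple (A : AV g N κ k) : Prop :=
  ∀ (H : AddSubgroup (Fin g → ℂ)) (S : Set (MvPolynomial (Fin (N + 1)) ℂ)), A.Λ ≤ H →
    (∀ f ∈ S, ∃ n, f.IsHomogeneous n) → (∀ z, z ∈ H ↔ ∀ f ∈ S, aeval (A.θ z) f = 0) →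
      H = ⊤ ∨ ∀ z ∈ H, ∃ n : ℕ, 0 < n ∧ n • z ∈ A.Λ

/-- The quotients of the projective coordinates of the point `exp_A(z)`: they generate its field of
definition. -/
def AV.rat (A : AV g N κ k) (z : Fin g → ℂ) : Set ℂ :=
  Set.range fun p : Fin (N + 1) × Fin (N + 1) => A.θ z p.1 / A.θ z p.2

end GAV
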