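import Mathlib

set_option autoImplicit false

open PeriodPair

namespace GAV

/-- The Weierstrass factor of genus two. -/
noncomputable def ef (u : ℂ) : ℂ := (1 - u) * Complex.exp (u + u ^ 2 / 2)

/-- The Weierstrass sigma function. -/
noncomputable def sg (L : PeriodPair) (z : ℂ) : ℂ :=
  z * ∏' l : L.lattice, if (l : ℂ) = 0 then 1 else ef (z / l)

/-! ## [GAV-EL1] the sigma function (file EL1.lean)

`ef_bound`: `ef' (u) = -u² exp(u + u²/2)`, `ef 0 = 1`; mean value inequality on the disc of radius `‖u‖`: `‖ef u - 1‖ ≤ ‖u‖³ e^{3/2} ≤ 5 ‖u‖³`.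
`sg_mult`: on the ball of radius `R`: for `‖l‖ ≥ R` the factor is `1 + f_l` with `‖f_l‖ ≤ 5 (R/‖l‖)³`, summable over the lattice (Mathlib: `PeriodPair` has `summable` facts, e.g. `L.hasSum_sumInvPow`, `ZLattice.summable_norm_sub_zpow`..., see the proof of `hasSumLocallyUniformly_aux` in
`Mathlib/Analysis/SpecialFunctions/Elliptic/Weierstrass.lean`), the finitely many other factors are bounded: put `f_l = factor - 1`, `u_l` = a summable bound on the compact set; `Summable.hasProdLocallyUniformlyOn`-like lemmas: `hasProdLocallyUniformlyOn_one_add`/`multipliableLocallyUniformlyOn_one_add`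
(`Mathlib/Analysis/Normed/Module/MultipliableUniformlyOn.lean`; they ask for one summable bound `u` on a whole open set: use the open balls of radius `R`).
`sg_diff`: locally uniform limits of entire functions (`TendstoLocallyUniformlyOn.differentiableOn`). `sg_zero_iff`: a factor vanishes iff `z = l`; if no factor vanishes the product is not `0` (`tprod_one_add_ne_zero_of_summable`; see `Mathlib/NumberTheory/ModularForms/DedekindEta.lean`, proof of nonvanishing of `eta`); `z = 0`: the first factor.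
`sg_simple`: for `l₀ ≠ 0` split off the factor of `l₀` (`Multipliable.tprod_eq_mul_tprod_ite` or similar): `sg z = (z - l₀) h(z)`, `h` entire, `h(l₀) ≠ 0` by the nonvanishing lemma; `l₀ = 0`: `sg z = z h(z)`, `h(0) = 1`. So state `sg_fac` and derive. -/

private theorem el1_deriv (u : ℂ) :
    HasDerivAt ef (-(u ^ 2) * Complex.exp (u + u ^ 2 / 2)) u := by
  have h1 : HasDerivAt (fun u : ℂ => 1 - u) (-1) u := by
    simpa using (hasDerivAt_id u).const_sub 1
  have h2 : HasDerivAt (fun u : ℂ => u + u ^ 2 / 2) (1 + u) u := by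
    have h3 := (hasDerivAt_id u).add (((hasDerivAt_id u).pow 2).div_const 2)
    refine h3.congr_deriv ?_
    simp
  refine (h1.mul h2.cexp).congr_deriv ?_
  ring

private theorem el1_exp : Real.exp (3 / 2) ≤ 5 := by
  have h1 : Real.exp (3 / 2) ^ 2 = Real.exp 1 ^ 3 := by
    rw [← Real.exp_nat_mul, ← Real.exp_nat_mul]
    norm_num
  have h2 := Real.exp_one_lt_d9
  have h3 : 0 < Real.exp 1 := Real.exp_pos _
  have h4 : Real.exp 1 ^ 3 ≤ 2.7182818286 ^ 3 := pow_le_pow_left₀ h3.le h2.le 3
  have h5 : Real.exp (3 / 2) ^ 2 ≤ 5 ^ 2 := by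
    rw [h1]
    refine h4.trans ?_
    norm_num
  exact le_of_sq_le_sq h5 (by norm_num)

theorem ef_bound (u : ℂ) (hu : ‖u‖ ≤ 1) : ‖ef u - 1‖ ≤ 5 * ‖u‖ ^ 3 := by
  have h0 : ef 0 = 1 := by simp [ef]
  have hb : ∀ w ∈ Metric.closedBall (0 : ℂ) ‖u‖, ‖-(w ^ 2) * Complex.exp (w + w ^ 2 / 2)‖ ≤
      5 * ‖u‖ ^ 2 := by
    intro w hw
    rw [mem_closedBall_zero_iff] at hw
    rw [norm_mul, norm_neg, norm_pow, Complex.norm_exp]
    have h1 : ‖w‖ ^ 2 ≤ ‖u‖ ^ 2 := pow_le_pow_left₀ (norm_nonneg _) hw 2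
    have h2 : (w + w ^ 2 / 2).re ≤ 3 / 2 := by
      refine (Complex.re_le_norm _).trans ((norm_add_le _ _).trans ?_)
      rw [norm_div, norm_pow, Complex.norm_ofNat]
      have h3 : ‖w‖ ≤ 1 := hw.trans hu
      have h4 : ‖w‖ ^ 2 ≤ 1 := pow_le_one₀ (norm_nonneg _) h3
      linarith
    have h5 : Real.exp (w + w ^ 2 / 2).re ≤ 5 := (Real.exp_le_exp.2 h2).trans el1_exp
    calc ‖w‖ ^ 2 * Real.exp (w + w ^ 2 / 2).re ≤ ‖u‖ ^ 2 * 5 :=
          mul_le_mul h1 h5 (Real.exp_pos _).le (by positivity)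
      _ = 5 * ‖u‖ ^ 2 := by ring
  have h6 := Convex.norm_image_sub_le_of_norm_hasDerivWithin_le (𝕜 := ℂ) (f := ef)
    (fun w _ => (el1_deriv w).hasDerivWithinAt) hb (convex_closedBall (0 : ℂ) ‖u‖)
    (x := 0) (y := u) (by simp) (by simp)
  rw [h0, sub_zero] at h6
  refine h6.trans (le_of_eq ?_)
  ring

private theorem el1_ef_diff : Differentiable ℂ ef := fun u => (el1_deriv u).differentiableAt

/-- The product of entire functions close to one. -/
theorem el1_prod (L : PeriodPair) (g : L.lattice → ℂ → ℂ) (hg : ∀ l, Differentiable ℂ (g l))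
    (hb : ∀ r : ℝ, 0 < r → ∀ᶠ l : L.lattice in Filter.cofinite, ∀ z ∈ Metric.ball (0 : ℂ) r,
      ‖g l z - 1‖ ≤ 5 * r ^ 3 * (‖l‖⁻¹ ^ 3)) :
    Differentiable ℂ (fun z => ∏' l, g l z) ∧ (∀ z, Multipliable fun l => g l z) ∧
      ∀ z, (∀ l, g l z ≠ 0) → ∏' l, g l z ≠ 0 := by
  have hu : ∀ r : ℝ, Summable fun l : L.lattice => 5 * r ^ 3 * (‖l‖⁻¹ ^ 3) := fun r =>
    (ZLattice.summable_norm_pow_inv L.lattice 3 (by rw [L.finrank_lattice]; norm_num)).mul_left _
  have he : ∀ (l : L.lattice) (z : ℂ), 1 + (g l z - 1) = g l z := fun l z => by ring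
  have hs : ∀ z, Summable fun l => ‖g l z - 1‖ := by
    intro z
    refine (hu (‖z‖ + 1)).of_norm_bounded_eventually ?_
    filter_upwards [hb (‖z‖ + 1) (by positivity)] with l hl
    rw [norm_norm]
    exact hl z (by simp)
  refine ⟨fun z => ?_, fun z => ?_, fun z hz => ?_⟩
  · have h1 := Summable.hasProdLocallyUniformlyOn_one_add (f := fun l z => g l z - 1)
      (K := Metric.ball (0 : ℂ) (‖z‖ + 1)) Metric.isOpen_ball (hu (‖z‖ + 1))
      (hb (‖z‖ + 1) (by positivity))
      (fun l => ((hg l).continuous.sub continuous_const).continuousOn)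
    simp only [he] at h1
    have h2 : DifferentiableOn ℂ (fun z => ∏' l, g l z) (Metric.ball (0 : ℂ) (‖z‖ + 1)) := by
      refine TendstoLocallyUniformlyOn.differentiableOn
        (hasProdLocallyUniformlyOn_iff_tendstoLocallyUniformlyOn.1 h1)
        (Filter.Eventually.of_forall fun s => ?_) Metric.isOpen_ball
      exact DifferentiableOn.fun_finsetProd fun l _ => (hg l).differentiableOn
    exact h2.differentiableAt (Metric.isOpen_ball.mem_nhds (by simp))
  · have h1 := multipliable_one_add_of_summable (hs z)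
    simpa only [he] using h1
  · have h1 := tprod_one_add_ne_zero_of_summable (f := fun l => g l z - 1)
      (fun l => by rw [he]; exact hz l) (hs z)
    simpa only [he] using h1

/-- The factors, the zero at `l₀` removed. -/
noncomputable def el1_g (l₀ l z : ℂ) : ℂ :=
  if l = 0 then 1 else if l = l₀ then -(1 / l) * Complex.exp (z / l + (z / l) ^ 2 / 2)
    else ef (z / l)

private theorem el1_g_diff (l₀ l : ℂ) : Differentiable ℂ (el1_g l₀ l) := by
  have h1 : Differentiable ℂ fun z : ℂ => z / l := by fun_prop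
  by_cases h0 : l = 0
  · have : el1_g l₀ l = fun _ => 1 := by
      funext z
      simp [el1_g, h0]
    rw [this]
    exact differentiable_const _
  · by_cases h2 : l = l₀
    · have : el1_g l₀ l = fun z => -(1 / l) * Complex.exp (z / l + (z / l) ^ 2 / 2) := by
        funext z
        simp only [el1_g, if_neg h0, if_pos h2]
      rw [this]
      fun_prop
    · have : el1_g l₀ l = fun z => ef (z / l) := by
        funext z
        simp only [el1_g, if_neg h0, if_neg h2]
      rw [this]
      exact el1_ef_diff.comp h1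

private theorem el1_finite (L : PeriodPair) (l₀ : ℂ) (r : ℝ) :
    ∀ᶠ l : L.lattice in Filter.cofinite, (l : ℂ) ≠ l₀ ∧ r ≤ ‖l‖ := by
  have h1 : (Metric.closedBall (0 : L.lattice) r).Finite :=
    isCompact_iff_finite.mp (isCompact_closedBall (0 : L.lattice) r)
  have h2 : {l : L.lattice | (l : ℂ) = l₀}.Finite := by
    apply Set.Subsingleton.finite
    intro a ha b hb
    exact Subtype.ext (ha.trans hb.symm)
  have h3 := (h1.union h2).compl_mem_cofinite
  filter_upwards [h3] with l hl
  rw [Set.mem_compl_iff, Set.mem_union, not_or] at hl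
  refine ⟨hl.2, ?_⟩
  have h4 := hl.1
  rw [mem_closedBall_zero_iff] at h4
  exact (not_le.1 h4).le

private theorem el1_g_bound (L : PeriodPair) (l₀ : ℂ) (r : ℝ) (hr : 0 < r) :
    ∀ᶠ l : L.lattice in Filter.cofinite, ∀ z ∈ Metric.ball (0 : ℂ) r,
      ‖el1_g l₀ l z - 1‖ ≤ 5 * r ^ 3 * (‖l‖⁻¹ ^ 3) := by
  filter_upwards [el1_finite L l₀ r] with l hl z hz
  rw [mem_ball_zero_iff] at hz
  have hn : ‖l‖ = ‖(l : ℂ)‖ := rfl
  rw [hn] at hl ⊢
  have hl0 : 0 < ‖(l : ℂ)‖ := hr.trans_le hl.2
  have h0 : (l : ℂ) ≠ 0 := norm_pos_iff.1 hl0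
  simp only [el1_g, if_neg h0, if_neg hl.1]
  have h1 : ‖z / (l : ℂ)‖ ≤ r * ‖(l : ℂ)‖⁻¹ := by
    rw [norm_div, div_eq_mul_inv]
    exact mul_le_mul_of_nonneg_right hz.le (by positivity)
  have h2 : r * ‖(l : ℂ)‖⁻¹ ≤ 1 := by
    rw [← div_eq_mul_inv, div_le_one hl0]
    exact hl.2
  refine (ef_bound _ (h1.trans h2)).trans ?_
  have h3 : ‖z / (l : ℂ)‖ ^ 3 ≤ (r * ‖(l : ℂ)‖⁻¹) ^ 3 := pow_le_pow_left₀ (norm_nonneg _) h1 3
  rw [mul_pow] at h3
  linarith

private theorem el1_main (L : PeriodPair) (l₀ : ℂ) :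
    Differentiable ℂ (fun z => ∏' l : L.lattice, el1_g l₀ l z) ∧
      (∀ z, Multipliable fun l : L.lattice => el1_g l₀ l z) ∧
      ∀ z, (∀ l : L.lattice, el1_g l₀ l z ≠ 0) → ∏' l : L.lattice, el1_g l₀ l z ≠ 0 :=
  el1_prod L (fun l z => el1_g l₀ l z) (fun l => el1_g_diff l₀ l) (el1_g_bound L l₀)

private theorem el1_sg (L : PeriodPair) (z : ℂ) : sg L z = z * ∏' l : L.lattice, el1_g 0 l z := by
  unfold sg
  congr 1
  refine tprod_congr fun l => ?_
  unfold el1_g
  by_cases h : (l : ℂ) = 0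
  · rw [if_pos h, if_pos h]
  · rw [if_neg h, if_neg h, if_neg h]

theorem sg_diff (L : PeriodPair) : Differentiable ℂ (sg L) := by
  have h1 : sg L = fun z => z * ∏' l : L.lattice, el1_g 0 l z := funext (el1_sg L)
  rw [h1]
  exact differentiable_id.mul (el1_main L 0).1

private theorem el1_ef_zero {u : ℂ} : ef u = 0 ↔ u = 1 := by
  unfold ef
  rw [mul_eq_zero, or_iff_left (Complex.exp_ne_zero _), sub_eq_zero]
  exact eq_comm

theorem sg_fac (L : PeriodPair) (l : ℂ) (hl : l ∈ L.lattice) : ∃ h : ℂ → ℂ, Differentiable ℂ h ∧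
    h l ≠ 0 ∧ ∀ z, sg L z = (z - l) * h z := by
  by_cases h0 : l = 0
  · subst h0
    refine ⟨fun z => ∏' l : L.lattice, el1_g 0 l z, (el1_main L 0).1, ?_, fun z => ?_⟩
    · refine (el1_main L 0).2.2 0 fun l => ?_
      unfold el1_g
      by_cases h : (l : ℂ) = 0
      · rw [if_pos h]
        exact one_ne_zero
      · rw [if_neg h, if_neg h, Ne, el1_ef_zero, zero_div]
        exact zero_ne_one
    · rw [el1_sg, sub_zero]
  · refine ⟨fun z => z * ∏' k : L.lattice, el1_g l k z, differentiable_id.mul (el1_main L l).1,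
      mul_ne_zero h0 ?_, fun z => ?_⟩
    · refine (el1_main L l).2.2 l fun k => ?_
      unfold el1_g
      by_cases h : (k : ℂ) = 0
      · rw [if_pos h]
        exact one_ne_zero
      · by_cases h2 : (k : ℂ) = l
        · rw [if_neg h, if_pos h2]
          exact mul_ne_zero (neg_ne_zero.2 (one_div_ne_zero h)) (Complex.exp_ne_zero _)
        · rw [if_neg h, if_neg h2, Ne, el1_ef_zero, div_eq_one_iff_eq h]
          exact fun h3 => h2 h3.symm
    · classical
      have e1 : ∏' k : L.lattice, el1_g 0 k z =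
          ∏' k : L.lattice, (if k = ⟨l, hl⟩ then z - l else 1) * el1_g l k z := by
        refine tprod_congr fun k => ?_
        by_cases hk : k = ⟨l, hl⟩
        · subst hk
          rw [if_pos rfl]
          simp only [el1_g, if_neg h0, if_true]
          unfold ef
          field_simp
          ring
        · have hk2 : (k : ℂ) ≠ l := fun h => hk (Subtype.ext h)
          rw [if_neg hk, one_mul]
          simp only [el1_g, if_neg hk2]
          by_cases h : (k : ℂ) = 0
          · rw [if_pos h, if_pos h]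
          · rw [if_neg h, if_neg h, if_neg h]
      have hm : Multipliable fun k : L.lattice => (if k = ⟨l, hl⟩ then z - l else 1 : ℂ) := by
        refine multipliable_of_hasFiniteMulSupport ?_
        refine (Set.finite_singleton (⟨l, hl⟩ : L.lattice)).subset fun k hk => ?_
        by_contra h
        exact hk (if_neg h)
      rw [el1_sg, e1, hm.tprod_mul ((el1_main L l).2.1 z), tprod_ite_eq]
      ring

theorem sg_zero_iff (L : PeriodPair) (z : ℂ) : sg L z = 0 ↔ z ∈ L.lattice := by
  constructor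
  · intro h
    by_contra hz
    have hz0 : z ≠ 0 := fun h0 => hz (by rw [h0]; exact L.lattice.zero_mem)
    rw [el1_sg, mul_eq_zero, or_iff_right hz0] at h
    refine (el1_main L 0).2.2 z (fun l => ?_) h
    unfold el1_g
    by_cases h1 : (l : ℂ) = 0
    · rw [if_pos h1]
      exact one_ne_zero
    · rw [if_neg h1, if_neg h1, Ne, el1_ef_zero, div_eq_one_iff_eq h1]
      intro h3
      exact hz (by rw [h3]; exact l.2)
  · intro h
    obtain ⟨f, -, -, hf⟩ := sg_fac L z h
    rw [hf, sub_self, zero_mul]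

end GAV
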