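import Pool.Agent.GAV.EL1
import Pool.Agent.MP_9ab903_nt.NT.W1

set_option autoImplicit false

open PeriodPair

namespace GAV

/-! ## [GAV-EL2] the second logarithmic derivative of sigma and quasi-periodicity (file EL2.lean)

`sg_logDeriv`: for `z ∉ L`: `logDeriv (sg L) z = 1/z + ∑_{l ≠ 0} (1/(z - l) + 1/l + z/l²)` (`logDeriv_tprod_eq_tsum`, `Mathlib/Analysis/Calculus/LogDerivUniformlyOn.lean`; `logDeriv (fun z => ef (z/l)) = 1/(z-l) + 1/l + z/l²`; the convergence facts as in EL1: reprove the locally uniform multipliability if it is not exported, or take it from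
helper lemmas: you may move lemmas between EL1 and EL2 in agreement with the writer of EL1). Differentiate termwise (`hasDerivAt_tsum`-like or `HasSumLocallyUniformlyOn`/`deriv_tsum`): the derivative of the `l`-th term is `-(1/(z-l)² - 1/l²)`, of `1/z` it is `-1/z²`; the sum is `-℘[L] z` (definition of `weierstrassP`: `∑' l, (1/(z-l)² - 1/l²)`, the term
`l = 0` is `1/z²`). So `deriv (logDeriv (sg L)) z = -℘[L] z` on the complement of the lattice.
`sg_quasi`: on `U = ` complement of `L` (open, preconnected: `WP63.preconnected_compl`, `WP63.lattice_countable`) the function `logDeriv (sg L) (z + l) - logDeriv (sg L) z` has derivative `-℘(z+l) + ℘(z) = 0`, so it is a constant `a` (`IsOpen.is_const_of_deriv_eq_zero`/`exists_is_const_of_..`). Then `sg L (z+l) exp(-a z)/sg L z` has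
derivative `0` on `U`, so it is a constant, not `0` (`sg_zero_iff`), `= exp b` (`Complex.exp_log`). For `z ∈ L` both sides are `0`. -/

open Filter Topology

private noncomputable def el2_f (L : PeriodPair) (l : L.lattice) (z : ℂ) : ℂ :=
  if (l : ℂ) = 0 then 1 else ef (z / l)

private noncomputable def el2_h (L : PeriodPair) (l : L.lattice) (z : ℂ) : ℂ :=
  if (l : ℂ) = 0 then 0 else 1 / (z - l) + 1 / l + z / (l : ℂ) ^ 2

private noncomputable def el2_Z (L : PeriodPair) (z : ℂ) : ℂ := ∑' l : L.lattice, el2_h L l z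

private theorem el2_sg (L : PeriodPair) (z : ℂ) : sg L z = z * ∏' l : L.lattice, el2_f L l z := rfl

private theorem el2_ef_hasDeriv (c : ℂ) (z : ℂ) (hc : c ≠ 0) (hz : z ≠ c) :
    HasDerivAt (fun z => ef (z / c)) (ef (z / c) * (1 / (z - c) + 1 / c + z / c ^ 2)) z := by
  have h1 : HasDerivAt (fun z : ℂ => z / c) (1 / c) z := (hasDerivAt_id z).div_const c
  have h2 : HasDerivAt (fun z : ℂ => 1 - z / c) (0 - 1 / c) z := (hasDerivAt_const z 1).sub h1
  have h3 : HasDerivAt (fun z : ℂ => z / c + (z / c) ^ 2 / 2)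
      (1 / c + (((2 : ℕ) : ℂ) * (z / c) ^ (2 - 1) * (1 / c)) / 2) z :=
    h1.add ((h1.pow 2).div_const 2)
  have h4 := h2.mul h3.cexp
  refine h4.congr_deriv ?_
  unfold ef
  have hzc : z - c ≠ 0 := sub_ne_zero.2 hz
  push_cast
  field_simp
  ring

private theorem el2_f_diff (L : PeriodPair) (l : L.lattice) : Differentiable ℂ (el2_f L l) := by
  unfold el2_f
  split_ifs with h
  · exact differentiable_const _
  · unfold ef
    fun_prop

private theorem el2_f_ne (L : PeriodPair) (l : L.lattice) {z : ℂ} (hz : z ∉ L.lattice) :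
    el2_f L l z ≠ 0 := by
  unfold el2_f
  split_ifs with h
  · exact one_ne_zero
  · unfold ef
    refine mul_ne_zero ?_ (Complex.exp_ne_zero _)
    intro h1
    have h2 : z / (l : ℂ) = 1 := (sub_eq_zero.1 h1).symm
    have h3 : z = l := by
      rw [div_eq_one_iff_eq h] at h2
      exact h2
    exact hz (h3 ▸ l.2)

private theorem el2_f_logDeriv (L : PeriodPair) (l : L.lattice) {z : ℂ} (hz : z ∉ L.lattice) :
    logDeriv (el2_f L l) z = el2_h L l z := by
  by_cases h : (l : ℂ) = 0
  · have e : el2_f L l = fun _ => 1 := by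
      funext w
      unfold el2_f
      rw [if_pos h]
    rw [e]
    unfold el2_h
    rw [if_pos h, logDeriv_const]
    rfl
  · have e : el2_f L l = fun w => ef (w / l) := by
      funext w
      unfold el2_f
      rw [if_neg h]
    have hzl : z ≠ l := fun h' => hz (h' ▸ l.2)
    have hd := el2_ef_hasDeriv (l : ℂ) z h hzl
    have hne : ef (z / l) ≠ 0 := by
      have := el2_f_ne L l hz
      rw [e] at this
      exact this
    rw [e, logDeriv_apply, hd.deriv]
    unfold el2_h
    rw [if_neg h]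
    field_simp

private theorem el2_cof (L : PeriodPair) (R : ℝ) : ∀ᶠ l : L.lattice in cofinite, R < ‖(l : ℂ)‖ := by
  have h1 := (isCompact_iff_finite.mp (isCompact_closedBall (0 : L.lattice) R))
  refine h1.subset ?_
  intro l hl
  rw [Metric.mem_closedBall, dist_zero_right]
  by_contra hcon
  push Not at hcon
  exact hl hcon

private theorem el2_mult (L : PeriodPair) (R : ℝ) (hR : 0 < R) :
    MultipliableLocallyUniformlyOn (el2_f L) (Metric.ball 0 R) := by
  have hu : Summable fun l : L.lattice => 5 * R ^ 3 * ‖l‖ ^ (-3 : ℝ) :=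
    (ZLattice.summable_norm_rpow _ _ (by simp; norm_num)).mul_left _
  have h := Summable.multipliableLocallyUniformlyOn_one_add (f := fun l z => el2_f L l z - 1)
    (K := Metric.ball (0 : ℂ) R) Metric.isOpen_ball hu ?_ ?_
  · have e : (fun (l : L.lattice) (z : ℂ) => 1 + (el2_f L l z - 1)) = el2_f L := by
      funext l z
      exact add_sub_cancel _ _
    rw [e] at h
    exact h
  · filter_upwards [el2_cof L R] with l hl z hz
    rw [Metric.mem_ball, dist_zero_right] at hz
    have hl0 : (l : ℂ) ≠ 0 := by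
      intro h0
      rw [h0, norm_zero] at hl
      linarith
    have hlp : 0 < ‖(l : ℂ)‖ := hR.trans hl
    have hle : ‖z / (l : ℂ)‖ ≤ 1 := by
      rw [norm_div, div_le_one hlp]
      linarith
    have hb := ef_bound (z / l) hle
    have e1 : el2_f L l z = ef (z / l) := by
      unfold el2_f
      rw [if_neg hl0]
    rw [e1]
    refine hb.trans ?_
    have e2 : ‖l‖ ^ (-3 : ℝ) = (‖(l : ℂ)‖ ^ 3)⁻¹ := by
      rw [Real.rpow_neg (norm_nonneg _)]
      norm_cast
    rw [e2, norm_div, div_pow, mul_assoc, ← div_eq_mul_inv]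
    gcongr
  · intro l
    exact ((el2_f_diff L l).continuous.sub continuous_const).continuousOn

private theorem el2_h_eq (L : PeriodPair) (l : L.lattice) {z : ℂ} (hl : (l : ℂ) ≠ 0)
    (hz : z ≠ l) : el2_h L l z = z ^ 2 / ((l : ℂ) ^ 2 * (z - l)) := by
  unfold el2_h
  rw [if_neg hl]
  have : z - (l : ℂ) ≠ 0 := sub_ne_zero.2 hz
  field_simp
  ring

private theorem el2_hsum (L : PeriodPair) : HasSumLocallyUniformly (el2_h L) (el2_Z L) := by
  refine L.hasSumLocallyUniformly_aux (u := fun r l => 2 * r ^ 2 * ‖l‖ ^ (-3 : ℝ)) _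
    (fun _ _ ↦ (ZLattice.summable_norm_rpow _ _ (by simp; norm_num)).mul_left _) fun r hr ↦
    Filter.eventually_atTop.mpr ⟨2 * r, ?_⟩
  rintro _ h s hs l rfl
  have hlp : 0 < ‖(l : ℂ)‖ := by linarith
  have hl0 : (l : ℂ) ≠ 0 := norm_pos_iff.1 hlp
  have hsl : s ≠ l := by
    rintro rfl
    linarith
  rw [el2_h_eq L l hl0 hsl]
  have e2 : ‖l‖ ^ (-3 : ℝ) = (‖(l : ℂ)‖ ^ 3)⁻¹ := by
    rw [Real.rpow_neg (norm_nonneg _)]
    norm_cast
  have h1 : ‖(l : ℂ)‖ / 2 ≤ ‖s - l‖ := by
    rw [norm_sub_rev]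
    exact le_trans (by linarith) (norm_sub_norm_le _ _)
  have h2 : ‖s‖ ^ 2 ≤ r ^ 2 := pow_le_pow_left₀ (norm_nonneg _) hs.le 2
  rw [e2, norm_div, norm_mul, norm_pow, norm_pow]
  calc ‖s‖ ^ 2 / (‖(l : ℂ)‖ ^ 2 * ‖s - l‖) ≤ r ^ 2 / (‖(l : ℂ)‖ ^ 2 * (‖(l : ℂ)‖ / 2)) := by
        gcongr
    _ = 2 * r ^ 2 * (‖(l : ℂ)‖ ^ 3)⁻¹ := by
        field_simp

private theorem el2_logDeriv (L : PeriodPair) {z : ℂ} (hz : z ∉ L.lattice) :
    logDeriv (sg L) z = 1 / z + el2_Z L z := by
  have hz0 : z ≠ 0 := fun h => hz (h ▸ L.lattice.zero_mem)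
  have hR : 0 < ‖z‖ + 1 := by positivity
  have hprod : ∏' l : L.lattice, el2_f L l z ≠ 0 := by
    intro h0
    have h1 : sg L z = 0 := by rw [el2_sg, h0, mul_zero]
    exact hz ((sg_zero_iff L z).1 h1)
  have hmem : z ∈ Metric.ball (0 : ℂ) (‖z‖ + 1) := by
    rw [Metric.mem_ball, dist_zero_right]
    linarith
  have h1 := logDeriv_tprod_eq_tsum (s := Metric.ball (0 : ℂ) (‖z‖ + 1)) Metric.isOpen_ball hmem
    (f := el2_f L) (fun l => el2_f_ne L l hz) (fun l => (el2_f_diff L l).differentiableOn)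
    (by
      have := ((el2_hsum L).hasSum (x := z)).summable
      exact this.congr fun l => (el2_f_logDeriv L l hz).symm) (el2_mult L _ hR) hprod
  have h2 : DifferentiableAt ℂ (fun w => ∏' l : L.lattice, el2_f L l w) z := by
    have h3 := (el2_mult L _ hR).hasProdLocallyUniformlyOn.differentiableOn
      (.of_forall fun s => DifferentiableOn.fun_finsetProd fun i _ => (el2_f_diff L i).differentiableOn)
      Metric.isOpen_ball
    exact (h3 z hmem).differentiableAt (Metric.isOpen_ball.mem_nhds hmem)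
  have h4 : sg L = fun w => id w * ∏' l : L.lattice, el2_f L l w := by
    funext w
    exact el2_sg L w
  rw [h4, logDeriv_mul z hz0 hprod differentiableAt_id h2, h1]
  congr 1
  · rw [logDeriv_id]
  · exact tsum_congr fun l => el2_f_logDeriv L l hz

private theorem el2_isOpen (L : PeriodPair) : IsOpen ((L.lattice : Set ℂ)ᶜ) :=
  L.isClosed_lattice.isOpen_compl

private theorem el2_h_hasDeriv (L : PeriodPair) (l : L.lattice) {z : ℂ} (hz : z ∉ L.lattice) :
    HasDerivAt (el2_h L l) (-(if (l : ℂ) = 0 then 0 else (1 / (z - l) ^ 2 - 1 / (l : ℂ) ^ 2))) z := by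
  by_cases h : (l : ℂ) = 0
  · have e : el2_h L l = fun _ => 0 := by
      funext w
      unfold el2_h
      rw [if_pos h]
    rw [e, if_pos h, neg_zero]
    exact hasDerivAt_const _ _
  · have e : el2_h L l = fun w => 1 / (w - l) + 1 / l + w / (l : ℂ) ^ 2 := by
      funext w
      unfold el2_h
      rw [if_neg h]
    have hzl : z - (l : ℂ) ≠ 0 := sub_ne_zero.2 fun h' => hz (h' ▸ l.2)
    rw [e, if_neg h]
    have h1 : HasDerivAt (fun w : ℂ => w - l) 1 z := (hasDerivAt_id z).sub_const _
    have h2 := (((hasDerivAt_const z (1 : ℂ)).div h1 hzl).add_const (1 / (l : ℂ))).add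
      ((hasDerivAt_id z).div_const ((l : ℂ) ^ 2))
    refine h2.congr_deriv ?_
    field_simp
    ring

private theorem el2_Z_hasDeriv (L : PeriodPair) {z : ℂ} (hz : z ∉ L.lattice) :
    HasDerivAt (el2_Z L) (-(weierstrassPExcept L 0 z)) z := by
  have hsumd : ∀ s : Finset L.lattice,
      DifferentiableOn ℂ (fun w => ∑ l ∈ s, el2_h L l w) ((L.lattice : Set ℂ)ᶜ) := by
    intro s
    refine DifferentiableOn.fun_sum fun l _ => ?_
    intro w hw
    exact (el2_h_hasDeriv L l hw).differentiableAt.differentiableWithinAt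
  have hconv : TendstoLocallyUniformlyOn (fun (s : Finset L.lattice) w => ∑ l ∈ s, el2_h L l w)
      (el2_Z L) atTop ((L.lattice : Set ℂ)ᶜ) := (el2_hsum L).tendstoLocallyUniformlyOn
  have hdiff : DifferentiableOn ℂ (el2_Z L) ((L.lattice : Set ℂ)ᶜ) :=
    hconv.differentiableOn (.of_forall hsumd) (el2_isOpen L)
  have hd := (hconv.deriv (.of_forall hsumd) (el2_isOpen L)).tendsto_at hz
  have hs : Tendsto (fun s : Finset L.lattice => ∑ l ∈ s,
      -(if (l : ℂ) = 0 then 0 else (1 / (z - l) ^ 2 - 1 / (l : ℂ) ^ 2))) atTop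
      (𝓝 (-(weierstrassPExcept L 0 z))) := by
    have := (L.hasSum_weierstrassPExcept 0 z).neg
    exact this
  have hd' : deriv (el2_Z L) z = -(weierstrassPExcept L 0 z) := by
    refine tendsto_nhds_unique hd (hs.congr fun s => ?_)
    simp only [Function.comp_apply]
    exact ((HasDerivAt.fun_sum fun l _ => el2_h_hasDeriv L l hz).deriv).symm
  rw [← hd']
  exact ((hdiff z hz).differentiableAt ((el2_isOpen L).mem_nhds hz)).hasDerivAt

theorem sg_logDeriv2 (L : PeriodPair) (z : ℂ) (hz : z ∉ L.lattice) :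
    HasDerivAt (logDeriv (sg L)) (-℘[L] z) z := by
  have hz0 : z ≠ 0 := fun h => hz (h ▸ L.lattice.zero_mem)
  have h1 : HasDerivAt (fun w : ℂ => 1 / w + el2_Z L w) (-℘[L] z) z := by
    have h2 : HasDerivAt (fun w : ℂ => 1 / w) (-(z ^ 2)⁻¹) z := by
      have := hasDerivAt_inv hz0
      refine this.congr_of_eventuallyEq (Eventually.of_forall fun w => ?_)
      exact one_div w
    refine (h2.add (el2_Z_hasDeriv L hz)).congr_deriv ?_
    have h3 : weierstrassPExcept L 0 z + (1 / (z - 0) ^ 2 - 1 / 0 ^ 2) = ℘[L] z :=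
      L.weierstrassPExcept_add 0 z
    rw [← h3, sub_zero, one_div]
    simp
  refine h1.congr_of_eventuallyEq ?_
  filter_upwards [(el2_isOpen L).mem_nhds hz] with w hw
  exact el2_logDeriv L hw

theorem sg_quasi (L : PeriodPair) (l : ℂ) (hl : l ∈ L.lattice) :
    ∃ a b : ℂ, ∀ z, sg L (z + l) = Complex.exp (a * z + b) * sg L z := by
  have hadd : ∀ z, z ∉ L.lattice → z + l ∉ L.lattice := fun z hz h =>
    hz (by simpa using L.lattice.sub_mem h hl)
  have hpre : IsPreconnected ((L.lattice : Set ℂ)ᶜ) :=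
    WP63.preconnected_compl _ (WP63.lattice_countable L)
  have hopen := el2_isOpen L
  -- the constant `a`
  have hder : ∀ z, z ∉ L.lattice →
      HasDerivAt (fun w => logDeriv (sg L) (w + l) - logDeriv (sg L) w) 0 z := by
    intro z hz
    have h1 := (sg_logDeriv2 L (z + l) (hadd z hz)).comp_add_const z l
    have h2 := h1.sub (sg_logDeriv2 L z hz)
    refine h2.congr_deriv ?_
    rw [WP63.wp_add_mem L z l hl, sub_self]
  obtain ⟨a, ha⟩ := hopen.exists_is_const_of_deriv_eq_zero hpre
    (fun z hz => (hder z hz).differentiableAt.differentiableWithinAt)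
    (fun z hz => (hder z hz).deriv)
  have hsg : ∀ z, z ∉ L.lattice → sg L z ≠ 0 := fun z hz h => hz ((sg_zero_iff L z).1 h)
  have hsd : ∀ z, z ∉ L.lattice → HasDerivAt (sg L) (logDeriv (sg L) z * sg L z) z := by
    intro z hz
    have h1 := (sg_diff L z).hasDerivAt
    refine h1.congr_deriv ?_
    rw [logDeriv_apply, div_mul_cancel₀ _ (hsg z hz)]
  have hF : ∀ z, z ∉ L.lattice →
      HasDerivAt (fun w => sg L (w + l) * Complex.exp (-(a * w)) / sg L w) 0 z := by
    intro z hz
    have h1 := (hsd (z + l) (hadd z hz)).comp_add_const z l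
    have h2 : HasDerivAt (fun w : ℂ => Complex.exp (-(a * w)))
        (Complex.exp (-(a * z)) * (-(a * 1))) z :=
      (((hasDerivAt_id z).const_mul a).neg).cexp
    have h3 := (h1.mul h2).div (hsd z hz) (hsg z hz)
    refine h3.congr_deriv ?_
    have h4 : logDeriv (sg L) (z + l) = a + logDeriv (sg L) z := by
      have h5 : logDeriv (sg L) (z + l) - logDeriv (sg L) z = a := ha z hz
      rw [← h5]
      ring
    rw [h4]
    rw [div_eq_zero_iff]
    left
    simp only [Pi.mul_apply]
    ring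
  obtain ⟨C, hC⟩ := hopen.exists_is_const_of_deriv_eq_zero hpre
    (fun z hz => (hF z hz).differentiableAt.differentiableWithinAt)
    (fun z hz => (hF z hz).deriv)
  have hCne : C ≠ 0 := by
    have hw : L.ω₁ / 2 ∉ L.lattice := L.ω₁_div_two_notMem_lattice
    rw [← hC _ hw]
    exact div_ne_zero (mul_ne_zero (hsg _ (hadd _ hw)) (Complex.exp_ne_zero _)) (hsg _ hw)
  refine ⟨a, Complex.log C, fun z => ?_⟩
  by_cases hz : z ∈ L.lattice
  · rw [(sg_zero_iff L z).2 hz, (sg_zero_iff L (z + l)).2 (L.lattice.add_mem hz hl), mul_zero]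
  · have h1 : sg L (z + l) * Complex.exp (-(a * z)) / sg L z = C := hC z hz
    rw [div_eq_iff (hsg z hz)] at h1
    rw [Complex.exp_add, Complex.exp_log hCne, mul_assoc, ← h1, Complex.exp_neg]
    field_simp

end GAV
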