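import Pool.Agent.GAV.EL2
import Pool.Agent.ELT.Def

set_option autoImplicit false

open PeriodPair

namespace GAV

open Classical in
/-- The theta functions `(σ³℘, σ³℘'/2, σ³)` of the elliptic curve. -/
noncomputable def et (L : PeriodPair) (z : ℂ) : Fin 3 → ℂ :=
  if z ∈ L.lattice then ![0, -(deriv (sg L) z) ^ 3, 0] else
    ![sg L z ^ 3 * ℘[L] z, sg L z ^ 3 * (℘'[L] z / 2), sg L z ^ 3]

/-! ## [GAV-EL3] the theta functions of an elliptic curve (file EL3.lean)

`et_pc`: off the lattice `c = σ(z)³ ≠ 0`; on the lattice `c = -σ'(z)³`, `σ'(l) = h(l) ≠ 0` by `sg_fac`. `et_diff`: off the lattice (an open set) clear. Near `l ∈ L`: `σ(z) = (z - l) h(z)`; `(z-l)² ℘(z)` and `(z-l)³ ℘'(z)` extend holomorphically to `l` with the values `1` and `-2` (`L.ite_eq_one_sub_sq_mul_weierstrassP`,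
`weierstrassPExcept`, `derivWeierstrassPExcept` in Mathlib: `℘'(z) = ℘'[L - l](z) - 2/(z-l)³` etc.), so `σ³℘ = (z-l) h³ ((z-l)²℘)` and `σ³℘'/2 = h³ ((z-l)³℘')/2`, with value `-h(l)³ = -σ'(l)³` at `l`: `et L` agrees near `l` with a holomorphic function (`DifferentiableAt.congr_of_eventuallyEq`; for `z` near `l`, `z ≠ l`, `z ∉ L`).
`et_quasi`: `sg_quasi`: off the lattice `et L (z+l) = e^{3(az+b)} et L z` (periodicity of `℘, ℘'`: `WP63.wp_add_mem`, `WP63.dwp_add_mem`); on the lattice differentiate `sg_quasi`: `σ'(z+l) = e^{az+b}σ'(z)` at `z ∈ L` (`σ(z) = 0`).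
`et_imm`: suppose `deriv (et L) z v = c et L z` with `v ≠ 0`. Off the lattice: `et = σ³ p`, `p = (℘, ℘'/2, 1)`: `(σ³)' p + σ³ p' = (c/v) σ³ p`, third component gives `(σ³)' = (c/v) σ³`, so `p' = 0`: `℘' = 0` and `℘'' = 0`; but `℘'' = 6℘² - g₂/2` and the three half periods give three distinct roots `e_i = ℘(half period)` of
`4x³ - g₂x - g₃` (`WP63.dwp_eq_zero_iff`, `WP63.wp_eq_iff`), so `12 e_i² - g₂ ≠ 0` at each of them: contradiction. On the lattice: `et L l = (0, y, 0)`, `y ≠ 0`; the first component `σ³℘ = (z-l)·(..)` has derivative `h(l)³ ≠ 0` at `l`, but should be `(c/v)·0 = 0`. -/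

theorem el3_of_notMem (L : PeriodPair) {z : ℂ} (hz : z ∉ L.lattice) :
    et L z = ![sg L z ^ 3 * ℘[L] z, sg L z ^ 3 * (℘'[L] z / 2), sg L z ^ 3] := by
  unfold et
  rw [if_neg hz]

theorem el3_of_mem (L : PeriodPair) {z : ℂ} (hz : z ∈ L.lattice) :
    et L z = ![0, -(deriv (sg L) z) ^ 3, 0] := by
  unfold et
  rw [if_pos hz]

theorem el3_deriv (L : PeriodPair) {l : ℂ} {h : ℂ → ℂ} (hd : Differentiable ℂ h)
    (hf : ∀ z, sg L z = (z - l) * h z) : deriv (sg L) l = h l := by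
  have e : sg L = fun z => (z - l) * h z := funext hf
  rw [e]
  have h1 : HasDerivAt (fun z : ℂ => z - l) 1 l := (hasDerivAt_id l).sub_const l
  have h2 := h1.mul (hd l).hasDerivAt
  have h3 := h2.deriv
  rw [sub_self, zero_mul, add_zero, one_mul] at h3
  exact h3

theorem el3_deriv_ne (L : PeriodPair) {l : ℂ} (hl : l ∈ L.lattice) : deriv (sg L) l ≠ 0 := by
  obtain ⟨h, hd, h0, hf⟩ := sg_fac L l hl
  rw [el3_deriv L hd hf]
  exact h0

theorem el3_sg_ne (L : PeriodPair) {z : ℂ} (hz : z ∉ L.lattice) : sg L z ≠ 0 :=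
  fun h => hz ((sg_zero_iff L z).1 h)

theorem et_pc (L : PeriodPair) (z : ℂ) : ∃ c : ℂ, c ≠ 0 ∧ ∀ j, et L z j = c * ELT.pc L z j := by
  by_cases hz : z ∈ L.lattice
  · refine ⟨-(deriv (sg L) z) ^ 3, neg_ne_zero.2 (pow_ne_zero 3 (el3_deriv_ne L hz)), ?_⟩
    intro j
    rw [el3_of_mem L hz]
    unfold ELT.pc
    rw [if_pos hz]
    fin_cases j <;> simp
  · refine ⟨sg L z ^ 3, pow_ne_zero 3 (el3_sg_ne L hz), ?_⟩
    intro j
    rw [el3_of_notMem L hz]
    unfold ELT.pc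
    rw [if_neg hz]
    fin_cases j <;> simp

/-- the local form of the theta functions at a lattice point -/
noncomputable def el3_loc (L : PeriodPair) (l : ℂ) (h : ℂ → ℂ) (z : ℂ) : Fin 3 → ℂ :=
  ![(z - l) * h z ^ 3 * ((z - l) ^ 2 * ℘[L - l] z + 1 - (z - l) ^ 2 / l ^ 2),
    h z ^ 3 * (((z - l) ^ 3 * ℘'[L - l] z - 2) / 2), ((z - l) * h z) ^ 3]

theorem el3_eq_loc (L : PeriodPair) {l : ℂ} (hl : l ∈ L.lattice) {h : ℂ → ℂ}
    (hd : Differentiable ℂ h) (hf : ∀ z, sg L z = (z - l) * h z) {z : ℂ}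
    (hz : z ∉ (L.lattice : Set ℂ) \ {l}) : et L z = el3_loc L l h z := by
  unfold el3_loc
  by_cases hzl : z = l
  · subst hzl
    rw [el3_of_mem L hl, el3_deriv L hd hf]
    funext j
    fin_cases j
    · simp
    · simp
    · simp
  · have hz' : z ∉ L.lattice := fun hm => hz ⟨hm, hzl⟩
    have hne : z - l ≠ 0 := sub_ne_zero.2 hzl
    have h1 := L.ite_eq_one_sub_sq_mul_weierstrassP l hl z
    rw [if_neg hzl] at h1
    have h2 := L.derivWeierstrassPExcept_sub ⟨l, hl⟩ z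
    rw [el3_of_notMem L hz', hf z, ← h1]
    funext j
    fin_cases j
    · simp
      ring
    · show ((z - l) * h z) ^ 3 * (℘'[L] z / 2) = h z ^ 3 * (((z - l) ^ 3 * ℘'[L - l] z - 2) / 2)
      rw [← h2]
      field_simp
    · rfl

theorem el3_loc_diff (L : PeriodPair) (l : ℂ) {h : ℂ → ℂ} (hd : Differentiable ℂ h) (j : Fin 3) :
    DifferentiableAt ℂ (fun z => el3_loc L l h z j) l := by
  have h1 : DifferentiableAt ℂ ℘[L - l] l := (L.analyticAt_weierstrassPExcept l).differentiableAt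
  have h2 : DifferentiableAt ℂ ℘'[L - l] l :=
    (L.analyticAt_derivWeierstrassPExcept l).differentiableAt
  have h3 : DifferentiableAt ℂ h l := hd l
  have h4 : DifferentiableAt ℂ (fun z : ℂ => (z - l) ^ 2 / l ^ 2) l := by
    refine DifferentiableAt.div_const ?_ _
    fun_prop
  fin_cases j
  · show DifferentiableAt ℂ (fun z => (z - l) * h z ^ 3 *
      ((z - l) ^ 2 * ℘[L - l] z + 1 - (z - l) ^ 2 / l ^ 2)) l
    exact ((by fun_prop : DifferentiableAt ℂ (fun z => (z - l) * h z ^ 3) l)).mul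
      ((by fun_prop : DifferentiableAt ℂ (fun z => (z - l) ^ 2 * ℘[L - l] z + 1) l).sub h4)
  · show DifferentiableAt ℂ (fun z => h z ^ 3 * (((z - l) ^ 3 * ℘'[L - l] z - 2) / 2)) l
    fun_prop
  · show DifferentiableAt ℂ (fun z => ((z - l) * h z) ^ 3) l
    fun_prop

theorem el3_diff_mem (L : PeriodPair) {l : ℂ} (hl : l ∈ L.lattice) (j : Fin 3) :
    DifferentiableAt ℂ (fun z => et L z j) l := by
  obtain ⟨h, hd, h0, hf⟩ := sg_fac L l hl
  refine (el3_loc_diff L l hd j).congr_of_eventuallyEq ?_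
  filter_upwards [L.compl_lattice_sdiff_singleton_mem_nhds l] with z hz
  rw [el3_eq_loc L hl hd hf hz]

theorem el3_ev (L : PeriodPair) {z : ℂ} (hz : z ∉ L.lattice) (j : Fin 3) :
    (fun w => et L w j) =ᶠ[nhds z] fun w =>
      (![sg L w ^ 3 * ℘[L] w, sg L w ^ 3 * (℘'[L] w / 2), sg L w ^ 3] : Fin 3 → ℂ) j := by
  have hopen : IsOpen (L.lattice : Set ℂ)ᶜ := L.isClosed_lattice.isOpen_compl
  filter_upwards [hopen.mem_nhds hz] with w hw
  rw [el3_of_notMem L hw]

theorem el3_diff_notMem (L : PeriodPair) {z : ℂ} (hz : z ∉ L.lattice) (j : Fin 3) :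
    DifferentiableAt ℂ (fun z => et L z j) z := by
  refine DifferentiableAt.congr_of_eventuallyEq ?_ (el3_ev L hz j)
  have h1 : DifferentiableAt ℂ ℘[L] z := (WP63.hasDerivAt_wp L hz).differentiableAt
  have h2 : DifferentiableAt ℂ ℘'[L] z := (WP63.hasDerivAt_dwp L hz).differentiableAt
  have h3 : DifferentiableAt ℂ (sg L) z := sg_diff L z
  fin_cases j
  · show DifferentiableAt ℂ (fun w => sg L w ^ 3 * ℘[L] w) z
    fun_prop
  · show DifferentiableAt ℂ (fun w => sg L w ^ 3 * (℘'[L] w / 2)) z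
    fun_prop
  · show DifferentiableAt ℂ (fun w => sg L w ^ 3) z
    fun_prop

theorem et_diff (L : PeriodPair) : Differentiable ℂ (et L) := by
  intro z
  rw [differentiableAt_pi]
  intro j
  by_cases hz : z ∈ L.lattice
  · exact el3_diff_mem L hz j
  · exact el3_diff_notMem L hz j

theorem el3_mem_add (L : PeriodPair) (z l : ℂ) (hl : l ∈ L.lattice) :
    z + l ∈ L.lattice ↔ z ∈ L.lattice :=
  L.lattice.toAddSubgroup.add_mem_cancel_right (y := z) hl

theorem et_quasi (L : PeriodPair) (l : ℂ) (hl : l ∈ L.lattice) :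
    ∃ a b : ℂ, ∀ z, et L (z + l) = Complex.exp (a * z + b) • et L z := by
  obtain ⟨a, b, hab⟩ := sg_quasi L l hl
  refine ⟨3 * a, 3 * b, ?_⟩
  intro z
  have hexp : Complex.exp (3 * a * z + 3 * b) = Complex.exp (a * z + b) ^ 3 := by
    rw [← Complex.exp_nat_mul]
    congr 1
    push_cast
    ring
  rw [hexp]
  by_cases hz : z ∈ L.lattice
  · have hz' : z + l ∈ L.lattice := (el3_mem_add L z l hl).2 hz
    have hz0 : sg L z = 0 := (sg_zero_iff L z).2 hz
    have h1 : HasDerivAt (fun w => sg L (w + l)) (deriv (sg L) (z + l)) z := by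
      have h2 : HasDerivAt (sg L) (deriv (sg L) (z + l)) (z + l) := (sg_diff L (z + l)).hasDerivAt
      exact h2.comp_add_const z l
    have h3 : HasDerivAt (fun w => Complex.exp (a * w + b) * sg L w)
        (Complex.exp (a * z + b) * a * sg L z + Complex.exp (a * z + b) * deriv (sg L) z) z := by
      have h4 : HasDerivAt (fun w : ℂ => a * w + b) a z := by
        have h5 := ((hasDerivAt_id z).const_mul a).add_const b
        rw [mul_one] at h5
        exact h5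
      exact h4.cexp.mul (sg_diff L z).hasDerivAt
    have h6 : (fun w => sg L (w + l)) = fun w => Complex.exp (a * w + b) * sg L w := funext hab
    rw [h6] at h1
    have h7 := h1.unique h3
    rw [hz0, mul_zero, zero_add] at h7
    rw [el3_of_mem L hz, el3_of_mem L hz', h7]
    funext j
    fin_cases j
    · simp
    · simp
      ring
    · simp
  · have hz' : z + l ∉ L.lattice := fun h => hz ((el3_mem_add L z l hl).1 h)
    rw [el3_of_notMem L hz, el3_of_notMem L hz', hab z, WP63.wp_add_mem L z l hl,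
      WP63.dwp_add_mem L z l hl]
    funext j
    fin_cases j
    · simp
      ring
    · simp
      ring
    · simp
      ring

theorem el3_half3 (L : PeriodPair) : (L.ω₁ + L.ω₂) / 2 ∉ L.lattice := by
  have h := L.mul_ω₁_add_mul_ω₂_mem_lattice (α := 1 / 2) (β := 1 / 2)
  intro hm
  have e : (((1 / 2 : ℚ) : ℂ) * L.ω₁ + ((1 / 2 : ℚ) : ℂ) * L.ω₂) = (L.ω₁ + L.ω₂) / 2 := by
    push_cast
    ring
  rw [e] at h
  have h2 := (h.1 hm).1
  norm_num at h2

theorem el3_notMem (L : PeriodPair) (α β : ℚ) (h : α.den ≠ 1 ∨ β.den ≠ 1) :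
    (α : ℂ) * L.ω₁ + (β : ℂ) * L.ω₂ ∉ L.lattice := fun hm => by
  have h2 := L.mul_ω₁_add_mul_ω₂_mem_lattice.1 hm
  rcases h with h | h
  · exact h h2.1
  · exact h h2.2

theorem el3_ne (L : PeriodPair) {u w : ℂ} (hu : u ∉ L.lattice) (hw : w ∉ L.lattice)
    (h1 : u - w ∉ L.lattice) (h2 : u + w ∉ L.lattice) : ℘[L] u ≠ ℘[L] w := fun h => by
  rcases (WP63.wp_eq_iff L hu hw).1 h with h3 | h3
  · exact h1 h3
  · exact h2 h3

/-- the cubic has three distinct roots -/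
theorem el3_roots (L : PeriodPair) : ∃ e₁ e₂ e₃ : ℂ, e₁ ≠ e₂ ∧ e₁ ≠ e₃ ∧ e₂ ≠ e₃ ∧
    4 * e₁ ^ 3 - L.g₂ * e₁ - L.g₃ = 0 ∧ 4 * e₂ ^ 3 - L.g₂ * e₂ - L.g₃ = 0 ∧
    4 * e₃ ^ 3 - L.g₂ * e₃ - L.g₃ = 0 := by
  have hr : ∀ z, z ∉ L.lattice → 2 * z ∈ L.lattice →
      4 * ℘[L] z ^ 3 - L.g₂ * ℘[L] z - L.g₃ = 0 := by
    intro z hz h2
    rw [← L.derivWeierstrassP_sq z hz, (WP63.dwp_eq_zero_iff L hz).2 h2]
    norm_num
  have n1 := L.ω₁_div_two_notMem_lattice
  have n2 := L.ω₂_div_two_notMem_lattice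
  have n3 := el3_half3 L
  have m1 : 2 * (L.ω₁ / 2) ∈ L.lattice := by
    rw [mul_div_cancel₀ _ two_ne_zero]
    exact L.ω₁_mem_lattice
  have m2 : 2 * (L.ω₂ / 2) ∈ L.lattice := by
    rw [mul_div_cancel₀ _ two_ne_zero]
    exact L.ω₂_mem_lattice
  have m3 : 2 * ((L.ω₁ + L.ω₂) / 2) ∈ L.lattice := by
    rw [mul_div_cancel₀ _ two_ne_zero]
    exact add_mem L.ω₁_mem_lattice L.ω₂_mem_lattice
  refine ⟨℘[L] (L.ω₁ / 2), ℘[L] (L.ω₂ / 2), ℘[L] ((L.ω₁ + L.ω₂) / 2), ?_, ?_, ?_,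
    hr _ n1 m1, hr _ n2 m2, hr _ n3 m3⟩
  · refine el3_ne L n1 n2 ?_ ?_
    · have h := el3_notMem L (1 / 2) (-1 / 2) (Or.inl (by norm_num))
      have e : (((1 / 2 : ℚ) : ℂ) * L.ω₁ + ((-1 / 2 : ℚ) : ℂ) * L.ω₂) = L.ω₁ / 2 - L.ω₂ / 2 := by
        push_cast
        ring
      rwa [e] at h
    · have e : L.ω₁ / 2 + L.ω₂ / 2 = (L.ω₁ + L.ω₂) / 2 := by ring
      rw [e]
      exact n3
  · refine el3_ne L n1 n3 ?_ ?_
    · have h := el3_notMem L 0 (-1 / 2) (Or.inr (by norm_num))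
      have e : (((0 : ℚ) : ℂ) * L.ω₁ + ((-1 / 2 : ℚ) : ℂ) * L.ω₂) =
          L.ω₁ / 2 - (L.ω₁ + L.ω₂) / 2 := by
        push_cast
        ring
      rwa [e] at h
    · have h := el3_notMem L 1 (1 / 2) (Or.inr (by norm_num))
      have e : (((1 : ℚ) : ℂ) * L.ω₁ + ((1 / 2 : ℚ) : ℂ) * L.ω₂) =
          L.ω₁ / 2 + (L.ω₁ + L.ω₂) / 2 := by
        push_cast
        ring
      rwa [e] at h
  · refine el3_ne L n2 n3 ?_ ?_
    · have h := el3_notMem L (-1 / 2) 0 (Or.inl (by norm_num))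
      have e : (((-1 / 2 : ℚ) : ℂ) * L.ω₁ + ((0 : ℚ) : ℂ) * L.ω₂) =
          L.ω₂ / 2 - (L.ω₁ + L.ω₂) / 2 := by
        push_cast
        ring
      rwa [e] at h
    · have h := el3_notMem L (1 / 2) 1 (Or.inl (by norm_num))
      have e : (((1 / 2 : ℚ) : ℂ) * L.ω₁ + ((1 : ℚ) : ℂ) * L.ω₂) =
          L.ω₂ / 2 + (L.ω₁ + L.ω₂) / 2 := by
        push_cast
        ring
      rwa [e] at h

/-- the cubic has no multiple root -/
theorem el3_simple (L : PeriodPair) (x : ℂ) (h1 : 4 * x ^ 3 - L.g₂ * x - L.g₃ = 0)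
    (h2 : 6 * x ^ 2 - L.g₂ / 2 = 0) : False := by
  obtain ⟨a, b, c, hab, hac, hbc, ha, hb, hc⟩ := el3_roots L
  have e1 : 4 * (a ^ 2 + a * b + b ^ 2) - L.g₂ = 0 := by
    refine (mul_eq_zero.1 ?_).resolve_left (sub_ne_zero.2 hab)
    linear_combination ha - hb
  have e2 : 4 * (a ^ 2 + a * c + c ^ 2) - L.g₂ = 0 := by
    refine (mul_eq_zero.1 ?_).resolve_left (sub_ne_zero.2 hac)
    linear_combination ha - hc
  have e3 : a + b + c = 0 := by
    refine (mul_eq_zero.1 ?_).resolve_left (sub_ne_zero.2 hbc)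
    linear_combination (e1 - e2) / 4
  have hx : (x - a) * ((x - b) * (x - c)) = 0 := by
    linear_combination h1 / 4 - ha / 4 - (x - a) / 4 * e1 - (x - a) * (x - b) * e3
  have hd : ∀ u v w : ℂ, u ≠ v → u ≠ w → u + v + w = 0 →
      4 * (u ^ 2 + u * v + v ^ 2) - L.g₂ = 0 → 6 * u ^ 2 - L.g₂ / 2 ≠ 0 := by
    intro u v w huv huw hs hg h
    have h3 : (u - v) * (u - w) = 0 := by
      linear_combination h / 2 - hg / 4 + (-u + v) * hs
    rcases mul_eq_zero.1 h3 with h4 | h4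
    · exact huv (sub_eq_zero.1 h4)
    · exact huw (sub_eq_zero.1 h4)
  rcases mul_eq_zero.1 hx with h3 | h3
  · rw [sub_eq_zero.1 h3] at h2
    exact hd a b c hab hac e3 e1 h2
  · rcases mul_eq_zero.1 h3 with h4 | h4
    · rw [sub_eq_zero.1 h4] at h2
      exact hd b a c hab.symm hbc (by linear_combination e3) (by linear_combination e1) h2
    · rw [sub_eq_zero.1 h4] at h2
      exact hd c a b hac.symm hbc.symm (by linear_combination e3) (by linear_combination e2) h2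

theorem et_imm (L : PeriodPair) (z v c : ℂ) (h : v • deriv (et L) z = c • et L z) : v = 0 := by
  by_contra hv
  have hD : ∀ j, HasDerivAt (fun w => et L w j) (deriv (et L) z j) z :=
    hasDerivAt_pi.1 (et_diff L z).hasDerivAt
  have hj : ∀ j, v * deriv (et L) z j = c * et L z j := fun j => by
    have := congrFun h j
    rw [Pi.smul_apply, Pi.smul_apply, smul_eq_mul, smul_eq_mul] at this
    exact this
  by_cases hz : z ∈ L.lattice
  · obtain ⟨f, hd, h0, hf⟩ := sg_fac L z hz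
    have h1 : (fun w => et L w 0) =ᶠ[nhds z] fun w => el3_loc L z f w 0 := by
      filter_upwards [L.compl_lattice_sdiff_singleton_mem_nhds z] with w hw
      rw [el3_eq_loc L hz hd hf hw]
    have h2 : HasDerivAt (fun w => el3_loc L z f w 0) (deriv (et L) z 0) z :=
      (hD 0).congr_of_eventuallyEq h1.symm
    have hA : DifferentiableAt ℂ (fun w => f w ^ 3 *
        ((w - z) ^ 2 * ℘[L - z] w + 1 - (w - z) ^ 2 / z ^ 2)) z := by
      have g1 : DifferentiableAt ℂ ℘[L - z] z :=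
        (L.analyticAt_weierstrassPExcept z).differentiableAt
      have g3 : DifferentiableAt ℂ f z := hd z
      have g4 : DifferentiableAt ℂ (fun w : ℂ => (w - z) ^ 2 / z ^ 2) z := by
        refine DifferentiableAt.div_const ?_ _
        fun_prop
      exact (by fun_prop : DifferentiableAt ℂ (fun w => f w ^ 3) z).mul
        ((by fun_prop : DifferentiableAt ℂ (fun w => (w - z) ^ 2 * ℘[L - z] w + 1) z).sub g4)
    have h3 : HasDerivAt (fun w : ℂ => w - z) 1 z := (hasDerivAt_id z).sub_const z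
    have h4 := h3.mul hA.hasDerivAt
    have h5 : (fun w => el3_loc L z f w 0) = (fun w : ℂ => w - z) * fun w => f w ^ 3 *
        ((w - z) ^ 2 * ℘[L - z] w + 1 - (w - z) ^ 2 / z ^ 2) := by
      funext w
      show (w - z) * f w ^ 3 * ((w - z) ^ 2 * ℘[L - z] w + 1 - (w - z) ^ 2 / z ^ 2) =
        (w - z) * (f w ^ 3 * ((w - z) ^ 2 * ℘[L - z] w + 1 - (w - z) ^ 2 / z ^ 2))
      ring
    rw [h5] at h2
    have h6 := h2.unique h4
    rw [sub_self, zero_mul, add_zero, one_mul] at h6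
    have h7 : deriv (et L) z 0 = f z ^ 3 := by
      rw [h6]
      ring
    have h8 := hj 0
    rw [h7, el3_of_mem L hz] at h8
    have h9 : v * f z ^ 3 = 0 := by
      rw [h8]
      simp
    rcases mul_eq_zero.1 h9 with h10 | h10
    · exact hv h10
    · exact h0 (pow_eq_zero_iff (by norm_num) |>.1 h10)
  · have hs := el3_sg_ne L hz
    have hs3 : sg L z ^ 3 ≠ 0 := pow_ne_zero 3 hs
    have g1 := WP63.hasDerivAt_wp L hz
    have g2 := WP63.hasDerivAt_dwp L hz
    have g3 : HasDerivAt (fun w => sg L w ^ 3) (deriv (fun w => sg L w ^ 3) z) z :=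
      ((sg_diff L z).pow 3).hasDerivAt
    set D := deriv (fun w => sg L w ^ 3) z with hDdef
    have k0 : deriv (et L) z 0 = D * ℘[L] z + sg L z ^ 3 * ℘'[L] z :=
      ((hD 0).congr_of_eventuallyEq (el3_ev L hz 0).symm).unique (g3.mul g1)
    have k1 : deriv (et L) z 1 = D * (℘'[L] z / 2) + sg L z ^ 3 * (deriv ℘'[L] z / 2) :=
      ((hD 1).congr_of_eventuallyEq (el3_ev L hz 1).symm).unique (g3.mul (g2.div_const 2))
    have k2 : deriv (et L) z 2 = D :=
      ((hD 2).congr_of_eventuallyEq (el3_ev L hz 2).symm).unique g3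
    have j0 := hj 0
    have j1 := hj 1
    have j2 := hj 2
    rw [el3_of_notMem L hz] at j0 j1 j2
    rw [k0] at j0
    rw [k1] at j1
    rw [k2] at j2
    have i0 : v * (D * ℘[L] z + sg L z ^ 3 * ℘'[L] z) = c * (sg L z ^ 3 * ℘[L] z) := j0
    have i1 : v * (D * (℘'[L] z / 2) + sg L z ^ 3 * (deriv ℘'[L] z / 2)) =
      c * (sg L z ^ 3 * (℘'[L] z / 2)) := j1
    have i2 : v * D = c * sg L z ^ 3 := j2
    have p0 : (v * sg L z ^ 3) * ℘'[L] z = 0 := by linear_combination i0 - ℘[L] z * i2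
    have p1 : (v * sg L z ^ 3) * deriv ℘'[L] z = 0 := by
      linear_combination 2 * i1 - ℘'[L] z * i2
    have hvs : v * sg L z ^ 3 ≠ 0 := mul_ne_zero hv hs3
    have q0 := (mul_eq_zero.1 p0).resolve_left hvs
    have q1 := (mul_eq_zero.1 p1).resolve_left hvs
    rw [WP63.deriv_dwp L hz] at q1
    have q2 := L.derivWeierstrassP_sq z hz
    rw [q0] at q2
    exact el3_simple L (℘[L] z) (by rw [← q2]; norm_num) q1

end GAV
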