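import Pool.Agent.GAV.Def
import Pool.Agent.ELT.W11

set_option autoImplicit false

open PeriodPair MvPolynomial LTD

namespace GAV

/-! ## [GAV-EL4] the subtraction laws of an elliptic curve (file EL4.lean)

`t` from `ELT.aux_pts L`. Over `k`: `a4, a6 ∈ k`, `pc (t i) j ∈ k` (`℘(t i) ∈ ℤ`, `(℘')² = 4℘³ - g₂℘ - g₃`, `Clo k`; see `ELT/W10.lean`, `ELT/W11.lean`). `law i j` = the polynomial `ELT.law2 (C a4) (C a6) (C ∘ T i) (X ∘ inl) (ELT.ngt (X ∘ inr)) j` over `k` (`T i j ∈ k` with `(T i j : ℂ) = pc L (t i) j`).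
Values: `aeval (Sum.elim p q) (law i j) = ELT.law2 a4 a6 (pc (t i)) p (ELT.ngt q) j` (`ELT.law2_map` for the ring homomorphism `aeval`). Bidegree: every component of `law` is a sum of products of two `P`'s and two `Q`'s, of `law2` four and four. Lemma: say a polynomial `f` in the variables `Fin 3 ⊕ Fin 3` has bidegree `(a,b)` if all monomials in its support have
`∑ inl = a`, `∑ inr = b` (equivalently `IsWeightedHomogeneous` for the two weights); `X (inl l)` has `(1,0)`, `X (inr l)` `(0,1)`, constants `(0,0)`, closed under sums, differences, multiplication by constants and products (`MvPolynomial.IsWeightedHomogeneous` API); unfold `law2`, `law`, `ngt`.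
`law2 .. (pc z) (ngt (pc w)) = c pc(z - w)` with `c ≠ 0` for some `i`: `ELT.pc_ngt` (`ngt (pc w) = c' pc(-w)`, `c' ≠ 0`), `ELT.law2_smul`, `ELT.law2_pc`, `ELT.law2_ne`. -/

/-- the weights of the two groups of variables -/
private def el4_w : Fin 3 ⊕ Fin 3 → ℕ × ℕ := Sum.elim (fun _ => (1, 0)) fun _ => (0, 1)

/-- homogeneous of bidegree `d` -/
private def el4_H {k : IntermediateField ℚ ℂ} (d : ℕ × ℕ)
    (f : MvPolynomial (Fin 3 ⊕ Fin 3) k) : Prop := IsWeightedHomogeneous el4_w f d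

private theorem el4_cast {k : IntermediateField ℚ ℂ} {d e : ℕ × ℕ}
    {f : MvPolynomial (Fin 3 ⊕ Fin 3) k} (h : el4_H d f) (he : d = e) : el4_H e f := he ▸ h

private theorem el4_mul {k : IntermediateField ℚ ℂ} {d e : ℕ × ℕ}
    {f g : MvPolynomial (Fin 3 ⊕ Fin 3) k} (h : el4_H d f) (h' : el4_H e g) :
    el4_H (d + e) (f * g) := IsWeightedHomogeneous.mul h h'

private theorem el4_add {k : IntermediateField ℚ ℂ} {d : ℕ × ℕ}
    {f g : MvPolynomial (Fin 3 ⊕ Fin 3) k} (h : el4_H d f) (h' : el4_H d g) :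
    el4_H d (f + g) := IsWeightedHomogeneous.add h h'

private theorem el4_neg {k : IntermediateField ℚ ℂ} {d : ℕ × ℕ}
    {f : MvPolynomial (Fin 3 ⊕ Fin 3) k} (h : el4_H d f) : el4_H d (-f) :=
  (weightedHomogeneousSubmodule k el4_w d).neg_mem h

private theorem el4_sub {k : IntermediateField ℚ ℂ} {d : ℕ × ℕ}
    {f g : MvPolynomial (Fin 3 ⊕ Fin 3) k} (h : el4_H d f) (h' : el4_H d g) :
    el4_H d (f - g) := by
  rw [sub_eq_add_neg]
  exact el4_add h (el4_neg h')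

private theorem el4_C {k : IntermediateField ℚ ℂ} (a : k) :
    el4_H 0 (C a : MvPolynomial (Fin 3 ⊕ Fin 3) k) := isWeightedHomogeneous_C _ a

private theorem el4_three {k : IntermediateField ℚ ℂ} :
    el4_H 0 (3 : MvPolynomial (Fin 3 ⊕ Fin 3) k) := by
  have h : (3 : MvPolynomial (Fin 3 ⊕ Fin 3) k) = C 3 := (map_ofNat C 3).symm
  rw [h]
  exact el4_C 3

private theorem el4_law {k : IntermediateField ℚ ℂ} {d e : ℕ × ℕ}
    {a b : MvPolynomial (Fin 3 ⊕ Fin 3) k} {P Q : Fin 3 → MvPolynomial (Fin 3 ⊕ Fin 3) k}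
    (ha : el4_H 0 a) (hb : el4_H 0 b) (hP : ∀ j, el4_H d (P j)) (hQ : ∀ j, el4_H e (Q j))
    (j : Fin 3) : el4_H (d + e + (d + e)) (ELT.law a b P Q j) := by
  have A : ∀ i j, el4_H (d + e) (P i * Q j) := fun i j => el4_mul (hP i) (hQ j)
  have B : ∀ i j, el4_H (d + e) (Q i * P j) := fun i j =>
    el4_cast (el4_mul (hQ i) (hP j)) (add_comm e d)
  have Z : ∀ {c f : MvPolynomial (Fin 3 ⊕ Fin 3) k}, el4_H 0 c → el4_H (d + e) f →
      el4_H (d + e) (c * f) := fun hc hf => el4_cast (el4_mul hc hf) (zero_add _)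
  have T : ∀ {f : MvPolynomial (Fin 3 ⊕ Fin 3) k}, el4_H (d + e) f → ∀ i j,
      el4_H (d + e + (d + e)) (f * P i * Q j) := fun hf i j =>
    el4_cast (el4_mul (el4_mul hf (hP i)) (hQ j)) (add_assoc _ _ _)
  have U : ∀ {c : MvPolynomial (Fin 3 ⊕ Fin 3) k}, el4_H 0 c → ∀ i j,
      el4_H (d + e) (c * P i * Q j) := fun hc i j =>
    el4_cast (el4_mul (el4_mul hc (hP i)) (hQ j)) (by rw [zero_add])
  have h3b : el4_H 0 (3 * b) := el4_cast (el4_mul el4_three hb) (zero_add _)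
  fin_cases j
  · exact el4_sub (el4_sub (el4_add (el4_mul (el4_sub (A 0 1) (B 0 1)) (el4_add (A 1 2) (B 1 2)))
      (T (el4_sub (A 0 2) (B 0 2)) 1 1))
      (el4_mul (Z ha (el4_add (A 0 2) (B 0 2))) (el4_sub (A 0 2) (B 0 2))))
      (T (Z h3b (el4_sub (A 0 2) (B 0 2))) 2 2)
  · exact el4_add (el4_add (el4_sub (el4_sub
      (el4_mul (U (el4_neg el4_three) 0 0) (el4_sub (A 0 1) (B 0 1)))
      (el4_mul (A 1 1) (el4_sub (A 1 2) (B 1 2))))
      (T (Z ha (el4_sub (A 0 1) (B 0 1))) 2 2))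
      (el4_mul (Z ha (el4_add (A 0 2) (B 0 2))) (el4_sub (A 1 2) (B 1 2))))
      (T (Z h3b (el4_sub (A 1 2) (B 1 2))) 2 2)
  · exact el4_add (el4_sub (el4_mul (U el4_three 0 0) (el4_sub (A 0 2) (B 0 2)))
      (el4_mul (el4_add (A 1 2) (B 1 2)) (el4_sub (A 1 2) (B 1 2))))
      (T (Z ha (el4_sub (A 0 2) (B 0 2))) 2 2)

private theorem el4_ngt {k : IntermediateField ℚ ℂ} {d : ℕ × ℕ}
    {P : Fin 3 → MvPolynomial (Fin 3 ⊕ Fin 3) k} (hP : ∀ j, el4_H d (P j)) (j : Fin 3) :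
    el4_H d (ELT.ngt P j) := by
  fin_cases j
  · exact hP 0
  · exact el4_neg (hP 1)
  · exact hP 2

private theorem el4_deg {k : IntermediateField ℚ ℂ} {f : MvPolynomial (Fin 3 ⊕ Fin 3) k}
    (h : el4_H (4, 4) f) : ∀ m ∈ f.support,
      ∑ l, m (Sum.inl l) = 4 ∧ ∑ l, m (Sum.inr l) = 4 := by
  intro m hm
  have h1 : Finsupp.weight el4_w m = (4, 4) := h (mem_support_iff.1 hm)
  have h0 : ∀ i : Fin 3 ⊕ Fin 3, (fun (i : Fin 3 ⊕ Fin 3) (c : ℕ) => c • el4_w i) i 0 = 0 :=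
    fun i => zero_smul ℕ (el4_w i)
  rw [Finsupp.weight_apply, Finsupp.sum_fintype _ _ h0, Fintype.sum_sum_type] at h1
  have h2 := congrArg Prod.fst h1
  have h3 := congrArg Prod.snd h1
  simp only [el4_w, Sum.elim_inl, Sum.elim_inr, Prod.fst_add, Prod.snd_add, Prod.fst_sum,
    Prod.snd_sum, Prod.smul_fst, Prod.smul_snd, smul_eq_mul, mul_one, mul_zero,
    Finset.sum_const_zero, add_zero, zero_add] at h2 h3
  exact ⟨h2, h3⟩

theorem ell_law (L : PeriodPair) (k : IntermediateField ℚ ℂ) (hk : Clo k) (h2 : L.g₂ ∈ k)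
    (h3 : L.g₃ ∈ k) : ∃ law : Fin 4 → Fin 3 → MvPolynomial (Fin 3 ⊕ Fin 3) k,
      (∀ i j, ∀ m ∈ (law i j).support, ∑ l, m (Sum.inl l) = 4 ∧ ∑ l, m (Sum.inr l) = 4) ∧
      (∀ i z w, ∃ c : ℂ, ∀ j, aeval (Sum.elim (ELT.pc L z) (ELT.pc L w)) (law i j) =
        c * ELT.pc L (z - w) j) ∧
      ∀ z w, ∃ i j, aeval (Sum.elim (ELT.pc L z) (ELT.pc L w)) (law i j) ≠ 0 := by
  obtain ⟨t, ht1, ht2, ht3⟩ := ELT.aux_pts L
  have htk : ∀ i, ELT.InW L k (t i) := by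
    intro i
    right
    obtain ⟨n, hn⟩ := ht2 i
    rw [hn]
    simp
  have hT : ∀ i j, ELT.pc L (t i) j ∈ k := fun i j => ELT.w11_pc L k hk h2 h3 (htk i) j
  let T : Fin 4 → Fin 3 → k := fun i j => ⟨ELT.pc L (t i) j, hT i j⟩
  let a : k := ⟨ELT.a4 L, ELT.w11_a4 L k h2⟩
  let b : k := ⟨ELT.a6 L, ELT.w11_a6 L k h3⟩
  let P : Fin 3 → MvPolynomial (Fin 3 ⊕ Fin 3) k := fun j => X (Sum.inl j)
  let Q : Fin 3 → MvPolynomial (Fin 3 ⊕ Fin 3) k := fun j => X (Sum.inr j)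
  have hval : ∀ (i : Fin 4) (j : Fin 3) (p q : Fin 3 → ℂ), aeval (Sum.elim p q)
      (ELT.law2 (C a) (C b) (fun j => C (T i j)) P (ELT.ngt Q) j) =
        ELT.law2 (ELT.a4 L) (ELT.a6 L) (ELT.pc L (t i)) p (ELT.ngt q) j := by
    intro i j p q
    have h := ELT.law2_map
      ((aeval (Sum.elim p q) : MvPolynomial (Fin 3 ⊕ Fin 3) k →ₐ[k] ℂ) :
        MvPolynomial (Fin 3 ⊕ Fin 3) k →+* ℂ) (C a) (C b) (fun j => C (T i j)) P (ELT.ngt Q) j
    have e1 : ((aeval (Sum.elim p q) : MvPolynomial (Fin 3 ⊕ Fin 3) k →ₐ[k] ℂ) :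
        MvPolynomial (Fin 3 ⊕ Fin 3) k →+* ℂ) (C a) = ELT.a4 L := by
      simp [a, IntermediateField.algebraMap_apply]
    have e2 : ((aeval (Sum.elim p q) : MvPolynomial (Fin 3 ⊕ Fin 3) k →ₐ[k] ℂ) :
        MvPolynomial (Fin 3 ⊕ Fin 3) k →+* ℂ) (C b) = ELT.a6 L := by
      simp [b, IntermediateField.algebraMap_apply]
    have e3 : (fun j => ((aeval (Sum.elim p q) : MvPolynomial (Fin 3 ⊕ Fin 3) k →ₐ[k] ℂ) :
        MvPolynomial (Fin 3 ⊕ Fin 3) k →+* ℂ) ((fun j => C (T i j)) j)) = ELT.pc L (t i) := by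
      funext j
      simp [T, IntermediateField.algebraMap_apply]
    have e4 : (fun j => ((aeval (Sum.elim p q) : MvPolynomial (Fin 3 ⊕ Fin 3) k →ₐ[k] ℂ) :
        MvPolynomial (Fin 3 ⊕ Fin 3) k →+* ℂ) (P j)) = p := by
      funext j
      simp [P]
    have e5 : (fun j => ((aeval (Sum.elim p q) : MvPolynomial (Fin 3 ⊕ Fin 3) k →ₐ[k] ℂ) :
        MvPolynomial (Fin 3 ⊕ Fin 3) k →+* ℂ) (ELT.ngt Q j)) = ELT.ngt q := by
      funext j
      fin_cases j <;> simp [ELT.ngt, Q]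
    rw [e1, e2, e3, e4, e5] at h
    exact h
  have hneg : ∀ (i : Fin 4) (z w : ℂ), ∃ c : ℂ, c ≠ 0 ∧ ∀ j,
      ELT.law2 (ELT.a4 L) (ELT.a6 L) (ELT.pc L (t i)) (ELT.pc L z) (ELT.ngt (ELT.pc L w)) j =
        c * ELT.law2 (ELT.a4 L) (ELT.a6 L) (ELT.pc L (t i)) (ELT.pc L z) (ELT.pc L (-w)) j := by
    intro i z w
    obtain ⟨c, hc, h⟩ := ELT.pc_ngt L w
    have e1 : ELT.ngt (ELT.pc L w) = fun k => c * ELT.pc L (-w) k := funext h
    have e2 : ELT.pc L z = fun k => 1 * ELT.pc L z k := by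
      funext j
      rw [one_mul]
    refine ⟨1 ^ 4 * c ^ 4, by simpa using pow_ne_zero 4 hc, fun j => ?_⟩
    have h5 := ELT.law2_smul (ELT.a4 L) (ELT.a6 L) 1 c (ELT.pc L (t i)) (ELT.pc L z)
      (ELT.pc L (-w))
    rw [← e1, ← e2] at h5
    exact congrFun h5 j
  refine ⟨fun i j => ELT.law2 (C a) (C b) (fun j => C (T i j)) P (ELT.ngt Q) j, ?_, ?_, ?_⟩
  · intro i j
    refine el4_deg ?_
    have hP : ∀ j, el4_H (1, 0) (P j) := fun j => isWeightedHomogeneous_X k el4_w (Sum.inl j)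
    have hQ : ∀ j, el4_H (0, 1) (Q j) := fun j => isWeightedHomogeneous_X k el4_w (Sum.inr j)
    have hTT : ∀ j, el4_H 0 (C (T i j) : MvPolynomial (Fin 3 ⊕ Fin 3) k) := fun j => el4_C _
    exact el4_cast (el4_law (el4_C a) (el4_C b) (el4_law (el4_C a) (el4_C b) hP hTT)
      (el4_law (el4_C a) (el4_C b) (el4_ngt hQ) (el4_ngt hTT)) j) rfl
  · intro i z w
    obtain ⟨c, hc, h⟩ := hneg i z w
    obtain ⟨c2, hc2, _⟩ := ELT.law2_pc L (t i) z (-w)
    refine ⟨c * c2, fun j => ?_⟩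
    rw [hval, h j, hc2 j, ← sub_eq_add_neg, mul_assoc]
  · intro z w
    obtain ⟨i, hi⟩ := ELT.law2_ne L t ht3 z (-w)
    obtain ⟨j, hj⟩ := Function.ne_iff.1 hi
    obtain ⟨c, hc, h⟩ := hneg i z w
    refine ⟨i, j, ?_⟩
    rw [hval, h j]
    exact mul_ne_zero hc hj

end GAV
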