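import Pool.Agent.GAV.EL3
import Pool.Agent.GAV.EL4
import Pool.Agent.GAV.G1

set_option autoImplicit false

open PeriodPair MvPolynomial LTD

namespace GAV

/-! ## [GAV-EL5] every elliptic curve is an `AV` (file EL5.lean)

`ω`: the basis of `Fin 1 → ℂ` over `ℝ` given by `fun _ => L.ω₁`, `fun _ => L.ω₂` (`L.indep`, dimension 2; reindex `Fin 2 = Fin (2*1)`). `θ z = et L (z 0)`. `diff, quasi` (`a = fun _ => a`), `ne` (`et_pc`, `pc ≠ 0`), `inj`: `et_pc`: `pc L z = c pc L w`: both in the lattice, or both not and `℘, ℘'` equal, so `z - w ∈ L` (`WP63.wp_eq_iff`: `z ≡ ± w`, and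
`℘'` distinguishes, if `℘'(w) = 0` then `w ≡ -w`); `imm`: `et_imm`. `eqs` = the single cubic `Y²Z - X³ - a₄XZ² - a₆Z³` over `k`, homogeneous of degree 3; `image`: `ELT.pc_onC`, `ELT.onC_smul`, `ELT.onC_surj`, `et_pc`. `zero`: `et L 0 = (0, -1·.., 0)`, multiply by the inverse. `law` from `ell_law`; pass from `pc` to `et` by `et_pc` and bihomogeneity
(`aeval` at scaled points: factor `c⁴c'⁴`, as in `GAV.law_smul`: reprove for a polynomial with the support condition).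
`lam_iff`: `A.Λ` = integer combinations of the two periods. -/

theorem el5_smul {n n' κ : ℕ} {k : IntermediateField ℚ ℂ}
    (f : MvPolynomial (Fin n ⊕ Fin n') k)
    (hf : ∀ m ∈ f.support, ∑ l, m (Sum.inl l) = κ ∧ ∑ l, m (Sum.inr l) = κ)
    (a b : ℂ) (p : Fin n → ℂ) (q : Fin n' → ℂ) :
    aeval (Sum.elim (fun j => a * p j) (fun j => b * q j)) f =
      a ^ κ * b ^ κ * aeval (Sum.elim p q) f := by
  rw [aeval_def, aeval_def, eval₂_eq', eval₂_eq', Finset.mul_sum]
  refine Finset.sum_congr rfl fun m hm => ?_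
  obtain ⟨h1, h2⟩ := hf m hm
  rw [Fintype.prod_sum_type, Fintype.prod_sum_type]
  simp only [Sum.elim_inl, Sum.elim_inr, mul_pow, Finset.prod_mul_distrib]
  rw [Finset.prod_pow_eq_pow_sum, Finset.prod_pow_eq_pow_sum, h1, h2]
  ring

theorem el5_basis (L : PeriodPair) : ∃ ω : Module.Basis (Fin (2 * 1)) ℝ (Fin 1 → ℂ),
    ω 0 = (fun _ => L.ω₁) ∧ ω 1 = fun _ => L.ω₂ := by
  refine ⟨(L.basis.map (LinearEquiv.funUnique (Fin 1) ℝ ℂ).symm).reindex
    (finCongr (by norm_num)), ?_, ?_⟩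
  · rw [Module.Basis.reindex_apply]
    have h : (finCongr (by norm_num : 2 = 2 * 1)).symm 0 = 0 := rfl
    rw [h, Module.Basis.map_apply, L.basis_zero]
    rfl
  · rw [Module.Basis.reindex_apply]
    have h : (finCongr (by norm_num : 2 = 2 * 1)).symm 1 = 1 := rfl
    rw [h, Module.Basis.map_apply, L.basis_one]
    rfl

theorem el5_lat (L : PeriodPair) (ω : Module.Basis (Fin (2 * 1)) ℝ (Fin 1 → ℂ))
    (h0 : ω 0 = fun _ => L.ω₁) (h1 : ω 1 = fun _ => L.ω₂) (z : Fin 1 → ℂ) :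
    z ∈ AddSubgroup.closure (Set.range ω) ↔ z 0 ∈ L.lattice := by
  constructor
  · intro hz
    induction hz using AddSubgroup.closure_induction with
    | mem x hx =>
      obtain ⟨j, rfl⟩ := hx
      have hj : j = 0 ∨ j = 1 := by
        revert j
        decide
      rcases hj with rfl | rfl
      · rw [h0]; exact L.ω₁_mem_lattice
      · rw [h1]; exact L.ω₂_mem_lattice
    | zero => exact L.lattice.zero_mem
    | add x y _ _ hx hy => exact L.lattice.add_mem hx hy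
    | neg x _ hx => exact L.lattice.neg_mem hx
  · intro hz
    obtain ⟨m, n, hmn⟩ := PeriodPair.mem_lattice.mp hz
    have h2 : z = m • ω 0 + n • ω 1 := by
      funext i
      have hi : i = 0 := Subsingleton.elim _ _
      subst hi
      rw [h0, h1, ← hmn]
      simp
    have m0 : ω 0 ∈ AddSubgroup.closure (Set.range ω) :=
      AddSubgroup.subset_closure (Set.mem_range_self 0)
    have m1 : ω 1 ∈ AddSubgroup.closure (Set.range ω) :=
      AddSubgroup.subset_closure (Set.mem_range_self 1)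
    rw [h2]
    exact add_mem (zsmul_mem m0 m) (zsmul_mem m1 n)

theorem el5_pc_two (L : PeriodPair) (z : ℂ) :
    (z ∈ L.lattice ∧ ELT.pc L z 0 = 0 ∧ ELT.pc L z 1 = 1 ∧ ELT.pc L z 2 = 0) ∨
    (z ∉ L.lattice ∧ ELT.pc L z 0 = ℘[L] z ∧ ELT.pc L z 1 = ℘'[L] z / 2 ∧ ELT.pc L z 2 = 1) := by
  by_cases hz : z ∈ L.lattice
  · left
    refine ⟨hz, ?_, ?_, ?_⟩ <;> (unfold ELT.pc; rw [if_pos hz]; simp)
  · right
    refine ⟨hz, ?_, ?_, ?_⟩ <;> (unfold ELT.pc; rw [if_neg hz]; simp)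

theorem el5_inj (L : PeriodPair) (z w c : ℂ) (h : ∀ j, et L z j = c * et L w j) :
    z - w ∈ L.lattice := by
  obtain ⟨c1, hc1, h1⟩ := et_pc L z
  obtain ⟨c2, hc2, h2⟩ := et_pc L w
  have h3 : ∀ j, c1 * ELT.pc L z j = c * c2 * ELT.pc L w j := by
    intro j
    rw [← h1, h, h2]
    ring
  rcases el5_pc_two L z with ⟨hz, a0, a1, a2⟩ | ⟨hz, a0, a1, a2⟩
  · rcases el5_pc_two L w with ⟨hw, b0, b1, b2⟩ | ⟨hw, b0, b1, b2⟩
    · exact L.lattice.sub_mem hz hw
    · exfalso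
      have h4 := h3 2
      have h5 := h3 1
      rw [a2, b2, mul_zero, mul_one] at h4
      rw [a1, ← h4, zero_mul, mul_one] at h5
      exact hc1 h5
  · rcases el5_pc_two L w with ⟨hw, b0, b1, b2⟩ | ⟨hw, b0, b1, b2⟩
    · exfalso
      have h4 := h3 2
      rw [a2, b2, mul_zero, mul_one] at h4
      exact hc1 h4
    · have h4 := h3 2
      rw [a2, b2, mul_one, mul_one] at h4
      have h5 := h3 0
      have h6 := h3 1
      rw [a0, b0, ← h4] at h5
      rw [a1, b1, ← h4] at h6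
      have h7 := mul_left_cancel₀ hc1 h5
      have h8 := mul_left_cancel₀ hc1 h6
      have h9 : ℘'[L] z = ℘'[L] w := by
        linear_combination 2 * h8
      have h10 := WP63.sub_mem_of_eq L hw hz h7.symm h9.symm
      exact h10

theorem exists_ell (L : PeriodPair) (k : IntermediateField ℚ ℂ) (hk : Clo k) (h2 : L.g₂ ∈ k)
    (h3 : L.g₃ ∈ k) : ∃ A : AV 1 2 4 k, (∀ z, A.θ z = et L (z 0)) ∧
      ∀ z, z ∈ A.Λ ↔ z 0 ∈ L.lattice := by
  obtain ⟨ω, hω0, hω1⟩ := el5_basis L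
  obtain ⟨law, hl1, hl2, hl3⟩ := ell_law L k hk h2 h3
  have hpc : ∀ z, ELT.pc L z ≠ 0 := by
    intro z h
    rcases el5_pc_two L z with ⟨_, _, a1, _⟩ | ⟨_, _, _, a2⟩
    · rw [h] at a1
      exact zero_ne_one a1
    · rw [h] at a2
      exact zero_ne_one a2
  have hla : ∀ i (z w : Fin 1 → ℂ), ∃ c : ℂ, c ≠ 0 ∧
      ∀ j, aeval (Sum.elim (et L (z 0)) (et L (w 0))) (law i j) =
        c * aeval (Sum.elim (ELT.pc L (z 0)) (ELT.pc L (w 0))) (law i j) := by
    intro i z w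
    obtain ⟨c1, hc1, e1⟩ := et_pc L (z 0)
    obtain ⟨c2, hc2, e2⟩ := et_pc L (w 0)
    refine ⟨c1 ^ 4 * c2 ^ 4, mul_ne_zero (pow_ne_zero _ hc1) (pow_ne_zero _ hc2), fun j => ?_⟩
    rw [← el5_smul (law i j) (hl1 i j) c1 c2]
    have e3 : et L (z 0) = fun j => c1 * ELT.pc L (z 0) j := funext e1
    have e4 : et L (w 0) = fun j => c2 * ELT.pc L (w 0) j := funext e2
    rw [e3, e4]
  let α4 : k := ⟨ELT.a4 L, by
    unfold ELT.a4
    exact div_mem (neg_mem h2) (by exact_mod_cast (IntermediateField.algebraMap_mem k (4 : ℚ)))⟩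
  let α6 : k := ⟨ELT.a6 L, by
    unfold ELT.a6
    exact div_mem (neg_mem h3) (by exact_mod_cast (IntermediateField.algebraMap_mem k (4 : ℚ)))⟩
  let cub : MvPolynomial (Fin 3) k :=
    X 1 ^ 2 * X 2 - (X 0 ^ 3 + C α4 * X 0 * X 2 ^ 2 + C α6 * X 2 ^ 3)
  have hcub : ∀ p : Fin 3 → ℂ, aeval p cub = 0 ↔ ELT.OnC L p := by
    intro p
    have e1 : aeval p cub = p 1 ^ 2 * p 2 -
        (p 0 ^ 3 + ELT.a4 L * p 0 * p 2 ^ 2 + ELT.a6 L * p 2 ^ 3) := by
      simp only [cub, map_sub, map_add, map_mul, map_pow, aeval_X, aeval_C]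
      rfl
    rw [e1, sub_eq_zero]
    rfl
  refine ⟨{
    ω := ω
    θ := fun z => et L (z 0)
    diff := (et_diff L).comp (differentiable_apply 0)
    ne := ?_
    quasi := ?_
    inj := ?_
    imm := ?_
    eqs := {cub}
    eqs_hom := ?_
    image := ?_
    zero := ?_
    n := 4
    law := law
    law_hom := hl1
    law_eq := ?_
    law_ne := ?_ }, fun z => rfl, fun z => el5_lat L ω hω0 hω1 z⟩
  · intro z h
    obtain ⟨c1, hc1, e1⟩ := et_pc L (z 0)
    apply hpc (z 0)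
    funext j
    have e2 := e1 j
    rw [h] at e2
    change (0 : ℂ) = _ at e2
    rcases mul_eq_zero.mp e2.symm with h4 | h4
    · exact absurd h4 hc1
    · exact h4
  · intro j
    have hj : (ω j) 0 ∈ L.lattice := (el5_lat L ω hω0 hω1 (ω j)).mp
      (AddSubgroup.subset_closure ⟨j, rfl⟩)
    obtain ⟨a, b, hab⟩ := et_quasi L _ hj
    refine ⟨fun _ => a, b, fun z => ?_⟩
    have h4 := hab (z 0)
    change et L (z 0 + (ω j) 0) = _
    rw [h4]
    simp
  · intro z w c h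
    rw [el5_lat L ω hω0 hω1]
    refine el5_inj L (z 0) (w 0) c fun j => ?_
    have h4 := congrFun h j
    exact h4
  · intro z v c h
    have h4 : fderiv ℂ (fun z : Fin 1 → ℂ => et L (z 0)) z v = v 0 • deriv (et L) (z 0) := by
      have e1 : HasFDerivAt (fun z : Fin 1 → ℂ => z 0)
          (ContinuousLinearMap.proj (R := ℂ) (φ := fun _ : Fin 1 => ℂ) 0) z :=
        (ContinuousLinearMap.proj (R := ℂ) (φ := fun _ : Fin 1 => ℂ) 0).hasFDerivAt
      have e2 : HasDerivAt (et L) (deriv (et L) (z 0)) (z 0) :=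
        (et_diff L (z 0)).hasDerivAt
      have e3 := e2.hasFDerivAt.comp z e1
      have e4 : fderiv ℂ (fun z : Fin 1 → ℂ => et L (z 0)) z = _ := e3.fderiv
      rw [e4]
      simp
    have h5 := et_imm L (z 0) (v 0) c (h4 ▸ h)
    funext i
    have hi : i = 0 := Subsingleton.elim _ _
    subst hi
    exact h5
  · intro f hf
    rw [Set.mem_singleton_iff] at hf
    subst hf
    refine ⟨3, ?_⟩
    have e1 : (X 1 ^ 2 * X 2 : MvPolynomial (Fin 3) k).IsHomogeneous 3 :=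
      ((isHomogeneous_X k (1 : Fin 3)).pow 2).mul (isHomogeneous_X k (2 : Fin 3))
    have e2 : (X 0 ^ 3 : MvPolynomial (Fin 3) k).IsHomogeneous 3 :=
      (isHomogeneous_X k (0 : Fin 3)).pow 3
    have e3 : (C α4 * X 0 * X 2 ^ 2 : MvPolynomial (Fin 3) k).IsHomogeneous 3 :=
      (((isHomogeneous_C (Fin 3) α4).mul (isHomogeneous_X k (0 : Fin 3))).mul
        ((isHomogeneous_X k (2 : Fin 3)).pow 2))
    have e4 : (C α6 * X 2 ^ 3 : MvPolynomial (Fin 3) k).IsHomogeneous 3 := by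
      have := (isHomogeneous_C (Fin 3) α6).mul ((isHomogeneous_X k (2 : Fin 3)).pow 3)
      simpa using this
    exact e1.sub ((e2.add e3).add e4)
  · intro p hp
    constructor
    · intro h
      have h4 := h cub rfl
      rw [hcub] at h4
      obtain ⟨z0, c, hc, h5⟩ := ELT.onC_surj L p hp h4
      obtain ⟨c1, hc1, e1⟩ := et_pc L z0
      refine ⟨fun _ => z0, c / c1, ?_⟩
      funext j
      change p j = c / c1 * et L z0 j
      rw [h5, e1]
      field_simp
    · rintro ⟨z, c, rfl⟩ f hf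
      rw [Set.mem_singleton_iff] at hf
      subst hf
      rw [hcub]
      obtain ⟨c1, hc1, e1⟩ := et_pc L (z 0)
      have h4 : (c • et L (z 0)) = fun j => (c * c1) * ELT.pc L (z 0) j := by
        funext j
        change c * et L (z 0) j = _
        rw [e1]
        ring
      rw [h4]
      exact ELT.onC_smul (ELT.pc_onC L (z 0)) _
  · obtain ⟨c1, hc1, e1⟩ := et_pc L 0
    refine ⟨c1⁻¹, inv_ne_zero hc1, fun j => ?_⟩
    change c1⁻¹ * et L 0 j ∈ k
    rw [e1, inv_mul_cancel_left₀ hc1]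
    rcases el5_pc_two L 0 with ⟨_, a0, a1, a2⟩ | ⟨h, _⟩
    · fin_cases j
      · change ELT.pc L 0 0 ∈ k
        rw [a0]; exact zero_mem k
      · change ELT.pc L 0 1 ∈ k
        rw [a1]; exact one_mem k
      · change ELT.pc L 0 2 ∈ k
        rw [a2]; exact zero_mem k
    · exact absurd L.lattice.zero_mem h
  · intro i z w
    obtain ⟨c, hc, h4⟩ := hla i z w
    obtain ⟨c', h5⟩ := hl2 i (z 0) (w 0)
    obtain ⟨c1, hc1, e1⟩ := et_pc L ((z - w) 0)
    refine ⟨c * c' / c1, fun j => ?_⟩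
    rw [h4, h5, e1]
    change c * (c' * ELT.pc L (z 0 - w 0) j) = c * c' / c1 * (c1 * ELT.pc L (z 0 - w 0) j)
    field_simp
  · intro z w
    obtain ⟨i, j, h5⟩ := hl3 (z 0) (w 0)
    obtain ⟨c, hc, h4⟩ := hla i z w
    refine ⟨i, j, ?_⟩
    rw [h4]
    exact mul_ne_zero hc h5

end GAV
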