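import Pool.Agent.GAV.G1

set_option autoImplicit false

open MvPolynomial LTD

namespace GAV

/-! ## [GAV-EL6] an abelian variety of dimension one is simple (file EL6.lean)

Let `H ≥ Λ` be given by `S`. If every `f ∈ S` vanishes on all `θ z` then `H = ⊤`. Otherwise some `f ∈ S`, homogeneous, with `φ(s) = f(θ (fun _ => s))` entire, not identically `0`; its zeros in a compact set are finite in number (isolated zeros, `AnalyticOnNhd`, `ℂ` connected). Let `z ∈ H`: all `n • z ∈ H`, subtract
lattice vectors so that they lie in the bounded set of `reduce`: infinitely many `n`, finitely many zeros of `φ(s)` there: `n • z - l = n' • z - l'` for some `n > n'`, so `(n - n') • z ∈ Λ`. (Here `z : Fin 1 → ℂ` is a constant function, `s = z 0`.) -/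

theorem el6_diff {N κ : ℕ} {k : IntermediateField ℚ ℂ} (A : AV 1 N κ k)
    (f : MvPolynomial (Fin (N + 1)) ℂ) :
    Differentiable ℂ (fun s : ℂ => aeval (A.θ (fun _ => s)) f) := by
  induction f using MvPolynomial.induction_on with
  | C a =>
    simp only [algHom_C]
    exact differentiable_const _
  | add p q hp hq =>
    simp only [map_add]
    exact hp.add hq
  | mul_X p i hp =>
    simp only [map_mul, aeval_X]
    refine hp.mul ?_
    have h1 : Differentiable ℂ (fun s : ℂ => A.θ (fun _ => s)) :=
      A.diff.comp (differentiable_pi.2 fun _ => differentiable_id)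
    exact differentiable_pi.1 h1 i

theorem el6_zeros (φ : ℂ → ℂ) (hφ : Differentiable ℂ φ) (h0 : ∃ s, φ s ≠ 0) (C : ℝ) :
    {s : ℂ | s ∈ Metric.closedBall (0 : ℂ) C ∧ φ s = 0}.Finite := by
  by_contra hinf
  obtain ⟨x, -, hx⟩ := Set.Infinite.exists_accPt_of_subset_isCompact hinf
    (isCompact_closedBall (0 : ℂ) C) (fun s hs => hs.1)
  have hfr : ∃ᶠ y in nhdsWithin x {x}ᶜ, φ y = 0 := by
    rw [frequently_nhdsWithin_iff]
    rw [accPt_iff_frequently] at hx
    exact hx.mono fun y hy => ⟨hy.2.2, hy.1⟩
  have han : AnalyticOnNhd ℂ φ Set.univ := fun y _ => hφ.analyticAt y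
  have h1 := han.eqOn_zero_of_preconnected_of_frequently_eq_zero isPreconnected_univ
    (Set.mem_univ x) hfr
  obtain ⟨s, hs⟩ := h0
  exact hs (h1 (Set.mem_univ s))

theorem simple_one {N κ : ℕ} {k : IntermediateField ℚ ℂ} (A : AV 1 N κ k) : A.Simple := by
  intro H S hΛ _ hH
  by_cases hall : ∀ f ∈ S, ∀ z, aeval (A.θ z) f = 0
  · left
    rw [eq_top_iff]
    intro z _
    exact (hH z).2 fun f hf => hall f hf z
  · right
    push Not at hall
    obtain ⟨f, hf, z0, hz0⟩ := hall
    have hconst : ∀ z : Fin 1 → ℂ, (fun _ => z 0) = z := by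
      intro z
      funext i
      rw [Subsingleton.elim i 0]
    obtain ⟨C, hC1, hred⟩ := reduce A
    have hfin := el6_zeros (fun s : ℂ => aeval (A.θ (fun _ => s)) f) (el6_diff A f)
      ⟨z0 0, by
        show aeval (A.θ (fun _ => z0 0)) f ≠ 0
        rw [hconst z0]; exact hz0⟩ C
    intro z hz
    choose l hl hlC using fun n : ℕ => hred (n • z)
    have hmem : ∀ n : ℕ, (n • z - l n) 0 ∈ {s : ℂ | s ∈ Metric.closedBall (0 : ℂ) C ∧
        aeval (A.θ (fun _ => s)) f = 0} := by
      intro n
      refine ⟨?_, ?_⟩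
      · rw [mem_closedBall_zero_iff]
        exact (norm_le_pi_norm _ 0).trans (hlC n)
      · show aeval (A.θ (fun _ => (n • z - l n) 0)) f = 0
        rw [hconst (n • z - l n)]
        exact (hH _).1 (H.sub_mem (H.nsmul_mem hz n) (hΛ (hl n))) f hf
    have := hfin.to_subtype
    obtain ⟨n, n', hne, heq⟩ := Finite.exists_ne_map_eq_of_infinite
      (fun n : ℕ => (⟨(n • z - l n) 0, hmem n⟩ : {s : ℂ | s ∈ Metric.closedBall (0 : ℂ) C ∧
        aeval (A.θ (fun _ => s)) f = 0}))
    have heq' : n • z - l n = n' • z - l n' := by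
      rw [← hconst (n • z - l n), ← hconst (n' • z - l n')]
      funext _
      exact congrArg Subtype.val heq
    have key : ∀ a b : ℕ, b < a → a • z - l a = b • z - l b → ∃ m : ℕ, 0 < m ∧ m • z ∈ A.Λ := by
      intro a b hab he
      refine ⟨a - b, by omega, ?_⟩
      have h1 : (a - b) • z = l a - l b := by
        have h2 : a • z = (a - b) • z + b • z := by
          rw [← add_smul]
          congr 1
          omega
        have h3 : (a - b) • z = a • z - b • z := by rw [h2]; abel
        rw [h3]
        have h4 : a • z = b • z - l b + l a := by rw [← he]; abel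
        rw [h4]
        abel
      rw [h1]
      exact A.Λ.sub_mem (hl a) (hl b)
    rcases lt_or_gt_of_ne hne with h | h
    · exact key n' n h heq'.symm
    · exact key n n' h heq'

end GAV
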