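import Pool.Agent.GAV.G1

set_option autoImplicit false

open MvPolynomial LTD

namespace GAV

variable {g N κ : ℕ} {k : IntermediateField ℚ ℂ}

/-! ## [GAV-G3] the subtraction laws: homogeneity and lower bound (file G3.lean)

`law_smul`: from `A.law_hom`: `aeval` of a polynomial is the sum over its support of `coeff · ∏ (value)^(exponent)` (`MvPolynomial.aeval_def, eval₂_eq`/`eval₂_eq'`), every monomial gets the factor `a^κ b^κ` (product over the sum type: `Fintype.prod_sum_type`).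
`law_bd`: for `z` use `reduce`: `z = z₀ + l`, `‖z₀‖ ≤ C`, `θ z = c θ z₀`, `c ≠ 0`; the inequality for `(z, w)` follows from that for `(z₀, w₀)` by `law_smul` and `‖c • v‖ = |c|‖v‖` (both sides get the factor `|c|^κ |c'|^κ`). On the compact set `closedBall 0 C ×ˢ closedBall 0 C` the function
`(z, w) ↦ ∑ i, ‖(aeval (θ z, θ w) (law i j))_j‖` is continuous (`θ` continuous; polynomials are continuous: `MvPolynomial.continuous_aeval`-like, or `aeval_def`, `eval₂_eq'` and `continuity`) and positive (`A.law_ne`), so `≥ c₀ > 0`; `‖θ z‖^κ‖θ w‖^κ ≤ M` there. So some `i` has norm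
`≥ c₀/(n) ≥ (c₀/(n M)) ‖θ z‖^κ ‖θ w‖^κ` (`n = A.n ≥ 1` by `law_ne 0 0`). -/

theorem law_smul (A : AV g N κ k) (a b : ℂ) (p q : Fin (N + 1) → ℂ) (i : Fin A.n)
    (j : Fin (N + 1)) : aeval (Sum.elim (a • p) (b • q)) (A.law i j) =
      a ^ κ * b ^ κ * aeval (Sum.elim p q) (A.law i j) := by
  rw [aeval_def, aeval_def, eval₂_eq', eval₂_eq', Finset.mul_sum]
  refine Finset.sum_congr rfl (fun m hm => ?_)
  obtain ⟨h1, h2⟩ := A.law_hom i j m hm
  rw [Fintype.prod_sum_type, Fintype.prod_sum_type]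
  have h3 : ∏ l, (Sum.elim (a • p) (b • q) (Sum.inl l)) ^ m (Sum.inl l) =
      a ^ κ * ∏ l, (Sum.elim p q (Sum.inl l)) ^ m (Sum.inl l) := by
    rw [← h1, ← Finset.prod_pow_eq_pow_sum, ← Finset.prod_mul_distrib]
    refine Finset.prod_congr rfl (fun l _ => ?_)
    rw [Sum.elim_inl, Sum.elim_inl, Pi.smul_apply, smul_eq_mul, mul_pow]
  have h4 : ∏ l, (Sum.elim (a • p) (b • q) (Sum.inr l)) ^ m (Sum.inr l) =
      b ^ κ * ∏ l, (Sum.elim p q (Sum.inr l)) ^ m (Sum.inr l) := by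
    rw [← h2, ← Finset.prod_pow_eq_pow_sum, ← Finset.prod_mul_distrib]
    refine Finset.prod_congr rfl (fun l _ => ?_)
    rw [Sum.elim_inr, Sum.elim_inr, Pi.smul_apply, smul_eq_mul, mul_pow]
  rw [h3, h4]
  ring

/-- the vector of values of the `i`-th law -/
noncomputable def g3_V (A : AV g N κ k) (i : Fin A.n) (p : (Fin g → ℂ) × (Fin g → ℂ)) :
    Fin (N + 1) → ℂ :=
  fun j => aeval (Sum.elim (A.θ p.1) (A.θ p.2)) (A.law i j)

theorem g3_cont (A : AV g N κ k) (i : Fin A.n) : Continuous (g3_V A i) := by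
  refine continuous_pi (fun j => ?_)
  have hθ : Continuous A.θ := A.diff.continuous
  have h1 : ∀ l : Fin (N + 1), Continuous (fun p : (Fin g → ℂ) × (Fin g → ℂ) => A.θ p.1 l) :=
    fun l => (continuous_apply l).comp (hθ.comp continuous_fst)
  have h2 : ∀ l : Fin (N + 1), Continuous (fun p : (Fin g → ℂ) × (Fin g → ℂ) => A.θ p.2 l) :=
    fun l => (continuous_apply l).comp (hθ.comp continuous_snd)
  have h3 : (fun p : (Fin g → ℂ) × (Fin g → ℂ) => g3_V A i p j) = fun p =>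
      ∑ m ∈ (A.law i j).support, algebraMap k ℂ ((A.law i j).coeff m) *
        ∏ l, (Sum.elim (A.θ p.1) (A.θ p.2) l) ^ m l := by
    funext p
    unfold g3_V
    rw [aeval_def, eval₂_eq']
  rw [h3]
  refine continuous_finsetSum _ (fun m _ => continuous_const.mul ?_)
  refine continuous_finsetProd _ (fun l _ => ?_)
  rcases l with l | l
  · exact (h1 l).pow _
  · exact (h2 l).pow _

theorem law_bd (A : AV g N κ k) : ∃ c : ℝ, 0 < c ∧ ∀ z w : Fin g → ℂ, ∃ i,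
    c * ‖A.θ z‖ ^ κ * ‖A.θ w‖ ^ κ ≤
      ‖(fun j => aeval (Sum.elim (A.θ z) (A.θ w)) (A.law i j) : Fin (N + 1) → ℂ)‖ := by
  obtain ⟨C, hC, hred⟩ := reduce A
  have hn : 0 < A.n := by
    obtain ⟨i, _, _⟩ := A.law_ne 0 0
    exact i.pos
  have hnR : (0 : ℝ) < A.n := Nat.cast_pos.2 hn
  have hnn : (Finset.univ : Finset (Fin A.n)).Nonempty := ⟨⟨0, hn⟩, Finset.mem_univ _⟩
  obtain ⟨Φ, hΦ⟩ : ∃ Φ : (Fin g → ℂ) × (Fin g → ℂ) → ℝ, ∀ p, Φ p = ∑ i, ‖g3_V A i p‖ :=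
    ⟨_, fun _ => rfl⟩
  obtain ⟨Ψ, hΨ⟩ : ∃ Ψ : (Fin g → ℂ) × (Fin g → ℂ) → ℝ, ∀ p, Ψ p = ‖A.θ p.1‖ ^ κ * ‖A.θ p.2‖ ^ κ :=
    ⟨_, fun _ => rfl⟩
  have hθ : Continuous A.θ := A.diff.continuous
  have cΦ : Continuous Φ := by
    rw [show Φ = fun p => ∑ i, ‖g3_V A i p‖ from funext hΦ]
    exact continuous_finsetSum _ (fun i _ => (g3_cont A i).norm)
  have cΨ : Continuous Ψ := by
    rw [show Ψ = fun p => ‖A.θ p.1‖ ^ κ * ‖A.θ p.2‖ ^ κ from funext hΨ]
    exact ((hθ.comp continuous_fst).norm.pow _).mul ((hθ.comp continuous_snd).norm.pow _)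
  have hK : IsCompact (Metric.closedBall (0 : Fin g → ℂ) C ×ˢ Metric.closedBall (0 : Fin g → ℂ) C) :=
    (isCompact_closedBall 0 C).prod (isCompact_closedBall 0 C)
  have hKn : (Metric.closedBall (0 : Fin g → ℂ) C ×ˢ Metric.closedBall (0 : Fin g → ℂ) C).Nonempty :=
    ⟨(0, 0), Set.mk_mem_prod (Metric.mem_closedBall_self (by linarith))
      (Metric.mem_closedBall_self (by linarith))⟩
  obtain ⟨p0, _, hp0⟩ := hK.exists_isMinOn hKn cΦ.continuousOn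
  obtain ⟨p1, _, hp1⟩ := hK.exists_isMaxOn hKn cΨ.continuousOn
  have hpos : 0 < Φ p0 := by
    obtain ⟨i, j, hij⟩ := A.law_ne p0.1 p0.2
    rw [hΦ]
    refine Finset.sum_pos' (fun i _ => norm_nonneg _) ⟨i, Finset.mem_univ i, ?_⟩
    refine lt_of_lt_of_le (norm_pos_iff.2 hij) ?_
    exact norm_le_pi_norm (g3_V A i p0) j
  have hΨ0 : 0 ≤ Ψ p1 := by
    rw [hΨ]
    positivity
  refine ⟨Φ p0 / (A.n * (Ψ p1 + 1)), by positivity, fun z w => ?_⟩
  obtain ⟨l, hl, hlz⟩ := hred z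
  obtain ⟨l', hl', hlw⟩ := hred w
  obtain ⟨c1, hc1, h1⟩ := theta_lat A l hl (z - l)
  obtain ⟨c2, hc2, h2⟩ := theta_lat A l' hl' (w - l')
  rw [sub_add_cancel] at h1 h2
  have hmem : (z - l, w - l') ∈
      Metric.closedBall (0 : Fin g → ℂ) C ×ˢ Metric.closedBall (0 : Fin g → ℂ) C := by
    refine Set.mk_mem_prod ?_ ?_
    · rw [mem_closedBall_zero_iff]
      exact hlz
    · rw [mem_closedBall_zero_iff]
      exact hlw
  have hmin : Φ p0 ≤ Φ (z - l, w - l') := hp0 hmem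
  have hmax : Ψ (z - l, w - l') ≤ Ψ p1 := hp1 hmem
  obtain ⟨i, _, hi⟩ : ∃ i ∈ (Finset.univ : Finset (Fin A.n)),
      Φ (z - l, w - l') / A.n ≤ ‖g3_V A i (z - l, w - l')‖ := by
    refine Finset.exists_le_of_sum_le hnn ?_
    rw [Finset.sum_const, Finset.card_univ, Fintype.card_fin, nsmul_eq_mul,
      mul_div_cancel₀ _ hnR.ne', hΦ]
  refine ⟨i, ?_⟩
  have hV : (fun j => aeval (Sum.elim (A.θ z) (A.θ w)) (A.law i j) : Fin (N + 1) → ℂ) =
      (c1 ^ κ * c2 ^ κ) • g3_V A i (z - l, w - l') := by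
    funext j
    rw [h1, h2, law_smul, Pi.smul_apply, smul_eq_mul]
    rfl
  rw [hV, norm_smul, norm_mul, norm_pow, norm_pow, h1, h2, norm_smul, norm_smul]
  have h3 : Φ p0 / (A.n * (Ψ p1 + 1)) * (‖c1‖ * ‖A.θ (z - l)‖) ^ κ * (‖c2‖ * ‖A.θ (w - l')‖) ^ κ =
      ‖c1‖ ^ κ * ‖c2‖ ^ κ * (Φ p0 / (A.n * (Ψ p1 + 1)) * Ψ (z - l, w - l')) := by
    rw [hΨ (z - l, w - l')]
    ring
  rw [h3]
  refine mul_le_mul_of_nonneg_left ?_ (by positivity)
  calc Φ p0 / (A.n * (Ψ p1 + 1)) * Ψ (z - l, w - l')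
      ≤ Φ p0 / (A.n * (Ψ p1 + 1)) * (Ψ p1 + 1) :=
        mul_le_mul_of_nonneg_left (by linarith) (by positivity)
    _ = Φ p0 / A.n := by
        have h5 : Ψ p1 + 1 ≠ 0 := by positivity
        field_simp
    _ ≤ Φ (z - l, w - l') / A.n := div_le_div_of_nonneg_right hmin hnR.le
    _ ≤ _ := hi

end GAV
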