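import Pool.Agent.GAV.G1
import Pool.Agent.ELT.P1

set_option autoImplicit false

open MvPolynomial LTD

namespace GAV

variable {g N κ : ℕ} {k : IntermediateField ℚ ℂ}

/-! ## [GAV-P1] the normalised form `Nf` (file P1.lean)

`lf_lat`: from `theta_lat`: `lf` is linear in the theta functions. `Pf_eq_Nf`: `Pf (c_i lf(z_i)) = (∏ c_i)^{D-1} Pf(lf(z_i))` (`ELT.Pf_smul`), `‖Pf(lf z)‖ = Nf · ∏‖θ(z_i)‖^{D-1}` (`θ ≠ 0`). `Nf_lat`: numerator and denominator get the same factor `∏|c_i|^{D-1}` (`theta_lat` for every `i`).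
`lf_le`: finite sum. -/

theorem Nf_nonneg (A : AV g N κ k) (lam : Fin 2 → Fin (N + 1) → ℂ) (d D : ℕ)
    (p : (Fin d → Fin D) → ℤ) (z : Fin d → Fin g → ℂ) : 0 ≤ Nf A lam d D p z := by
  exact div_nonneg (norm_nonneg _) (Finset.prod_nonneg fun _ _ => pow_nonneg (norm_nonneg _) _)

theorem Pf_eq_Nf (A : AV g N κ k) (lam : Fin 2 → Fin (N + 1) → ℂ) (d D : ℕ)
    (p : (Fin d → Fin D) → ℤ) (z : Fin d → Fin g → ℂ) (c : Fin d → ℂ) (q : Fin d → Fin 2 → ℂ)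
    (hq : ∀ i j, q i j = c i * lf A lam (z i) j) :
    ‖ELT.Pf d D (fun l => (p l : ℂ)) q‖ =
      Nf A lam d D p z * ∏ i, (‖c i‖ * ‖A.θ (z i)‖) ^ (D - 1) := by
  have hq' : q = fun i j => c i * lf A lam (z i) j := by
    funext i j
    exact hq i j
  have hpos : 0 < ∏ i, ‖A.θ (z i)‖ ^ (D - 1) :=
    Finset.prod_pos fun i _ => pow_pos (norm_pos_iff.2 (A.ne (z i))) _
  have h1 : ‖ELT.Pf d D (fun l => (p l : ℂ)) q‖ =
      (∏ i, ‖c i‖ ^ (D - 1)) * ‖ELT.Pf d D (fun l => (p l : ℂ)) fun i => lf A lam (z i)‖ := by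
    rw [hq', ELT.Pf_smul, norm_mul, norm_pow, norm_prod, Finset.prod_pow]
  have h2 : ∏ i, (‖c i‖ * ‖A.θ (z i)‖) ^ (D - 1) =
      (∏ i, ‖c i‖ ^ (D - 1)) * ∏ i, ‖A.θ (z i)‖ ^ (D - 1) := by
    rw [← Finset.prod_mul_distrib]
    refine Finset.prod_congr rfl fun i _ => ?_
    rw [mul_pow]
  rw [h1, h2]
  unfold Nf
  field_simp

theorem Nf_lat (A : AV g N κ k) (lam : Fin 2 → Fin (N + 1) → ℂ) (d D : ℕ)
    (p : (Fin d → Fin D) → ℤ) (z l : Fin d → Fin g → ℂ) (hl : ∀ i, l i ∈ A.Λ) :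
    Nf A lam d D p (fun i => z i + l i) = Nf A lam d D p z := by
  have h := fun i => theta_lat A (l i) (hl i) (z i)
  choose c hc0 hc using h
  have hlf : ∀ i j, lf A lam (z i + l i) j = c i * lf A lam (z i) j := by
    intro i j
    unfold lf
    rw [hc i, Finset.mul_sum]
    refine Finset.sum_congr rfl fun m _ => ?_
    rw [Pi.smul_apply, smul_eq_mul]
    ring
  have h1 := Pf_eq_Nf A lam d D p z c (fun i => lf A lam (z i + l i)) hlf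
  have hpos : 0 < ∏ i, (‖c i‖ * ‖A.θ (z i)‖) ^ (D - 1) :=
    Finset.prod_pos fun i _ => pow_pos
      (mul_pos (norm_pos_iff.2 (hc0 i)) (norm_pos_iff.2 (A.ne (z i)))) _
  have h2 : ∏ i, ‖A.θ (z i + l i)‖ ^ (D - 1) = ∏ i, (‖c i‖ * ‖A.θ (z i)‖) ^ (D - 1) := by
    refine Finset.prod_congr rfl fun i _ => ?_
    rw [hc i, norm_smul]
  have h3 : Nf A lam d D p (fun i => z i + l i) =
      ‖ELT.Pf d D (fun l => (p l : ℂ)) fun i => lf A lam (z i + l i)‖ /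
        ∏ i, ‖A.θ (z i + l i)‖ ^ (D - 1) := rfl
  rw [h3, h1, h2, mul_div_cancel_right₀ _ hpos.ne']

theorem lf_le (A : AV g N κ k) (lam : Fin 2 → Fin (N + 1) → ℂ) : ∃ C : ℝ, 1 ≤ C ∧
    ∀ z, ‖lf A lam z‖ ≤ C * ‖A.θ z‖ := by
  have hS : 0 ≤ ∑ i, ∑ j, ‖lam i j‖ :=
    Finset.sum_nonneg fun i _ => Finset.sum_nonneg fun j _ => norm_nonneg _
  refine ⟨1 + ∑ i, ∑ j, ‖lam i j‖, by linarith, fun z => ?_⟩
  have hθ : 0 ≤ ‖A.θ z‖ := norm_nonneg _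
  rw [pi_norm_le_iff_of_nonneg (by positivity)]
  intro i
  calc ‖lf A lam z i‖ ≤ ∑ j, ‖lam i j * A.θ z j‖ := norm_sum_le _ _
    _ ≤ ∑ j, ‖lam i j‖ * ‖A.θ z‖ := by
        refine Finset.sum_le_sum fun j _ => ?_
        rw [norm_mul]
        exact mul_le_mul_of_nonneg_left (norm_le_pi_norm (A.θ z) j) (norm_nonneg _)
    _ = (∑ j, ‖lam i j‖) * ‖A.θ z‖ := by rw [Finset.sum_mul]
    _ ≤ (1 + ∑ i, ∑ j, ‖lam i j‖) * ‖A.θ z‖ := by
        refine mul_le_mul_of_nonneg_right ?_ hθ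
        have h1 : ∑ j, ‖lam i j‖ ≤ ∑ i, ∑ j, ‖lam i j‖ :=
          Finset.single_le_sum (f := fun i => ∑ j, ‖lam i j‖)
            (fun i _ => Finset.sum_nonneg fun j _ => norm_nonneg _) (Finset.mem_univ i)
        linarith

end GAV
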