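import Pool.Agent.GAV.P1
import Pool.Agent.GAV.G2
import Pool.Agent.ELT.A4
import Pool.Agent.ELT.A5

set_option autoImplicit false

open MvPolynomial LTD

namespace GAV

variable {g N κ : ℕ} {k : IntermediateField ℚ ℂ}

/-! ## [GAV-P2] the Schwarz lemma for `Nf` (file P2.lean)

PORT of `ELT/A5.lean` (simpler: the coordinates are entire). `F w = Pf d D p (fun i => lf A lam (w • x i))`, entire. `R = 13 ρ`. For `‖w‖ ≤ R`: `‖w • x_i‖ ≤ X R`, `e^{-C(1+XR)²} ≤ ‖θ(w • x_i)‖ ≤ e^{C(1+XR)²}` (`growth`), `‖F w‖ = Nf · ∏‖θ‖^{D-1}` (`Pf_eq_Nf` with `c = 1`),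
`e^{-G} ≤ ∏‖θ‖^{D-1} ≤ e^{G}`, and `‖F w‖ ≤ D^d H ∏‖lf‖^{D-1} ≤ D^d H (C_l)^{dD} e^{G'}` (`ELT.Pf_le`, `lf_le`, `C_l ≤ e^{C_l}`), `G = C d D (1 + 13Xρ)³` with `C` large (`(1+t)² ≤ (1+t)³`). `ELT.schwarz_disc` with `R' = 2R`, `B = D^d H e^G`, `ε e^G` in place of `ε`. -/

theorem p2_prod (d D : ℕ) (a : Fin d → ℝ) (v G : ℝ) (hv : 0 ≤ v) (hG : v * (d * D) ≤ G)
    (h0 : ∀ i, 0 ≤ a i) (ha : ∀ i, a i ≤ Real.exp v) :
    ∏ i, a i ^ (D - 1) ≤ Real.exp G := by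
  have hd : (0 : ℝ) ≤ d := Nat.cast_nonneg d
  have hD : ((D - 1 : ℕ) : ℝ) ≤ D := by
    exact_mod_cast Nat.sub_le D 1
  have hle : (d : ℝ) * (((D - 1 : ℕ) : ℝ) * v) ≤ G := by
    refine le_trans ?_ hG
    have h1 : (d : ℝ) * (((D - 1 : ℕ) : ℝ) * v) ≤ d * (D * v) :=
      mul_le_mul_of_nonneg_left (mul_le_mul_of_nonneg_right hD hv) hd
    linarith
  calc ∏ i, a i ^ (D - 1) ≤ ∏ _i : Fin d, Real.exp v ^ (D - 1) := by
        refine Finset.prod_le_prod (fun i _ => ?_) fun i _ => ?_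
        · exact pow_nonneg (h0 i) _
        · exact pow_le_pow_left₀ (h0 i) (ha i) _
    _ = Real.exp ((d : ℝ) * (((D - 1 : ℕ) : ℝ) * v)) := by
        rw [Finset.prod_const, Finset.card_univ, Fintype.card_fin, ← Real.exp_nat_mul,
          ← Real.exp_nat_mul]
    _ ≤ Real.exp G := Real.exp_le_exp.mpr hle

theorem p2_diff (A : AV g N κ k) (lam : Fin 2 → Fin (N + 1) → ℂ) (x : Fin g → ℂ) (i : Fin 2) :
    Differentiable ℂ (fun w : ℂ => lf A lam (w • x) i) := by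
  have h1 : Differentiable ℂ (fun w : ℂ => A.θ (w • x)) :=
    A.diff.comp (differentiable_id.smul_const x)
  have h2 : ∀ j, Differentiable ℂ (fun w : ℂ => A.θ (w • x) j) := differentiable_pi.1 h1
  unfold lf
  exact Differentiable.fun_sum fun j _ => (h2 j).const_mul _

theorem nf_schwarz (A : AV g N κ k) (lam : Fin 2 → Fin (N + 1) → ℂ) : ∃ C : ℝ, 1 ≤ C ∧
    ∀ (d D : ℕ), 1 ≤ D → ∀ (p : (Fin d → Fin D) → ℤ) (x : Fin d → Fin g → ℂ)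
      (X H ρ δ ε G : ℝ) (T : Finset ℂ), 1 ≤ X →
      (∀ i, ‖x i‖ ≤ X) → 0 ≤ H → (∀ l, |((p l : ℤ) : ℝ)| ≤ H) → 1 ≤ ρ → 0 < δ → δ ≤ 26 * ρ →
      0 ≤ ε → (∀ a ∈ T, ‖a‖ ≤ ρ) → (∀ a ∈ T, ∀ b ∈ T, a ≠ b → δ ≤ ‖a - b‖) →
      (∀ a ∈ T, Nf A lam d D p (fun i => a • x i) ≤ ε) →
      G = C * d * D * (1 + 13 * X * ρ) ^ 3 → ∀ w : ℂ, ‖w‖ ≤ ρ →
        Nf A lam d D p (fun i => w • x i) ≤ Real.exp G *
          (2 * T.card * (ε * Real.exp G) * (26 * ρ / δ) ^ T.card +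
            ((6 : ℝ)⁻¹) ^ T.card * ((D : ℝ) ^ d * H * Real.exp G)) := by
  obtain ⟨C0, hC0, hgr⟩ := growth A
  obtain ⟨Cl, hCl, hlf⟩ := lf_le A lam
  refine ⟨C0 + Cl, by linarith, ?_⟩
  intro d D hD p x X H ρ δ ε G T hX hx hH hp hρ hδ hδρ hε hTρ hTδ hTε hG w hw
  have hR1 : 1 ≤ 13 * X * ρ := by nlinarith
  obtain ⟨v, hv⟩ : ∃ v : ℝ, v = (C0 + Cl) * (1 + 13 * X * ρ) ^ 3 := ⟨_, rfl⟩
  have hv0 : 0 ≤ v := by
    rw [hv]
    positivity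
  have hGg : v * (d * D) ≤ G := by
    rw [hG, hv]
    apply le_of_eq
    ring
  obtain ⟨F, hFdef⟩ : ∃ F : ℂ → ℂ, F = fun w => ELT.Pf d D (fun l => (p l : ℂ))
    (fun i => lf A lam (w • x i)) := ⟨_, rfl⟩
  have hxw : ∀ i (b : ℂ), ‖b‖ ≤ 13 * ρ → ‖b • x i‖ ≤ 13 * X * ρ := by
    intro i b hb
    rw [norm_smul]
    calc ‖b‖ * ‖x i‖ ≤ 13 * ρ * X := mul_le_mul hb (hx i) (norm_nonneg _) (by linarith)
      _ = 13 * X * ρ := by ring
  have hpow : (1 : ℝ) ≤ (1 + 13 * X * ρ) ^ 3 := one_le_pow₀ (by linarith)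
  have hθ : ∀ z : Fin g → ℂ, ‖z‖ ≤ 13 * X * ρ →
      Real.exp (-v) ≤ ‖A.θ z‖ ∧ ‖A.θ z‖ ≤ Real.exp v ∧ ‖lf A lam z‖ ≤ Real.exp v := by
    intro z hz
    obtain ⟨h1, h2⟩ := hgr z
    have hz0 := norm_nonneg z
    have h3 : (1 + ‖z‖) ^ 2 ≤ (1 + 13 * X * ρ) ^ 3 := by
      calc (1 + ‖z‖) ^ 2 ≤ (1 + 13 * X * ρ) ^ 2 := pow_le_pow_left₀ (by linarith) (by linarith) 2
        _ ≤ (1 + 13 * X * ρ) ^ 3 := pow_le_pow_right₀ (by linarith) (by norm_num)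
    have h4 : C0 * (1 + ‖z‖) ^ 2 ≤ C0 * (1 + 13 * X * ρ) ^ 3 :=
      mul_le_mul_of_nonneg_left h3 (by linarith)
    have h5 : Cl ≤ Cl * (1 + 13 * X * ρ) ^ 3 := le_mul_of_one_le_right (by linarith) hpow
    have h6 : v = C0 * (1 + 13 * X * ρ) ^ 3 + Cl * (1 + 13 * X * ρ) ^ 3 := by
      rw [hv]
      ring
    have h7 : 0 ≤ Cl * (1 + 13 * X * ρ) ^ 3 := by positivity
    refine ⟨le_trans (Real.exp_le_exp.2 (by linarith)) h1,
      h2.trans (Real.exp_le_exp.2 (by linarith)), ?_⟩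
    calc ‖lf A lam z‖ ≤ Cl * ‖A.θ z‖ := hlf z
      _ ≤ Real.exp Cl * Real.exp (C0 * (1 + ‖z‖) ^ 2) := by
          refine mul_le_mul ?_ h2 (norm_nonneg _) (Real.exp_pos _).le
          have := Real.add_one_le_exp Cl
          linarith
      _ = Real.exp (Cl + C0 * (1 + ‖z‖) ^ 2) := (Real.exp_add _ _).symm
      _ ≤ Real.exp v := Real.exp_le_exp.2 (by linarith)
  -- the product of the norms
  have hP : ∀ b : ℂ, ‖b‖ ≤ 13 * ρ → Real.exp (-G) ≤ ∏ i, ‖A.θ (b • x i)‖ ^ (D - 1) ∧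
      ∏ i, ‖A.θ (b • x i)‖ ^ (D - 1) ≤ Real.exp G := by
    intro b hb
    refine ELT.a5_prod d D (fun i => ‖A.θ (b • x i)‖) v G hv0 hGg fun i => ?_
    have h1 := hθ (b • x i) (hxw i b hb)
    exact ⟨h1.1, h1.2.1⟩
  have hNf : ∀ b : ℂ, ‖F b‖ = Nf A lam d D p (fun i => b • x i) *
      ∏ i, ‖A.θ (b • x i)‖ ^ (D - 1) := by
    intro b
    have h1 := Pf_eq_Nf A lam d D p (fun i => b • x i) (fun _ => 1) (fun i => lf A lam (b • x i))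
      (fun i j => (one_mul _).symm)
    rw [hFdef]
    simp only [norm_one, one_mul] at h1
    exact h1
  have hFB : ∀ b : ℂ, ‖b‖ ≤ 13 * ρ → ‖F b‖ ≤ (D : ℝ) ^ d * H * Real.exp G := by
    intro b hb
    rw [hFdef]
    refine (ELT.Pf_le d D (fun l => (p l : ℂ)) H (fun l => ?_) (fun i => lf A lam (b • x i))).trans ?_
    · have h1 := hp l
      rw [Complex.norm_intCast]
      exact h1
    · refine mul_le_mul_of_nonneg_left ?_ (by positivity)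
      exact p2_prod d D (fun i => ‖lf A lam (b • x i)‖) v G hv0 hGg (fun i => norm_nonneg _)
        (fun i => (hθ (b • x i) (hxw i b hb)).2.2)
  have hFT : ∀ a ∈ T, ‖F a‖ ≤ ε * Real.exp G := by
    intro a ha
    have h1 : ‖a‖ ≤ 13 * ρ := (hTρ a ha).trans (by linarith)
    rw [hNf a]
    exact mul_le_mul (hTε a ha) (hP a h1).2
      (le_trans (Real.exp_pos _).le (hP a h1).1) hε
  have hFd : DifferentiableOn ℂ F (Metric.ball 0 (2 * (13 * ρ))) := by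
    rw [hFdef]
    exact ELT.a5_diff d D _ (fun w i => lf A lam (w • x i)) _
      fun i j => (p2_diff A lam (x i) j).differentiableOn
  have hmain := ELT.schwarz_disc F T ρ (13 * ρ) (2 * (13 * ρ)) ((D : ℝ) ^ d * H * Real.exp G)
    (ε * Real.exp G) δ hFd (by linarith) (by linarith) le_rfl hδ (by linarith) (by positivity)
    hTρ hTδ hFT hFB w hw
  have hw13 : ‖w‖ ≤ 13 * ρ := by linarith
  have h1 := hNf w
  have h2 := (hP w hw13).1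
  have h3 := Nf_nonneg A lam d D p (fun i => w • x i)
  have h4 : Nf A lam d D p (fun i => w • x i) * Real.exp (-G) ≤ ‖F w‖ := by
    rw [h1]
    exact mul_le_mul_of_nonneg_left h2 h3
  have h5 : Nf A lam d D p (fun i => w • x i) ≤ Real.exp G * ‖F w‖ := by
    have h6 := mul_le_mul_of_nonneg_left h4 (Real.exp_pos G).le
    rw [mul_left_comm, ← Real.exp_add, add_neg_cancel, Real.exp_zero, mul_one] at h6
    exact h6
  refine h5.trans (mul_le_mul_of_nonneg_left ?_ (Real.exp_pos G).le)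
  rw [show 2 * (13 * ρ) = 26 * ρ by ring] at hmain
  exact hmain

end GAV
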