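import Pool.Agent.GAV.G3
import Pool.Agent.ELT.W6
import Pool.Agent.LTD.Ev

set_option autoImplicit false

open MvPolynomial LTD

namespace GAV

variable {g N κ : ℕ} {k : IntermediateField ℚ ℂ}

/-- The index set of the coefficients of the subtraction laws. -/
abbrev Cf (A : AV g N κ k) : Type :=
  Fin A.n × Fin (N + 1) × ((Fin (N + 1) ⊕ Fin (N + 1)) → Fin (κ + 1))

/-- The coefficients of the subtraction laws. -/
noncomputable def cval (A : AV g N κ k) (x : Cf A) : ℂ :=
  ((coeff (Finsupp.equivFunOnFinite.symm fun l => ((x.2.2 l : ℕ) : ℕ)) (A.law x.1 x.2.1) : k) : ℂ)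

open Classical in
/-- The subtraction law with variables in place of its coefficients. -/
noncomputable def lawP {ι : Type} (A : AV g N κ k) (cf : Cf A → ι)
    (P Q : Fin (N + 1) → MvPolynomial ι ℤ) (i : Fin A.n) (j : Fin (N + 1)) : MvPolynomial ι ℤ :=
  ∑ e : (Fin (N + 1) ⊕ Fin (N + 1)) → Fin (κ + 1),
    if (∑ l, (e (Sum.inl l) : ℕ) = κ ∧ ∑ l, (e (Sum.inr l) : ℕ) = κ) then
      X (cf (i, j, e)) * ((∏ l, P l ^ (e (Sum.inl l) : ℕ)) * ∏ l, Q l ^ (e (Sum.inr l) : ℕ)) else 0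

/-! ## [GAV-R1] size and value of the subtraction laws with variable coefficients (file R1.lean)

`lawP_sz`: every product `∏ P_l^{e_l} ∏ Q_l^{e_l}` has size `≤ κδ + κδ'` (`ELT.sz_mul`, sizes add up; `Sz 1 0`: `len 1 = 1`; powers by induction), the variable has size `1` (degree `1`, length `1 ≤ e`); so every term has degree `≤ 1 + κδ + κδ'` and length `≤ e^{κδ+κδ'}`, and there are `(κ+1)^{2N+2} ≤ e^{κ(2N+2)}` terms
(`κ + 1 ≤ e^κ`), `len` is subadditive (`LTD.len_add`, see the proof of `ELT.phi_sz`/`ELT.sz_law`).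
`lawP_ev`: `ev u` is a ring homomorphism: `ev u (lawP ..) = ∑ e, [bidegree (κ, κ)] cval(i,j,e) ∏ p_l^{e(inl l)} ∏ q_l^{e(inr l)}`. And `aeval (Sum.elim p q) (A.law i j) = ∑_{m ∈ support} coeff m ∏ (..)^{m l}`; by `A.law_hom` the monomials of the support have `∑_l m(inl l) = κ = ∑_l m(inr l)`, in particular all
exponents are `≤ κ`, so they correspond exactly to functions `e` with values `< κ + 1` and the bidegree condition; functions `e` whose monomial is not in the support have coefficient `0`. (`Finset.sum_bij` or `Finset.sum_nbij'`, injectivity of `Finsupp.equivFunOnFinite.symm`.) -/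

private def r1_B {ι : Type} (P : MvPolynomial ι ℤ) (d l : ℝ) : Prop :=
  (P.totalDegree : ℝ) ≤ d ∧ len P ≤ l

private theorem r1_mono {ι : Type} {P : MvPolynomial ι ℤ} {d l d' l' : ℝ} (h : r1_B P d l)
    (hd : d ≤ d') (hl : l ≤ l') : r1_B P d' l' := ⟨h.1.trans hd, h.2.trans hl⟩

private theorem r1_mul {ι : Type} {P Q : MvPolynomial ι ℤ} {d l d' l' : ℝ} (h : r1_B P d l)
    (h' : r1_B Q d' l') : r1_B (P * Q) (d + d') (l * l') := by
  refine ⟨?_, (len_mul P Q).trans ?_⟩
  · have h1 : ((P * Q).totalDegree : ℝ) ≤ (P.totalDegree : ℝ) + (Q.totalDegree : ℝ) := by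
      exact_mod_cast totalDegree_mul P Q
    exact h1.trans (add_le_add h.1 h'.1)
  · exact mul_le_mul h.2 h'.2 (len_nonneg Q) ((len_nonneg P).trans h.2)

private theorem r1_add {ι : Type} {P Q : MvPolynomial ι ℤ} {d l l' : ℝ} (h : r1_B P d l)
    (h' : r1_B Q d l') : r1_B (P + Q) d (l + l') := by
  refine ⟨?_, (len_add P Q).trans (add_le_add h.2 h'.2)⟩
  have h1 : ((P + Q).totalDegree : ℝ) ≤ max (P.totalDegree : ℝ) (Q.totalDegree : ℝ) := by
    exact_mod_cast totalDegree_add P Q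
  exact h1.trans (max_le h.1 h'.1)

private theorem r1_one {ι : Type} : r1_B (1 : MvPolynomial ι ℤ) 0 1 := by
  refine ⟨?_, len_one.le⟩
  rw [totalDegree_one]; norm_num

private theorem r1_X {ι : Type} (i : ι) : r1_B (X i : MvPolynomial ι ℤ) 1 1 := by
  refine ⟨?_, (len_X i).le⟩
  rw [totalDegree_X]; norm_num

private theorem r1_zero {ι : Type} {d l : ℝ} (hd : 0 ≤ d) (hl : 0 ≤ l) :
    r1_B (0 : MvPolynomial ι ℤ) d l := by
  refine ⟨?_, ?_⟩
  · rw [totalDegree_zero]; simpa using hd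
  · rw [len_zero]; exact hl

private theorem r1_pow {ι : Type} {P : MvPolynomial ι ℤ} {δ : ℝ} (h : r1_B P δ (Real.exp δ))
    (n : ℕ) : r1_B (P ^ n) (n * δ) (Real.exp (n * δ)) := by
  induction n with
  | zero => simpa using r1_one (ι := ι)
  | succ n ih =>
    rw [pow_succ]
    refine r1_mono (r1_mul ih h) (le_of_eq (by push_cast; ring)) (le_of_eq ?_)
    rw [← Real.exp_add]
    congr 1
    push_cast
    ring

private theorem r1_prod {ι α : Type} (s : Finset α) (f : α → MvPolynomial ι ℤ) (m : α → ℕ) {δ : ℝ}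
    (h : ∀ a, r1_B (f a) δ (Real.exp δ)) :
    r1_B (∏ a ∈ s, f a ^ m a) ((∑ a ∈ s, m a : ℕ) * δ) (Real.exp ((∑ a ∈ s, m a : ℕ) * δ)) := by
  classical
  induction s using Finset.induction_on with
  | empty => simpa using r1_one (ι := ι)
  | insert a s ha ih =>
    rw [Finset.prod_insert ha, Finset.sum_insert ha]
    refine r1_mono (r1_mul (r1_pow (h a) (m a)) ih) (le_of_eq (by push_cast; ring)) (le_of_eq ?_)
    rw [← Real.exp_add]
    congr 1
    push_cast
    ring

private theorem r1_sum {ι α : Type} (s : Finset α) (f : α → MvPolynomial ι ℤ) {d l : ℝ}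
    (hd : 0 ≤ d) (h : ∀ a ∈ s, r1_B (f a) d l) : r1_B (∑ a ∈ s, f a) d (s.card * l) := by
  classical
  induction s using Finset.induction_on with
  | empty => simpa using r1_zero (ι := ι) hd le_rfl
  | insert a s ha ih =>
    rw [Finset.sum_insert ha, Finset.card_insert_of_notMem ha]
    refine r1_mono (r1_add (h a (Finset.mem_insert_self a s))
      (ih fun b hb => h b (Finset.mem_insert_of_mem hb))) le_rfl (le_of_eq ?_)
    push_cast
    ring

theorem lawP_sz {ι : Type} (A : AV g N κ k) (cf : Cf A → ι) (P Q : Fin (N + 1) → MvPolynomial ι ℤ)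
    (δ δ' : ℝ) (hδ : 0 ≤ δ) (hδ' : 0 ≤ δ') (hP : ∀ j, Sz (P j) δ) (hQ : ∀ j, Sz (Q j) δ')
    (i : Fin A.n) (j : Fin (N + 1)) :
    Sz (lawP A cf P Q i j) (κ * δ + κ * δ' + (1 + κ * (2 * N + 2))) := by
  classical
  have hκ : (0 : ℝ) ≤ κ := Nat.cast_nonneg κ
  have hN : (0 : ℝ) ≤ N := Nat.cast_nonneg N
  have h1 : 0 ≤ (κ : ℝ) * δ := mul_nonneg hκ hδ
  have h2 : 0 ≤ (κ : ℝ) * δ' := mul_nonneg hκ hδ'
  have h3 : 0 ≤ (κ : ℝ) * (2 * N + 2) := by positivity
  have hB : r1_B (lawP A cf P Q i j) (1 + (κ * δ + κ * δ'))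
      ((Finset.univ : Finset ((Fin (N + 1) ⊕ Fin (N + 1)) → Fin (κ + 1))).card *
        Real.exp (κ * δ + κ * δ')) := by
    unfold lawP
    refine r1_sum _ _ (by linarith) fun e _ => ?_
    split_ifs with hc
    · have a1 := r1_prod Finset.univ P (fun l => (e (Sum.inl l) : ℕ)) (δ := δ) hP
      have a2 := r1_prod Finset.univ Q (fun l => (e (Sum.inr l) : ℕ)) (δ := δ') hQ
      rw [hc.1] at a1
      rw [hc.2] at a2
      refine r1_mono (r1_mul (r1_X _) (r1_mul a1 a2)) le_rfl (le_of_eq ?_)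
      rw [one_mul, ← Real.exp_add]
    · exact r1_zero (by linarith) (Real.exp_pos _).le
  have hcard : (Finset.univ : Finset ((Fin (N + 1) ⊕ Fin (N + 1)) → Fin (κ + 1))).card =
      (κ + 1) ^ (2 * N + 2) := by
    rw [Finset.card_univ, Fintype.card_fun, Fintype.card_sum, Fintype.card_fin, Fintype.card_fin]
    congr 1
    ring
  have hexp : ((κ : ℝ) + 1) ^ (2 * N + 2) ≤ Real.exp (κ * (2 * N + 2)) := by
    calc ((κ : ℝ) + 1) ^ (2 * N + 2) ≤ (Real.exp κ) ^ (2 * N + 2) :=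
          pow_le_pow_left₀ (by positivity) (Real.add_one_le_exp _) _
      _ = Real.exp (κ * (2 * N + 2)) := by
          rw [← Real.exp_nat_mul]
          congr 1
          push_cast
          ring
  refine ⟨hB.1.trans (by linarith), hB.2.trans ?_⟩
  rw [hcard]
  push_cast
  calc ((κ : ℝ) + 1) ^ (2 * N + 2) * Real.exp (κ * δ + κ * δ')
      ≤ Real.exp (κ * (2 * N + 2)) * Real.exp (κ * δ + κ * δ') :=
        mul_le_mul_of_nonneg_right hexp (Real.exp_pos _).le
    _ = Real.exp (κ * (2 * N + 2) + (κ * δ + κ * δ')) := (Real.exp_add _ _).symm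
    _ ≤ Real.exp (κ * δ + κ * δ' + (1 + κ * (2 * N + 2))) := Real.exp_le_exp.2 (by linarith)

theorem lawP_ev {ι : Type} (A : AV g N κ k) (cf : Cf A → ι) (u : ι → ℂ)
    (hu : ∀ x, u (cf x) = cval A x) (P Q : Fin (N + 1) → MvPolynomial ι ℤ) (i : Fin A.n)
    (j : Fin (N + 1)) : ev u (lawP A cf P Q i j) =
      aeval (Sum.elim (fun l => ev u (P l)) (fun l => ev u (Q l))) (A.law i j) := by
  classical
  set f : Fin (N + 1) ⊕ Fin (N + 1) → ℂ :=
    Sum.elim (fun l => ev u (P l)) (fun l => ev u (Q l)) with hf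
  set F : ((Fin (N + 1) ⊕ Fin (N + 1)) →₀ ℕ) → ℂ := fun m =>
    ((coeff m (A.law i j) : k) : ℂ) * ∏ l, f l ^ m l with hF
  set mo : ((Fin (N + 1) ⊕ Fin (N + 1)) → Fin (κ + 1)) → ((Fin (N + 1) ⊕ Fin (N + 1)) →₀ ℕ) :=
    fun e => Finsupp.equivFunOnFinite.symm fun l => ((e l : ℕ) : ℕ) with hmo
  have hmo_app : ∀ e l, mo e l = (e l : ℕ) := fun e l => rfl
  have hmo_inj : Function.Injective mo := by
    intro e e' h
    funext l
    apply Fin.ext
    have := DFunLike.congr_fun h l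
    rwa [hmo_app, hmo_app] at this
  -- left side
  have hL : ev u (lawP A cf P Q i j) =
      ∑ e : (Fin (N + 1) ⊕ Fin (N + 1)) → Fin (κ + 1),
        if (∑ l, (e (Sum.inl l) : ℕ) = κ ∧ ∑ l, (e (Sum.inr l) : ℕ) = κ) then F (mo e) else 0 := by
    unfold lawP
    rw [map_sum]
    refine Finset.sum_congr rfl fun e _ => ?_
    by_cases hc : (∑ l, (e (Sum.inl l) : ℕ) = κ ∧ ∑ l, (e (Sum.inr l) : ℕ) = κ)
    · rw [if_pos hc, if_pos hc]
      have hX : ev u (X (cf (i, j, e))) = cval A (i, j, e) := by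
        rw [← hu]
        exact eval₂Hom_X' _ _ _
      rw [map_mul, map_mul, map_prod, map_prod, hX]
      simp only [map_pow]
      change cval A (i, j, e) * _ = ((coeff (mo e) (A.law i j) : k) : ℂ) * ∏ l, f l ^ mo e l
      rw [Fintype.prod_sum_type]
      rfl
    · rw [if_neg hc, if_neg hc, map_zero]
  rw [hL, ← Finset.sum_filter]
  -- right side
  have hR : aeval f (A.law i j) = ∑ m ∈ (A.law i j).support, F m := by
    rw [aeval_def, eval₂_eq']
    rfl
  rw [hR]
  have h2 : ∑ e ∈ Finset.univ.filter (fun e : (Fin (N + 1) ⊕ Fin (N + 1)) → Fin (κ + 1) =>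
      (∑ l, (e (Sum.inl l) : ℕ) = κ ∧ ∑ l, (e (Sum.inr l) : ℕ) = κ)), F (mo e) =
      ∑ m ∈ (Finset.univ.filter (fun e : (Fin (N + 1) ⊕ Fin (N + 1)) → Fin (κ + 1) =>
      (∑ l, (e (Sum.inl l) : ℕ) = κ ∧ ∑ l, (e (Sum.inr l) : ℕ) = κ))).image mo, F m :=
    (Finset.sum_image fun a _ b _ h => hmo_inj h).symm
  rw [h2]
  symm
  refine Finset.sum_subset ?_ ?_
  · intro m hm
    obtain ⟨c1, c2⟩ := A.law_hom i j m hm
    have hle : ∀ l, m l < κ + 1 := by
      intro l
      rcases l with l | l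
      · have := Finset.single_le_sum (f := fun l => m (Sum.inl l)) (fun _ _ => Nat.zero_le _)
          (Finset.mem_univ l)
        have h5 : m (Sum.inl l) ≤ κ := this.trans_eq c1
        omega
      · have := Finset.single_le_sum (f := fun l => m (Sum.inr l)) (fun _ _ => Nat.zero_le _)
          (Finset.mem_univ l)
        have h5 : m (Sum.inr l) ≤ κ := this.trans_eq c2
        omega
    refine Finset.mem_image.2 ⟨fun l => ⟨m l, hle l⟩, Finset.mem_filter.2 ⟨Finset.mem_univ _, c1, c2⟩, ?_⟩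
    ext l
    rfl
  · intro m _ hm
    rw [hF]
    simp only
    rw [notMem_support_iff.1 hm]
    simp

end GAV
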