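import Pool.Agent.GAV.R1

set_option autoImplicit false

open MvPolynomial LTD

namespace GAV

variable {g N κ : ℕ} {k : IntermediateField ℚ ℂ}

/-! ## [GAV-R2] representations of differences and sums (file R2.lean)

`rep_sub`: let `P`, `c` represent `z` and `Q`, `c'` represent `w`; `i` from `law_bd` for `(z, w)`. The polynomials `R_j = lawP A cf P Q i j` have size `κδ + κδ' + (1 + κ(2N+2))` (`lawP_sz`); values (`lawP_ev`, `law_smul`): `c^κ c'^κ law_i(θ z, θ w)_j`, which is a multiple of `θ(z - w)_j` (`A.law_eq`). Norm: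
`≥ |c|^κ |c'|^κ c₀ ‖θ z‖^κ ‖θ w‖^κ = c₀ ‖ev u P‖^κ ‖ev u Q‖^κ ≥ c₀ e^{-κδ-κδ'}`. `C = 1 + κ(2N+2) + |log c₀| + 1`; `Rep` is monotone in `δ` (`ELT.sz_mono`, `exp` monotone).
`rep_add`: `z + w = z - (0 - w)`; `Rep A u C₀ 0`: `Rep (κ C₀ + κ δ' + C) (0 - w)`, then `Rep (κ δ + κ (κ C₀ + κ δ' + C) + C) (z + w)`; enlarge: `κ, κ² ≤ (κ+1)²`. -/

theorem rep_mono {ι : Type} (A : AV g N κ k) (u : ι → ℂ) {δ δ' : ℝ} {z : Fin g → ℂ}
    (h : Rep A u δ z) (hδ : δ ≤ δ') : Rep A u δ' z := by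
  obtain ⟨P, h1, h2, c, h3⟩ := h
  exact ⟨P, fun j => ELT.sz_mono (h1 j) hδ, (Real.exp_le_exp.2 (by linarith)).trans h2, c, h3⟩

theorem rep_sub {ι : Type} (A : AV g N κ k) (cf : Cf A → ι) (u : ι → ℂ)
    (hu : ∀ x, u (cf x) = cval A x) : ∃ C : ℝ, 1 ≤ C ∧ ∀ (δ δ' : ℝ) (z w : Fin g → ℂ), 0 ≤ δ →
      0 ≤ δ' → Rep A u δ z → Rep A u δ' w → Rep A u (κ * δ + κ * δ' + C) (z - w) := by
  obtain ⟨c₀, hc₀, hbd⟩ := law_bd A
  have hκ : (0 : ℝ) ≤ κ := Nat.cast_nonneg κ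
  have hκN : 0 ≤ (κ : ℝ) * (2 * N + 2) := by positivity
  refine ⟨1 + κ * (2 * N + 2) + |Real.log c₀|, by linarith [abs_nonneg (Real.log c₀)], ?_⟩
  rintro δ δ' z w hδ hδ' ⟨P, hP1, hP2, c, hP3⟩ ⟨Q, hQ1, hQ2, c', hQ3⟩
  obtain ⟨i, hi⟩ := hbd z w
  obtain ⟨c'', hc''⟩ := A.law_eq i z w
  have eP : (fun j => ev u (P j) : Fin (N + 1) → ℂ) = c • A.θ z := by
    funext j
    exact hP3 j
  have eQ : (fun j => ev u (Q j) : Fin (N + 1) → ℂ) = c' • A.θ w := by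
    funext j
    exact hQ3 j
  have hev : ∀ j, ev u (lawP A cf P Q i j) =
      c ^ κ * c' ^ κ * aeval (Sum.elim (A.θ z) (A.θ w)) (A.law i j) := by
    intro j
    rw [lawP_ev A cf u hu P Q i j, eP, eQ, law_smul]
  refine ⟨fun j => lawP A cf P Q i j, fun j => ELT.sz_mono
    (lawP_sz A cf P Q δ δ' hδ hδ' hP1 hQ1 i j) (by linarith [abs_nonneg (Real.log c₀)]), ?_,
    c ^ κ * c' ^ κ * c'', fun j => ?_⟩
  · have e1 : (fun j => ev u (lawP A cf P Q i j) : Fin (N + 1) → ℂ) =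
        (c ^ κ * c' ^ κ) • (fun j => aeval (Sum.elim (A.θ z) (A.θ w)) (A.law i j)) := by
      funext j
      rw [hev j]
      rfl
    rw [e1, norm_smul]
    have e2 : Real.exp (-δ) ^ κ ≤ ‖c • A.θ z‖ ^ κ :=
      pow_le_pow_left₀ (Real.exp_pos _).le (by rw [← eP]; exact hP2) _
    have e3 : Real.exp (-δ') ^ κ ≤ ‖c' • A.θ w‖ ^ κ :=
      pow_le_pow_left₀ (Real.exp_pos _).le (by rw [← eQ]; exact hQ2) _
    have e4 : Real.exp (-|Real.log c₀|) ≤ c₀ := by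
      calc Real.exp (-|Real.log c₀|) ≤ Real.exp (Real.log c₀) :=
            Real.exp_le_exp.2 (by linarith [neg_abs_le (Real.log c₀)])
        _ = c₀ := Real.exp_log hc₀
    calc Real.exp (-(κ * δ + κ * δ' + (1 + κ * (2 * N + 2) + |Real.log c₀|)))
        ≤ Real.exp (-|Real.log c₀| + (κ * (-δ) + κ * (-δ'))) :=
          Real.exp_le_exp.2 (by linarith)
      _ = Real.exp (-|Real.log c₀|) * (Real.exp (-δ) ^ κ * Real.exp (-δ') ^ κ) := by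
          rw [Real.exp_add, Real.exp_add, Real.exp_nat_mul, Real.exp_nat_mul]
      _ ≤ c₀ * (‖c • A.θ z‖ ^ κ * ‖c' • A.θ w‖ ^ κ) := by
          refine mul_le_mul e4 (mul_le_mul e2 e3 (by positivity) (by positivity)) (by positivity)
            hc₀.le
      _ = ‖c ^ κ * c' ^ κ‖ * (c₀ * ‖A.θ z‖ ^ κ * ‖A.θ w‖ ^ κ) := by
          rw [norm_smul, norm_smul, norm_mul, norm_pow, norm_pow, mul_pow, mul_pow]
          ring
      _ ≤ ‖c ^ κ * c' ^ κ‖ *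
          ‖(fun j => aeval (Sum.elim (A.θ z) (A.θ w)) (A.law i j) : Fin (N + 1) → ℂ)‖ :=
          mul_le_mul_of_nonneg_left hi (norm_nonneg _)
  · rw [hev j, hc'' j]
    ring

theorem rep_add {ι : Type} (A : AV g N κ k) (cf : Cf A → ι) (u : ι → ℂ)
    (hu : ∀ x, u (cf x) = cval A x) (C₀ : ℝ) (hC₀ : 0 ≤ C₀) (h0 : Rep A u C₀ 0) :
    ∃ C : ℝ, 1 ≤ C ∧ ∀ (δ δ' : ℝ) (z w : Fin g → ℂ), 0 ≤ δ → 0 ≤ δ' → Rep A u δ z →
      Rep A u δ' w → Rep A u (((κ : ℝ) + 1) ^ 2 * δ + ((κ : ℝ) + 1) ^ 2 * δ' + C) (z + w) := by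
  obtain ⟨C, hC, h⟩ := rep_sub A cf u hu
  have hκ : (0 : ℝ) ≤ κ := Nat.cast_nonneg κ
  refine ⟨(κ : ℝ) ^ 2 * C₀ + (κ * C + C), ?_, ?_⟩
  · have h1 : 0 ≤ (κ : ℝ) ^ 2 * C₀ := by positivity
    have h2 : 0 ≤ (κ : ℝ) * C := by positivity
    linarith
  · intro δ δ' z w hδ hδ' hz hw
    have h1 := h C₀ δ' 0 w hC₀ hδ' h0 hw
    have h2 : 0 ≤ (κ : ℝ) * C₀ + κ * δ' + C := by positivity
    have h3 := h δ _ z (0 - w) hδ h2 hz h1
    have h4 : z - (0 - w) = z + w := by rw [zero_sub, sub_neg_eq_add]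
    rw [h4] at h3
    refine rep_mono A u h3 ?_
    have h5 : 0 ≤ (κ : ℝ) ^ 2 * δ := by positivity
    have h6 : 0 ≤ (κ : ℝ) * δ := by positivity
    have h7 : 0 ≤ (κ : ℝ) * δ' := by positivity
    nlinarith

end GAV
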