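import Pool.Agent.GAV.P2
import Pool.Agent.ELT.S3

set_option autoImplicit false

open LTD MvPolynomial

namespace GAV

variable {g N κ : ℕ} {k : IntermediateField ℚ ℂ}

/-! ## [GAV-S3] smallness on a disc (file S3.lean)

PORT of `ELT/S1.lean` (`ELT.phi_nf`) and `ELT/S3.lean` (`ELT.st_disc`). The lemmas `ELT.phi_sz, ELT.ev_le, ELT.phi_coef, ELT.phi_ev, ELT.ev_close, ELT.S3_norm, ELT.S3_sep` do not depend on the lattice: use them directly.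
`phi_nf`: let `P i, c i` be the data of `RepX` for `z i`: `‖ev u Φ‖ = ‖Pf (c_i lf(z_i))‖ = Nf ∏ (‖c_i‖‖θ(z_i)‖)^{D-1}` (`ELT.phi_ev`, `Pf_eq_Nf`), `‖c_i‖‖θ(z_i)‖ = ‖ev u (P i ·)‖ ∈ [e^{-δ}, e^{δ(1+log U)}]` (`ELT.ev_le` for every coordinate), so the product of the `d` powers of exponent `D - 1` is in
`[e^{-dDδ}, e^{dDδ(1+log U)}]` (see the proof of `ELT.phi_nf`). `st_disc`: as in `ELT/S3.lean`, with `nf_schwarz` of `GAV/P2.lean`. -/

theorem s3_norm {ι : Type} (A : AV g N κ k) (u : ι → ℂ) (z : Fin g → ℂ) (c : ℂ)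
    (P : Fin (N + 1) → MvPolynomial ι ℤ) (hP : ∀ j, ev u (P j) = c * A.θ z j) :
    ‖(fun j => ev u (P j) : Fin (N + 1) → ℂ)‖ = ‖c‖ * ‖A.θ z‖ := by
  have h : (fun j => ev u (P j) : Fin (N + 1) → ℂ) = c • A.θ z := by
    funext j
    rw [hP j, Pi.smul_apply, smul_eq_mul]
  rw [h, norm_smul]

theorem phi_nf {ι : Type} (A : AV g N κ k) (lam : Fin 2 → Fin (N + 1) → ℂ) (u : ι → ℂ) (d D : ℕ)
    (p : (Fin d → Fin D) → ℤ) (δ U : ℝ) (z : Fin d → Fin g → ℂ)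
    (Q : Fin d → Fin 2 → MvPolynomial ι ℤ) (hδ : 0 ≤ δ) (hU : 1 ≤ U)
    (hu : ∀ i, ‖u i‖ ≤ U) (hQ : ∀ i, RepX A lam u δ (z i) (Q i)) :
    Nf A lam d D p z ≤ ‖ev u (ELT.Pf d D (fun l => C (p l)) Q)‖ * Real.exp (d * D * δ) ∧
      ‖ev u (ELT.Pf d D (fun l => C (p l)) Q)‖ ≤
        Nf A lam d D p z * Real.exp (d * D * (δ * (1 + Real.log U))) := by
  have hL : 0 ≤ Real.log U := Real.log_nonneg hU
  choose P hPS hPn c hc hcQ using fun i => (hQ i).2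
  rw [ELT.phi_ev, Pf_eq_Nf A lam d D p z c _ hcQ]
  have hN := Nf_nonneg A lam d D p z
  have hb1 : ∀ i, Real.exp (-δ) ≤ ‖c i‖ * ‖A.θ (z i)‖ := fun i => by
    rw [← s3_norm A u (z i) (c i) (P i) (hc i)]
    exact hPn i
  have hb2 : ∀ i, ‖c i‖ * ‖A.θ (z i)‖ ≤ Real.exp (δ * (1 + Real.log U)) := fun i => by
    rw [← s3_norm A u (z i) (c i) (P i) (hc i)]
    refine (pi_norm_le_iff_of_nonneg (Real.exp_pos _).le).2 fun j => ?_
    exact ELT.ev_le u δ U hU hu _ (hPS i j)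
  have h1 : Real.exp (-(d * D * δ)) ≤ ∏ i, (‖c i‖ * ‖A.θ (z i)‖) ^ (D - 1) := by
    have h2 : ∏ i : Fin d, Real.exp (-(D * δ)) ≤ ∏ i, (‖c i‖ * ‖A.θ (z i)‖) ^ (D - 1) := by
      refine Finset.prod_le_prod (fun i _ => (Real.exp_pos _).le) fun i _ => ?_
      have h3 : Real.exp (-δ) ^ (D - 1) ≤ (‖c i‖ * ‖A.θ (z i)‖) ^ (D - 1) :=
        pow_le_pow_left₀ (Real.exp_pos _).le (hb1 i) _
      refine le_trans ?_ h3
      rw [← Real.exp_nat_mul]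
      refine Real.exp_le_exp.2 ?_
      have h4 : ((D - 1 : ℕ) : ℝ) ≤ D := by exact_mod_cast Nat.sub_le D 1
      have h5 : ((D - 1 : ℕ) : ℝ) * δ ≤ D * δ := mul_le_mul_of_nonneg_right h4 hδ
      linarith
    rw [Finset.prod_const, Finset.card_univ, Fintype.card_fin, ← Real.exp_nat_mul] at h2
    refine le_trans (le_of_eq ?_) h2
    congr 1
    ring
  have h6 : ∏ i, (‖c i‖ * ‖A.θ (z i)‖) ^ (D - 1) ≤
      Real.exp (d * D * (δ * (1 + Real.log U))) := by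
    have h7 : ∏ i, (‖c i‖ * ‖A.θ (z i)‖) ^ (D - 1) ≤
        ∏ i : Fin d, Real.exp (D * (δ * (1 + Real.log U))) := by
      refine Finset.prod_le_prod (fun i _ => by positivity) fun i _ => ?_
      refine (pow_le_pow_left₀ (by positivity) (hb2 i) _).trans ?_
      rw [← Real.exp_nat_mul]
      refine Real.exp_le_exp.2 ?_
      have h4 : ((D - 1 : ℕ) : ℝ) ≤ D := by exact_mod_cast Nat.sub_le D 1
      exact mul_le_mul_of_nonneg_right h4 (by positivity)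
    rw [Finset.prod_const, Finset.card_univ, Fintype.card_fin, ← Real.exp_nat_mul] at h7
    refine le_trans h7 (le_of_eq ?_)
    congr 1
    ring
  constructor
  · rw [mul_assoc]
    have h9 : 1 ≤ (∏ i, (‖c i‖ * ‖A.θ (z i)‖) ^ (D - 1)) * Real.exp (d * D * δ) := by
      have h10 := mul_le_mul_of_nonneg_right h1 (Real.exp_pos (d * D * δ)).le
      rw [← Real.exp_add, neg_add_cancel, Real.exp_zero] at h10
      exact h10
    exact le_mul_of_one_le_right hN h9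
  · exact mul_le_mul_of_nonneg_left h6 hN

theorem st_disc (A : AV g N κ k) (lam : Fin 2 → Fin (N + 1) → ℂ) : ∃ Cs : ℝ, 1 ≤ Cs ∧
    ∀ {ι : Type} (d D m S H : ℕ)
    (δ M U E X Y σ ρ G : ℝ) (x : Fin d → Fin g → ℂ) (y : Fin m → ℂ) (u u' : ι → ℂ)
    (Q : (Fin m → ℕ) → Fin d → Fin 2 → MvPolynomial ι ℤ) (p : (Fin d → Fin D) → ℤ),
    1 ≤ D → 1 ≤ X → (∀ i, ‖x i‖ ≤ X) → 1 ≤ Y → (∀ j, ‖y j‖ ≤ Y) → 1 ≤ U → (∀ i, ‖u i‖ ≤ U) →
    (∀ i, ‖u' i‖ ≤ U) → 0 ≤ E → (∀ i, ‖u' i - u i‖ ≤ E) → 0 ≤ δ → 1 ≤ ρ → m * Y * S ≤ ρ →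
    0 < σ → σ ≤ 1 →
    (∀ l : Fin m → ℤ, l ≠ 0 → (∀ j, |l j| ≤ (S : ℤ)) → σ ≤ ‖∑ j, (l j : ℂ) * y j‖) →
    (∀ μ : Fin m → ℕ, (∀ j, μ j < S) → ∀ i,
      RepX A lam u δ ((∑ j, ((μ j : ℕ) : ℂ) * y j) • x i) (Q μ i)) →
    d * D * δ ≤ M → (D : ℝ) ^ d * H * Real.exp (d * D * δ) ≤ Real.exp M →
    (∀ l, |((p l : ℤ) : ℝ)| ≤ H) →
    (∀ μ : Fin m → ℕ, (∀ j, μ j < S) →
      ev u' (ELT.Pf d D (fun l => MvPolynomial.C (p l)) (Q μ)) = 0) →
    G = Cs * d * D * (1 + 13 * X * ρ) ^ 3 → ∀ w : ℂ, ‖w‖ ≤ ρ →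
      Nf A lam d D p (fun i => w • x i) ≤ Real.exp G *
        (2 * (S : ℝ) ^ m * (Real.exp (M * (2 + Real.log U)) * E * Real.exp (d * D * δ) *
          Real.exp G) * (26 * ρ / σ) ^ (S ^ m) +
          ((6 : ℝ)⁻¹) ^ (S ^ m) * ((D : ℝ) ^ d * H * Real.exp G)) := by
  classical
  obtain ⟨Cs, hCs, hS⟩ := nf_schwarz A lam
  refine ⟨Cs, hCs, ?_⟩
  intro ι d D m S H δ M U E X Y σ ρ G x y u u' Q p hD hX hx hY hy hU hu hu' hE hE' hδ hρ hρ' hσ hσ1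
    hs hQ hdeg hlen hp h0 hG w hw
  set W : (Fin m → Fin S) → ℂ := fun μ => ∑ j, ((μ j : ℕ) : ℂ) * y j with hW
  have hinj : Function.Injective W := by
    intro μ ν h
    by_contra hne
    have h1 := ELT.S3_sep y σ hs μ ν hne
    have h2 : (∑ j, ((μ j : ℕ) : ℂ) * y j) - ∑ j, ((ν j : ℕ) : ℂ) * y j = 0 := sub_eq_zero.2 h
    rw [h2, norm_zero] at h1
    linarith
  set T : Finset ℂ := Finset.univ.image W with hT
  have hcard : T.card = S ^ m := by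
    rw [hT, Finset.card_image_of_injective _ hinj, Finset.card_univ, Fintype.card_fun,
      Fintype.card_fin, Fintype.card_fin]
  have hmem : ∀ a ∈ T, ∃ μ : Fin m → Fin S, W μ = a := by
    intro a ha
    obtain ⟨μ, _, hμ⟩ := Finset.mem_image.1 ha
    exact ⟨μ, hμ⟩
  set ε : ℝ := Real.exp (M * (2 + Real.log U)) * E * Real.exp (d * D * δ) with hε
  have hε0 : 0 ≤ ε := by positivity
  have key := hS d D hD p x X H ρ σ ε G T hX hx (Nat.cast_nonneg _) hp hρ hσ (by linarith) hε0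
    (by
      intro a ha
      obtain ⟨μ, rfl⟩ := hmem a ha
      exact (ELT.S3_norm y Y hy (fun j => (μ j : ℕ)) fun j => (μ j).2).trans hρ')
    (by
      intro a ha b hb hab
      obtain ⟨μ, rfl⟩ := hmem a ha
      obtain ⟨ν, rfl⟩ := hmem b hb
      exact ELT.S3_sep y σ hs μ ν fun h => hab (by rw [h]))
    (by
      intro a ha
      obtain ⟨μ, rfl⟩ := hmem a ha
      have hμ : ∀ j, (fun j => (μ j : ℕ)) j < S := fun j => (μ j).2
      have h1 := (phi_nf A lam u d D p δ U (fun i => W μ • x i) (Q fun j => (μ j : ℕ)) hδ hU hu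
        (hQ (fun j => (μ j : ℕ)) hμ)).1
      refine h1.trans ?_
      rw [hε]
      refine mul_le_mul_of_nonneg_right ?_ (Real.exp_pos _).le
      have h2 := ELT.ev_close u u' U E M hU hE hu hu' hE' _ (ELT.phi_sz d D p H δ M
        (Q fun j => (μ j : ℕ)) hδ (Nat.cast_nonneg _)
        (fun i => (hQ (fun j => (μ j : ℕ)) hμ i).1) hp hdeg hlen)
      rw [h0 _ hμ, zero_sub, norm_neg] at h2
      exact h2)
    hG w hw
  rw [hcard] at key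
  push_cast at key
  exact key

end GAV
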