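import Pool.Agent.GAV.Z16
import Pool.Agent.LTD.FinR

set_option autoImplicit false

open Module

namespace Pool.Agent.Results.MP_4aec10_nt.SemiAbelianPoints

open Pool.Agent.MP_4aec10_nt LTD GAV

/-- Extensions `G` of products of simple abelian varieties by tori: at almost all points `r` with number field
coordinates (and their translates by a fixed point) the coordinates of `exp_G(r)` have transcendence degree
`dim G` over a given field of finite transcendence degree; and the inequality of Q1 for tori. -/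
theorem result :
    (∀ (a s t l : ℕ) (g N κ : Fin a → ℕ), ∃ m : ℕ, 1 ≤ m ∧
      ∀ k F : IntermediateField ℚ ℂ, k ≤ F → Algebra.trdeg ℚ F ≤ (t : Cardinal) → ∀ R : Fin l → ℂ,
      ∀ A : (i : Fin a) → AV (g i) (N i) (κ i) k, (∀ i, (A i).Simple) →
      ∀ (r : (i : Fin a) → Fin (g i) → ℂ) (z' r' : Fin s → ℂ), (∀ j, z' j ≠ 0) →
      ∀ c : Fin s → ((i : Fin a) → Fin (g i) → ℂ) → ℂ, (∀ j v, c j v ≠ 0) →
      ∀ (K : IntermediateField ℚ ℂ) (D : ℕ) (w : Basis (Fin D) ℚ K) (H : ℕ),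
        Set.ncard {B : ((i : Fin a) → Fin (g i) → Fin D → ℤ) × (Fin s → Fin D → ℤ) |
          (∀ i j l, |B.1 i j l| ≤ (H : ℤ)) ∧ (∀ j l, |B.2 j l| ≤ (H : ℤ)) ∧
          ¬ Algebra.trdeg F (IntermediateField.adjoin F (Set.range R)) +
            ((∑ i, g i + s : ℕ) : Cardinal) ≤
            Algebra.trdeg F (IntermediateField.adjoin F (Set.range R ∪ expG A c
              (fun i => pt (r i) (fun l => ((w l : K) : ℂ)) (B.1 i))
              (fun j => r' j + z' j * ∑ l, ((B.2 j l : ℤ) : ℂ) * (w l : ℂ))))} ≤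
          (a + s) * 4 ^ ((∑ i, g i) * D) * (2 * H + 1) ^ ((∑ i, g i + s) * D - D / m)) ∧
    (∀ n l : ℕ, ∃ m : ℕ, 1 ≤ m ∧ ∀ z : ℂ, z ≠ 0 →
      ∀ (K : IntermediateField ℚ ℂ) (D : ℕ) (w : Basis (Fin D) ℚ K) (H : ℕ),
      ∀ r : Fin l → ℂ, Ineq r →
        Set.ncard {a : Fin n → Fin D → ℤ | (∀ i j, |a i j| ≤ (H : ℤ)) ∧
          ¬ (dd (fun i => Complex.exp (z * ∑ j, ((a i j : ℤ) : ℂ) * (w j : ℂ))) = n ∧
            Ineq (fun i => z * ∑ j, ((a i j : ℤ) : ℂ) * (w j : ℂ)) ∧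
            Ineq (Sum.elim r fun i => z * ∑ j, ((a i j : ℤ) : ℂ) * (w j : ℂ)))} ≤
          n * (2 * H + 1) ^ (n * D - D / m)) :=
  ⟨e4s, nf_q1⟩

end Pool.Agent.Results.MP_4aec10_nt.SemiAbelianPoints
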