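import Pool.Agent.GAV.Def2
import Pool.Agent.LTD.CloR

set_option autoImplicit false

open LTD

namespace GAV

/-! ## [GAV-Z1] the rank function `rk` (file Z1.lean)

`rk F R` = transcendence degree of `F(R)` over `F`. `rk_basis`: `R` (as a subset of the field `F(R) = adjoin F R`) generates it, so contains a transcendence basis (`exists_isTranscendenceBasis_subset`-like: Mathlib `AlgebraicIndependent`: `exists_isTranscendenceBasis_between`, or the matroid
`AlgebraicIndependent.matroid`; see `LTD/Wk.lean`, `LTD/TrD.lean`, `LTD/CloR.lean` for similar arguments, in particular `clo_adjoin`, `algInd_snoc`), which is finite of cardinality `trdeg` (finite because `R` is finite), reindex by `Fin (rk F R)`.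
`rk_le`: `F(R)` is algebraic over ... : a transcendence basis `x` of `F(R)/F` is algebraically independent in `ℂ`, inside the algebraic closure of `F(y)`, so its cardinality is at most `n` (`IsTranscendenceBasis`/`trdeg` of the algebraic closure of `F(y)` is `≤ n`: it is algebraic over `F(y)`, generated by `n` elements).
`le_rk`: conversely, `y` is independent inside the algebraic closure of `F(R)`, whose transcendence degree over `F` is that of `F(R)` (algebraic extension). `rk_zero`: `rk_le` with `n = 0` and `rk_basis`. -/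

/-- a finite set is the range of a family -/
theorem z1_range (R : Set ℂ) (hR : R.Finite) : ∃ (n : ℕ) (u : Fin n → ℂ), Set.range u = R := by
  obtain ⟨n, f, hf⟩ := hR.fin_embedding
  exact ⟨n, f, hf⟩

theorem z1_fin (F : IntermediateField ℚ ℂ) (R : Set ℂ) (hR : R.Finite) :
    Algebra.trdeg F (IntermediateField.adjoin F R) < Cardinal.aleph0 := by
  obtain ⟨n, u, rfl⟩ := z1_range R hR
  exact (CloR_trdeg F n u).trans_lt (Cardinal.natCast_lt_aleph0)

theorem z1_halg (F : IntermediateField ℚ ℂ) (R : Set ℂ) :
    Algebra.IsAlgebraic (Algebra.adjoin F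
      (Subtype.val ⁻¹' R : Set (IntermediateField.adjoin F R))) (IntermediateField.adjoin F R) := by
  set L := IntermediateField.adjoin F R with hL
  have hmem : ∀ r : ℂ, r ∈ Algebra.adjoin F R →
      ∃ r' ∈ Algebra.adjoin F (Subtype.val ⁻¹' R : Set L), (r' : ℂ) = r := by
    intro r hr
    have h1 : (Algebra.adjoin F (Subtype.val ⁻¹' R : Set L)).map L.val = Algebra.adjoin F R := by
      rw [AlgHom.map_adjoin]
      congr 1
      ext z
      constructor
      · rintro ⟨x, hx, rfl⟩
        exact hx
      · intro hz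
        exact ⟨⟨z, IntermediateField.subset_adjoin F _ hz⟩, hz, rfl⟩
    rw [← h1] at hr
    obtain ⟨r', h2, h3⟩ := hr
    exact ⟨r', h2, h3⟩
  constructor
  intro a
  obtain ⟨r, hr, s, hs, h⟩ := (IntermediateField.mem_adjoin_iff_div (F := F)
    (S := R) (x := (a : ℂ))).1 a.2
  obtain ⟨r', hr', rfl⟩ := hmem r hr
  obtain ⟨s', hs', rfl⟩ := hmem s hs
  have h1 : a = r' / s' := Subtype.ext h
  rw [h1, div_eq_mul_inv]
  have h2 : IsAlgebraic (Algebra.adjoin F (Subtype.val ⁻¹' R : Set L)) r' :=
    isAlgebraic_algebraMap (⟨r', hr'⟩ : Algebra.adjoin F (Subtype.val ⁻¹' R : Set L))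
  have h3 : IsAlgebraic (Algebra.adjoin F (Subtype.val ⁻¹' R : Set L)) s' :=
    isAlgebraic_algebraMap (⟨s', hs'⟩ : Algebra.adjoin F (Subtype.val ⁻¹' R : Set L))
  exact h2.mul h3.inv

theorem z1_trdeg_clo (F : IntermediateField ℚ ℂ) (R : Set ℂ) :
    Algebra.trdeg F (algebraicClosure (IntermediateField.adjoin F R) ℂ) =
      Algebra.trdeg F (IntermediateField.adjoin F R) := by
  set L := IntermediateField.adjoin F R with hL
  have h3 : Algebra.trdeg F L + Algebra.trdeg L (algebraicClosure L ℂ) =
      Algebra.trdeg F (algebraicClosure L ℂ) := trdeg_add_eq F L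
  have h4 : Algebra.trdeg L (algebraicClosure L ℂ) = 0 := trdeg_eq_zero
  rw [← h3, h4, add_zero]

theorem z1_le (F : IntermediateField ℚ ℂ) (n : ℕ) (y : Fin n → ℂ) (R : Set ℂ) (hR : R.Finite)
    (hy : AlgebraicIndependent F y) (h : ∀ i, IsAlgebraic (IntermediateField.adjoin F R) (y i)) :
    n ≤ rk F R := by
  have hmem : ∀ i, y i ∈ algebraicClosure (IntermediateField.adjoin F R) ℂ := fun i =>
    mem_algebraicClosure_iff.2 (h i)
  let φ : algebraicClosure (IntermediateField.adjoin F R) ℂ →ₐ[F] ℂ :=
    (algebraicClosure (IntermediateField.adjoin F R) ℂ).val.restrictScalars F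
  have h1 : AlgebraicIndependent F
      (fun i => (⟨y i, hmem i⟩ : algebraicClosure (IntermediateField.adjoin F R) ℂ)) :=
    AlgebraicIndependent.of_comp φ hy
  have h2 := h1.cardinalMk_le_trdeg
  rw [z1_trdeg_clo, Cardinal.mk_fin] at h2
  have h3 := Cardinal.toNat_le_toNat h2 (z1_fin F R hR)
  rwa [Cardinal.toNat_natCast] at h3

theorem rk_basis (F : IntermediateField ℚ ℂ) (R : Set ℂ) (hR : R.Finite) :
    ∃ y : Fin (rk F R) → ℂ, (∀ i, y i ∈ R) ∧ AlgebraicIndependent F y ∧
      ∀ z ∈ R, IsAlgebraic (IntermediateField.adjoin F (Set.range y)) z := by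
  have := z1_halg F R
  obtain ⟨T, hTs, hT⟩ := exists_isTranscendenceBasis_subset (R := F)
    (Subtype.val ⁻¹' R : Set (IntermediateField.adjoin F R))
  have hc : Cardinal.mk T = Algebra.trdeg F (IntermediateField.adjoin F R) := hT.cardinalMk_eq_trdeg
  have hfin : Finite T := by
    rw [← Cardinal.lt_aleph0_iff_finite, hc]
    exact z1_fin F R hR
  have hcard : Nat.card T = rk F R := by
    unfold rk
    rw [← hc]
    rfl
  let e : Fin (rk F R) ≃ T := (finCongr hcard.symm).trans (Finite.equivFin T).symm
  have hy : AlgebraicIndependent F (fun i => ((e i : IntermediateField.adjoin F R) : ℂ)) := by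
    have h1 := hT.1.comp e e.injective
    exact h1.map' (f := (IntermediateField.adjoin F R).val) Subtype.val_injective
  refine ⟨fun i => ((e i : IntermediateField.adjoin F R) : ℂ), fun i => hTs (e i).2, hy, ?_⟩
  intro z hz
  by_contra hcon
  have h2 := algInd_snoc F (rk F R)
    (Fin.snoc (fun i => ((e i : IntermediateField.adjoin F R) : ℂ)) z)
    (by simpa using hy) (by
      have h5 : (fun i : Fin (rk F R) => (Fin.snoc (fun i => ((e i : IntermediateField.adjoin F R) : ℂ)) z :
          Fin (rk F R + 1) → ℂ) i.castSucc) =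
          fun i => ((e i : IntermediateField.adjoin F R) : ℂ) := by
        funext i
        rw [Fin.snoc_castSucc]
      rw [h5, Fin.snoc_last]
      exact hcon)
  have h3 := z1_le F _ _ R hR h2 (by
    intro i
    refine Fin.lastCases ?_ (fun j => ?_) i
    · rw [Fin.snoc_last]
      exact isAlgebraic_algebraMap (R := IntermediateField.adjoin F R)
        (⟨z, IntermediateField.subset_adjoin F _ hz⟩)
    · rw [Fin.snoc_castSucc]
      exact isAlgebraic_algebraMap (R := IntermediateField.adjoin F R)
        (e j : IntermediateField.adjoin F R))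
  omega

theorem rk_le (F : IntermediateField ℚ ℂ) (n : ℕ) (y : Fin n → ℂ) (R : Set ℂ)
    (h : ∀ z ∈ R, IsAlgebraic (IntermediateField.adjoin F (Set.range y)) z) : rk F R ≤ n := by
  have h1 : Algebra.trdeg F (algebraicClosure (IntermediateField.adjoin F (Set.range y)) ℂ) ≤
      (n : Cardinal) := by
    rw [z1_trdeg_clo]
    exact CloR_trdeg F n y
  have h2 : IntermediateField.adjoin F R ≤
      (algebraicClosure (IntermediateField.adjoin F (Set.range y)) ℂ).restrictScalars F := by
    rw [IntermediateField.adjoin_le_iff]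
    intro z hz
    exact mem_algebraicClosure_iff.2 (h z hz)
  have h3 : Algebra.trdeg F (IntermediateField.adjoin F R) ≤
      Algebra.trdeg F ((algebraicClosure (IntermediateField.adjoin F
        (Set.range y)) ℂ).restrictScalars F) :=
    trdeg_le_of_injective (IntermediateField.inclusion h2)
      (IntermediateField.inclusion_injective h2)
  have h4 : Algebra.trdeg F (IntermediateField.adjoin F R) ≤ (n : Cardinal) := h3.trans h1
  have h5 := Cardinal.toNat_le_toNat h4 Cardinal.natCast_lt_aleph0
  rwa [Cardinal.toNat_natCast] at h5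

theorem le_rk (F : IntermediateField ℚ ℂ) (n : ℕ) (y : Fin n → ℂ) (R : Set ℂ) (hR : R.Finite)
    (hy : AlgebraicIndependent F y) (h : ∀ i, IsAlgebraic (IntermediateField.adjoin F R) (y i)) :
    n ≤ rk F R := z1_le F n y R hR hy h

theorem rk_zero (F : IntermediateField ℚ ℂ) (hF : Clo F) (R : Set ℂ) (hR : R.Finite) :
    rk F R = 0 ↔ R ⊆ F := by
  constructor
  · intro h z hz
    obtain ⟨y, -, -, hy⟩ := rk_basis F R hR
    have h1 := hy z hz
    have h2 : IsEmpty (Fin (rk F R)) := by rw [h]; exact Fin.isEmpty
    rw [Set.range_eq_empty y, IntermediateField.adjoin_empty] at h1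
    apply hF
    exact h1.restrictScalars F
  · intro h
    have h1 := rk_le F 0 (fun i => i.elim0) R (by
      intro z hz
      have h2 : z ∈ F := h hz
      exact isAlgebraic_algebraMap (R := IntermediateField.adjoin F
        (Set.range (fun i : Fin 0 => (i.elim0 : ℂ))))
        (algebraMap F _ ⟨z, h2⟩))
    omega

end GAV
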