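import Pool.Agent.GAV.Z6

set_option autoImplicit false

open LTD MvPolynomial

namespace GAV

variable {g N κ : ℕ} {k : IntermediateField ℚ ℂ}

theorem z7_hom {σ τ ρ : Type} [Fintype σ] [Fintype τ] (P : MvPolynomial (σ ⊕ τ) k) (e K : ℕ)
    (hP : ∀ m ∈ P.support, ∑ l, m (Sum.inr l) = K) (x : σ → ℂ)
    (G : τ → MvPolynomial ρ ℂ) (hG : ∀ b, (G b).IsHomogeneous e) :
    (aeval (Sum.elim (fun a => (C (x a) : MvPolynomial ρ ℂ)) G) P).IsHomogeneous (e * K) := by
  rw [aeval_def, eval₂_eq']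
  apply IsHomogeneous.sum
  intro m hm
  rw [Fintype.prod_sum_type]
  have h1 : (algebraMap k (MvPolynomial ρ ℂ) (coeff m P)).IsHomogeneous 0 := by
    rw [MvPolynomial.algebraMap_apply]
    exact isHomogeneous_C _ _
  have h2 : (∏ a, (Sum.elim (fun a => (C (x a) : MvPolynomial ρ ℂ)) G (Sum.inl a)) ^ (m (Sum.inl a))).IsHomogeneous 0 := by
    have := IsHomogeneous.prod (Finset.univ : Finset σ)
      (fun a => (Sum.elim (fun a => (C (x a) : MvPolynomial ρ ℂ)) G (Sum.inl a)) ^ (m (Sum.inl a)))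
      (fun _ => 0) (fun a _ => by
        have := (isHomogeneous_C ρ (x a)).pow (m (Sum.inl a))
        simpa using this)
    simpa using this
  have h3 : (∏ b, (Sum.elim (fun a => (C (x a) : MvPolynomial ρ ℂ)) G (Sum.inr b)) ^ (m (Sum.inr b))).IsHomogeneous (e * K) := by
    have := IsHomogeneous.prod (Finset.univ : Finset τ)
      (fun b => (Sum.elim (fun a => (C (x a) : MvPolynomial ρ ℂ)) G (Sum.inr b)) ^ (m (Sum.inr b)))
      (fun b => e * m (Sum.inr b)) (fun b _ => (hG b).pow _)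
    rw [← Finset.mul_sum, hP m hm] at this
    exact this
  have := h1.mul (h2.mul h3)
  simpa using this

/-- evaluation after substitution -/
theorem z7_ev {F : IntermediateField ℚ ℂ} {σ ρ : Type} (y : ρ → ℂ) (G : σ → MvPolynomial ρ ℂ)
    (f : MvPolynomial σ F) :
    aeval y (aeval G f) = aeval (fun i => aeval y (G i)) f := by
  have := comp_aeval_apply (R := F) (f := G) ((aeval y : MvPolynomial ρ ℂ →ₐ[ℂ] ℂ).restrictScalars F) f
  simpa using this

theorem z7_ev2 {F : IntermediateField ℚ ℂ} {σ τ ρ : Type} (y : ρ → ℂ) (x : σ → ℂ)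
    (G : τ → MvPolynomial ρ ℂ) (f : MvPolynomial (σ ⊕ τ) F) :
    aeval y (aeval (Sum.elim (fun a => (C (x a) : MvPolynomial ρ ℂ)) G) f) =
      aeval (Sum.elim x (fun b => aeval y (G b))) f := by
  rw [z7_ev]
  congr 2
  funext i
  cases i <;> simp

theorem stab (A : AV g N κ k) (hs : A.Simple) (F : IntermediateField ℚ ℂ) (hk : k ≤ F) (hF : Clo F)
    (t : ℕ) (ht : Algebra.trdeg ℚ F ≤ (t : Cardinal)) (v₀ v₁ v₂ v₃ : Fin g → ℂ)
    (h3 : v₃ = v₀ - (v₁ - v₂))
    (h : rk F (A.rat v₀) + rk F (A.rat v₁) + rk F (A.rat v₂) ≤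
      rk F (A.rat v₀ ∪ A.rat v₁ ∪ A.rat v₂))
    (h' : rk F (A.rat v₃) + rk F (A.rat v₂) + rk F (A.rat v₁) ≤
      rk F (A.rat v₃ ∪ A.rat v₂ ∪ A.rat v₁)) :
    (∀ z, z ∈ A.V F v₀) ∨ ∀ z ∈ A.V F v₁, ∃ n : ℕ, 0 < n ∧ n • (z - v₁) ∈ A.Λ := by
  classical
  let H : AddSubgroup (Fin g → ℂ) :=
    { carrier := {w | ∀ z ∈ A.V F v₀, z + w ∈ A.V F v₀ ∧ z - w ∈ A.V F v₀}
      zero_mem' := by
        intro z hz
        simpa using hz
      add_mem' := by
        intro a b ha hb z hz
        refine ⟨?_, ?_⟩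
        · have := (hb _ (ha z hz).1).1
          rwa [add_assoc] at this
        · have := (hb _ (ha z hz).2).2
          rwa [sub_sub] at this
      neg_mem' := by
        intro a ha z hz
        refine ⟨?_, ?_⟩
        · have := (ha z hz).2
          rwa [sub_eq_add_neg] at this
        · have := (ha z hz).1
          rwa [sub_neg_eq_add] }
  have memH : ∀ w, w ∈ H ↔ ∀ z ∈ A.V F v₀, z + w ∈ A.V F v₀ ∧ z - w ∈ A.V F v₀ := fun w => Iff.rfl
  -- the polynomials
  let L : (Fin g → ℂ) → Fin A.n → Fin (N + 1) → MvPolynomial (Fin (N + 1)) ℂ := fun z i l =>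
    aeval (Sum.elim (fun a => (C (A.θ z a) : MvPolynomial (Fin (N + 1)) ℂ)) X) (A.law i l)
  let M : (Fin g → ℂ) → Fin A.n → Fin A.n → Fin (N + 1) → MvPolynomial (Fin (N + 1)) ℂ :=
    fun z i j l =>
    aeval (Sum.elim (fun a => (C (A.θ z a) : MvPolynomial (Fin (N + 1)) ℂ)) (L 0 j)) (A.law i l)
  let S : Set (MvPolynomial (Fin (N + 1)) ℂ) :=
    {P | ∃ z ∈ A.V F v₀, ∃ (f : MvPolynomial (Fin (N + 1)) F) (n : ℕ), f.IsHomogeneous n ∧
      aeval (A.θ v₀) f = 0 ∧ ((∃ i, P = aeval (L z i) f) ∨ ∃ i j, P = aeval (M z i j) f)}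
  have hL : ∀ z i l, (L z i l).IsHomogeneous κ := by
    intro z i l
    have := z7_hom (A.law i l) 1 κ (fun m hm => (A.law_hom i l m hm).2) (A.θ z)
      (X : Fin (N + 1) → MvPolynomial (Fin (N + 1)) ℂ) (fun b => isHomogeneous_X _ _)
    simpa using this
  have hM : ∀ z i j l, (M z i j l).IsHomogeneous (κ * κ) := by
    intro z i j l
    exact z7_hom (A.law i l) κ κ (fun m hm => (A.law_hom i l m hm).2) (A.θ z) (L 0 j)
      (fun b => hL 0 j b)
  have evL : ∀ z w i l, aeval (A.θ w) (L z i l) = aeval (Sum.elim (A.θ z) (A.θ w)) (A.law i l) := by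
    intro z w i l
    simp only [L]
    rw [z7_ev2]
    simp
  have evM : ∀ z w i j l, aeval (A.θ w) (M z i j l) = aeval (Sum.elim (A.θ z)
      (fun l' => aeval (Sum.elim (A.θ 0) (A.θ w)) (A.law j l'))) (A.law i l) := by
    intro z w i j l
    simp only [M]
    rw [z7_ev2]
    simp only [evL]
  have hS : ∀ f ∈ S, ∃ n, f.IsHomogeneous n := by
    rintro P ⟨z, hz, f, n, hf, h0, ⟨i, rfl⟩ | ⟨i, j, rfl⟩⟩
    · exact ⟨_, hf.aeval (L z i) (fun l => hL z i l)⟩
    · exact ⟨_, hf.aeval (M z i j) (fun l => hM z i j l)⟩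
  have hHS : ∀ w, w ∈ H ↔ ∀ f ∈ S, aeval (A.θ w) f = 0 := by
    intro w
    rw [memH]
    constructor
    · rintro hw P ⟨z, hz, f, n, hf, h0, ⟨i, rfl⟩ | ⟨i, j, rfl⟩⟩
      · rw [z7_ev]
        simp only [evL]
        obtain ⟨c, hc⟩ := A.law_eq i z w
        have e1 : (fun l => aeval (Sum.elim (A.θ z) (A.θ w)) (A.law i l)) = c • A.θ (z - w) := by
          funext l
          simp [hc]
        rw [e1, aeval_smul_hom F f n hf, (hw z hz).2 f n hf h0, mul_zero]
      · rw [z7_ev]
        simp only [evM]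
        obtain ⟨c, hc⟩ := A.law_eq j 0 w
        obtain ⟨c', hc'⟩ := A.law_eq i z (0 - w)
        have e1 : (fun l => aeval (Sum.elim (A.θ z)
            (fun l' => aeval (Sum.elim (A.θ 0) (A.θ w)) (A.law j l'))) (A.law i l)) =
            (c ^ κ * c') • A.θ (z + w) := by
          funext l
          have e2 : (fun l' => aeval (Sum.elim (A.θ 0) (A.θ w)) (A.law j l')) =
            c • A.θ (0 - w) := by
            funext l'
            simp [hc]
          rw [e2]
          have e3 := law_smul A 1 c (A.θ z) (A.θ (0 - w)) i l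
          rw [one_smul, one_pow, one_mul] at e3
          rw [e3, hc', show z - (0 - w) = z + w by simp]
          simp [mul_assoc]
        rw [e1, aeval_smul_hom F f n hf, (hw z hz).1 f n hf h0, mul_zero]
    · intro hw z hz
      constructor
      · intro f n hf h0
        obtain ⟨i, j, c, hc, hl⟩ := theta_law2 A z 0 w
        have := hw (aeval (M z i j) f) ⟨z, hz, f, n, hf, h0, Or.inr ⟨i, j, rfl⟩⟩
        rw [z7_ev] at this
        simp only [evM] at this
        have e1 : (fun l => aeval (Sum.elim (A.θ z)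
            (fun l' => aeval (Sum.elim (A.θ 0) (A.θ w)) (A.law j l'))) (A.law i l)) =
            c • A.θ (z + w) := by
          funext l
          rw [hl, show z - (0 - w) = z + w by simp]
          simp
        rw [e1, aeval_smul_hom F f n hf] at this
        exact (mul_eq_zero.mp this).resolve_left (pow_ne_zero _ hc)
      · intro f n hf h0
        obtain ⟨i, j, hij⟩ := A.law_ne z w
        obtain ⟨c, hc⟩ := A.law_eq i z w
        have hc0 : c ≠ 0 := by
          rintro rfl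
          exact hij (by rw [hc]; simp)
        have := hw (aeval (L z i) f) ⟨z, hz, f, n, hf, h0, Or.inl ⟨i, rfl⟩⟩
        rw [z7_ev] at this
        simp only [evL] at this
        have e1 : (fun l => aeval (Sum.elim (A.θ z) (A.θ w)) (A.law i l)) = c • A.θ (z - w) := by
          funext l
          simp [hc]
        rw [e1, aeval_smul_hom F f n hf] at this
        exact (mul_eq_zero.mp this).resolve_left (pow_ne_zero _ hc0)
  have hΛ : A.Λ ≤ H := by
    intro l hl
    rw [memH]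
    intro z hz
    refine ⟨V_lat A F v₀ z l hl hz, ?_⟩
    have := V_lat A F v₀ z (-l) (neg_mem hl) hz
    rwa [← sub_eq_add_neg] at this
  -- differences
  have key : ∀ z₂ ∈ A.V F v₁, ∀ z₂' ∈ A.V F v₁, ∀ z ∈ A.V F v₀, z - (z₂ - z₂') ∈ A.V F v₀ := by
    intro z₂ hz₂ z₂' hz₂' z hz
    have a1 := V_add A F hk hF t ht v₀ v₁ v₂ h z z₂ v₂ hz hz₂ (mem_V_self A F v₂)
    rw [← h3] at a1
    have a2 := V_add A F hk hF t ht v₃ v₂ v₁ h' _ v₂ z₂' a1 (mem_V_self A F v₂) hz₂'
    have e1 : v₃ - (v₂ - v₁) = v₀ := by rw [h3]; abel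
    have e2 : z - (z₂ - v₂) - (v₂ - z₂') = z - (z₂ - z₂') := by abel
    rw [e1, e2] at a2
    exact a2
  rcases hs H S hΛ hS hHS with hT | hT
  · left
    intro z
    have : z - v₀ ∈ H := by rw [hT]; exact AddSubgroup.mem_top _
    have := ((memH _).mp this v₀ (mem_V_self A F v₀)).1
    rwa [add_sub_cancel] at this
  · right
    intro z hz
    apply hT
    rw [memH]
    intro y hy
    refine ⟨?_, key z hz v₁ (mem_V_self A F v₁) y hy⟩
    have := key v₁ (mem_V_self A F v₁) z hz y hy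
    rwa [show y - (v₁ - z) = y + (z - v₁) by abel] at this

end GAV
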