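import Pool.Agent.GAV.F2
import Pool.Agent.GAV.Z7
import Pool.Agent.GAV.Z8
import Pool.Agent.GAV.Z9

set_option autoImplicit false

open LTD MvPolynomial

namespace GAV

variable {g N κ : ℕ} {k : IntermediateField ℚ ℂ}

/-! ## [GAV-Z10] no independent additive quadruple of intermediate rank (file Z10.lean)

`rat_alg`: the quotients of the coordinates of `v₀ - (v₁ - v₂)` lie in the field `F(rat v₀, rat v₁, rat v₂)`: apply `rat_sub` (F2.lean) twice with this field (restricted to `ℚ`, it contains `k`) in place of `F`.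
`no_quad`: suppose not. `rk F (v₀ ∪ v₁ ∪ v₂) = rk F v₀ + rk E₀ v₁ + rk E₁ v₂ ≥ 3δ` (`rk_add` twice). So `h` of `stab` holds. `v₃ = v₀ - (v₁ - v₂)`, so `v₀ = v₃ - (v₂ - v₁)` and `rat v₀` is algebraic over (contained in) `F(rat v₃, rat v₂, rat v₁)` (`rat_alg`), so `3δ ≤ rk F (v₀ ∪ v₁ ∪ v₂) ≤ rk F (v₃ ∪ v₂ ∪ v₁)` (`rk_mono`): `h'` holds.
`stab`: if `A.V F v₀` is everything, `generic_rk` gives `g ≤ δ`; otherwise `not_torsion` for `v₁` (`rk = δ ≥ 1`). -/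

theorem rat_alg (A : AV g N κ k) (F : IntermediateField ℚ ℂ) (hk : k ≤ F) (v₀ v₁ v₂ : Fin g → ℂ) :
    ∀ x ∈ A.rat (v₀ - (v₁ - v₂)), IsAlgebraic (IntermediateField.adjoin F
      (A.rat v₀ ∪ A.rat v₁ ∪ A.rat v₂)) x := by
  set L := IntermediateField.adjoin F (A.rat v₀ ∪ A.rat v₁ ∪ A.rat v₂) with hL
  have hkL : k ≤ L.restrictScalars ℚ := fun w hw => L.algebraMap_mem ⟨w, hk hw⟩
  have h0 : A.rat v₀ ⊆ L.restrictScalars ℚ := fun x hx =>
    IntermediateField.subset_adjoin F _ (Or.inl (Or.inl hx))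
  have h1 : A.rat v₁ ⊆ L.restrictScalars ℚ := fun x hx =>
    IntermediateField.subset_adjoin F _ (Or.inl (Or.inr hx))
  have h2 : A.rat v₂ ⊆ L.restrictScalars ℚ := fun x hx =>
    IntermediateField.subset_adjoin F _ (Or.inr hx)
  have h3 := rat_sub A (L.restrictScalars ℚ) hkL h0 (rat_sub A (L.restrictScalars ℚ) hkL h1 h2)
  intro x hx
  have h4 : x ∈ L := h3 hx
  exact isAlgebraic_algebraMap (R := L) ⟨x, h4⟩

theorem no_quad (A : AV g N κ k) (hs : A.Simple) (F E₀ E₁ : IntermediateField ℚ ℂ) (hk : k ≤ F)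
    (hF : Clo F) (t : ℕ) (ht : Algebra.trdeg ℚ F ≤ (t : Cardinal)) (v₀ v₁ v₂ : Fin g → ℂ)
    (hE₀ : ∀ z : ℂ, z ∈ E₀ ↔ IsAlgebraic (IntermediateField.adjoin F (A.rat v₀)) z)
    (hE₁ : ∀ z : ℂ, z ∈ E₁ ↔ IsAlgebraic (IntermediateField.adjoin F (A.rat v₀ ∪ A.rat v₁)) z)
    (δ : ℕ) (hδ : 1 ≤ δ) (hδg : δ < g) (h0 : rk F (A.rat v₀) = δ) (h1 : rk F (A.rat v₁) = δ)
    (h2 : rk F (A.rat v₂) = δ) (h3 : rk F (A.rat (v₀ - (v₁ - v₂))) = δ)
    (h4 : δ ≤ rk E₀ (A.rat v₁)) (h5 : δ ≤ rk E₁ (A.rat v₂)) : False := by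
  have hF0 : F ≤ E₀ := fun w hw => (hE₀ w).2 (isAlgebraic_algebraMap
    (R := IntermediateField.adjoin F (A.rat v₀)) (algebraMap F _ ⟨w, hw⟩))
  have hF1 : F ≤ E₁ := fun w hw => (hE₁ w).2 (isAlgebraic_algebraMap
    (R := IntermediateField.adjoin F (A.rat v₀ ∪ A.rat v₁)) (algebraMap F _ ⟨w, hw⟩))
  have f0 := rat_finite A v₀
  have f1 := rat_finite A v₁
  have f2 := rat_finite A v₂
  have f3 := rat_finite A (v₀ - (v₁ - v₂))
  have e1 := rk_add F E₀ hF0 (A.rat v₀) (A.rat v₁) f0 f1 hE₀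
  have e2 := rk_add F E₁ hF1 (A.rat v₀ ∪ A.rat v₁) (A.rat v₂) (f0.union f1) f2 hE₁
  have e3 := rk_mono F (A.rat v₀ ∪ A.rat v₁ ∪ A.rat v₂)
    (A.rat (v₀ - (v₁ - v₂)) ∪ A.rat v₂ ∪ A.rat v₁) ((f0.union f1).union f2)
    ((f3.union f2).union f1) (by
      rintro z ((hz | hz) | hz)
      · have h6 := rat_alg A F hk (v₀ - (v₁ - v₂)) v₂ v₁
        have h7 : v₀ - (v₁ - v₂) - (v₂ - v₁) = v₀ := by abel
        rw [h7] at h6
        exact h6 z hz
      · exact isAlgebraic_algebraMap (R := IntermediateField.adjoin F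
          (A.rat (v₀ - (v₁ - v₂)) ∪ A.rat v₂ ∪ A.rat v₁))
          ⟨z, IntermediateField.subset_adjoin F _ (Or.inr hz)⟩
      · exact isAlgebraic_algebraMap (R := IntermediateField.adjoin F
          (A.rat (v₀ - (v₁ - v₂)) ∪ A.rat v₂ ∪ A.rat v₁))
          ⟨z, IntermediateField.subset_adjoin F _ (Or.inl (Or.inr hz))⟩)
  rcases stab A hs F hk hF t ht v₀ v₁ v₂ (v₀ - (v₁ - v₂)) rfl (by omega) (by omega) with h6 | h6
  · have := generic_rk A F v₀ h6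
    omega
  · exact not_torsion A F hk hF t ht v₁ (by omega) h6

end GAV
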