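import Mathlib

set_option autoImplicit false

namespace GAV

/-! ## [GAV-Z11] additive quadruples in a box (file Z11.lean)

Cauchy-Schwarz: `r(s) = #{(a, b) ∈ S² : a + b = s}`, supported on the box of radius `2H`, with `(4H+1)^{#ι}` points. `∑_s r(s) = |S|²`, so `|S|⁴ ≤ (4H+1)^{#ι} ∑_s r(s)²` (`sq_sum_le_card_mul_sum_sq` / `inner_mul_le_norm_mul_norm`), and `∑_s r(s)² = #{(a, b, c, d) ∈ S⁴ : a + b = c + d}`, which is the number of `(a, b, c)` with
`d = a + b - c = a - (c - b) ∈ S`. (With the variables of the statement: `x.1 = a, x.2.1 = c, x.2.2 = b`.) -/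

theorem z11_aux {α β : Type} [DecidableEq α] [DecidableEq β] (s : Finset α) (f : α → β) (t : Finset β)
    (h : ∀ a ∈ s, f a ∈ t) :
    s.card ^ 2 ≤ t.card * ((s ×ˢ s).filter fun p => f p.1 = f p.2).card := by
  have h2 : ∑ b ∈ t, (s.filter (fun a => f a = b)).card ^ 2 =
      ((s ×ˢ s).filter (fun p => f p.1 = f p.2)).card := by
    rw [Finset.card_eq_sum_card_fiberwise (f := fun p : α × α => f p.1) (t := t)]
    · apply Finset.sum_congr rfl
      intro b _
      have h3 : ((s ×ˢ s).filter (fun p => f p.1 = f p.2)).filter (fun p => f p.1 = b) =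
          (s.filter (fun a => f a = b)) ×ˢ (s.filter (fun a => f a = b)) := by
        ext ⟨x, y⟩
        simp only [Finset.mem_filter, Finset.mem_product]
        constructor
        · rintro ⟨⟨⟨k1, k2⟩, k3⟩, k4⟩
          exact ⟨⟨k1, k4⟩, k2, k3 ▸ k4⟩
        · rintro ⟨⟨k1, k2⟩, k3, k4⟩
          exact ⟨⟨⟨k1, k3⟩, k2.trans k4.symm⟩, k2⟩
      rw [h3, Finset.card_product, sq]
    · intro p hp
      have hp' := Finset.mem_coe.mp hp
      rw [Finset.mem_filter, Finset.mem_product] at hp'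
      exact Finset.mem_coe.mpr (h _ hp'.1.1)
  rw [← h2, Finset.card_eq_sum_card_fiberwise h]
  exact sq_sum_le_card_mul_sum_sq

theorem energy {ι : Type} [Fintype ι] [DecidableEq ι] (H : ℕ) (S : Finset (ι → ℤ))
    (hS : ∀ a ∈ S, ∀ i, |a i| ≤ (H : ℤ)) :
    S.card ^ 4 ≤ (4 * H + 1) ^ Fintype.card ι *
      ((S ×ˢ S ×ˢ S).filter fun x => x.1 - (x.2.1 - x.2.2) ∈ S).card := by
  have h1 := z11_aux (S ×ˢ S) (fun p => p.1 + p.2)
    (Fintype.piFinset fun _ : ι => Finset.Icc (-(2 * H : ℤ)) (2 * H)) (by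
      rintro ⟨a, b⟩ hab
      rw [Finset.mem_product] at hab
      rw [Fintype.mem_piFinset]
      intro i
      have h2 := abs_le.mp (hS a hab.1 i)
      have h3 := abs_le.mp (hS b hab.2 i)
      rw [Finset.mem_Icc, Pi.add_apply]
      constructor <;> dsimp only <;> omega)
  have hcard : (Fintype.piFinset fun _ : ι => Finset.Icc (-(2 * H : ℤ)) (2 * H)).card =
      (4 * H + 1) ^ Fintype.card ι := by
    rw [Fintype.card_piFinset, Finset.prod_const, Finset.card_univ, Int.card_Icc]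
    congr 1
    omega
  rw [hcard, Finset.card_product] at h1
  have h4 : S.card ^ 4 = (S.card * S.card) ^ 2 := by ring
  rw [h4]
  refine h1.trans (Nat.mul_le_mul_left _ ?_)
  apply Finset.card_le_card_of_injOn (fun p => (p.1.1, p.2.1, p.1.2))
  · rintro ⟨⟨a, b⟩, ⟨c, d⟩⟩ hp
    rw [Finset.mem_coe, Finset.mem_filter, Finset.mem_product, Finset.mem_product,
      Finset.mem_product] at hp
    obtain ⟨⟨⟨ha, hb⟩, ⟨hc, hd⟩⟩, he⟩ := hp
    dsimp only at ha hb hc hd he
    rw [Finset.mem_coe, Finset.mem_filter, Finset.mem_product, Finset.mem_product]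
    refine ⟨⟨ha, hc, hb⟩, ?_⟩
    have h5 : a - (c - b) = d := by
      rw [sub_sub_eq_add_sub, he, add_sub_cancel_left]
    dsimp only
    rw [h5]
    exact hd
  · rintro ⟨⟨a, b⟩, ⟨c, d⟩⟩ hp ⟨⟨a', b'⟩, ⟨c', d'⟩⟩ hp' heq
    rw [Finset.mem_coe, Finset.mem_filter] at hp hp'
    have he := hp.2
    have he' := hp'.2
    dsimp only at he he' heq
    obtain ⟨h6, h7⟩ := Prod.mk.inj heq
    obtain ⟨h8, h9⟩ := Prod.mk.inj h7
    subst h6 h8 h9
    have h10 : d = d' := add_left_cancel (he.symm.trans he')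
    rw [h10]

end GAV
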