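import Pool.Agent.GAV.Z10
import Pool.Agent.GAV.Z11

set_option autoImplicit false

open LTD Module

namespace GAV

variable {g N κ : ℕ} {k : IntermediateField ℚ ℂ}

/-! ## [GAV-Z12] the count for one simple abelian variety (file Z12.lean)

`pt_sub`: linear. `clo_rat`: `F' = ` algebraic closure of `F(rat z)`: choose `b` with `θ_b(z) ≠ 0`; `rat z ⊆ F(θ_a(z)/θ_b(z) : a ≤ N)`, generated by `N + 1` numbers: `LTD.clo_adjoin F t (N+1)`.
`num`: `x⁴ ≤ (4H+1)^n · 2M²B`, `(4H+1)^n ≤ 2^n (2H+1)^n = 2^n M`; put `Y = (2H+1)^{D/m₀}`, `Y' = (2H+1)^{D/(4m₀)}`, `Y'⁴ ≤ Y` (`4 (D/(4m₀)) ≤ D/m₀`), `B Y ≤ 2^{δ} 2^n M`. So `(x Y')⁴ ≤ 2^n M · 2 M² · 2^{δ} 2^n M = 2^{2n+δ+1} M⁴ ≤ (2^{δ} 2^{n} M)^4` (`2n + δ + 1 ≤ 4(n + δ)` for `n ≥ 1`), so `x Y' ≤ 2^δ 2^n M`, and `M/Y' = (2H+1)^{n - D/(4m₀)}`.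
`simple_count`: CLAIM(δ): for all `t` there is `m ≥ 1` such that for all `N' = N`.. (everything as in the theorem) the number of `a` in the box with `rk F (A.rat (pt r w a)) ≤ δ` is at most `2^δ · 2^{gD} · (2H+1)^{gD - D/m}`, for `δ < g`. Induction on `δ`. `δ = 0`: `rk_zero` and `av_count`. Step `δ → δ+1 < g`: let `m₁` from CLAIM(δ) for `t + 2(N+1)`,
(the bound for a smaller `t` is contained in it; `m = 4 m₁`). Let `S` = the `a` in the box with `rk F = δ+1` exactly, `M = (2H+1)^{gD}` the number of points of the box (`LTD.NFf_box`-like), `B = 2^δ 2^{gD} (2H+1)^{gD - D/m₁}`. By `energy` (index type `Fin g × Fin D`, curry) and `no_quad` with `v_i = pt r w a_i`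
(`pt r w (a₀ - (a₁ - a₂)) = v₀ - (v₁ - v₂)`): every triple `(a₀, a₁, a₂) ∈ S³` with `a₀ - (a₁ - a₂) ∈ S` has `rk E₀ (v₁) ≤ δ` (`E₀ = ` closure of `F(rat v₀)`, trdeg `≤ t + (N+1)`): for given `a₀` at most `B` such `a₁`, at most `M·B·M` triples; or `rk E₁ (v₂) ≤ δ` (`E₁ = ` closure of `F(rat v₀ ∪ rat v₁)`,
trdeg `≤ t + 2(N+1)`): for given `a₀, a₁` at most `B` such `a₂`: at most `M²B` triples. So `|S|⁴ ≤ (4H+1)^{gD} · 2M²B`, `num`: `|S| ≤ 2^δ 2^{gD} (2H+1)^{gD - D/m}`; and the `a` with `rk F ≤ δ` are at most `B ≤ 2^δ 2^{gD} (2H+1)^{gD - D/m}`. Sum: `2^{δ+1} 2^{gD} ..`. THE THEOREM: CLAIM(g-1), `2^{g-1} 2^{gD} ≤ 4^{gD}`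
(`D ≥ 1` because `K ≠ 0`, so `g ≤ gD`). `m` depends on `g, N, κ, t`. -/

theorem pt_sub {g D : ℕ} (r : Fin g → ℂ) (w : Fin D → ℂ) (a b c : Fin g → Fin D → ℤ) :
    pt r w (a - (b - c)) = pt r w a - (pt r w b - pt r w c) := by
  funext i
  have h1 : ∀ x : Fin g → Fin D → ℤ, pt r w x i = r i + ∑ j, ((x i j : ℤ) : ℂ) * w j := fun _ => rfl
  rw [Pi.sub_apply, Pi.sub_apply, h1, h1, h1, h1]
  have h2 : ∑ j, (((a - (b - c)) i j : ℤ) : ℂ) * w j =
      ∑ j, ((a i j : ℤ) : ℂ) * w j - (∑ j, ((b i j : ℤ) : ℂ) * w j - ∑ j, ((c i j : ℤ) : ℂ) * w j) := by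
    rw [← Finset.sum_sub_distrib, ← Finset.sum_sub_distrib]
    refine Finset.sum_congr rfl fun j _ => ?_
    rw [Pi.sub_apply, Pi.sub_apply, Pi.sub_apply, Pi.sub_apply]
    push_cast
    ring
  rw [h2]
  ring

/-- the quotients of the coordinates, generated by those with one denominator -/
theorem z12_adj (A : AV g N κ k) (F : IntermediateField ℚ ℂ) (z : Fin g → ℂ) {b : Fin (N + 1)}
    (hb : A.θ z b ≠ 0) (E : IntermediateField F ℂ)
    (h : Set.range (fun a => A.θ z a / A.θ z b) ⊆ E) : A.rat z ⊆ E := by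
  rintro _ ⟨p, rfl⟩
  have h1 : A.θ z p.1 / A.θ z p.2 = (A.θ z p.1 / A.θ z b) / (A.θ z p.2 / A.θ z b) :=
    (div_div_div_cancel_right₀ hb _ _).symm
  show A.θ z p.1 / A.θ z p.2 ∈ E
  rw [h1]
  exact E.div_mem (h ⟨p.1, rfl⟩) (h ⟨p.2, rfl⟩)

theorem z12_ne (A : AV g N κ k) (z : Fin g → ℂ) : ∃ b, A.θ z b ≠ 0 := by
  by_contra hcon
  push Not at hcon
  exact A.ne z (funext hcon)

theorem clo_rat (A : AV g N κ k) (F : IntermediateField ℚ ℂ) (t : ℕ)
    (hF : Algebra.trdeg ℚ F ≤ (t : Cardinal)) (z : Fin g → ℂ) : ∃ F' : IntermediateField ℚ ℂ,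
      F ≤ F' ∧ Clo F' ∧ Algebra.trdeg ℚ F' ≤ ((t + (N + 1) : ℕ) : Cardinal) ∧
      ∀ x : ℂ, x ∈ F' ↔ IsAlgebraic (IntermediateField.adjoin F (A.rat z)) x := by
  obtain ⟨b, hb⟩ := z12_ne A z
  obtain ⟨F', h1, h2, h3, h4⟩ := clo_adjoin F t (N + 1) hF (fun a => A.θ z a / A.θ z b)
  refine ⟨F', h1, h2, h3, ?_⟩
  have e : IntermediateField.adjoin F (Set.range fun a => A.θ z a / A.θ z b) =
      IntermediateField.adjoin F (A.rat z) := by
    apply le_antisymm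
    · refine IntermediateField.adjoin.mono F _ _ ?_
      rintro _ ⟨a, rfl⟩
      exact ⟨(a, b), rfl⟩
    · rw [IntermediateField.adjoin_le_iff]
      exact z12_adj A F z hb _ (IntermediateField.subset_adjoin F _)
  rw [← e]
  exact h4

/-- the closure for two points -/
theorem z12_clo2 (A : AV g N κ k) (F : IntermediateField ℚ ℂ) (t : ℕ)
    (hF : Algebra.trdeg ℚ F ≤ (t : Cardinal)) (z w : Fin g → ℂ) : ∃ F' : IntermediateField ℚ ℂ,
      F ≤ F' ∧ Clo F' ∧ Algebra.trdeg ℚ F' ≤ ((t + 2 * (N + 1) : ℕ) : Cardinal) ∧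
      ∀ x : ℂ, x ∈ F' ↔ IsAlgebraic (IntermediateField.adjoin F (A.rat z ∪ A.rat w)) x := by
  obtain ⟨b, hb⟩ := z12_ne A z
  obtain ⟨c, hc⟩ := z12_ne A w
  obtain ⟨F', h1, h2, h3, h4⟩ := clo_adjoin F t ((N + 1) + (N + 1)) hF
    (Fin.append (fun a => A.θ z a / A.θ z b) fun a => A.θ w a / A.θ w c)
  refine ⟨F', h1, h2, ?_, ?_⟩
  · rw [two_mul]
    exact h3
  have hr : Set.range (Fin.append (fun a => A.θ z a / A.θ z b) fun a => A.θ w a / A.θ w c) =
      (Set.range fun a => A.θ z a / A.θ z b) ∪ Set.range fun a => A.θ w a / A.θ w c := by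
    ext x
    constructor
    · rintro ⟨i, rfl⟩
      refine Fin.addCases (fun i => ?_) (fun i => ?_) i
      · rw [Fin.append_left]
        exact Or.inl ⟨i, rfl⟩
      · rw [Fin.append_right]
        exact Or.inr ⟨i, rfl⟩
    · rintro (⟨i, rfl⟩ | ⟨i, rfl⟩)
      · exact ⟨Fin.castAdd (N + 1) i, Fin.append_left _ _ _⟩
      · exact ⟨Fin.natAdd (N + 1) i, Fin.append_right _ _ _⟩
  have e : IntermediateField.adjoin F
      (Set.range (Fin.append (fun a => A.θ z a / A.θ z b) fun a => A.θ w a / A.θ w c)) =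
      IntermediateField.adjoin F (A.rat z ∪ A.rat w) := by
    rw [hr]
    apply le_antisymm
    · refine IntermediateField.adjoin.mono F _ _ (Set.union_subset_union ?_ ?_)
      · rintro _ ⟨a, rfl⟩
        exact ⟨(a, b), rfl⟩
      · rintro _ ⟨a, rfl⟩
        exact ⟨(a, c), rfl⟩
    · rw [IntermediateField.adjoin_le_iff]
      refine Set.union_subset ?_ ?_
      · exact z12_adj A F z hb _ (Set.subset_union_left.trans (IntermediateField.subset_adjoin F _))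
      · exact z12_adj A F w hc _ (Set.subset_union_right.trans (IntermediateField.subset_adjoin F _))
  rw [← e]
  exact h4

theorem num (n D m₀ δ H x : ℕ) (hn : 1 ≤ n) (hD : D / m₀ ≤ n) (h : x ^ 4 ≤ (4 * H + 1) ^ n *
    (2 * ((2 * H + 1) ^ n) ^ 2 * (2 ^ δ * 2 ^ n * (2 * H + 1) ^ (n - D / m₀)))) :
    x ≤ 2 ^ δ * 2 ^ n * (2 * H + 1) ^ (n - D / (4 * m₀)) := by
  have hp : 4 * (D / (4 * m₀)) ≤ D / m₀ := by
    rw [mul_comm 4 m₀, ← Nat.div_div_eq_div_mul]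
    exact Nat.mul_div_le _ _
  obtain ⟨p, hpd⟩ : ∃ p, p = D / (4 * m₀) := ⟨_, rfl⟩
  obtain ⟨q, hqd⟩ : ∃ q, q = D / m₀ := ⟨_, rfl⟩
  obtain ⟨B, hB⟩ : ∃ B, B = 2 * H + 1 := ⟨_, rfl⟩
  rw [← hpd, ← hqd] at hp
  rw [← hqd] at hD
  rw [← hqd, ← hB] at h
  rw [← hpd, ← hB]
  have hB1 : 1 ≤ B := by omega
  have h1 : (4 * H + 1) ^ n ≤ 2 ^ n * B ^ n := by
    rw [← mul_pow]
    exact Nat.pow_le_pow_left (by omega) n
  have h2 : x ^ 4 * B ^ (4 * p) ≤ 2 ^ (2 * n + δ + 1) * (B ^ n) ^ 4 := by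
    calc x ^ 4 * B ^ (4 * p)
        ≤ ((4 * H + 1) ^ n * (2 * (B ^ n) ^ 2 * (2 ^ δ * 2 ^ n * B ^ (n - q)))) * B ^ (4 * p) :=
          Nat.mul_le_mul_right _ h
      _ ≤ (2 ^ n * B ^ n * (2 * (B ^ n) ^ 2 * (2 ^ δ * 2 ^ n * B ^ (n - q)))) * B ^ (4 * p) :=
          Nat.mul_le_mul_right _ (Nat.mul_le_mul_right _ h1)
      _ = 2 ^ (2 * n + δ + 1) * (B ^ n) ^ 3 * (B ^ (n - q) * B ^ (4 * p)) := by
          rw [pow_succ, pow_add, two_mul, pow_add]
          ring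
      _ ≤ 2 ^ (2 * n + δ + 1) * (B ^ n) ^ 3 * B ^ n := by
          refine Nat.mul_le_mul_left _ ?_
          rw [← pow_add]
          exact Nat.pow_le_pow_right hB1 (by omega)
      _ = 2 ^ (2 * n + δ + 1) * (B ^ n) ^ 4 := by ring
  have h3 : (x * B ^ p) ^ 4 ≤ (2 ^ (δ + n) * B ^ n) ^ 4 := by
    calc (x * B ^ p) ^ 4 = x ^ 4 * B ^ (4 * p) := by rw [mul_pow, ← pow_mul, mul_comm p 4]
      _ ≤ 2 ^ (2 * n + δ + 1) * (B ^ n) ^ 4 := h2
      _ ≤ 2 ^ (4 * (δ + n)) * (B ^ n) ^ 4 :=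
          Nat.mul_le_mul_right _ (Nat.pow_le_pow_right (by norm_num) (by omega))
      _ = (2 ^ (δ + n) * B ^ n) ^ 4 := by rw [mul_pow, ← pow_mul 2 (δ + n) 4, mul_comm (δ + n) 4]
  have h4 : x * B ^ p ≤ 2 ^ (δ + n) * B ^ n := (Nat.pow_le_pow_iff_left (by norm_num)).1 h3
  have h5 : 2 ^ (δ + n) * B ^ n = (2 ^ δ * 2 ^ n * B ^ (n - p)) * B ^ p := by
    rw [mul_assoc, ← pow_add B, pow_add 2 δ n]
    congr 2
    omega
  rw [h5] at h4
  exact Nat.le_of_mul_le_mul_right h4 (pow_pos (by omega) _)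

/-- the box -/
noncomputable def z12_box (g D H : ℕ) : Finset (Fin g → Fin D → ℤ) :=
  Fintype.piFinset fun _ => Fintype.piFinset fun _ => Finset.Icc (-(H : ℤ)) H

theorem z12_mem {g D H : ℕ} {a : Fin g → Fin D → ℤ} : a ∈ z12_box g D H ↔ ∀ i j, |a i j| ≤ (H : ℤ) := by
  unfold z12_box
  simp only [Fintype.mem_piFinset, Finset.mem_Icc, abs_le]

theorem z12_card (g D H : ℕ) : (z12_box g D H).card = (2 * H + 1) ^ (g * D) := by
  unfold z12_box
  rw [Fintype.card_piFinset]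
  simp only [Fintype.card_piFinset, Int.card_Icc, Finset.prod_const, Finset.card_univ, Fintype.card_fin]
  rw [← pow_mul, mul_comm D g]
  congr 1
  omega

theorem z12_energy {g D : ℕ} (H : ℕ) (S : Finset (Fin g → Fin D → ℤ)) (hS : S ⊆ z12_box g D H) :
    S.card ^ 4 ≤ (4 * H + 1) ^ (g * D) *
      ((S ×ˢ S ×ˢ S).filter fun x => x.1 - (x.2.1 - x.2.2) ∈ S).card := by
  classical
  let f : (Fin g → Fin D → ℤ) → (Fin g × Fin D → ℤ) := fun a p => a p.1 p.2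
  let f' : (Fin g × Fin D → ℤ) → (Fin g → Fin D → ℤ) := fun a i j => a (i, j)
  have hf : ∀ a, f' (f a) = a := fun a => rfl
  have hf' : ∀ a, f (f' a) = a := fun a => rfl
  have hinj : Function.Injective f := fun a b h => by rw [← hf a, ← hf b, h]
  have hinj' : Function.Injective f' := fun a b h => by rw [← hf' a, ← hf' b, h]
  have h1 := energy H (S.image f) (by
    intro a ha i
    obtain ⟨b, hb, rfl⟩ := Finset.mem_image.1 ha
    exact z12_mem.1 (hS hb) i.1 i.2)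
  rw [Finset.card_image_of_injective _ hinj, Fintype.card_prod, Fintype.card_fin, Fintype.card_fin] at h1
  refine h1.trans (Nat.mul_le_mul_left _ ?_)
  refine Finset.card_le_card_of_injOn (fun x => (f' x.1, f' x.2.1, f' x.2.2)) ?_ ?_
  · intro x hx
    rw [Finset.mem_coe, Finset.mem_filter, Finset.mem_product, Finset.mem_product] at hx
    obtain ⟨⟨hx1, hx2, hx3⟩, hx4⟩ := hx
    obtain ⟨a, ha, ha'⟩ := Finset.mem_image.1 hx1
    obtain ⟨b, hb, hb'⟩ := Finset.mem_image.1 hx2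
    obtain ⟨c, hc, hc'⟩ := Finset.mem_image.1 hx3
    obtain ⟨d, hd, hd'⟩ := Finset.mem_image.1 hx4
    rw [Finset.mem_coe, Finset.mem_filter, Finset.mem_product, Finset.mem_product]
    rw [← ha', ← hb', ← hc'] at hd'
    refine ⟨⟨?_, ?_, ?_⟩, ?_⟩
    · show f' x.1 ∈ S
      rw [← ha', hf]
      exact ha
    · show f' x.2.1 ∈ S
      rw [← hb', hf]
      exact hb
    · show f' x.2.2 ∈ S
      rw [← hc', hf]
      exact hc
    · show f' x.1 - (f' x.2.1 - f' x.2.2) ∈ S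
      rw [← ha', ← hb', ← hc', hf, hf, hf]
      have h2 : d = a - (b - c) := by
        rw [← hf d, hd']
        rfl
      rw [← h2]
      exact hd
  · rintro ⟨x1, x2, x3⟩ _ ⟨y1, y2, y3⟩ _ hxy
    simp only [Prod.mk.injEq] at hxy
    obtain ⟨e1, e2, e3⟩ := hxy
    rw [hinj' e1, hinj' e2, hinj' e3]

theorem z12_triple {X : Type} (Bx S : Finset X) (hS : S ⊆ Bx) (T : Finset (X × X × X))
    (hT : T ⊆ S ×ˢ S ×ˢ S) (P₀ : X → X → Prop) (P₁ : X → X → X → Prop) (B : ℕ)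
    (h : ∀ x ∈ T, P₀ x.1 x.2.1 ∨ P₁ x.1 x.2.1 x.2.2)
    (h0 : ∀ a ∈ Bx, Set.ncard {b | b ∈ Bx ∧ P₀ a b} ≤ B)
    (h1 : ∀ a ∈ Bx, ∀ b ∈ Bx, Set.ncard {c | c ∈ Bx ∧ P₁ a b c} ≤ B) :
    T.card ≤ 2 * Bx.card ^ 2 * B := by
  classical
  have g0 : ∀ a ∈ Bx, (Bx.filter fun b => P₀ a b).card ≤ B := by
    intro a ha
    have h2 := h0 a ha
    rw [← Set.ncard_coe_finset, Finset.coe_filter]
    exact h2
  have g1 : ∀ a ∈ Bx, ∀ b ∈ Bx, (Bx.filter fun c => P₁ a b c).card ≤ B := by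
    intro a ha b hb
    have h2 := h1 a ha b hb
    rw [← Set.ncard_coe_finset, Finset.coe_filter]
    exact h2
  have k1 : ((Bx ×ˢ Bx ×ˢ Bx).filter fun x => P₀ x.1 x.2.1).card ≤ Bx.card ^ 2 * B := by
    rw [Finset.card_filter, Finset.sum_product]
    calc ∑ a ∈ Bx, ∑ y ∈ Bx ×ˢ Bx, (if P₀ a y.1 then 1 else 0)
        = ∑ a ∈ Bx, Bx.card * (Bx.filter fun b => P₀ a b).card := by
          refine Finset.sum_congr rfl fun a _ => ?_
          rw [Finset.sum_product, Finset.card_filter, Finset.mul_sum]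
          refine Finset.sum_congr rfl fun b _ => ?_
          show ∑ _c ∈ Bx, (if P₀ a b then 1 else 0) = _
          rw [Finset.sum_const, smul_eq_mul]
      _ ≤ ∑ _a ∈ Bx, Bx.card * B := Finset.sum_le_sum fun a ha => Nat.mul_le_mul_left _ (g0 a ha)
      _ = Bx.card ^ 2 * B := by rw [Finset.sum_const, smul_eq_mul]; ring
  have k2 : ((Bx ×ˢ Bx ×ˢ Bx).filter fun x => P₁ x.1 x.2.1 x.2.2).card ≤ Bx.card ^ 2 * B := by
    rw [Finset.card_filter, Finset.sum_product]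
    calc ∑ a ∈ Bx, ∑ y ∈ Bx ×ˢ Bx, (if P₁ a y.1 y.2 then 1 else 0)
        = ∑ a ∈ Bx, ∑ b ∈ Bx, (Bx.filter fun c => P₁ a b c).card := by
          refine Finset.sum_congr rfl fun a _ => ?_
          rw [Finset.sum_product]
          refine Finset.sum_congr rfl fun b _ => ?_
          rw [Finset.card_filter]
      _ ≤ ∑ _a ∈ Bx, ∑ _b ∈ Bx, B :=
          Finset.sum_le_sum fun a ha => Finset.sum_le_sum fun b hb => g1 a ha b hb
      _ = Bx.card ^ 2 * B := by rw [Finset.sum_const, Finset.sum_const, smul_eq_mul, smul_eq_mul]; ring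
  have hsub : T ⊆ ((Bx ×ˢ Bx ×ˢ Bx).filter fun x => P₀ x.1 x.2.1) ∪
      (Bx ×ˢ Bx ×ˢ Bx).filter fun x => P₁ x.1 x.2.1 x.2.2 := by
    intro x hx
    have h2 := hT hx
    rw [Finset.mem_product, Finset.mem_product] at h2
    have h3 : x ∈ Bx ×ˢ Bx ×ˢ Bx := by
      rw [Finset.mem_product, Finset.mem_product]
      exact ⟨hS h2.1, hS h2.2.1, hS h2.2.2⟩
    rcases h x hx with h4 | h4
    · exact Finset.mem_union_left _ (Finset.mem_filter.2 ⟨h3, h4⟩)
    · exact Finset.mem_union_right _ (Finset.mem_filter.2 ⟨h3, h4⟩)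
  calc T.card ≤ _ := Finset.card_le_card hsub
    _ ≤ _ := Finset.card_union_le _ _
    _ ≤ Bx.card ^ 2 * B + Bx.card ^ 2 * B := Nat.add_le_add k1 k2
    _ = 2 * Bx.card ^ 2 * B := by ring

/-- the induction -/
theorem z12_claim (g N κ : ℕ) : ∀ δ : ℕ, δ < g → ∀ t : ℕ, ∃ m : ℕ, 1 ≤ m ∧ ∀ k F : IntermediateField ℚ ℂ,
    k ≤ F → Algebra.trdeg ℚ F ≤ (t : Cardinal) → Clo F → ∀ A : AV g N κ k, A.Simple →
      ∀ (r : Fin g → ℂ) (K : IntermediateField ℚ ℂ) (D : ℕ) (w : Basis (Fin D) ℚ K) (H : ℕ),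
        Set.ncard {a : Fin g → Fin D → ℤ | a ∈ z12_box g D H ∧
          rk F (A.rat (pt r (fun j => ((w j : K) : ℂ)) a)) ≤ δ} ≤
          2 ^ δ * 2 ^ (g * D) * (2 * H + 1) ^ (g * D - D / m) := by
  classical
  intro δ
  induction δ with
  | zero =>
    intro hg t
    obtain ⟨m, hm, h⟩ := av_count g κ t hg
    refine ⟨m, hm, fun k F hk ht hF A _ r K D w H => ?_⟩
    have h1 := h N k F hk ht hF A r K D w H
    have h2 : {a : Fin g → Fin D → ℤ | a ∈ z12_box g D H ∧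
          rk F (A.rat (pt r (fun j => ((w j : K) : ℂ)) a)) ≤ 0} =
        {a : Fin g → Fin D → ℤ | (∀ i j, |a i j| ≤ (H : ℤ)) ∧
          A.rat (pt r (fun j => ((w j : K) : ℂ)) a) ⊆ F} := by
      ext a
      rw [Set.mem_ofPred_eq, Set.mem_ofPred_eq, z12_mem, Nat.le_zero, rk_zero F hF _ (rat_finite A _)]
    rw [h2, pow_zero, one_mul]
    refine h1.trans ?_
    exact Nat.le_mul_of_pos_left _ (pow_pos (by norm_num) _)
  | succ δ ih =>
    intro hg t
    obtain ⟨m, hm, h⟩ := ih (by omega) (t + 2 * (N + 1))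
    refine ⟨4 * m, by omega, fun k F hk ht hF A hA r K D w H => ?_⟩
    have hD : 1 ≤ D := by
      rcases Nat.eq_zero_or_pos D with h0 | h0
      · exfalso
        subst h0
        have h1 : Subsingleton K := w.repr.toEquiv.subsingleton
        exact not_subsingleton K h1
      · exact h0
    have hn : 1 ≤ g * D := Nat.mul_pos (by omega) hD
    obtain ⟨n, hnd⟩ : ∃ n, n = g * D := ⟨_, rfl⟩
    have hDn : D / m ≤ n := by
      refine (Nat.div_le_self _ _).trans ?_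
      rw [hnd]
      exact Nat.le_mul_of_pos_left _ (by omega)
    have mono : ∀ s : ℕ, t ≤ s → Algebra.trdeg ℚ F ≤ (s : Cardinal) := fun s hs =>
      ht.trans (by exact_mod_cast hs)
    -- the points of rank at most `δ`
    have hB := h k F hk (mono _ (by omega)) hF A hA r K D w H
    -- the points of rank `δ + 1`
    obtain ⟨v, hv⟩ : ∃ v : (Fin g → Fin D → ℤ) → Fin g → ℂ, v = pt r (fun j => ((w j : K) : ℂ)) := ⟨_, rfl⟩
    have hsub : ∀ a b c, v (a - (b - c)) = v a - (v b - v c) := by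
      intro a b c
      rw [hv]
      exact pt_sub _ _ a b c
    rw [← hv] at hB ⊢
    obtain ⟨S, hSd⟩ : ∃ S : Finset (Fin g → Fin D → ℤ), S = (z12_box g D H).filter fun a =>
        rk F (A.rat (v a)) = δ + 1 := ⟨_, rfl⟩
    have hSm : ∀ a, a ∈ S ↔ a ∈ z12_box g D H ∧ rk F (A.rat (v a)) = δ + 1 := by
      intro a
      rw [hSd, Finset.mem_filter]
    have hS : S ⊆ z12_box g D H := fun a ha => ((hSm a).1 ha).1
    -- the fields
    have hE0 := fun a => clo_rat A F t ht (v a)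
    choose E₀ f1 f2 f3 f4 using hE0
    have hE1 := fun a b => z12_clo2 A F t ht (v a) (v b)
    choose E₁ e1 e2 e3 e4 using hE1
    have hT := z12_triple (z12_box g D H) S hS
      ((S ×ˢ S ×ˢ S).filter fun x => x.1 - (x.2.1 - x.2.2) ∈ S) (Finset.filter_subset _ _)
      (fun a b => rk (E₀ a) (A.rat (v b)) ≤ δ) (fun a b c => rk (E₁ a b) (A.rat (v c)) ≤ δ)
      (2 ^ δ * 2 ^ (g * D) * (2 * H + 1) ^ (g * D - D / m)) (by
        intro x hx
        rw [Finset.mem_filter, Finset.mem_product, Finset.mem_product] at hx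
        obtain ⟨⟨x1, x2, x3⟩, x4⟩ := hx
        by_contra hcon
        rw [not_or] at hcon
        obtain ⟨c1, c2⟩ := hcon
        have r3 := ((hSm _).1 x4).2
        rw [hsub] at r3
        exact no_quad A hA F (E₀ x.1) (E₁ x.1 x.2.1) hk hF t ht (v x.1) (v x.2.1) (v x.2.2) (f4 _) (e4 _ _)
          (δ + 1) (by omega) hg ((hSm _).1 x1).2 ((hSm _).1 x2).2 ((hSm _).1 x3).2 r3 (by omega) (by omega))
      (by
        intro a _
        rw [hv]
        exact h k (E₀ a) (hk.trans (f1 a)) ((f3 a).trans (by exact_mod_cast (by omega))) (f2 a) A hA r K D w H)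
      (by
        intro a _ b _
        rw [hv]
        exact h k (E₁ a b) (hk.trans (e1 a b)) (e3 a b) (e2 a b) A hA r K D w H)
    have hx := z12_energy H S hS
    have hx2 := hx.trans (Nat.mul_le_mul_left _ hT)
    rw [z12_card, ← hnd] at hx2
    have hx3 := num n D m δ H S.card (hnd ▸ hn) hDn hx2
    rw [← hnd] at hB ⊢
    -- the sum
    have hsplit : {a : Fin g → Fin D → ℤ | a ∈ z12_box g D H ∧ rk F (A.rat (v a)) ≤ δ + 1} ⊆
        {a : Fin g → Fin D → ℤ | a ∈ z12_box g D H ∧ rk F (A.rat (v a)) ≤ δ} ∪ (S : Set _) := by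
      rintro a ⟨ha1, ha2⟩
      rcases Nat.lt_or_ge (rk F (A.rat (v a))) (δ + 1) with h5 | h5
      · exact Or.inl ⟨ha1, by omega⟩
      · right
        rw [Finset.mem_coe, hSm]
        exact ⟨ha1, by omega⟩
    have hfin : ({a : Fin g → Fin D → ℤ | a ∈ z12_box g D H ∧ rk F (A.rat (v a)) ≤ δ} ∪ (S : Set _)).Finite :=
      ((z12_box g D H).finite_toSet.subset fun a ha => ha.1).union S.finite_toSet
    have hmono : (2 * H + 1) ^ (n - D / m) ≤ (2 * H + 1) ^ (n - D / (4 * m)) := by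
      refine Nat.pow_le_pow_right (by omega) ?_
      have h6 : D / (4 * m) ≤ D / m := Nat.div_le_div_left (by omega) (by omega)
      omega
    calc Set.ncard {a : Fin g → Fin D → ℤ | a ∈ z12_box g D H ∧ rk F (A.rat (v a)) ≤ δ + 1}
        ≤ _ := Set.ncard_le_ncard hsplit hfin
      _ ≤ _ := Set.ncard_union_le _ _
      _ ≤ 2 ^ δ * 2 ^ n * (2 * H + 1) ^ (n - D / m) + 2 ^ δ * 2 ^ n * (2 * H + 1) ^ (n - D / (4 * m)) := by
          rw [Set.ncard_coe_finset]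
          exact Nat.add_le_add hB hx3
      _ ≤ 2 ^ δ * 2 ^ n * (2 * H + 1) ^ (n - D / (4 * m)) + 2 ^ δ * 2 ^ n * (2 * H + 1) ^ (n - D / (4 * m)) :=
          Nat.add_le_add_right (Nat.mul_le_mul_left _ hmono) _
      _ = 2 ^ (δ + 1) * 2 ^ n * (2 * H + 1) ^ (n - D / (4 * m)) := by ring

theorem simple_count (g N κ t : ℕ) : ∃ m : ℕ, 1 ≤ m ∧ ∀ k F : IntermediateField ℚ ℂ,
    k ≤ F → Algebra.trdeg ℚ F ≤ (t : Cardinal) → Clo F → ∀ A : AV g N κ k, A.Simple →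
      ∀ (r : Fin g → ℂ) (K : IntermediateField ℚ ℂ) (D : ℕ) (w : Basis (Fin D) ℚ K) (H : ℕ),
        Set.ncard {a : Fin g → Fin D → ℤ | (∀ i j, |a i j| ≤ (H : ℤ)) ∧
          rk F (A.rat (pt r (fun j => ((w j : K) : ℂ)) a)) < g} ≤
          4 ^ (g * D) * (2 * H + 1) ^ (g * D - D / m) := by
  rcases Nat.eq_zero_or_pos g with hg | hg
  · refine ⟨1, le_rfl, fun k F _ _ _ A _ r K D w H => ?_⟩
    have h1 : {a : Fin g → Fin D → ℤ | (∀ i j, |a i j| ≤ (H : ℤ)) ∧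
          rk F (A.rat (pt r (fun j => ((w j : K) : ℂ)) a)) < g} = ∅ := by
      rw [Set.eq_empty_iff_forall_notMem]
      rintro a ⟨_, ha⟩
      omega
    rw [h1, Set.ncard_empty]
    exact Nat.zero_le _
  · obtain ⟨m, hm, h⟩ := z12_claim g N κ (g - 1) (by omega) t
    refine ⟨m, hm, fun k F hk ht hF A hA r K D w H => ?_⟩
    have hD : 1 ≤ D := by
      rcases Nat.eq_zero_or_pos D with h0 | h0
      · exfalso
        subst h0
        have h1 : Subsingleton K := w.repr.toEquiv.subsingleton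
        exact not_subsingleton K h1
      · exact h0
    have h1 := h k F hk ht hF A hA r K D w H
    have h2 : {a : Fin g → Fin D → ℤ | (∀ i j, |a i j| ≤ (H : ℤ)) ∧
          rk F (A.rat (pt r (fun j => ((w j : K) : ℂ)) a)) < g} =
        {a : Fin g → Fin D → ℤ | a ∈ z12_box g D H ∧
          rk F (A.rat (pt r (fun j => ((w j : K) : ℂ)) a)) ≤ g - 1} := by
      ext a
      rw [Set.mem_ofPred_eq, Set.mem_ofPred_eq, z12_mem]
      constructor
      · rintro ⟨h3, h4⟩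
        exact ⟨h3, by omega⟩
      · rintro ⟨h3, h4⟩
        exact ⟨h3, by omega⟩
    rw [h2]
    refine h1.trans (Nat.mul_le_mul_right _ ?_)
    have h3 : g ≤ g * D := Nat.le_mul_of_pos_right _ hD
    calc 2 ^ (g - 1) * 2 ^ (g * D) ≤ 2 ^ (g * D) * 2 ^ (g * D) :=
          Nat.mul_le_mul_right _ (Nat.pow_le_pow_right (by norm_num) (by omega))
      _ = 4 ^ (g * D) := by rw [← mul_pow]; norm_num

end GAV
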