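import Pool.Agent.GAV.Z1b

set_option autoImplicit false

open LTD

namespace GAV

/-! ## [GAV-Z13] counting in products of blocks (file Z13.lean) -/

theorem z13_erase_zero (n : ℕ) (M : Fin (n + 1) → ℕ) :
    ∏ j ∈ (Finset.univ : Finset (Fin (n + 1))).erase 0, M j = ∏ i : Fin n, M i.succ := by
  have h : (Finset.univ : Finset (Fin (n + 1))).erase 0 =
      (Finset.univ : Finset (Fin n)).map ⟨Fin.succ, Fin.succ_injective _⟩ := by
    ext j
    simp only [Finset.mem_erase, Finset.mem_univ, and_true, Finset.mem_map, true_and,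
      Function.Embedding.coeFn_mk]
    constructor
    · intro hj
      exact ⟨j.pred hj, Fin.succ_pred j hj⟩
    · rintro ⟨i, rfl⟩
      exact Fin.succ_ne_zero i
  rw [h, Finset.prod_map]
  rfl

theorem z13_erase_succ (n : ℕ) (M : Fin (n + 1) → ℕ) (i : Fin n) :
    ∏ j ∈ (Finset.univ : Finset (Fin (n + 1))).erase i.succ, M j =
      M 0 * ∏ j ∈ (Finset.univ : Finset (Fin n)).erase i, M j.succ := by
  have h : (Finset.univ : Finset (Fin (n + 1))).erase i.succ =
      insert 0 (((Finset.univ : Finset (Fin n)).erase i).map ⟨Fin.succ, Fin.succ_injective _⟩) := by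
    ext j
    simp only [Finset.mem_erase, Finset.mem_univ, and_true, Finset.mem_map, Finset.mem_insert,
      Function.Embedding.coeFn_mk]
    constructor
    · intro hj
      by_cases h0 : j = 0
      · exact Or.inl h0
      · refine Or.inr ⟨j.pred h0, ?_, Fin.succ_pred j h0⟩
        intro h1
        apply hj
        rw [← h1, Fin.succ_pred]
    · rintro (rfl | ⟨a, ha, rfl⟩)
      · exact (Fin.succ_ne_zero i).symm
      · exact fun h1 => ha (Fin.succ_injective _ h1)
  rw [h, Finset.prod_insert, Finset.prod_map]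
  · rfl
  · simp

theorem z13_adjoin (F : IntermediateField ℚ ℂ) (n : ℕ) (u : Fin n → ℂ) (S : Set ℂ)
    (h1 : Set.range u ⊆ S) (h2 : ∀ z ∈ S, z ∈ IntermediateField.adjoin ℚ (Set.range u)) :
    IntermediateField.adjoin F (Set.range u) = IntermediateField.adjoin F S := by
  apply le_antisymm
  · exact IntermediateField.adjoin.mono F _ _ h1
  · rw [IntermediateField.adjoin_le_iff]
    intro z hz
    have h3 : IntermediateField.adjoin ℚ (Set.range u) ≤
        (IntermediateField.adjoin F (Set.range u)).restrictScalars ℚ := by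
      rw [IntermediateField.adjoin_le_iff]
      exact IntermediateField.subset_adjoin F _
    exact h3 (h2 z hz)

theorem count_blocks (k : IntermediateField ℚ ℂ) (T n : ℕ) (E : Fin n → Type) (X : (i : Fin n) → Set (E i))
    (hX : ∀ i, (X i).Finite) (R : (i : Fin n) → E i → Set ℂ) (g N B : Fin n → ℕ)
    (hN : ∀ i (x : E i), ∃ u : Fin (N i) → ℂ, Set.range u ⊆ R i x ∧
      ∀ z ∈ R i x, z ∈ IntermediateField.adjoin ℚ (Set.range u))
    (hRf : ∀ i (x : E i), (R i x).Finite)
    (hB : ∀ i, ∀ F : IntermediateField ℚ ℂ, k ≤ F → Algebra.trdeg ℚ F ≤ (T : Cardinal) → Clo F →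
      Set.ncard {x : E i | x ∈ X i ∧ rk F (R i x) < g i} ≤ B i)
    (t : ℕ) (F : IntermediateField ℚ ℂ) (hk : k ≤ F) (hF : Algebra.trdeg ℚ F ≤ (t : Cardinal))
    (hF' : Clo F) (hT : t + ∑ i, N i ≤ T) :
    Set.ncard {x : (i : Fin n) → E i | (∀ i, x i ∈ X i) ∧
      rk F (⋃ i, R i (x i)) < ∑ i, g i} ≤ ∑ i, B i * ∏ j ∈ Finset.univ.erase i, (X j).ncard := by
  classical
  induction n generalizing t F with
  | zero => simp
  | succ n ih =>
    have hN0 : t + N 0 + ∑ i : Fin n, N i.succ ≤ T := by
      rw [Fin.sum_univ_succ] at hT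
      omega
    have hbad := hB 0 F hk (hF.trans (by exact_mod_cast (by omega : t ≤ T))) hF'
    -- the extended fields
    have hext : ∀ x0 : E 0, ∃ F' : IntermediateField ℚ ℂ, F ≤ F' ∧ Clo F' ∧
        Algebra.trdeg ℚ F' ≤ ((t + N 0 : ℕ) : Cardinal) ∧
        ∀ z : ℂ, z ∈ F' ↔ IsAlgebraic (IntermediateField.adjoin F (R 0 x0)) z := by
      intro x0
      obtain ⟨u, hu1, hu2⟩ := hN 0 x0
      obtain ⟨F', h1, h2, h3, h4⟩ := clo_adjoin F t (N 0) hF u
      refine ⟨F', h1, h2, h3, ?_⟩
      rw [z13_adjoin F (N 0) u (R 0 x0) hu1 hu2] at h4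
      exact h4
    choose F' hFF' hclo htr hmem using hext
    have hih : ∀ x0 : E 0, Set.ncard {x : (i : Fin n) → E i.succ | (∀ i, x i ∈ X i.succ) ∧
        rk (F' x0) (⋃ i, R i.succ (x i)) < ∑ i : Fin n, g i.succ} ≤
          ∑ i : Fin n, B i.succ * ∏ j ∈ Finset.univ.erase i, (X j.succ).ncard := by
      intro x0
      exact ih (fun i => E i.succ) (fun i => X i.succ) (fun i => hX i.succ) (fun i => R i.succ)
        (fun i => g i.succ) (fun i => N i.succ) (fun i => B i.succ) (fun i => hN i.succ)
        (fun i => hRf i.succ) (fun i => hB i.succ) (t + N 0) (F' x0) (hk.trans (hFF' x0)) (htr x0)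
        (hclo x0) hN0
    -- finite sets
    have hpi : (Set.pi Set.univ fun i : Fin n => X i.succ).Finite :=
      Set.Finite.pi fun i => hX i.succ
    have hfin : ∀ x0 : E 0, {x : (i : Fin n) → E i.succ | (∀ i, x i ∈ X i.succ) ∧
        rk (F' x0) (⋃ i, R i.succ (x i)) < ∑ i : Fin n, g i.succ}.Finite := by
      intro x0
      exact hpi.subset fun x hx i _ => hx.1 i
    have hbf : {x : E 0 | x ∈ X 0 ∧ rk F (R 0 x) < g 0}.Finite :=
      (hX 0).subset fun x hx => hx.1
    let T1 : Finset (E 0 × ((i : Fin n) → E i.succ)) :=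
      hbf.toFinset ×ˢ Fintype.piFinset (fun i : Fin n => (hX i.succ).toFinset)
    let T2 : Finset (E 0 × ((i : Fin n) → E i.succ)) :=
      (hX 0).toFinset.biUnion fun x0 => (hfin x0).toFinset.image (Prod.mk x0)
    have hT1 : T1.card ≤ B 0 * ∏ i : Fin n, (X i.succ).ncard := by
      rw [Finset.card_product, Fintype.card_piFinset]
      have h1 : hbf.toFinset.card = Set.ncard {x : E 0 | x ∈ X 0 ∧ rk F (R 0 x) < g 0} :=
        (Set.ncard_eq_toFinset_card _ hbf).symm
      have h2 : ∀ i : Fin n, ((hX i.succ).toFinset).card = (X i.succ).ncard := fun i =>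
        (Set.ncard_eq_toFinset_card _ (hX i.succ)).symm
      rw [h1, Finset.prod_congr rfl fun i _ => h2 i]
      exact Nat.mul_le_mul_right _ hbad
    have hT2 : T2.card ≤ (X 0).ncard *
        ∑ i : Fin n, B i.succ * ∏ j ∈ Finset.univ.erase i, (X j.succ).ncard := by
      have h0 : (X 0).ncard = (hX 0).toFinset.card := Set.ncard_eq_toFinset_card _ (hX 0)
      rw [h0]
      apply Finset.card_biUnion_le_card_mul
      intro x0 _
      refine Finset.card_image_le.trans ?_
      rw [← Set.ncard_eq_toFinset_card _ (hfin x0)]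
      exact hih x0
    have hcount : Set.ncard {x : (i : Fin (n + 1)) → E i | (∀ i, x i ∈ X i) ∧
        rk F (⋃ i, R i (x i)) < ∑ i, g i} ≤ ((T1 ∪ T2 : Finset (E 0 × ((i : Fin n) → E i.succ))) :
          Set (E 0 × ((i : Fin n) → E i.succ))).ncard := by
      refine Set.ncard_le_ncard_of_injOn (fun x => (x 0, fun i : Fin n => x i.succ)) ?_ ?_
        (Finset.finite_toSet _)
      · rintro x ⟨hx, hlt⟩
        simp only [Finset.coe_union, Set.mem_union, Finset.mem_coe]
        by_cases hg : rk F (R 0 (x 0)) < g 0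
        · left
          simp only [T1, Finset.mem_product, Set.Finite.mem_toFinset, Set.mem_ofPred_eq,
            Fintype.mem_piFinset]
          exact ⟨⟨hx 0, hg⟩, fun i => hx i.succ⟩
        · right
          simp only [T2, Finset.mem_biUnion, Finset.mem_image, Set.Finite.mem_toFinset,
            Set.mem_ofPred_eq]
          refine ⟨x 0, hx 0, fun i => x i.succ, ⟨fun i => hx i.succ, ?_⟩, rfl⟩
          have hU : (⋃ i, R i (x i)) = R 0 (x 0) ∪ ⋃ i : Fin n, R i.succ (x i.succ) := by
            ext z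
            simp only [Set.mem_iUnion, Set.mem_union]
            constructor
            · rintro ⟨i, hi⟩
              rcases Fin.eq_zero_or_eq_succ i with rfl | ⟨j, rfl⟩
              · exact Or.inl hi
              · exact Or.inr ⟨j, hi⟩
            · rintro (h | ⟨j, h⟩)
              · exact ⟨0, h⟩
              · exact ⟨j.succ, h⟩
          have hadd := rk_add F (F' (x 0)) (hFF' (x 0)) (R 0 (x 0))
            (⋃ i : Fin n, R i.succ (x i.succ)) (hRf 0 (x 0))
            (Set.finite_iUnion fun i => hRf i.succ (x i.succ)) (hmem (x 0))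
          rw [hU, hadd, Fin.sum_univ_succ] at hlt
          change rk (F' (x 0)) (⋃ i : Fin n, R i.succ (x i.succ)) < ∑ i : Fin n, g i.succ
          omega
      · intro x _ y _ hxy
        have h1 := congrArg Prod.fst hxy
        have h2 := congrArg Prod.snd hxy
        funext i
        rcases Fin.eq_zero_or_eq_succ i with rfl | ⟨j, rfl⟩
        · exact h1
        · exact congrFun h2 j
    refine hcount.trans ?_
    rw [Set.ncard_coe_finset]
    refine (Finset.card_union_le _ _).trans ?_
    rw [Fin.sum_univ_succ, z13_erase_zero n (fun j => (X j).ncard)]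
    have h3 : ∑ i : Fin n, B i.succ * ∏ j ∈ Finset.univ.erase i.succ, (X j).ncard =
        (X 0).ncard * ∑ i : Fin n, B i.succ * ∏ j ∈ Finset.univ.erase i, (X j.succ).ncard := by
      rw [Finset.mul_sum]
      refine Finset.sum_congr rfl fun i _ => ?_
      rw [z13_erase_succ n (fun j => (X j).ncard) i]
      ring
    rw [h3]
    exact add_le_add hT1 hT2

end GAV
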