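import Pool.Agent.GAV.Z12
import Pool.Agent.GAV.Z13
import Pool.Agent.ELT.F6

set_option autoImplicit false

open LTD Module

namespace GAV

/-! ## [GAV-Z14] THEOREM E4 over closed fields (file Z14.lean)

`m₁ i` from `simple_count (g i) (N i) (κ i) (t + ∑ (N i + 1))`, `m₂` from `ELT.exp_count (t + ∑ (N i + 1) + s)`, `m` = the maximum of all (a larger `m` gives a weaker bound `(2H+1)^{.. - D/m}`: `Nat.div_le_div_left`, `Nat.pow_le_pow_right`).
Stage 1: `count_blocks` with `E i = Fin (g i) → Fin D → ℤ`, `X i` = the box, `M i = (2H+1)^{g_i D}`, `R i a = (A i).rat (pt (r i) w a)`, `N i + 1` in place of `N i` (`u_a = θ_a/θ_b`, `θ_b ≠ 0`), `B i = 4^{g_i D}(2H+1)^{g_i D - D/m}`: the number of bad `B.1` is `≤ ∑_i B_i ∏_{j≠i} M_j ≤ a 4^{ΣgD} (2H+1)^{(Σg) D - D/m}`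
(if `g_i = 0` the block is never bad; then take `B i = 0`, or note `4^{..}(2H+1)^{0 - ..}` with natural subtraction: treat the indices with `g_i = 0` by `B i = 0`; if `g_i ≥ 1` then `D/m ≤ g_i D`). Stage 2: for every good `B.1`: `F₁` = closure of `F(⋃ rat_i(v_i))` (`LTD.clo_adjoin` for the family of all generators `u`),
trdeg `≤ t + ∑ (N i + 1)`; `ELT.count_dep3` (as in `ELT/F6.lean`) with `n = s`, `f j k = c j v * exp(u_j)`: at most `s X^{s-1} (2H+1)^{D - D/m}` bad `B.2`; for the others the `s` numbers are algebraically independent over `F₁`, so `rk F (⋃ rat ∪ range) = rk F (⋃ rat) + rk F₁ (range) ≥ ∑ g_i + s` (`rk_add`, `le_rk`).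
Total `≤ a 4^{..}(2H+1)^{(Σg) D - D/m} (2H+1)^{sD} + (2H+1)^{(Σg) D} s (2H+1)^{sD - D/m}` (`ELT.f6_fiber` may help). -/

theorem z14_rat {g N κ : ℕ} {k : IntermediateField ℚ ℂ} (A : AV g N κ k) (z : Fin g → ℂ) :
    ∃ u : Fin (N + 1) → ℂ, Set.range u ⊆ A.rat z ∧
      ∀ x ∈ A.rat z, x ∈ IntermediateField.adjoin ℚ (Set.range u) := by
  have h1 : ∃ b, A.θ z b ≠ 0 := by
    by_contra hcon
    push Not at hcon
    exact A.ne z (funext hcon)
  obtain ⟨b, hb⟩ := h1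
  refine ⟨fun a => A.θ z a / A.θ z b, ?_, ?_⟩
  · rintro _ ⟨a, rfl⟩
    exact ⟨(a, b), rfl⟩
  · rintro _ ⟨⟨p, q⟩, rfl⟩
    have h2 : A.θ z p / A.θ z q = (A.θ z p / A.θ z b) / (A.θ z q / A.θ z b) := by
      rw [div_div_div_cancel_right₀ hb]
    change A.θ z p / A.θ z q ∈ _
    rw [h2]
    exact div_mem (IntermediateField.subset_adjoin ℚ _ ⟨p, rfl⟩)
      (IntermediateField.subset_adjoin ℚ _ ⟨q, rfl⟩)

theorem z14_box (g D H : ℕ) : ({x : Fin g → Fin D → ℤ | ∀ j l, |x j l| ≤ (H : ℤ)}).Finite ∧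
    ({x : Fin g → Fin D → ℤ | ∀ j l, |x j l| ≤ (H : ℤ)}).ncard = (2 * H + 1) ^ (g * D) := by
  obtain ⟨h1, h2⟩ := NFf_box D H
  obtain ⟨h3, h4⟩ := ELT.f6_pi _ h1 g
  refine ⟨h3, ?_⟩
  have h5 : ({x : Fin g → Fin D → ℤ | ∀ j l, |x j l| ≤ (H : ℤ)}).ncard =
      ((2 * H + 1) ^ D) ^ g := by
    rw [← h2]
    exact h4
  rw [h5, ← pow_mul, mul_comm D g]

theorem z14_pi {n : ℕ} {E : Fin n → Type} (X : (i : Fin n) → Set (E i)) (hX : ∀ i, (X i).Finite) :
    {x : (i : Fin n) → E i | ∀ i, x i ∈ X i}.Finite ∧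
      {x : (i : Fin n) → E i | ∀ i, x i ∈ X i}.ncard = ∏ i, (X i).ncard := by
  classical
  have h : {x : (i : Fin n) → E i | ∀ i, x i ∈ X i} =
      ((Fintype.piFinset fun i : Fin n => (hX i).toFinset : Finset ((i : Fin n) → E i)) :
        Set ((i : Fin n) → E i)) := by
    ext x
    simp
  constructor
  · rw [h]
    exact Finset.finite_toSet _
  · rw [h, Set.ncard_coe_finset, Fintype.card_piFinset]
    exact Finset.prod_congr rfl fun i _ => (Set.ncard_eq_toFinset_card _ (hX i)).symm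

/-- one block -/
theorem z14_num {a : ℕ} (g : Fin a → ℕ) (s D m H : ℕ) (i : Fin a) :
    (if g i = 0 then 0 else 4 ^ (g i * D) * (2 * H + 1) ^ (g i * D - D / m)) *
      (∏ j ∈ Finset.univ.erase i, (2 * H + 1) ^ (g j * D)) * (2 * H + 1) ^ (D * s) ≤
    4 ^ ((∑ i, g i) * D) * (2 * H + 1) ^ ((∑ i, g i + s) * D - D / m) := by
  classical
  by_cases hg : g i = 0
  · rw [if_pos hg]
    simp
  · rw [if_neg hg, Finset.prod_pow_eq_pow_sum]
    have h1 : D / m ≤ D := Nat.div_le_self D m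
    have h2 : D ≤ g i * D := Nat.le_mul_of_pos_left D (Nat.pos_of_ne_zero hg)
    have h3 : ∑ j, g j = g i + ∑ j ∈ Finset.univ.erase i, g j :=
      (Finset.add_sum_erase _ _ (Finset.mem_univ i)).symm
    have h4 : ∑ j ∈ Finset.univ.erase i, g j * D = (∑ j ∈ Finset.univ.erase i, g j) * D := by
      rw [Finset.sum_mul]
    rw [h4, h3]
    set e := ∑ j ∈ Finset.univ.erase i, g j with he
    have h5 : 4 ^ (g i * D) * (2 * H + 1) ^ (g i * D - D / m) * (2 * H + 1) ^ (e * D) *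
        (2 * H + 1) ^ (D * s) =
        4 ^ (g i * D) * (2 * H + 1) ^ ((g i + e + s) * D - D / m) := by
      rw [mul_assoc, mul_assoc, ← pow_add, ← pow_add]
      congr 2
      have h6 : (g i + e + s) * D = g i * D + (e * D + D * s) := by ring
      rw [h6]
      omega
    rw [h5]
    refine Nat.mul_le_mul_right _ (Nat.pow_le_pow_right (by norm_num) ?_)
    exact Nat.mul_le_mul_right D (Nat.le_add_right _ _)

theorem z14_tot {a : ℕ} (g : Fin a → ℕ) (s D m H : ℕ) :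
    (∑ i, (if g i = 0 then 0 else 4 ^ (g i * D) * (2 * H + 1) ^ (g i * D - D / m)) *
      ∏ j ∈ Finset.univ.erase i, (2 * H + 1) ^ (g j * D)) * (2 * H + 1) ^ (D * s) +
      (2 * H + 1) ^ ((∑ i, g i) * D) *
        (s * ((2 * H + 1) ^ D) ^ (s - 1) * (2 * H + 1) ^ (D - D / m)) ≤
    (a + s) * 4 ^ ((∑ i, g i) * D) * (2 * H + 1) ^ ((∑ i, g i + s) * D - D / m) := by
  have h1 : (∑ i, (if g i = 0 then 0 else 4 ^ (g i * D) * (2 * H + 1) ^ (g i * D - D / m)) *
      ∏ j ∈ Finset.univ.erase i, (2 * H + 1) ^ (g j * D)) * (2 * H + 1) ^ (D * s) ≤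
      a * (4 ^ ((∑ i, g i) * D) * (2 * H + 1) ^ ((∑ i, g i + s) * D - D / m)) := by
    rw [Finset.sum_mul]
    refine le_trans (Finset.sum_le_sum fun i _ => z14_num g s D m H i) ?_
    simp
  have h2 : (2 * H + 1) ^ ((∑ i, g i) * D) *
        (s * ((2 * H + 1) ^ D) ^ (s - 1) * (2 * H + 1) ^ (D - D / m)) ≤
      s * (4 ^ ((∑ i, g i) * D) * (2 * H + 1) ^ ((∑ i, g i + s) * D - D / m)) := by
    rcases s with _ | s
    · simp
    · rw [Nat.add_sub_cancel]
      have h3 : D / m ≤ D := Nat.div_le_self D m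
      have h4 : (2 * H + 1) ^ ((∑ i, g i) * D) *
          ((s + 1) * ((2 * H + 1) ^ D) ^ s * (2 * H + 1) ^ (D - D / m)) =
          (s + 1) * (2 * H + 1) ^ ((∑ i, g i + (s + 1)) * D - D / m) := by
        have h5 : (2 * H + 1) ^ ((∑ i, g i + (s + 1)) * D - D / m) =
            (2 * H + 1) ^ ((∑ i, g i) * D) * ((2 * H + 1) ^ D) ^ s *
              (2 * H + 1) ^ (D - D / m) := by
          rw [← pow_mul, ← pow_add, ← pow_add]
          congr 1
          have h6 : (∑ i, g i + (s + 1)) * D = (∑ i, g i) * D + D * s + D := by ring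
          rw [h6]
          omega
        rw [h5]
        ring
      rw [h4]
      refine Nat.mul_le_mul_left _ ?_
      exact Nat.le_mul_of_pos_left _ (by positivity)
  refine le_trans (Nat.add_le_add h1 h2) (le_of_eq ?_)
  ring

theorem e4_rk (a s t : ℕ) (g N κ : Fin a → ℕ) : ∃ m : ℕ, 1 ≤ m ∧ ∀ k F : IntermediateField ℚ ℂ,
    k ≤ F → Algebra.trdeg ℚ F ≤ (t : Cardinal) → Clo F →
    ∀ A : (i : Fin a) → AV (g i) (N i) (κ i) k, (∀ i, (A i).Simple) →
    ∀ (r : (i : Fin a) → Fin (g i) → ℂ) (z' r' : Fin s → ℂ), (∀ j, z' j ≠ 0) →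
    ∀ c : Fin s → ((i : Fin a) → Fin (g i) → ℂ) → ℂ, (∀ j v, c j v ≠ 0) →
    ∀ (K : IntermediateField ℚ ℂ) (D : ℕ) (w : Basis (Fin D) ℚ K) (H : ℕ),
      Set.ncard {B : ((i : Fin a) → Fin (g i) → Fin D → ℤ) × (Fin s → Fin D → ℤ) |
        (∀ i j l, |B.1 i j l| ≤ (H : ℤ)) ∧ (∀ j l, |B.2 j l| ≤ (H : ℤ)) ∧
        rk F ((⋃ i, (A i).rat (pt (r i) (fun l => ((w l : K) : ℂ)) (B.1 i))) ∪
          Set.range fun j => c j (fun i => pt (r i) (fun l => ((w l : K) : ℂ)) (B.1 i)) *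
            Complex.exp (r' j + z' j * ∑ l, ((B.2 j l : ℤ) : ℂ) * (w l : ℂ))) < ∑ i, g i + s} ≤
        (a + s) * 4 ^ ((∑ i, g i) * D) * (2 * H + 1) ^ ((∑ i, g i + s) * D - D / m) := by
  classical
  have h₁ := fun i => simple_count (g i) (N i) (κ i) (t + ∑ i, (N i + 1))
  choose m₁ hm₁ h₁ using h₁
  obtain ⟨m₂, hm₂, h₂⟩ := ELT.exp_count (t + ∑ i, (N i + 1) + s)
  obtain ⟨m, hm⟩ : ∃ m, m = m₂ + ∑ i, m₁ i := ⟨_, rfl⟩
  have hmm₂ : m₂ ≤ m := by omega
  have hmm₁ : ∀ i, m₁ i ≤ m := by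
    intro i
    have : m₁ i ≤ ∑ i, m₁ i := Finset.single_le_sum (fun _ _ => Nat.zero_le _) (Finset.mem_univ i)
    omega
  refine ⟨m, by omega, ?_⟩
  intro k F hk hF hCF A hA r z' r' hz' c hc K D w H
  obtain ⟨hXf, hXc⟩ := NFf_box D H
  obtain ⟨hXsf, hXsc⟩ := ELT.f6_pi _ hXf s
  set X : Set (Fin D → ℤ) := {a : Fin D → ℤ | ∀ j, |a j| ≤ (H : ℤ)} with hXdef
  let W : Fin D → ℂ := fun l => ((w l : K) : ℂ)
  let E : Fin a → Type := fun i => Fin (g i) → Fin D → ℤ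
  let Y : (i : Fin a) → Set (E i) := fun i => {x | ∀ j l, |x j l| ≤ (H : ℤ)}
  have hYf : ∀ i, (Y i).Finite := fun i => (z14_box (g i) D H).1
  have hYc : ∀ i, (Y i).ncard = (2 * H + 1) ^ (g i * D) := fun i => (z14_box (g i) D H).2
  obtain ⟨hPf, hPc⟩ := z14_pi Y hYf
  have hPc' : {x : (i : Fin a) → E i | ∀ i, x i ∈ Y i}.ncard = (2 * H + 1) ^ ((∑ i, g i) * D) := by
    rw [hPc, Finset.prod_congr rfl fun i _ => hYc i, Finset.prod_pow_eq_pow_sum, Finset.sum_mul]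
  let R : (i : Fin a) → E i → Set ℂ := fun i x => (A i).rat (pt (r i) W x)
  let Bd : Fin a → ℕ := fun i =>
    if g i = 0 then 0 else 4 ^ (g i * D) * (2 * H + 1) ^ (g i * D - D / m)
  have hN : ∀ i (x : E i), ∃ u : Fin (N i + 1) → ℂ, Set.range u ⊆ R i x ∧
      ∀ z ∈ R i x, z ∈ IntermediateField.adjoin ℚ (Set.range u) := fun i x => z14_rat (A i) _
  have hRf : ∀ i (x : E i), (R i x).Finite := fun i x => Set.finite_range _
  have hBd : ∀ i, ∀ F' : IntermediateField ℚ ℂ, k ≤ F' →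
      Algebra.trdeg ℚ F' ≤ ((t + ∑ i, (N i + 1) : ℕ) : Cardinal) → Clo F' →
      Set.ncard {x : E i | x ∈ Y i ∧ rk F' (R i x) < g i} ≤ Bd i := by
    intro i F' hk' hF' hC'
    by_cases hg : g i = 0
    · have h0 : {x : E i | x ∈ Y i ∧ rk F' (R i x) < g i} = ∅ := by
        ext x
        simp only [Set.mem_ofPred_eq, Set.mem_empty_iff_false, iff_false, not_and, not_lt]
        intro _
        omega
      rw [h0, Set.ncard_empty]
      exact Nat.zero_le _
    · change _ ≤ (if g i = 0 then 0 else 4 ^ (g i * D) * (2 * H + 1) ^ (g i * D - D / m))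
      rw [if_neg hg]
      refine le_trans (h₁ i k F' hk' hF' hC' (A i) (hA i) (r i) K D w H) ?_
      refine Nat.mul_le_mul_left _ (Nat.pow_le_pow_right (by omega) ?_)
      exact Nat.sub_le_sub_left (Nat.div_le_div_left (a := D) (hmm₁ i) (hm₁ i)) _
  have hst1 := count_blocks k (t + ∑ i, (N i + 1)) a E Y hYf R g (fun i => N i + 1) Bd hN hRf hBd
    t F hk hF hCF le_rfl
  -- the closures
  have hclo : ∀ x : (i : Fin a) → E i, ∃ F' : IntermediateField ℚ ℂ, F ≤ F' ∧ Clo F' ∧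
      Algebra.trdeg ℚ F' ≤ ((t + ∑ i, (N i + 1) : ℕ) : Cardinal) ∧
      ∀ z : ℂ, z ∈ F' ↔ IsAlgebraic (IntermediateField.adjoin F (⋃ i, R i (x i))) z := by
    intro x
    choose u hu1 hu2 using fun i => hN i (x i)
    obtain ⟨F', h3, h4, h5, h6⟩ := clo_adjoin F t (∑ i, (N i + 1)) hF
      (fun q => u (finSigmaFinEquiv.symm q).1 (finSigmaFinEquiv.symm q).2)
    have h7 : IntermediateField.adjoin F (Set.range fun q : Fin (∑ i, (N i + 1)) =>
        u (finSigmaFinEquiv.symm q).1 (finSigmaFinEquiv.symm q).2) =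
        IntermediateField.adjoin F (⋃ i, R i (x i)) := by
      apply le_antisymm
      · rw [IntermediateField.adjoin_le_iff]
        rintro _ ⟨q, rfl⟩
        refine IntermediateField.subset_adjoin F _ ?_
        rw [Set.mem_iUnion]
        exact ⟨_, hu1 _ ⟨_, rfl⟩⟩
      · rw [IntermediateField.adjoin_le_iff]
        intro z hz
        rw [Set.mem_iUnion] at hz
        obtain ⟨i, hz⟩ := hz
        have h8 := hu2 i z hz
        have h9 : IntermediateField.adjoin ℚ (Set.range (u i)) ≤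
            (IntermediateField.adjoin F (Set.range fun q : Fin (∑ i, (N i + 1)) =>
              u (finSigmaFinEquiv.symm q).1 (finSigmaFinEquiv.symm q).2)).restrictScalars ℚ := by
          rw [IntermediateField.adjoin_le_iff]
          rintro _ ⟨j, rfl⟩
          refine IntermediateField.subset_adjoin F _ ⟨finSigmaFinEquiv ⟨i, j⟩, ?_⟩
          exact congrArg (fun q : (Σ i : Fin a, Fin (N i + 1)) => u q.1 q.2)
            (Equiv.symm_apply_apply finSigmaFinEquiv ⟨i, j⟩)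
        exact h9 h8
    refine ⟨F', h3, h4, h5, fun z => ?_⟩
    rw [h6, h7]
  choose F' hle hClo htr hmem using hclo
  have hB2 : ∀ (v : (i : Fin a) → Fin (g i) → ℂ) (j : Fin s), ∀ F' : IntermediateField ℚ ℂ,
      Algebra.trdeg ℚ F' ≤ ((t + ∑ i, (N i + 1) + s : ℕ) : Cardinal) → Clo F' →
      Set.ncard {q : Fin D → ℤ | q ∈ X ∧ (False ∨
        c j v * Complex.exp (r' j + z' j * ∑ l, ((q l : ℤ) : ℂ) * (w l : ℂ)) ∈ F')} ≤
        (2 * H + 1) ^ (D - D / m) := by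
    intro v j F' hF' _
    have h3 := h₂ F' hF' (c j v) (z' j) (r' j) (hc j v) (hz' j) K D w H
    simp only [false_or]
    refine le_trans h3 ?_
    refine Nat.pow_le_pow_right (by omega) ?_
    exact Nat.sub_le_sub_left (Nat.div_le_div_left (a := D) hmm₂ hm₂) D
  have hst2 : ∀ x : (i : Fin a) → E i,
      Set.ncard {q : Fin s → Fin D → ℤ | (∀ j, q j ∈ X) ∧ ¬ ((∀ _ : Fin s, ¬ False) ∧
        AlgebraicIndependent (F' x) fun j => c j (fun i => pt (r i) W (x i)) *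
            Complex.exp (r' j + z' j * ∑ l, ((q j l : ℤ) : ℂ) * (w l : ℂ)))} ≤
        s * X.ncard ^ (s - 1) * (2 * H + 1) ^ (D - D / m) := by
    intro x
    exact ELT.count_dep3 X hXf (t + ∑ i, (N i + 1) + s) ((2 * H + 1) ^ (D - D / m)) s
      (fun j q => c j (fun i => pt (r i) W (x i)) *
            Complex.exp (r' j + z' j * ∑ l, ((q l : ℤ) : ℂ) * (w l : ℂ)))
      (fun _ _ => False) (hB2 _) (t + ∑ i, (N i + 1)) (F' x) (htr x) (by omega)
  set Bad1 : Set ((i : Fin a) → E i) := {x | (∀ i, x i ∈ Y i) ∧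
    rk F (⋃ i, R i (x i)) < ∑ i, g i} with hBad1
  have hBad1f : Bad1.Finite := hPf.subset fun x hx => hx.1
  set V : Set (((i : Fin a) → E i) × (Fin s → Fin D → ℤ)) :=
    {p | (∀ i, p.1 i ∈ Y i) ∧ (∀ j, p.2 j ∈ X) ∧ ¬ ((∀ _ : Fin s, ¬ False) ∧
        AlgebraicIndependent (F' p.1) fun j => c j (fun i => pt (r i) W (p.1 i)) *
            Complex.exp (r' j + z' j * ∑ l, ((p.2 j l : ℤ) : ℂ) * (w l : ℂ)))} with hVdef
  have hVf : V.Finite := (hPf.prod hXsf).subset fun p hp => ⟨hp.1, hp.2.1⟩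
  have hVc : V.ncard ≤ (2 * H + 1) ^ ((∑ i, g i) * D) *
      (s * X.ncard ^ (s - 1) * (2 * H + 1) ^ (D - D / m)) := by
    rw [← hPc']
    refine ELT.f6_fiber _ hPf V hVf (fun p hp => hp.1) _ ?_
    intro x hx
    refine le_trans (Set.ncard_le_ncard ?_ ?_) (hst2 x)
    · intro b hb
      exact hb.2
    · exact hXsf.subset fun q hq => hq.1
  have hsub : {B : ((i : Fin a) → Fin (g i) → Fin D → ℤ) × (Fin s → Fin D → ℤ) |
        (∀ i j l, |B.1 i j l| ≤ (H : ℤ)) ∧ (∀ j l, |B.2 j l| ≤ (H : ℤ)) ∧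
        rk F ((⋃ i, (A i).rat (pt (r i) (fun l => ((w l : K) : ℂ)) (B.1 i))) ∪
          Set.range fun j => c j (fun i => pt (r i) (fun l => ((w l : K) : ℂ)) (B.1 i)) *
            Complex.exp (r' j + z' j * ∑ l, ((B.2 j l : ℤ) : ℂ) * (w l : ℂ))) < ∑ i, g i + s} ⊆
      Bad1 ×ˢ {q : Fin s → Fin D → ℤ | ∀ j, q j ∈ X} ∪ V := by
    rintro B ⟨hB1, hB2, hB3⟩
    by_cases hg : rk F (⋃ i, R i (B.1 i)) < ∑ i, g i
    · left
      exact ⟨⟨hB1, hg⟩, hB2⟩
    · right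
      refine ⟨hB1, hB2, fun h => ?_⟩
      have hAI := h.2
      rw [rk_add F (F' B.1) (hle B.1) (⋃ i, R i (B.1 i)) _
        (Set.finite_iUnion fun i => hRf i (B.1 i)) (Set.finite_range _) (hmem B.1)] at hB3
      have h8 := le_rk (F' B.1) s _ (Set.range fun j =>
        c j (fun i => pt (r i) W (B.1 i)) *
            Complex.exp (r' j + z' j * ∑ l, ((B.2 j l : ℤ) : ℂ) * (w l : ℂ)))
        (Set.finite_range _) hAI (fun i => by
          have h5 := IntermediateField.subset_adjoin (F' B.1) (Set.range fun j =>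
            c j (fun i => pt (r i) W (B.1 i)) *
              Complex.exp (r' j + z' j * ∑ l, ((B.2 j l : ℤ) : ℂ) * (w l : ℂ))) ⟨i, rfl⟩
          exact isAlgebraic_algebraMap (⟨_, h5⟩ : IntermediateField.adjoin (F' B.1) (Set.range
            fun j => c j (fun i => pt (r i) W (B.1 i)) *
              Complex.exp (r' j + z' j * ∑ l, ((B.2 j l : ℤ) : ℂ) * (w l : ℂ)))))
      have h9 := Nat.add_le_add (not_lt.mp hg) h8
      exact absurd hB3 (not_lt.mpr h9)
  refine le_trans (Set.ncard_le_ncard hsub ((hBad1f.prod hXsf).union hVf)) ?_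
  refine le_trans (Set.ncard_union_le _ _) ?_
  have hPc2 : (Bad1 ×ˢ {q : Fin s → Fin D → ℤ | ∀ j, q j ∈ X}).ncard ≤
      (∑ i, Bd i * ∏ j ∈ Finset.univ.erase i, (2 * H + 1) ^ (g j * D)) *
        (2 * H + 1) ^ (D * s) := by
    rw [Set.ncard_prod, hXsc, hXc, ← pow_mul]
    refine Nat.mul_le_mul_right _ (le_trans hst1 (le_of_eq ?_))
    refine Finset.sum_congr rfl fun i _ => ?_
    rw [Finset.prod_congr rfl fun j _ => hYc j]
  refine le_trans (Nat.add_le_add hPc2 hVc) ?_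
  rw [hXc]
  exact z14_tot g s D m H

end GAV
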