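import Pool.Agent.GAV.Z14
import Pool.Agent.ELT.F7

set_option autoImplicit false

open LTD Module

namespace GAV

/-- The coordinates of the point `exp_G(v, u)`, for an extension `G` of `∏ A_i` by a torus: the quotients of the
projective coordinates of the points `exp_{A_i}(v_i)`, and the numbers `c_j(v) e^{u_j}`. -/
def expG {a s : ℕ} {g N κ : Fin a → ℕ} {k : IntermediateField ℚ ℂ}
    (A : (i : Fin a) → AV (g i) (N i) (κ i) k) (c : Fin s → ((i : Fin a) → Fin (g i) → ℂ) → ℂ)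
    (v : (i : Fin a) → Fin (g i) → ℂ) (u : Fin s → ℂ) : Set ℂ :=
  (⋃ i, (A i).rat (v i)) ∪ Set.range fun j => c j v * Complex.exp (u j)

/-! ## THEOREM E4 (file Z16.lean), as `Z15.lean` but with the coordinates of `exp_G(v, u)` only. -/

theorem e4s (a s t l : ℕ) (g N κ : Fin a → ℕ) : ∃ m : ℕ, 1 ≤ m ∧
    ∀ k F : IntermediateField ℚ ℂ, k ≤ F → Algebra.trdeg ℚ F ≤ (t : Cardinal) → ∀ R : Fin l → ℂ,
    ∀ A : (i : Fin a) → AV (g i) (N i) (κ i) k, (∀ i, (A i).Simple) →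
    ∀ (r : (i : Fin a) → Fin (g i) → ℂ) (z' r' : Fin s → ℂ), (∀ j, z' j ≠ 0) →
    ∀ c : Fin s → ((i : Fin a) → Fin (g i) → ℂ) → ℂ, (∀ j v, c j v ≠ 0) →
    ∀ (K : IntermediateField ℚ ℂ) (D : ℕ) (w : Basis (Fin D) ℚ K) (H : ℕ),
      Set.ncard {B : ((i : Fin a) → Fin (g i) → Fin D → ℤ) × (Fin s → Fin D → ℤ) |
        (∀ i j l, |B.1 i j l| ≤ (H : ℤ)) ∧ (∀ j l, |B.2 j l| ≤ (H : ℤ)) ∧
        ¬ Algebra.trdeg F (IntermediateField.adjoin F (Set.range R)) +
          ((∑ i, g i + s : ℕ) : Cardinal) ≤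
          Algebra.trdeg F (IntermediateField.adjoin F (Set.range R ∪ expG A c
            (fun i => pt (r i) (fun l => ((w l : K) : ℂ)) (B.1 i))
            (fun j => r' j + z' j * ∑ l, ((B.2 j l : ℤ) : ℂ) * (w l : ℂ))))} ≤
        (a + s) * 4 ^ ((∑ i, g i) * D) * (2 * H + 1) ^ ((∑ i, g i + s) * D - D / m) := by
  obtain ⟨m, hm, h⟩ := e4_rk a s (t + l) g N κ
  refine ⟨m, hm, fun k F hkF hF R A hs r z' r' hz' c hc K D w H => ?_⟩
  obtain ⟨F₁, hle, hclo, htr, hmem⟩ := clo_adjoin F t l hF R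
  refine le_trans (Set.ncard_le_ncard ?_ ?_)
    (h k F₁ (hkF.trans hle) htr hclo A hs r z' r' hz' c hc K D w H)
  · rintro B ⟨h1, h2, h3⟩
    refine ⟨h1, h2, ?_⟩
    by_contra h4
    rw [not_lt] at h4
    apply h3
    set T : Set ℂ := (⋃ i, (A i).rat (pt (r i) (fun l => ((w l : K) : ℂ)) (B.1 i))) ∪
          Set.range fun j => c j (fun i => pt (r i) (fun l => ((w l : K) : ℂ)) (B.1 i)) *
            Complex.exp (r' j + z' j * ∑ l, ((B.2 j l : ℤ) : ℂ) * (w l : ℂ)) with hT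
    have hTfin : T.Finite := by
      apply Set.Finite.union
      · exact Set.finite_iUnion fun i => Set.finite_range _
      · exact Set.finite_range _
    obtain ⟨y, hyT, hy, -⟩ := rk_basis F₁ T hTfin
    have h5 := ELT.f7_trdeg F F₁ hle (Set.range R) ?_ (fun i => y (Fin.castLE h4 i))
      (hy.comp _ (Fin.castLE_injective h4)) (expG A c
            (fun i => pt (r i) (fun l => ((w l : K) : ℂ)) (B.1 i))
            (fun j => r' j + z' j * ∑ l, ((B.2 j l : ℤ) : ℂ) * (w l : ℂ))) ?_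
    · rw [Fintype.card_fin] at h5
      exact h5
    · rintro _ ⟨i, rfl⟩
      rw [hmem]
      exact isAlgebraic_algebraMap (R := IntermediateField.adjoin F (Set.range R))
        (⟨R i, IntermediateField.subset_adjoin F _ ⟨i, rfl⟩⟩)
    · intro i
      rcases hyT (Fin.castLE h4 i) with h6 | h6
      · exact Or.inl h6
      · exact Or.inr h6
  · refine Set.Finite.subset (s := {B : ((i : Fin a) → Fin (g i) → Fin D → ℤ) ×
        (Fin s → Fin D → ℤ) |
        (∀ i j l, |B.1 i j l| ≤ (H : ℤ)) ∧ (∀ j l, |B.2 j l| ≤ (H : ℤ))}) ?_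
      fun B hB => ⟨hB.1, hB.2.1⟩
    have h2 : {b : ℤ | |b| ≤ (H : ℤ)}.Finite := by
      refine (Set.finite_Icc (-(H : ℤ)) H).subset fun b hb => ?_
      exact abs_le.1 hb
    have h1 : ∀ n : ℕ, {A : Fin n → Fin D → ℤ | ∀ i k, |A i k| ≤ (H : ℤ)}.Finite := by
      intro n
      have h3 := Set.Finite.pi' (fun _ : Fin n => Set.Finite.pi' (fun _ : Fin D => h2))
      exact h3
    have h4 : {A : (i : Fin a) → Fin (g i) → Fin D → ℤ | ∀ i j l, |A i j l| ≤ (H : ℤ)}.Finite := by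
      have h3 := Set.Finite.pi' (fun i : Fin a => h1 (g i))
      exact h3
    exact (h4.prod (h1 s)).subset fun A hA => ⟨hA.1, hA.2⟩

end GAV
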